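import Pool.Agent.Lib.MP_172a45_an.L.LcBig0

set_option autoImplicit false

/-!
# Part L-c, large `Γ`
-/

namespace Pool.Agent.Lib.MP_172a45_an.L

open Finset Real
open Pool.Agent.Lib.MP_172a45_an.F
open Pool.Agent.Lib.MP_172a45_an.F.Fr

/-- the product without its largest factor -/
theorem exists_P1 {M : ℕ} {a : ℝ} {ζ : Fin (M + 1) → ℂ} (hM : 0 < M) {τ : ℝ}
    (hτe : τ = 0 ∨ ∃ k : Fin M, ‖vt a ζ k‖ = 1 + τ) :
    ∃ P1 : ℝ → ℝ, Continuous P1 ∧ (∀ s, 0 ≤ s → s ≤ 1 → 0 ≤ P1 s) ∧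
      (∀ s, ∏ k : Fin M, TT ‖vt a ζ k‖ s = (1 + s * τ) * P1 s) ∧
      (∀ s s' : ℝ, 0 ≤ s → s ≤ s' → s' < 1 →
        P1 s' * Real.exp ((M * (1 - kap a ζ) + τ) * s') ≤
          P1 s * Real.exp ((M * (1 - kap a ζ) + τ) * s)) := by
  rcases hτe with h | ⟨k0, h⟩
  · subst h
    refine ⟨fun s => ∏ k : Fin M, TT ‖vt a ζ k‖ s, continuous_finsetProd _ fun _ _ => TT_cont _,
      fun s h0 h1 => Finset.prod_nonneg fun k _ => TT_nonneg (norm_nonneg _) h0 h1,
      fun s => by ring, fun s s' h0 h1 h2 => ?_⟩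
    have h3 := W_prod (univ : Finset (Fin M)) (fun k : Fin M => ‖vt a ζ k‖)
      (fun _ _ => norm_nonneg _) (m := M * (1 - kap a ζ)) (Δ := 0) (msum_eq hM)
      (Finset.sum_nonneg fun k _ => gg1_nonneg (lt_of_lt_of_le (by norm_num) (le_max_right _ _)))
      (s := s) (s' := s') ⟨h0, lt_of_le_of_lt h1 h2⟩ ⟨h0.trans h1, h2⟩ h1
    simpa using h3
  · refine ⟨fun s => ∏ k ∈ univ.erase k0, TT ‖vt a ζ k‖ s,
      continuous_finsetProd _ fun _ _ => TT_cont _,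
      fun s h0 h1 => Finset.prod_nonneg fun k _ => TT_nonneg (norm_nonneg _) h0 h1,
      fun s => ?_, fun s s' h0 h1 h2 => ?_⟩
    · rw [← Finset.mul_prod_erase univ _ (Finset.mem_univ k0)]
      have h3 : TT ‖vt a ζ k0‖ s = 1 + s * τ := by
        rw [h]; unfold TT; ring
      rw [h3]
    · have h4 : M * (1 - kap a ζ) + τ = ∑ k ∈ univ.erase k0, (1 - ‖vt a ζ k‖) := by
        have := Finset.add_sum_erase univ (fun k : Fin M => 1 - ‖vt a ζ k‖) (Finset.mem_univ k0)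
        rw [← msum_eq hM, h] at this
        linarith
      have h3 := W_prod (univ.erase k0) (fun k : Fin M => ‖vt a ζ k‖)
        (fun _ _ => norm_nonneg _) (m := M * (1 - kap a ζ) + τ) (Δ := 0) h4
        (Finset.sum_nonneg fun k _ => gg1_nonneg (lt_of_lt_of_le (by norm_num) (le_max_right _ _)))
        (s := s) (s' := s') ⟨h0, lt_of_le_of_lt h1 h2⟩ ⟨h0.trans h1, h2⟩ h1
      simpa using h3

/-- a threshold value -/
theorem exists_threshold {w l : ℝ → ℝ} {se g : ℝ} (hse : 0 ≤ se)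
    (hw : ∀ s s' : ℝ, 0 ≤ s → s ≤ s' → s' ≤ se → w s' ≤ w s)
    (hl : ∀ s s' : ℝ, 0 ≤ s → s ≤ s' → s' ≤ se → l s ≤ l s') (h0 : l 0 ≤ g) :
    ∃ W : ℝ, w se ≤ W ∧ ∀ s, 0 ≤ s → s ≤ se → W * (g - l s) ≤ w s * (g - l s) := by
  set S : Set ℝ := w '' {s | 0 ≤ s ∧ s ≤ se ∧ l s ≤ g} with hS
  have hne : S.Nonempty := ⟨w 0, 0, ⟨le_rfl, hse, h0⟩, rfl⟩
  have hb : ∀ y ∈ S, w se ≤ y := by
    rintro y ⟨s, ⟨h1, h2, h3⟩, rfl⟩
    exact hw s se h1 h2 le_rfl
  refine ⟨sInf S, le_csInf hne hb, fun s hs0 hs1 => ?_⟩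
  rcases le_or_gt (l s) g with h | h
  · refine mul_le_mul_of_nonneg_right ?_ (by linarith)
    exact csInf_le ⟨w se, hb⟩ ⟨s, ⟨hs0, hs1, h⟩, rfl⟩
  · refine mul_le_mul_of_nonpos_right ?_ (by linarith)
    refine le_csInf hne ?_
    rintro y ⟨s', ⟨h1, h2, h3⟩, rfl⟩
    have h4 : s' ≤ s := by
      by_contra hcon
      push Not at hcon
      have := hl s s' hs0 hcon.le h2
      linarith
    exact hw s' s h1 h4 hs1

/-- `210 t² e^{1-t} < 1` for `t ≥ 100/7` -/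
theorem end_le {t : ℝ} (ht : 100 / 7 ≤ t) : 210 * t ^ 2 * Real.exp (1 - t) < 1 := by
  have h1 : t / 14 ≤ Real.exp (t / 14 - 1) := by
    have := Real.add_one_le_exp (t / 14 - 1)
    linarith
  have h2 : (t / 14) ^ 2 ≤ Real.exp (t / 14 - 1) ^ 2 := pow_le_pow_left₀ (by positivity) h1 2
  rw [← Real.exp_nat_mul] at h2
  have h3 : Real.exp ((2:ℕ) * (t / 14 - 1)) ≤ Real.exp (t - 14) := by
    rw [Real.exp_le_exp]
    push_cast
    linarith
  have h4 : t ^ 2 ≤ 196 * Real.exp (t - 14) := by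
    have e : (t / 14) ^ 2 = t ^ 2 / 196 := by ring
    rw [e] at h2
    linarith
  have h5 : Real.exp (t - 14) * Real.exp (1 - t) = (Real.exp 13)⁻¹ := by
    rw [← Real.exp_add, ← Real.exp_neg]
    congr 1
    ring
  have h6 : (50000 : ℝ) ≤ Real.exp 13 := by
    have h7 : Real.exp 13 = Real.exp 1 ^ 13 := by
      rw [← Real.exp_nat_mul]
      congr 1
      norm_num
    rw [h7]
    calc (50000 : ℝ) ≤ (2.7182818283 : ℝ) ^ 13 := by norm_num
      _ ≤ _ := pow_le_pow_left₀ (by norm_num) Real.exp_one_gt_d9.le _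
  have h8 : (Real.exp 13)⁻¹ ≤ 50000⁻¹ := inv_anti₀ (by norm_num) h6
  calc 210 * t ^ 2 * Real.exp (1 - t) ≤ 210 * (196 * Real.exp (t - 14)) * Real.exp (1 - t) :=
        mul_le_mul_of_nonneg_right (by linarith) (Real.exp_pos _).le
    _ = 210 * 196 * (Real.exp 13)⁻¹ := by rw [← h5]; ring
    _ ≤ 210 * 196 * 50000⁻¹ := mul_le_mul_of_nonneg_left h8 (by norm_num)
    _ < 1 := by norm_num

/-- **Part L-c, large `Γ`.** -/
theorem LcBig {M : ℕ} {a : ℝ} {ζ z : Fin (M + 1) → ℂ} (h : Fr (M + 1) a ζ z) (hM : 99 ≤ M)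
    (hmax : ∀ k, ‖u a ζ k‖ ≤ ‖u a ζ 0‖) (ht : ((M : ℝ) + 1) / 7 ≤ ‖u a ζ 0‖) {c0 : ℝ}
    (hc1 : 1 ≤ c0) (hroot : (c0 - 1) * (c0 - kap a ζ) = pr a ζ)
    (hΓ : 567 / 250 ≤ Gam a ζ c0) : False := by
  have hMn : 0 < M := by omega
  have hM1 : (99 : ℝ) ≤ M := by exact_mod_cast hM
  have hM0 : (0 : ℝ) < M := by linarith
  have ha0 := h.a0
  have ha1 := h.a1
  have hd0 := DS_nonneg h
  have hmeq := m_eq h hMn
  have hκ0 := kap_pos h hMn hmax
  have hκ1 := H69.kap_le_one h hMn hmax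
  have hp0 := pr_nonneg a ζ
  set t := ‖u a ζ 0‖ with ht'
  set κ := kap a ζ with hκ
  set m := (M : ℝ) * (1 - κ) with hm
  have htt : 100 / 7 ≤ t := by linarith
  have hm1 : 93 / 7 ≤ m := by linarith
  -- `κ ≤ 433/500`
  have hκ2 : κ ≤ 433 / 500 := by
    have h1 := kap_le h hMn
    rw [← ht', ← hκ, ← sub_div, le_div_iff₀ hM0] at h1
    have h2 : κ * M ≤ 433 / 500 * M := by nlinarith
    exact le_of_mul_le_mul_right h2 hM0
  obtain ⟨τ, hτ0, hτ, hτe⟩ := exists_tau hMn a ζ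
  have hτm : τ ≤ m := by
    have hτt : τ ≤ t - 1 := by
      rcases hτe with h1 | ⟨k, hk⟩
      · rw [h1]; linarith
      · have := vt_le h hmax k
        rw [hk] at this
        linarith
    linarith
  set X := c0 - 1 with hX
  have hX0 : 0 ≤ X := by linarith
  have hΓe : Gam a ζ c0 = m + (1 - κ) - X := by
    unfold Gam
    rw [← hκ, hm, hX]
    ring
  have hXm : X + 1 ≤ m := by
    rw [hΓe] at hΓ
    linarith
  -- the phase step
  have hse : (0:ℝ) < 4 / 5 := by norm_num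
  set q : ℝ → ℝ := fun s => TT c0 s * ∏ k : Fin M, TT ‖vt a ζ k‖ s with hq
  have hqc : Continuous q := q_cont c0 a ζ
  have hBc : ContinuousOn (fun s => Bf κ τ s) (Set.Icc 0 (4 / 5)) := Big.Bf_cont hκ0 (by norm_num)
  have key := H69.frame_phase2 h hMn hmax hc1 hroot hτ0 hτ hse (by norm_num) (by norm_num)
    (fun s => Bf κ τ s) (by
      refine ContinuousOn.intervalIntegrable ?_
      rw [Set.uIcc_of_le hse.le]
      exact hqc.continuousOn.mul hBc) (fun s hs => by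
      left
      have hB := Bf_pos hκ0 hτ0 hs.1.le (by linarith [hs.2] : s < 1)
      refine ⟨Bf κ τ s, hB, le_rfl, ?_⟩
      have h3 := TTc_pos hc1 hs.1.le
      have h4 : 0 ≤ s * pr a ζ / TT c0 s :=
        div_nonneg (mul_nonneg hs.1.le hp0) (by linarith)
      have h5 : max (2 * Bf κ τ s - s * pr a ζ / TT c0 s) 0 ≤ 2 * Bf κ τ s :=
        max_le (by linarith) (by linarith)
      calc (max (2 * Bf κ τ s - s * pr a ζ / TT c0 s) 0) ^ 2 ≤ (2 * Bf κ τ s) ^ 2 :=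
            pow_le_pow_left₀ (le_max_right _ _) h5 2
        _ = 4 * Bf κ τ s * Bf κ τ s := by ring)
  have key2 : Gam a ζ c0 * (∫ s in (0:ℝ)..1, q s) - (∫ s in (0:ℝ)..(4/5), q s * Bf κ τ s) -
      40 / 11 * ((1 + τ) * c0) * ∏ k : Fin M, TT ‖vt a ζ k‖ (4 / 5) ≤
      a * ∏ k, ‖u a ζ k‖ := by
    refine le_trans (le_of_eq ?_) key
    have e : (2 * (4 / 5) / ((4 / 5) ^ 2 + 4 / 5 - 1) : ℝ) = 40 / 11 := by norm_num
    rw [e]
    rfl
  -- the chain
  obtain ⟨P1, hP1c, hP10, hPP, hP1a⟩ := exists_P1 (M := M) (a := a) (ζ := ζ) hMn hτe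
  rw [← hκ, ← hm] at hP1a
  set w : ℝ → ℝ := fun s => P1 s * Real.exp ((m + τ) * s) with hw
  obtain ⟨W, hW1, hW2⟩ := exists_threshold (w := w) (l := fun s => Bf κ τ s) (se := 4 / 5)
    (g := 1109 / 500) hse.le
    (fun s s' h0 h1 h2 => hP1a s s' h0 h1 (by linarith))
    (fun s s' h0 h1 h2 => Bf_mono hκ0 hκ1 hτ0 h0 h1 (by linarith))
    (by
      show Bf κ τ 0 ≤ 1109 / 500
      unfold Bf TT
      simp
      linarith)
  have hW0 : 0 ≤ W := le_trans (mul_nonneg (hP10 _ (by norm_num) (by norm_num))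
    (Real.exp_pos _).le) hW1
  have hqs : ∀ s, q s = (1 + s * X) * (1 + s * τ) * P1 s := fun s => by
    simp only [hq]
    rw [hPP s]
    have : TT c0 s = 1 + s * X := by rw [hX]; unfold TT; ring
    rw [this]
    ring
  have hPw : ∀ s, P1 s = Real.exp (-((m + τ) * s)) * w s := fun s => by
    simp only [hw]
    rw [mul_comm, mul_assoc, ← Real.exp_add]
    simp
  have hJ := Big.J_nonneg hm1 hτ0 hτm hX0 hXm hκ0 hκ2
  have hint : W * (∫ s in (0:ℝ)..(4 / 5), Real.exp (-((m + τ) * s)) *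
      ((1 + s * X) * (1 + s * τ)) * (1109 / 500 - Bf κ τ s)) ≤
      ∫ s in (0:ℝ)..(4/5), q s * (1109 / 500 - Bf κ τ s) := by
    rw [← intervalIntegral.integral_const_mul]
    refine intervalIntegral.integral_mono_on hse.le ?_ ?_ ?_
    · refine ContinuousOn.intervalIntegrable ?_
      rw [Set.uIcc_of_le hse.le]
      exact continuousOn_const.mul (ContinuousOn.mul (Continuous.continuousOn (by fun_prop))
        (continuousOn_const.sub hBc))
    · refine ContinuousOn.intervalIntegrable ?_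
      rw [Set.uIcc_of_le hse.le]
      exact hqc.continuousOn.mul (continuousOn_const.sub hBc)
    · intro s hs
      have hs0 := hs.1
      have h1 := hW2 s hs.1 hs.2
      have h2 : 0 ≤ Real.exp (-((m + τ) * s)) * ((1 + s * X) * (1 + s * τ)) := by positivity
      have h3 := mul_le_mul_of_nonneg_left h1 h2
      rw [hqs s, hPw s]
      linarith
  have hlate : 40 / 11 * ((1 + τ) * c0) * ∏ k : Fin M, TT ‖vt a ζ k‖ (4 / 5) ≤
      W * (40 / 11 * ((1 + τ) * (1 + X)) *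
        ((1 + 4 / 5 * τ) * Real.exp (-((m + τ) * (4 / 5))))) := by
    rw [hPP, hPw]
    have e : c0 = 1 + X := by rw [hX]; ring
    have h1 : 0 ≤ 40 / 11 * ((1 + τ) * (1 + X)) *
        ((1 + 4 / 5 * τ) * Real.exp (-((m + τ) * (4 / 5)))) := by positivity
    have h2 := mul_le_mul_of_nonneg_right hW1 h1
    rw [e]
    linarith
  have hJ2 := mul_nonneg hW0 hJ
  -- split `∫ q`
  have hqi : ∀ x y : ℝ, IntervalIntegrable q MeasureTheory.volume x y := fun x y =>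
    hqc.intervalIntegrable _ _
  have hq0 : ∀ s, 0 ≤ s → s ≤ 1 → 0 ≤ q s := fun s h0 h1 => by
    rw [hqs s]
    have := hP10 s h0 h1
    positivity
  have hI1 : ∫ s in (0:ℝ)..(4/5), q s ≤ ∫ s in (0:ℝ)..1, q s := by
    rw [← intervalIntegral.integral_add_adjacent_intervals (hqi 0 (4 / 5)) (hqi (4 / 5) 1)]
    have : 0 ≤ ∫ s in (4/5:ℝ)..1, q s :=
      intervalIntegral.integral_nonneg (by norm_num) fun s hs => hq0 s (by linarith [hs.1]) hs.2
    linarith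
  have hI0 : 0 ≤ ∫ s in (0:ℝ)..1, q s :=
    intervalIntegral.integral_nonneg zero_le_one fun s hs => hq0 s hs.1 hs.2
  have hsub : ∫ s in (0:ℝ)..(4/5), q s * (1109 / 500 - Bf κ τ s) =
      1109 / 500 * (∫ s in (0:ℝ)..(4/5), q s) - ∫ s in (0:ℝ)..(4/5), q s * Bf κ τ s := by
    rw [← intervalIntegral.integral_const_mul, ← intervalIntegral.integral_sub
      ((hqi _ _).const_mul _)]
    · refine intervalIntegral.integral_congr fun s _ => ?_
      ring
    · refine ContinuousOn.intervalIntegrable ?_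
      rw [Set.uIcc_of_le hse.le]
      exact hqc.continuousOn.mul hBc
  have heta : 1 / 20 * (∫ s in (0:ℝ)..1, q s) ≤ a * ∏ k, ‖u a ζ k‖ := by
    have h1 : (1109 / 500 + 1 / 20) * (∫ s in (0:ℝ)..1, q s) ≤
        Gam a ζ c0 * (∫ s in (0:ℝ)..1, q s) :=
      mul_le_mul_of_nonneg_right (by linarith) hI0
    linarith
  -- the end
  have hD : DD a ζ ≤ 3 / 2 * M := by
    have h1 : M * (a / (1 + a)) ≤ M * (1 / 2 : ℝ) := by
      refine mul_le_mul_of_nonneg_left ?_ hM0.le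
      rw [div_le_div_iff₀ (by linarith) (by norm_num)]
      linarith
    have h2 : DS a ζ ≤ M := by
      have : m ≤ M := by
        rw [hm]
        nlinarith
      linarith
    unfold DD
    linarith
  have hW := WW_nonneg h hMn
  have hDn := DD_nonneg h
  have h1 := int_q_ge h hMn hc1
  have h2 : 1 / (DD a ζ + 1) ≤ I0 (c0 - 1) (WW a ζ) (DD a ζ) := by
    unfold I0
    have : 0 ≤ (c0 - 1 + WW a ζ) / ((DD a ζ + 1) * (DD a ζ + 2)) +
      2 * ((c0 - 1) * WW a ζ) / ((DD a ζ + 1) * (DD a ζ + 2) * (DD a ζ + 3)) := by positivity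
    linarith
  have h3 : 1 / (21 / 2 * t) ≤ 1 / (DD a ζ + 1) :=
    one_div_le_one_div_of_le (by linarith) (by linarith)
  have h4 := prod_u_le h
  rw [← ht'] at h4
  have hpn : 0 ≤ ∏ k, ‖u a ζ k‖ := Finset.prod_nonneg fun _ _ => norm_nonneg _
  have h5 : a * ∏ k, ‖u a ζ k‖ ≤ t * Real.exp (1 - t) := by
    calc a * ∏ k, ‖u a ζ k‖ ≤ 1 * ∏ k, ‖u a ζ k‖ := mul_le_mul_of_nonneg_right ha1.le hpn
      _ ≤ _ := by rw [one_mul]; exact h4
  have h6 := end_le htt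
  have ht0 : 0 < t := by linarith
  have h7 : 1 / 20 * (1 / (21 / 2 * t)) ≤ t * Real.exp (1 - t) := by
    have : (∫ s in (0:ℝ)..1, q s) = ∫ s in (0:ℝ)..1, TT c0 s * ∏ k : Fin M, TT ‖vt a ζ k‖ s := rfl
    rw [this] at heta
    linarith
  have h8 := mul_le_mul_of_nonneg_left h7 (by positivity : 0 ≤ 210 * t)
  have e8 : 210 * t * (1 / 20 * (1 / (21 / 2 * t))) = 1 := by
    field_simp
    norm_num
  rw [e8] at h8
  have e9 : 210 * t * (t * Real.exp (1 - t)) = 210 * t ^ 2 * Real.exp (1 - t) := by ring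
  linarith

end Pool.Agent.Lib.MP_172a45_an.L
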