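import Pool.Agent.Lib.MP_172a45_an.L.LcMain
import Pool.Agent.Lib.MP_172a45_an.L.LcBig

set_option autoImplicit false

/-!
# Part L-c, complete: `N ≥ 100`, `t₀ ≥ N/7`
-/

namespace Pool.Agent.Lib.MP_172a45_an.L

open Pool.Agent.Lib.MP_172a45_an.F
open Pool.Agent.Lib.MP_172a45_an.F.Fr

/-- **Part L-c** -/
theorem Lc {M : ℕ} {a : ℝ} {ζ z : Fin (M + 1) → ℂ} (h : Fr (M + 1) a ζ z) (hM : 99 ≤ M)
    (hmax : ∀ k, ‖u a ζ k‖ ≤ ‖u a ζ 0‖) (ht : ((M : ℝ) + 1) / 7 ≤ ‖u a ζ 0‖) : False := by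
  obtain ⟨c0, hc1, hroot⟩ := exists_c0 h (by omega) hmax
  rcases le_or_gt (567 / 250) (Gam a ζ c0) with hΓ | hΓ
  · exact LcBig h hM hmax ht hc1 hroot hΓ
  · exact Lc_small h hM hmax ht hc1 hroot hΓ

end Pool.Agent.Lib.MP_172a45_an.L
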