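import Pool.Agent.Lib.MP_172a45_an.L.Gam
import Pool.Agent.Lib.MP_172a45_an.F.H69.Phase

set_option autoImplicit false

/-!
# The chain of part L

`(W)` `P(s) exp(m s + s² Δ'/2)` is nonincreasing; `(C)` Chebyshev; the combination with the phase
step `H69.frame_phase`.
-/

namespace Pool.Agent.Lib.MP_172a45_an.L

open Finset Real
open Pool.Agent.Lib.MP_172a45_an.F
open Pool.Agent.Lib.MP_172a45_an.F.Fr

/-- `g y = y - 1 - log y` -/
noncomputable def gg1 (y : ℝ) : ℝ := y - 1 - Real.log y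

theorem gg1_nonneg {y : ℝ} (hy : 0 < y) : 0 ≤ gg1 y := by
  unfold gg1
  have := Real.log_le_sub_one_of_pos hy
  linarith

/-- `-log(1 - v) ≤ v + v²` on `[0, 1/2]` -/
theorem neg_log_le {v : ℝ} (h0 : 0 ≤ v) (h1 : v ≤ 1 / 2) : -Real.log (1 - v) ≤ v + v ^ 2 := by
  -- `1 ≤ (1 - v) exp (v + v²)`
  have h2 : (1 : ℝ) ≤ (1 - v) * Real.exp (v + v ^ 2) := by
    have h3 : 1 + (v + v ^ 2) + (v + v ^ 2) ^ 2 / 2 ≤ Real.exp (v + v ^ 2) :=
      Real.quadratic_le_exp_of_nonneg (by positivity)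
    have h4 : (1 : ℝ) ≤ (1 - v) * (1 + (v + v ^ 2) + (v + v ^ 2) ^ 2 / 2) := by
      have e : (1 - v) * (1 + (v + v ^ 2) + (v + v ^ 2) ^ 2 / 2) - 1 =
          v ^ 2 * (1 - v - v ^ 2 - v ^ 3) / 2 := by ring
      have : 0 ≤ 1 - v - v ^ 2 - v ^ 3 := by nlinarith [mul_nonneg h0 h0, pow_nonneg h0 3]
      nlinarith [mul_nonneg (sq_nonneg v) this]
    nlinarith
  have h5 : 0 < 1 - v := by linarith
  have h6 : Real.log 1 ≤ Real.log ((1 - v) * Real.exp (v + v ^ 2)) := Real.log_le_log one_pos h2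
  rw [Real.log_one, Real.log_mul h5.ne' (Real.exp_pos _).ne', Real.log_exp] at h6
  linarith

theorem gg1_half : gg1 (1 / 2) ≤ 1 / 5 := by
  unfold gg1
  have : Real.log (1 / 2) = -Real.log 2 := by
    rw [one_div, Real.log_inv]
  rw [this]
  have := Real.log_two_lt_d9
  linarith

/-- the key inequality `(1 + s u) g(max(1+u, 1/2)) ≤ u²` -/
theorem key_W {c s : ℝ} (hc : 0 ≤ c) (hs0 : 0 ≤ s) (hs1 : s ≤ 1) :
    (1 + s * (c - 1)) * gg1 (max c (1 / 2)) ≤ (c - 1) ^ 2 := by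
  rcases le_total c 1 with h1 | h1
  · have hT : 1 + s * (c - 1) ≤ 1 := by nlinarith
    have hT0 : 0 ≤ 1 + s * (c - 1) := by nlinarith
    rcases le_total c (1 / 2) with h2 | h2
    · rw [max_eq_right h2]
      have h3 := gg1_half
      have h4 : 0 ≤ gg1 (1 / 2) := gg1_nonneg (by norm_num)
      have h5 : (1 + s * (c - 1)) * gg1 (1 / 2) ≤ 1 * gg1 (1 / 2) :=
        mul_le_mul_of_nonneg_right hT h4
      nlinarith
    · rw [max_eq_left h2]
      have h4 : 0 ≤ gg1 c := gg1_nonneg (by linarith)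
      have h5 : (1 + s * (c - 1)) * gg1 c ≤ 1 * gg1 c := mul_le_mul_of_nonneg_right hT h4
      have h6 := neg_log_le (v := 1 - c) (by linarith) (by linarith)
      rw [sub_sub_cancel] at h6
      unfold gg1 at h5 ⊢
      nlinarith
  · rw [max_eq_left (by linarith)]
    have h4 : 0 ≤ gg1 c := gg1_nonneg (by linarith)
    have hT : 1 + s * (c - 1) ≤ c := by nlinarith
    have h5 : (1 + s * (c - 1)) * gg1 c ≤ c * gg1 c := mul_le_mul_of_nonneg_right hT h4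
    have h6 : 1 - c⁻¹ ≤ Real.log c := Real.one_sub_inv_le_log_of_pos (by linarith)
    have h7 : c - 1 ≤ c * Real.log c := by
      have := mul_le_mul_of_nonneg_left h6 hc
      have e : c * (1 - c⁻¹) = c - 1 := by
        have : c ≠ 0 := by linarith
        field_simp
      linarith
    unfold gg1 at h5 ⊢
    nlinarith

/-- (W), one factor -/
theorem W_one {c : ℝ} (hc : 0 ≤ c) :
    AntitoneOn (fun s : ℝ => TT c s * Real.exp (s * (1 - c) + s ^ 2 / 2 * gg1 (max c (1 / 2))))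
      (Set.Ico 0 1) := by
  have hd : ∀ s : ℝ, HasDerivAt
      (fun s : ℝ => TT c s * Real.exp (s * (1 - c) + s ^ 2 / 2 * gg1 (max c (1 / 2))))
      ((c - 1) * Real.exp (s * (1 - c) + s ^ 2 / 2 * gg1 (max c (1 / 2))) +
        TT c s * (Real.exp (s * (1 - c) + s ^ 2 / 2 * gg1 (max c (1 / 2))) *
          ((1 - c) + s * gg1 (max c (1 / 2))))) s := by
    intro s
    have h1 : HasDerivAt (TT c) (c - 1) s := by
      unfold TT
      have := ((hasDerivAt_const s (1:ℝ)).sub (hasDerivAt_id s)).add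
        ((hasDerivAt_id s).mul_const c)
      refine this.congr_deriv ?_
      simp
      ring
    have h2 : HasDerivAt (fun s : ℝ => s * (1 - c) + s ^ 2 / 2 * gg1 (max c (1 / 2)))
        ((1 - c) + s * gg1 (max c (1 / 2))) s := by
      have := ((hasDerivAt_id s).mul_const (1 - c)).add
        ((((hasDerivAt_id s).pow 2).div_const 2).mul_const (gg1 (max c (1 / 2))))
      refine this.congr_deriv ?_
      simp
    exact h1.mul h2.exp
  refine antitoneOn_of_deriv_nonpos (convex_Ico 0 1) ?_ ?_ ?_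
  · intro s _
    exact (hd s).continuousAt.continuousWithinAt
  · intro s _
    exact (hd s).differentiableAt.differentiableWithinAt
  · intro s hs
    rw [interior_Ico] at hs
    rw [(hd s).deriv]
    have hk := key_W hc hs.1.le hs.2.le
    have e : (c - 1) * Real.exp (s * (1 - c) + s ^ 2 / 2 * gg1 (max c (1 / 2))) +
        TT c s * (Real.exp (s * (1 - c) + s ^ 2 / 2 * gg1 (max c (1 / 2))) *
          ((1 - c) + s * gg1 (max c (1 / 2)))) =
        Real.exp (s * (1 - c) + s ^ 2 / 2 * gg1 (max c (1 / 2))) *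
          (s * ((1 + s * (c - 1)) * gg1 (max c (1 / 2)) - (c - 1) ^ 2)) := by
      unfold TT
      ring
    rw [e]
    refine mul_nonpos_of_nonneg_of_nonpos (Real.exp_pos _).le ?_
    exact mul_nonpos_of_nonneg_of_nonpos hs.1.le (by linarith)

/-- (W) -/
theorem W_prod {ι : Type} (I : Finset ι) (c : ι → ℝ) (hc : ∀ k ∈ I, 0 ≤ c k) {m Δ : ℝ}
    (hm : m = ∑ k ∈ I, (1 - c k)) (hΔ : Δ ≤ ∑ k ∈ I, gg1 (max (c k) (1 / 2))) {s s' : ℝ}
    (hs : s ∈ Set.Ico (0:ℝ) 1) (hs' : s' ∈ Set.Ico (0:ℝ) 1) (hss : s ≤ s') :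
    (∏ k ∈ I, TT (c k) s') * Real.exp (m * s' + s' ^ 2 / 2 * Δ) ≤
      (∏ k ∈ I, TT (c k) s) * Real.exp (m * s + s ^ 2 / 2 * Δ) := by
  set S := ∑ k ∈ I, gg1 (max (c k) (1 / 2)) with hS
  have e1 : ∀ x : ℝ, (∏ k ∈ I, TT (c k) x) * Real.exp (m * x + x ^ 2 / 2 * S) =
      ∏ k ∈ I, (TT (c k) x * Real.exp (x * (1 - c k) + x ^ 2 / 2 * gg1 (max (c k) (1 / 2)))) := by
    intro x
    rw [Finset.prod_mul_distrib, ← Real.exp_sum, Finset.sum_add_distrib, ← Finset.mul_sum,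
      ← Finset.mul_sum, ← hm, ← hS, mul_comm m x]
  have h1 : (∏ k ∈ I, TT (c k) s') * Real.exp (m * s' + s' ^ 2 / 2 * S) ≤
      (∏ k ∈ I, TT (c k) s) * Real.exp (m * s + s ^ 2 / 2 * S) := by
    rw [e1, e1]
    refine Finset.prod_le_prod (fun k hk => ?_) fun k hk => W_one (hc k hk) hs hs' hss
    have : 0 ≤ TT (c k) s' := by
      unfold TT
      have := mul_nonneg hs'.1 (hc k hk)
      linarith [hs'.2]
    positivity
  have e2 : ∀ x : ℝ, Real.exp (m * x + x ^ 2 / 2 * Δ) =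
      Real.exp (m * x + x ^ 2 / 2 * S) * Real.exp (-(x ^ 2 / 2 * (S - Δ))) := by
    intro x
    rw [← Real.exp_add]
    congr 1
    ring
  rw [e2, e2, ← mul_assoc, ← mul_assoc]
  have hP : 0 ≤ ∏ k ∈ I, TT (c k) s := Finset.prod_nonneg fun k hk => by
    unfold TT
    have := mul_nonneg hs.1 (hc k hk)
    linarith [hs.2]
  refine mul_le_mul h1 ?_ (Real.exp_pos _).le (by positivity)
  rw [Real.exp_le_exp]
  have : s ^ 2 ≤ s' ^ 2 := by
    have := hs.1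
    nlinarith
  nlinarith

/-- `g(max(c,1/2)) ≥ g(t) - (t - c)` for `0 ≤ c ≤ t`, `1/2 ≤ t` -/
theorem gg1_max_ge {c t : ℝ} (hct : c ≤ t) (ht : 1 / 2 ≤ t) :
    gg1 t - (t - c) ≤ gg1 (max c (1 / 2)) := by
  rcases le_total c (1 / 2) with h | h
  · rw [max_eq_right h]
    unfold gg1
    have h1 : Real.log (1 / 2) ≤ Real.log t := Real.log_le_log (by norm_num) ht
    linarith
  · rw [max_eq_left h]
    unfold gg1
    have h1 : Real.log c ≤ Real.log t := Real.log_le_log (by linarith) hct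
    linarith

/-- (C), Chebyshev -/
theorem cheb {P E φ : ℝ → ℝ} (hP0 : ∀ s ∈ Set.Ioo (0:ℝ) 1, 0 ≤ P s) (hE : ∀ s, 0 < E s)
    (hanti : ∀ s s' : ℝ, 0 < s → s ≤ s' → s' < 1 → P s' * E s' ≤ P s * E s) {s0 : ℝ}
    (hs0 : 0 < s0) (h1 : ∀ s ∈ Set.Ioo (0:ℝ) 1, s < s0 → 0 ≤ φ s)
    (h2 : ∀ s ∈ Set.Ioo (0:ℝ) 1, s0 ≤ s → φ s ≤ 0)
    (hi1 : IntervalIntegrable (fun s => (E s)⁻¹ * φ s) MeasureTheory.volume 0 1)
    (hi2 : IntervalIntegrable (fun s => P s * φ s) MeasureTheory.volume 0 1)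
    (hI : 0 ≤ ∫ s in (0:ℝ)..1, (E s)⁻¹ * φ s) : 0 ≤ ∫ s in (0:ℝ)..1, P s * φ s := by
  rcases le_or_gt 1 s0 with hs | hs
  · have : ∫ s in (0:ℝ)..1, (0:ℝ) ≤ ∫ s in (0:ℝ)..1, P s * φ s := by
      refine intervalIntegral.integral_mono_on_of_le_Ioo zero_le_one (by simp) hi2 ?_
      intro s hs'
      exact mul_nonneg (hP0 s hs') (h1 s hs' (by linarith [hs'.2]))
    simpa using this
  · set w := P s0 * E s0 with hw
    have hw0 : 0 ≤ w := mul_nonneg (hP0 s0 ⟨hs0, hs⟩) (hE s0).le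
    have key : ∀ s ∈ Set.Ioo (0:ℝ) 1, w * ((E s)⁻¹ * φ s) ≤ P s * φ s := by
      intro s hs'
      have hEs := hE s
      rcases lt_or_ge s s0 with h | h
      · have h3 := hanti s s0 hs'.1 h.le hs
        have h4 : w * (E s)⁻¹ ≤ P s := by
          rw [← div_eq_mul_inv, div_le_iff₀ hEs]
          exact h3
        have := mul_le_mul_of_nonneg_right h4 (h1 s hs' h)
        linarith
      · have h3 := hanti s0 s hs0 h hs'.2
        have h4 : P s ≤ w * (E s)⁻¹ := by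
          rw [← div_eq_mul_inv, le_div_iff₀ hEs]
          exact h3
        have := mul_le_mul_of_nonpos_right h4 (h2 s hs' h)
        linarith
    have h5 : ∫ s in (0:ℝ)..1, w * ((E s)⁻¹ * φ s) ≤ ∫ s in (0:ℝ)..1, P s * φ s :=
      intervalIntegral.integral_mono_on_of_le_Ioo zero_le_one (hi1.const_mul w) hi2 key
    rw [intervalIntegral.integral_const_mul] at h5
    have := mul_nonneg hw0 hI
    linarith

theorem TT_cont (c : ℝ) : Continuous (TT c) := by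
  unfold TT
  fun_prop

/-- the tail part of `Δ` -/
theorem sum_tail_g {M : ℕ} {a : ℝ} {ζ z : Fin (M + 1) → ℂ} (h : Fr (M + 1) a ζ z) :
    Del a ζ - gg1 ‖u a ζ 0‖ - DS a ζ ≤ ∑ k : Fin M, gg1 (max ‖vt a ζ k‖ (1 / 2)) := by
  have h1 := sum_g h
  rw [Fin.sum_univ_succ] at h1
  have h2 : ∀ k : Fin M, gg1 ‖ut a ζ k‖ - (‖ut a ζ k‖ - ‖vt a ζ k‖) ≤
      gg1 (max ‖vt a ζ k‖ (1 / 2)) := by
    intro k
    refine gg1_max_ge (h.gl k.succ) ?_
    have h3 := xt_ge h k.succ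
    have ha0 := h.a0
    have ha1 := h.a1
    have h4 : (1 - a) * 1 ≤ (1 - a) * ((1 + a) * ‖ut a ζ k‖) := by
      calc (1 - a) * 1 ≤ (1 - a ^ 2) * ‖ut a ζ k‖ := by rw [mul_one]; exact h3
        _ = _ := by ring
    have h5 := le_of_mul_le_mul_left h4 (by linarith)
    have h6 : 0 ≤ ‖ut a ζ k‖ := norm_nonneg _
    nlinarith
  have h3 := Finset.sum_le_sum fun k (_ : k ∈ (univ : Finset (Fin M))) => h2 k
  rw [Finset.sum_sub_distrib] at h3
  have h4 : ∑ k : Fin M, gg1 ‖ut a ζ k‖ =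
      ∑ k : Fin M, (‖u a ζ k.succ‖ - 1 - Real.log ‖u a ζ k.succ‖) := rfl
  unfold DS
  rw [h4] at h3
  unfold gg1 at h3 ⊢
  linarith

/-- the chain: `η ∫ q ≤ a ∏ t` -/
theorem chain_eta {M : ℕ} {a : ℝ} {ζ z : Fin (M + 1) → ℂ} (h : Fr (M + 1) a ζ z) (hM : 0 < M)
    (hmax : ∀ k, ‖u a ζ k‖ ≤ ‖u a ζ 0‖) {c0 τ η Δ' s0 : ℝ} (hc1 : 1 ≤ c0)
    (hroot : (c0 - 1) * (c0 - kap a ζ) = pr a ζ) (hτ : ∀ k, ‖vt a ζ k‖ ≤ 1 + τ) (ℓ : ℝ → ℝ)
    (hℓi : IntervalIntegrable ℓ MeasureTheory.volume 0 1)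
    (hℓ : ∀ s ∈ Set.Ioo (0:ℝ) 1,
      (∃ B, 0 < B ∧ kap a ζ * (1 + s * τ) / (TT (kap a ζ) s * (1 - s)) ≤ B ∧
        (max (2 * B - s * pr a ζ / TT c0 s) 0) ^ 2 ≤ 4 * B * ℓ s) ∨ 4 * (M : ℝ) ≤ ℓ s)
    (hΔ : Δ' ≤ max 0 (Del a ζ - gg1 ‖u a ζ 0‖ - DS a ζ)) (hs0 : 0 < s0)
    (h1 : ∀ s ∈ Set.Ioo (0:ℝ) 1, s < s0 → ℓ s ≤ Gam a ζ c0 - η)
    (h2 : ∀ s ∈ Set.Ioo (0:ℝ) 1, s0 ≤ s → Gam a ζ c0 - η ≤ ℓ s)
    (hI : 0 ≤ ∫ s in (0:ℝ)..1, Real.exp (-(M * (1 - kap a ζ) * s + s ^ 2 / 2 * Δ')) *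
      (TT c0 s * (Gam a ζ c0 - η - ℓ s))) :
    η * (∫ s in (0:ℝ)..1, TT c0 s * ∏ k, TT ‖vt a ζ k‖ s) ≤ a * ∏ k, ‖u a ζ k‖ := by
  have hM0 : (0 : ℝ) < M := by exact_mod_cast hM
  have hqc : Continuous fun s : ℝ => TT c0 s * ∏ k : Fin M, TT ‖vt a ζ k‖ s :=
    (TT_cont c0).mul (continuous_finsetProd _ fun k _ => TT_cont _)
  have hPc : Continuous fun s : ℝ => ∏ k : Fin M, TT ‖vt a ζ k‖ s :=
    continuous_finsetProd _ fun k _ => TT_cont _
  have hqi : IntervalIntegrable (fun s => (TT c0 s * ∏ k : Fin M, TT ‖vt a ζ k‖ s) * ℓ s)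
      MeasureTheory.volume 0 1 := hℓi.continuousOn_mul hqc.continuousOn
  have h3 := H69.frame_phase h hM hmax hc1 hroot hτ ℓ hqi (fun s hs => by
    rcases hℓ s hs with h | h
    · exact Or.inl h
    · exact Or.inr (Or.inr h))
  -- Chebyshev
  set E : ℝ → ℝ := fun s => Real.exp (M * (1 - kap a ζ) * s + s ^ 2 / 2 * Δ') with hE
  have hmsum : (M : ℝ) * (1 - kap a ζ) = ∑ k : Fin M, (1 - ‖vt a ζ k‖) := by
    rw [Finset.sum_sub_distrib]
    simp only [Finset.sum_const, Finset.card_univ, Fintype.card_fin, nsmul_eq_mul, mul_one]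
    have : (M : ℝ) * kap a ζ = ∑ k : Fin M, ‖vt a ζ k‖ := by
      unfold kap; field_simp
    rw [← this]
    ring
  have hΔS : Δ' ≤ ∑ k : Fin M, gg1 (max ‖vt a ζ k‖ (1 / 2)) := by
    refine hΔ.trans (max_le ?_ (sum_tail_g h))
    exact Finset.sum_nonneg fun k _ => gg1_nonneg (lt_of_lt_of_le (by norm_num) (le_max_right _ _))
  have hcheb := cheb (P := fun s => ∏ k : Fin M, TT ‖vt a ζ k‖ s) (E := E)
    (φ := fun s => TT c0 s * (Gam a ζ c0 - η - ℓ s)) (fun s hs => ?_) (fun s => Real.exp_pos _)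
    (fun s s' hs hss hs' => W_prod univ (fun k : Fin M => ‖vt a ζ k‖) (fun _ _ => norm_nonneg _)
      hmsum hΔS ⟨hs.le, lt_of_le_of_lt hss hs'⟩ ⟨hs.le.trans hss, hs'⟩ hss) hs0
    (fun s hs hlt => mul_nonneg ?_ (by linarith [h1 s hs hlt]))
    (fun s hs hge => mul_nonpos_of_nonneg_of_nonpos ?_ (by linarith [h2 s hs hge])) ?_ ?_ ?_
  · -- conclusion
    have e1 : ∫ s in (0:ℝ)..1, (∏ k : Fin M, TT ‖vt a ζ k‖ s) *
        (TT c0 s * (Gam a ζ c0 - η - ℓ s)) =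
        (Gam a ζ c0 - η) * (∫ s in (0:ℝ)..1, TT c0 s * ∏ k, TT ‖vt a ζ k‖ s) -
        ∫ s in (0:ℝ)..1, (TT c0 s * ∏ k, TT ‖vt a ζ k‖ s) * ℓ s := by
      rw [← intervalIntegral.integral_const_mul, ← intervalIntegral.integral_sub
        ((hqc.intervalIntegrable _ _).const_mul _) hqi]
      refine intervalIntegral.integral_congr fun s _ => ?_
      ring
    rw [e1] at hcheb
    have e2 : Gam a ζ c0 = (M + 1) * (1 - kap a ζ) - (c0 - 1) := rfl
    rw [← e2] at h3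
    linarith
  · exact Finset.prod_nonneg fun k _ => by
      unfold TT
      have := mul_nonneg hs.1.le (norm_nonneg (vt a ζ k))
      linarith [hs.2]
  · unfold TT
    have : 0 ≤ s * c0 := mul_nonneg hs.1.le (by linarith)
    linarith [hs.2]
  · unfold TT
    have : 0 ≤ s * c0 := mul_nonneg hs.1.le (by linarith)
    linarith [hs.2]
  · have hc : Continuous fun s : ℝ => (E s)⁻¹ * TT c0 s := by
      refine Continuous.mul (Continuous.inv₀ (by simp only [hE]; fun_prop) fun s =>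
        (Real.exp_pos _).ne') (TT_cont c0)
    have hi : IntervalIntegrable (fun s => Gam a ζ c0 - η - ℓ s) MeasureTheory.volume 0 1 :=
      (intervalIntegrable_const).sub hℓi
    refine (hi.continuousOn_mul hc.continuousOn).congr fun s _ => ?_
    ring
  · have hi : IntervalIntegrable (fun s => Gam a ζ c0 - η - ℓ s) MeasureTheory.volume 0 1 :=
      (intervalIntegrable_const).sub hℓi
    refine (hi.continuousOn_mul hqc.continuousOn).congr fun s _ => ?_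
    ring
  · refine hI.trans (le_of_eq ?_)
    refine intervalIntegral.integral_congr fun s _ => ?_
    simp only [hE]
    rw [← Real.exp_neg]

end Pool.Agent.Lib.MP_172a45_an.L
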