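import Pool.Agent.Lib.MP_172a45_an.F.Pprime

set_option autoImplicit false

/-!
# Lower bounds of `Γ = (M+1)(1-κ) - (c₀-1)`

`(G1)` `Γ ≥ D_all - 2κ`, `(G2)` `Γ ≥ D_S + (1-a) t₀ + 1/2 - 3κ/2 - (a/2) mean_S t`,
`(G3)` `D ≥ λ (G - ½ Σ ψ⁺(λ x t))`, `(G4)` lower bounds of `G = Σ log ‖a + x u‖` from (Rw').
-/

namespace Pool.Agent.Lib.MP_172a45_an.L

open Finset Real
open Pool.Agent.Lib.MP_172a45_an.F
open Pool.Agent.Lib.MP_172a45_an.F.Fr

/-! ### The root `c₀` -/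

section Root

variable {M : ℕ} {a : ℝ} {ζ z : Fin (M + 1) → ℂ}

theorem kap_nonneg (a : ℝ) (ζ : Fin (M + 1) → ℂ) : 0 ≤ kap a ζ := by
  unfold kap
  positivity

/-- mean of `‖u‖` over the tail -/
noncomputable def tm {M : ℕ} (a : ℝ) (ζ : Fin (M + 1) → ℂ) : ℝ := (∑ k : Fin M, ‖ut a ζ k‖) / M

theorem root_le1 (h : Fr (M + 1) a ζ z) (hM : 0 < M)
    {c0 : ℝ} (hroot : (c0 - 1) * (c0 - kap a ζ) = pr a ζ) :
    c0 ≤ ‖1 - (a : ℂ) * u a ζ 0‖ + 1 + kap a ζ := by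
  have ha := h.a0
  have hM0 : (0 : ℝ) < M := by exact_mod_cast hM
  have hMc : (M : ℂ) ≠ 0 := by exact_mod_cast hM.ne'
  have hκ0 := kap_nonneg a ζ
  by_contra hcon
  push Not at hcon
  set w := ‖1 - (a : ℂ) * u a ζ 0‖ with hw
  have hw0 : 0 ≤ w := norm_nonneg _
  have h1 : a * ‖u a ζ 0‖ ≤ 1 + w := by
    have e : (a : ℂ) * u a ζ 0 = 1 - (1 - (a : ℂ) * u a ζ 0) := by ring
    calc a * ‖u a ζ 0‖ = ‖(a : ℂ) * u a ζ 0‖ := by
          rw [norm_mul, Complex.norm_real, Real.norm_of_nonneg ha.le]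
      _ ≤ 1 + w := by
          rw [e]
          refine (norm_sub_le _ _).trans ?_
          rw [norm_one]
  have h2 : a * ‖u a ζ 0 - (∑ k : Fin M, ut a ζ k) / M‖ ≤ w + kap a ζ := by
    have e1 : (a : ℂ) * (u a ζ 0 - (∑ k : Fin M, ut a ζ k) / M) = (∑ k : Fin M, vt a ζ k) / M -
        (1 - (a : ℂ) * u a ζ 0) := by
      unfold vt
      rw [Finset.sum_sub_distrib, ← Finset.mul_sum]
      simp only [Finset.sum_const, Finset.card_univ, Fintype.card_fin, nsmul_eq_mul, mul_one]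
      field_simp
      ring
    have e2 : ‖(∑ k : Fin M, vt a ζ k) / M‖ ≤ kap a ζ := by
      unfold kap
      rw [norm_div, Complex.norm_natCast]
      exact div_le_div_of_nonneg_right (norm_sum_le _ _) hM0.le
    have e3 : a * ‖u a ζ 0 - (∑ k : Fin M, ut a ζ k) / M‖ =
        ‖(a : ℂ) * (u a ζ 0 - (∑ k : Fin M, ut a ζ k) / M)‖ := by
      rw [norm_mul, Complex.norm_real, Real.norm_of_nonneg ha.le]
    rw [e3, e1]
    refine (norm_sub_le _ _).trans ?_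
    linarith
  have h3 : pr a ζ ≤ (1 + w) * (w + kap a ζ) := by
    calc pr a ζ = (a * ‖u a ζ 0‖) * (a * ‖u a ζ 0 - (∑ k : Fin M, ut a ζ k) / M‖) := by
          unfold pr; ring
      _ ≤ (1 + w) * (w + kap a ζ) := mul_le_mul h1 h2 (by positivity) (by linarith)
  nlinarith

theorem one_sub_kap_le (h : Fr (M + 1) a ζ z) (hM : 0 < M) : 1 - kap a ζ ≤ a * tm a ζ := by
  have ha := h.a0
  have hM0 : (0 : ℝ) < M := by exact_mod_cast hM
  have h1 : ∀ k : Fin M, 1 - a * ‖ut a ζ k‖ ≤ ‖vt a ζ k‖ := by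
    intro k
    unfold vt
    have e := norm_sub_norm_le (1 : ℂ) ((a : ℂ) * ut a ζ k)
    rw [norm_one, norm_mul, Complex.norm_real, Real.norm_of_nonneg ha.le] at e
    exact e
  have h2 : ∑ k : Fin M, (1 - a * ‖ut a ζ k‖) ≤ ∑ k : Fin M, ‖vt a ζ k‖ :=
    Finset.sum_le_sum fun k _ => h1 k
  rw [Finset.sum_sub_distrib, ← Finset.mul_sum] at h2
  simp only [Finset.sum_const, Finset.card_univ, Fintype.card_fin, nsmul_eq_mul, mul_one] at h2
  have e1 : (M : ℝ) * kap a ζ = ∑ k : Fin M, ‖vt a ζ k‖ := by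
    unfold kap; field_simp
  have e2 : (M : ℝ) * tm a ζ = ∑ k : Fin M, ‖ut a ζ k‖ := by
    unfold tm; field_simp
  rw [← e1, ← e2] at h2
  have h3 : (M : ℝ) * (1 - kap a ζ) ≤ M * (a * tm a ζ) := by nlinarith
  exact le_of_mul_le_mul_left h3 hM0

theorem root_le2 (h : Fr (M + 1) a ζ z) (hM : 0 < M) (hκ1 : kap a ζ ≤ 1)
    {c0 : ℝ} (hroot : (c0 - 1) * (c0 - kap a ζ) = pr a ζ) :
    c0 ≤ (1 + kap a ζ) / 2 + a * ‖u a ζ 0‖ + a * tm a ζ / 2 := by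
  have ha := h.a0
  have hM0 : (0 : ℝ) < M := by exact_mod_cast hM
  have hκ0 := kap_nonneg a ζ
  have h0 := one_sub_kap_le h hM
  by_contra hcon
  push Not at hcon
  have hu0 : 0 ≤ ‖u a ζ 0‖ := norm_nonneg _
  have h2 : ‖u a ζ 0 - (∑ k : Fin M, ut a ζ k) / M‖ ≤ ‖u a ζ 0‖ + tm a ζ := by
    refine (norm_sub_le _ _).trans (add_le_add le_rfl ?_)
    unfold tm
    rw [norm_div, Complex.norm_natCast]
    exact div_le_div_of_nonneg_right (norm_sum_le _ _) hM0.le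
  have h3 : pr a ζ ≤ (a * ‖u a ζ 0‖) * (a * ‖u a ζ 0‖ + a * tm a ζ) := by
    calc pr a ζ = (a * ‖u a ζ 0‖) * (a * ‖u a ζ 0 - (∑ k : Fin M, ut a ζ k) / M‖) := by
          unfold pr; ring
      _ ≤ (a * ‖u a ζ 0‖) * (a * (‖u a ζ 0‖ + tm a ζ)) := by gcongr
      _ = _ := by ring
  have hC : 0 ≤ a * ‖u a ζ 0‖ := by positivity
  have hB : 0 ≤ a * tm a ζ := by linarith
  have h4 : (a * ‖u a ζ 0‖ + a * tm a ζ / 2) < c0 - (1 + kap a ζ) / 2 := by linarith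
  have h5 : (a * ‖u a ζ 0‖ + a * tm a ζ / 2) ^ 2 < (c0 - (1 + kap a ζ) / 2) ^ 2 :=
    pow_lt_pow_left₀ h4 (by positivity) two_ne_zero
  have h6 : ((1 - kap a ζ) / 2) ^ 2 ≤ (a * tm a ζ / 2) ^ 2 :=
    pow_le_pow_left₀ (by linarith) (by linarith) 2
  have e1 : (c0 - 1) * (c0 - kap a ζ) =
      (c0 - (1 + kap a ζ) / 2) ^ 2 - ((1 - kap a ζ) / 2) ^ 2 := by ring
  rw [hroot] at e1
  nlinarith

/-- `Γ` -/
noncomputable def Gam {M : ℕ} (a : ℝ) (ζ : Fin (M + 1) → ℂ) (c0 : ℝ) : ℝ :=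
  (M + 1) * (1 - kap a ζ) - (c0 - 1)

/-- `D` over all indices -/
noncomputable def Dall {N : ℕ} (a : ℝ) (ζ : Fin N → ℂ) : ℝ :=
  ∑ k, (‖u a ζ k‖ - ‖1 - (a : ℂ) * u a ζ k‖)

/-- `D` over the tail -/
noncomputable def DS {M : ℕ} (a : ℝ) (ζ : Fin (M + 1) → ℂ) : ℝ :=
  ∑ k : Fin M, (‖ut a ζ k‖ - ‖vt a ζ k‖)

theorem Dall_eq (a : ℝ) (ζ : Fin (M + 1) → ℂ) :
    Dall a ζ = (‖u a ζ 0‖ - ‖1 - (a : ℂ) * u a ζ 0‖) + DS a ζ := by
  unfold Dall DS
  rw [Fin.sum_univ_succ]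
  rfl

theorem mean_tail (h : Fr (M + 1) a ζ z) : ∑ k : Fin M, ‖ut a ζ k‖ = M + 1 - ‖u a ζ 0‖ := by
  have h2 := h.mean
  rw [Fin.sum_univ_succ] at h2
  push_cast at h2
  unfold ut
  linarith

theorem kap_eq (h : Fr (M + 1) a ζ z) (hM : 0 < M) :
    (M : ℝ) * kap a ζ = M + 1 - ‖u a ζ 0‖ - DS a ζ := by
  have hM0 : (0 : ℝ) < M := by exact_mod_cast hM
  have e1 : (M : ℝ) * kap a ζ = ∑ k : Fin M, ‖vt a ζ k‖ := by
    unfold kap; field_simp
  have e2 := mean_tail h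
  have e3 : DS a ζ = ∑ k : Fin M, ‖ut a ζ k‖ - ∑ k : Fin M, ‖vt a ζ k‖ := by
    unfold DS
    rw [Finset.sum_sub_distrib]
  rw [e3, e1, e2]
  ring

/-- (G1) -/
theorem Gam_ge1 (h : Fr (M + 1) a ζ z) (hM : 0 < M)
    {c0 : ℝ} (hroot : (c0 - 1) * (c0 - kap a ζ) = pr a ζ) :
    Dall a ζ - 2 * kap a ζ ≤ Gam a ζ c0 := by
  have h1 := root_le1 h hM hroot
  have h2 := kap_eq h hM
  rw [Dall_eq]
  unfold Gam
  linarith

/-- (G2) -/
theorem Gam_ge2 (h : Fr (M + 1) a ζ z) (hM : 0 < M) (hκ1 : kap a ζ ≤ 1)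
    {c0 : ℝ} (hroot : (c0 - 1) * (c0 - kap a ζ) = pr a ζ) :
    DS a ζ * (1 + 3 / (2 * M)) + (1 - a) * ‖u a ζ 0‖ + 1 / 2 -
      (3 + a) / 2 * ((M + 1 - ‖u a ζ 0‖) / M) ≤ Gam a ζ c0 := by
  have hM0 : (0 : ℝ) < M := by exact_mod_cast hM
  have h1 := root_le2 h hM hκ1 hroot
  have h2 := kap_eq h hM
  have h3 : tm a ζ = (M + 1 - ‖u a ζ 0‖) / M := by
    unfold tm
    rw [mean_tail h]
  rw [← h3]
  have h4 : kap a ζ = tm a ζ - DS a ζ / M := by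
    rw [h3]
    field_simp
    linarith
  have h5 : DS a ζ * (1 + 3 / (2 * M)) = DS a ζ + 3 / 2 * (DS a ζ / M) := by
    field_simp
  rw [h5]
  unfold Gam
  rw [h4] at h1 ⊢
  have h6 : (M : ℝ) * (tm a ζ - DS a ζ / M) = M + 1 - ‖u a ζ 0‖ - DS a ζ := by
    rw [← h4]; exact h2
  linarith

end Root

/-! ### The function `ψ` -/

/-- `ψ w = log w - 1 + 1/w` -/
noncomputable def psi (w : ℝ) : ℝ := Real.log w - 1 + w⁻¹

/-- `ψ⁺` -/
noncomputable def psip (w : ℝ) : ℝ := if 1 ≤ w then psi w else 0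

theorem psi_nonneg {w : ℝ} (hw : 0 < w) : 0 ≤ psi w := by
  unfold psi
  have := Real.one_sub_inv_le_log_of_pos hw
  linarith

theorem psip_nonneg (w : ℝ) : 0 ≤ psip w := by
  unfold psip
  split_ifs with h
  · exact psi_nonneg (by linarith)
  · exact le_rfl

theorem psip_of_le {w : ℝ} (hw : w ≤ 1) : psip w = 0 := by
  unfold psip
  split_ifs with h
  · have : w = 1 := le_antisymm hw h
    subst this
    simp [psi]
  · rfl

/-- the one-body inequality -/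
theorem log_sub_le {w Y : ℝ} (hw : 0 < w) (hY : 0 ≤ Y) : Real.log (1 + Y) - Y / w ≤ psip w := by
  unfold psip
  split_ifs with h
  · unfold psi
    have h1 : Real.log ((1 + Y) / w) ≤ (1 + Y) / w - 1 :=
      Real.log_le_sub_one_of_pos (by positivity)
    rw [Real.log_div (by positivity) hw.ne'] at h1
    have e : (1 + Y) / w = w⁻¹ + Y / w := by rw [add_div, one_div]
    rw [e] at h1
    linarith
  · push Not at h
    have h1 : Real.log (1 + Y) ≤ Y := by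
      have := Real.log_le_sub_one_of_pos (by positivity : 0 < 1 + Y)
      linarith
    have h2 : Y ≤ Y / w := by
      rw [le_div_iff₀ hw]
      nlinarith
    linarith

/-- (G3) -/
theorem sum_D_ge {ι : Type} (I : Finset ι) (t c : ι → ℝ) (ht : ∀ k ∈ I, 0 < t k)
    (hc0 : ∀ k ∈ I, 0 ≤ c k) (hct : ∀ k ∈ I, c k ≤ t k) {x l : ℝ} (hx : 0 < x) (hl : 0 < l) :
    l * (∑ k ∈ I, 1 / 2 * Real.log (1 + x * (t k ^ 2 - c k ^ 2)) -
      1 / 2 * ∑ k ∈ I, psip (l * x * t k)) ≤ ∑ k ∈ I, (t k - c k) := by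
  rw [Finset.mul_sum, ← Finset.sum_sub_distrib, Finset.mul_sum]
  refine Finset.sum_le_sum fun k hk => ?_
  have h1 := ht k hk
  have h2 := hct k hk
  have h3 := hc0 k hk
  have h4 : 0 ≤ t k - c k := by linarith
  have h0 : 0 < 1 + x * (t k ^ 2 - c k ^ 2) := by
    have : 0 ≤ t k ^ 2 - c k ^ 2 := by nlinarith
    positivity
  have h6 := log_sub_le (w := l * x * t k) (Y := 2 * x * t k * (t k - c k)) (by positivity)
    (by positivity)
  have h7 : Real.log (1 + x * (t k ^ 2 - c k ^ 2)) ≤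
      Real.log (1 + 2 * x * t k * (t k - c k)) := by
    refine Real.log_le_log h0 ?_
    nlinarith [mul_nonneg hx.le (sq_nonneg (t k - c k))]
  have e : 2 * x * t k * (t k - c k) / (l * x * t k) = 2 * (t k - c k) / l := by
    field_simp
  rw [e] at h6
  have h8 : l * (1 / 2 * (2 * (t k - c k) / l)) = t k - c k := by
    field_simp
  nlinarith

/-! ### (G4): `ρ = ‖a + x u‖` -/

section Rho

variable {N : ℕ} {a : ℝ} {ζ z : Fin N → ℂ}

/-- `ρ k = ‖a + (1 - a²) u k‖ = 1 + x s k` -/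
noncomputable def rho {N : ℕ} (a : ℝ) (ζ : Fin N → ℂ) (k : Fin N) : ℝ :=
  ‖(a : ℂ) + (1 - (a : ℂ) ^ 2) * u a ζ k‖

theorem rho_sq (a : ℝ) (ζ : Fin N → ℂ) (k : Fin N) :
    rho a ζ k ^ 2 = 1 + (1 - a ^ 2) * (‖u a ζ k‖ ^ 2 - ‖1 - (a : ℂ) * u a ζ k‖ ^ 2) :=
  alg_eta a _

theorem one_le_rho (h : Fr N a ζ z) (k : Fin N) : 1 ≤ rho a ζ k := by
  have h1 := mul_nonneg h.m_pos.le (h.eta_nonneg k)
  have h2 := rho_sq a ζ k
  have h3 : 0 ≤ rho a ζ k := norm_nonneg _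
  nlinarith

theorem rho_le (h : Fr N a ζ z) (k : Fin N) : rho a ζ k ≤ a + (1 - a ^ 2) * ‖u a ζ k‖ := by
  unfold rho
  refine (norm_add_le _ _).trans ?_
  have e : (1 : ℂ) - (a : ℂ) ^ 2 = ((1 - a ^ 2 : ℝ) : ℂ) := by push_cast; ring
  rw [e, norm_mul, Complex.norm_real, Complex.norm_real, Real.norm_of_nonneg h.a0.le,
    Real.norm_of_nonneg h.m_pos.le]

theorem rho_nonneg (a : ℝ) (ζ : Fin N → ℂ) (k : Fin N) : 0 ≤ rho a ζ k := norm_nonneg _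

theorem log_rho (a : ℝ) (ζ : Fin N → ℂ) (k : Fin N) : Real.log (rho a ζ k) =
    1 / 2 * Real.log (1 + (1 - a ^ 2) * (‖u a ζ k‖ ^ 2 - ‖1 - (a : ℂ) * u a ζ k‖ ^ 2)) := by
  rw [← rho_sq, Real.log_pow]
  push_cast
  ring

/-- (Rw') in terms of `ρ` -/
theorem Rw_rho (h : Fr N a ζ z) :
    1 + (1 - a) * N * (2 + 2 * a - a ^ 2) / 2 - 1 / 2 * ∑ k, (rho a ζ k - 1) +
      1 / 4 * ∑ k, (((1 - a ^ 2) * ‖u a ζ k‖ - (1 - a)) ^ 2 - (rho a ζ k - 1) ^ 2) ≤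
      ∏ k, rho a ζ k := by
  have h1 := h.Rw_eta
  have h2 : ∀ k, √(1 + (1 - a ^ 2) * (‖u a ζ k‖ ^ 2 - ‖1 - (a : ℂ) * u a ζ k‖ ^ 2)) =
      rho a ζ k := fun k => by
    rw [← rho_sq, Real.sqrt_sq (rho_nonneg a ζ k)]
  simp only [h2] at h1
  refine le_trans (le_of_eq ?_) h1
  have e1 : ∑ k, (rho a ζ k ^ 2 - 1) =
      (1 - a ^ 2) * ∑ k, (‖u a ζ k‖ ^ 2 - ‖1 - (a : ℂ) * u a ζ k‖ ^ 2) := by
    rw [Finset.mul_sum]
    exact Finset.sum_congr rfl fun k _ => by rw [rho_sq]; ring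
  have e2 : ∑ k, ‖u a ζ k‖ = N := h.mean
  have e3 : ∑ k, (((1 - a ^ 2) * ‖u a ζ k‖ - (1 - a)) ^ 2 - (rho a ζ k - 1) ^ 2) =
      (1 - a ^ 2) ^ 2 * ∑ k, ‖u a ζ k‖ ^ 2 - 2 * (1 - a) * (1 - a ^ 2) * ∑ k, ‖u a ζ k‖ +
        N * (1 - a) ^ 2 - ∑ k, (rho a ζ k ^ 2 - 1) + 2 * ∑ k, (rho a ζ k - 1) := by
    have e4 : (N : ℝ) * (1 - a) ^ 2 = ∑ _k : Fin N, (1 - a) ^ 2 := by simp
    rw [e4, Finset.mul_sum, Finset.mul_sum, Finset.mul_sum, ← Finset.sum_sub_distrib,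
      ← Finset.sum_add_distrib, ← Finset.sum_sub_distrib, ← Finset.sum_add_distrib]
    exact Finset.sum_congr rfl fun k _ => by ring
  rw [e3, e2]
  have e5 : (1 - a ^ 2) / 4 * (3 * N + (1 - a ^ 2) * ∑ k, ‖u a ζ k‖ ^ 2 -
      ∑ k, (‖u a ζ k‖ ^ 2 - ‖1 - (a : ℂ) * u a ζ k‖ ^ 2)) =
      3 * N * (1 - a ^ 2) / 4 + (1 - a ^ 2) ^ 2 / 4 * ∑ k, ‖u a ζ k‖ ^ 2 -
        1 / 4 * ∑ k, (rho a ζ k ^ 2 - 1) := by
    rw [e1]; ring
  rw [e5]
  ring

/-- (Rw') without the quadratic terms -/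
theorem Rw_rho' (h : Fr N a ζ z) :
    1 + (1 - a) * N * (2 + 2 * a - a ^ 2) / 2 - 1 / 2 * ∑ k, (rho a ζ k - 1) ≤
      ∏ k, rho a ζ k := by
  refine le_trans ?_ (Rw_rho h)
  have : 0 ≤ ∑ k, (((1 - a ^ 2) * ‖u a ζ k‖ - (1 - a)) ^ 2 - (rho a ζ k - 1) ^ 2) := by
    refine Finset.sum_nonneg fun k _ => ?_
    have h1 := one_le_rho h k
    have h2 := rho_le h k
    nlinarith
  linarith

end Rho

/-! ### `G` over all indices and over the tail -/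

section G

/-- `G` over all indices -/
noncomputable def Gall {N : ℕ} (a : ℝ) (ζ : Fin N → ℂ) : ℝ := ∑ k, Real.log (rho a ζ k)

/-- `G` over the tail -/
noncomputable def GS {M : ℕ} (a : ℝ) (ζ : Fin (M + 1) → ℂ) : ℝ :=
  ∑ k : Fin M, Real.log (rho a ζ k.succ)

theorem exp_Gall {N : ℕ} {a : ℝ} {ζ z : Fin N → ℂ} (h : Fr N a ζ z) :
    Real.exp (Gall a ζ) = ∏ k, rho a ζ k := by
  unfold Gall
  rw [Real.exp_sum]
  exact Finset.prod_congr rfl fun k _ => Real.exp_log (by linarith [one_le_rho h k])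

theorem exp_GS {M : ℕ} {a : ℝ} {ζ z : Fin (M + 1) → ℂ} (h : Fr (M + 1) a ζ z) :
    Real.exp (GS a ζ) = ∏ k : Fin M, rho a ζ k.succ := by
  unfold GS
  rw [Real.exp_sum]
  exact Finset.prod_congr rfl fun k _ => Real.exp_log (by linarith [one_le_rho h k.succ])

theorem Gall_nonneg {N : ℕ} {a : ℝ} {ζ z : Fin N → ℂ} (h : Fr N a ζ z) : 0 ≤ Gall a ζ :=
  Finset.sum_nonneg fun k _ => Real.log_nonneg (one_le_rho h k)

theorem GS_nonneg {M : ℕ} {a : ℝ} {ζ z : Fin (M + 1) → ℂ} (h : Fr (M + 1) a ζ z) :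
    0 ≤ GS a ζ :=
  Finset.sum_nonneg fun k _ => Real.log_nonneg (one_le_rho h k.succ)

/-- `∑ (ρ - 1) ≤ ∏ ρ - 1` -/
theorem sum_sub_one_le {ι : Type} (s : Finset ι) (r : ι → ℝ) (hr : ∀ k ∈ s, 1 ≤ r k) :
    ∑ k ∈ s, (r k - 1) ≤ (∏ k ∈ s, r k) - 1 := by
  have h := one_add_sum_le s (fun k => r k - 1) fun k hk => by linarith [hr k hk]
  simp only [add_sub_cancel] at h
  linarith

/-- `r - 1 ≤ κ₁ log r` for `1 ≤ r ≤ 1 + X`, `X ≤ κ₁ log (1 + X)` -/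
theorem sub_one_le_log {r X κ1 : ℝ} (hr : 1 ≤ r) (hrX : r ≤ 1 + X)
    (hκ : X ≤ κ1 * Real.log (1 + X)) (hκ0 : 0 ≤ κ1) : r - 1 ≤ κ1 * Real.log r := by
  rcases eq_or_lt_of_le hr with h1 | h1
  · rw [← h1]
    simp
  have hX : 0 < X := by linarith
  have h2 : (r - 1) / X * Real.log (1 + X) ≤ Real.log r := by
    have m1 : (1 : ℝ) ∈ Set.Ioi (0:ℝ) := by simp
    have m2 : (1 + X) ∈ Set.Ioi (0:ℝ) := by
      simp only [Set.mem_Ioi]; linarith
    have hq0 : 0 ≤ (r - 1) / X := div_nonneg (by linarith) hX.le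
    have hq1 : 0 ≤ 1 - (r - 1) / X := by
      rw [sub_nonneg, div_le_one hX]; linarith
    have hc := strictConcaveOn_log_Ioi.concaveOn.2 m1 m2 hq1 hq0 (by ring)
    simp only [smul_eq_mul, Real.log_one, mul_zero, zero_add, mul_one] at hc
    have e : 1 - (r - 1) / X + (r - 1) / X * (1 + X) = r := by
      field_simp
      ring
    rw [e] at hc
    exact hc
  have h3 : (r - 1) / X * X ≤ (r - 1) / X * (κ1 * Real.log (1 + X)) :=
    mul_le_mul_of_nonneg_left hκ (by positivity)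
  rw [div_mul_cancel₀ _ hX.ne'] at h3
  calc r - 1 ≤ (r - 1) / X * (κ1 * Real.log (1 + X)) := h3
    _ = κ1 * ((r - 1) / X * Real.log (1 + X)) := by ring
    _ ≤ κ1 * Real.log r := mul_le_mul_of_nonneg_left h2 hκ0

/-- (G4), all indices, simple form -/
theorem Gall_ge {N : ℕ} {a : ℝ} {ζ z : Fin N → ℂ} (h : Fr N a ζ z) :
    Real.log (1 + (1 - a) * N * (2 + 2 * a - a ^ 2) / 3) ≤ Gall a ζ := by
  have h1 := Rw_rho' h
  have h2 := sum_sub_one_le univ (fun k => rho a ζ k) fun k _ => one_le_rho h k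
  rw [← exp_Gall h] at h1 h2
  have ha0 := h.a0
  have ha1 := h.a1
  have hA : 0 ≤ (1 - a) * N * (2 + 2 * a - a ^ 2) := by
    have : 0 ≤ 2 + 2 * a - a ^ 2 := by nlinarith
    have : 0 ≤ 1 - a := by linarith
    positivity
  rw [Real.log_le_iff_le_exp (by positivity)]
  linarith

/-- (G4), all indices, with `κ₁` -/
theorem Gall_ge' {N : ℕ} {a : ℝ} {ζ z : Fin N → ℂ} (h : Fr N a ζ z) {X κ1 G : ℝ}
    (hX : ∀ k, (1 - a ^ 2) * ‖u a ζ k‖ - (1 - a) ≤ X) (hκ : X ≤ κ1 * Real.log (1 + X))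
    (hκ0 : 0 ≤ κ1)
    (hG : Real.exp G + 1 / 2 * (κ1 * G) ≤ 1 + (1 - a) * N * (2 + 2 * a - a ^ 2) / 2) :
    G ≤ Gall a ζ := by
  by_contra hcon
  push Not at hcon
  have h1 := Rw_rho' h
  rw [← exp_Gall h] at h1
  have h2 : ∑ k, (rho a ζ k - 1) ≤ κ1 * Gall a ζ := by
    unfold Gall
    rw [Finset.mul_sum]
    refine Finset.sum_le_sum fun k _ => sub_one_le_log (one_le_rho h k) ?_ hκ hκ0
    have := rho_le h k
    have := hX k
    linarith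
  have h3 : Real.exp (Gall a ζ) < Real.exp G := Real.exp_lt_exp.2 hcon
  have h4 : κ1 * Gall a ζ ≤ κ1 * G := mul_le_mul_of_nonneg_left hcon.le hκ0
  linarith

/-- (G4), tail, basic inequality: `E (1 + X0) + ½ ∑ (ρ - 1) ≥ 1 + A - ½ X0` -/
theorem tail_ge {M : ℕ} {a : ℝ} {ζ z : Fin (M + 1) → ℂ} (h : Fr (M + 1) a ζ z) {X0 : ℝ}
    (hX0 : (1 - a ^ 2) * ‖u a ζ 0‖ - (1 - a) ≤ X0) :
    1 + (1 - a) * (M + 1) * (2 + 2 * a - a ^ 2) / 2 - 1 / 2 * X0 ≤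
      Real.exp (GS a ζ) * (1 + X0) + 1 / 2 * ∑ k : Fin M, (rho a ζ k.succ - 1) := by
  have h1 := Rw_rho' h
  rw [Fin.sum_univ_succ, Fin.prod_univ_succ, ← exp_GS h] at h1
  push_cast at h1
  have h2 := rho_le h 0
  have h3 := Real.exp_pos (GS a ζ)
  nlinarith

/-- (G4), tail, simple form -/
theorem GS_ge {M : ℕ} {a : ℝ} {ζ z : Fin (M + 1) → ℂ} (h : Fr (M + 1) a ζ z) {X0 G : ℝ}
    (hX0 : (1 - a ^ 2) * ‖u a ζ 0‖ - (1 - a) ≤ X0) (hX : 0 ≤ X0)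
    (hG : Real.exp G * (3 + 2 * X0) ≤ 3 + (1 - a) * (M + 1) * (2 + 2 * a - a ^ 2) - X0) :
    G ≤ GS a ζ := by
  by_contra hcon
  push Not at hcon
  have h1 := tail_ge h hX0
  have h2 := sum_sub_one_le univ (fun k : Fin M => rho a ζ k.succ) fun k _ => one_le_rho h k.succ
  rw [← exp_GS h] at h2
  have h3 : Real.exp (GS a ζ) < Real.exp G := Real.exp_lt_exp.2 hcon
  nlinarith

/-- (G4), tail, with `κ₁` -/
theorem GS_ge' {M : ℕ} {a : ℝ} {ζ z : Fin (M + 1) → ℂ} (h : Fr (M + 1) a ζ z) {X0 X κ1 G : ℝ}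
    (hX0 : (1 - a ^ 2) * ‖u a ζ 0‖ - (1 - a) ≤ X0) (hX00 : 0 ≤ X0)
    (hX : ∀ k : Fin M, (1 - a ^ 2) * ‖u a ζ k.succ‖ - (1 - a) ≤ X)
    (hκ : X ≤ κ1 * Real.log (1 + X)) (hκ0 : 0 ≤ κ1)
    (hG : Real.exp G * (1 + X0) + 1 / 2 * (κ1 * G) ≤
      1 + (1 - a) * (M + 1) * (2 + 2 * a - a ^ 2) / 2 - 1 / 2 * X0) :
    G ≤ GS a ζ := by
  by_contra hcon
  push Not at hcon
  have h1 := tail_ge h hX0
  have h2 : ∑ k : Fin M, (rho a ζ k.succ - 1) ≤ κ1 * GS a ζ := by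
    unfold GS
    rw [Finset.mul_sum]
    refine Finset.sum_le_sum fun k _ => sub_one_le_log (one_le_rho h k.succ) ?_ hκ hκ0
    have := rho_le h k.succ
    have := hX k
    linarith
  have h3 : Real.exp (GS a ζ) < Real.exp G := Real.exp_lt_exp.2 hcon
  have h4 : κ1 * GS a ζ ≤ κ1 * G := mul_le_mul_of_nonneg_left hcon.le hκ0
  nlinarith

end G

/-! ### Bounds of `∑ ψ⁺` -/

theorem log_three_le : Real.log 3 ≤ 10 / 9 := by
  rw [Real.log_le_iff_le_exp (by norm_num)]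
  have h1 : Real.exp (10 / 9) = Real.exp 1 * Real.exp (1 / 9) := by
    rw [← Real.exp_add]; norm_num
  have h2 := Real.exp_one_gt_d9
  have h3 := Real.add_one_le_exp (1 / 9 : ℝ)
  rw [h1]
  nlinarith

theorem phi_deriv {w : ℝ} (hw : w ≠ 0) :
    HasDerivAt (fun w : ℝ => 2 - 3 * w⁻¹ + w⁻¹ ^ 2 - Real.log w)
      (-((w - 1) * (w - 2)) / w ^ 3) w := by
  have h1 := hasDerivAt_inv hw
  have h2 : HasDerivAt (fun w : ℝ => 2 - 3 * w⁻¹ + w⁻¹ ^ 2 - Real.log w)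
      (0 - 3 * (-(w ^ 2)⁻¹) + (2 : ℕ) * w⁻¹ ^ (2 - 1) * (-(w ^ 2)⁻¹) - w⁻¹) w :=
    (((hasDerivAt_const w (2:ℝ)).sub (h1.const_mul 3)).add (h1.pow 2)).sub
      (Real.hasDerivAt_log hw)
  refine h2.congr_deriv ?_
  simp only [Nat.add_one_sub_one, pow_one]
  field_simp
  push_cast
  ring

/-- `log w ≤ 2 - 3/w + 1/w²` on `[1,3]` -/
theorem phi_nonneg {w : ℝ} (h1 : 1 ≤ w) (h3 : w ≤ 3) :
    0 ≤ 2 - 3 * w⁻¹ + w⁻¹ ^ 2 - Real.log w := by
  rcases le_total w 2 with h2 | h2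
  · have hm : MonotoneOn (fun w : ℝ => 2 - 3 * w⁻¹ + w⁻¹ ^ 2 - Real.log w) (Set.Icc 1 2) := by
      refine monotoneOn_of_deriv_nonneg (convex_Icc 1 2) ?_ ?_ ?_
      · intro y hy
        exact (phi_deriv (by linarith [hy.1])).continuousAt.continuousWithinAt
      · intro y hy
        rw [interior_Icc] at hy
        exact (phi_deriv (by linarith [hy.1])).differentiableAt.differentiableWithinAt
      · intro y hy
        rw [interior_Icc] at hy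
        rw [(phi_deriv (by linarith [hy.1] : y ≠ 0)).deriv]
        have : 0 < y := by linarith [hy.1]
        refine div_nonneg ?_ (by positivity)
        nlinarith [hy.1, hy.2]
    have := hm (by constructor <;> norm_num : (1:ℝ) ∈ Set.Icc (1:ℝ) 2) ⟨h1, h2⟩ h1
    simp only [inv_one, one_pow, mul_one, Real.log_one, sub_zero] at this
    norm_num at this ⊢
    linarith
  · have hm : AntitoneOn (fun w : ℝ => 2 - 3 * w⁻¹ + w⁻¹ ^ 2 - Real.log w) (Set.Icc 2 3) := by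
      refine antitoneOn_of_deriv_nonpos (convex_Icc 2 3) ?_ ?_ ?_
      · intro y hy
        exact (phi_deriv (by linarith [hy.1])).continuousAt.continuousWithinAt
      · intro y hy
        rw [interior_Icc] at hy
        exact (phi_deriv (by linarith [hy.1])).differentiableAt.differentiableWithinAt
      · intro y hy
        rw [interior_Icc] at hy
        rw [(phi_deriv (by linarith [hy.1] : y ≠ 0)).deriv]
        have : 0 < y := by linarith [hy.1]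
        refine div_nonpos_of_nonpos_of_nonneg ?_ (by positivity)
        nlinarith [hy.1, hy.2]
    have := hm (⟨h2, h3⟩ : w ∈ Set.Icc (2:ℝ) 3) (by constructor <;> norm_num : (3:ℝ) ∈ Set.Icc (2:ℝ) 3) h3
    have hl := log_three_le
    norm_num at this ⊢
    linarith

theorem psi_deriv {w : ℝ} (hw : w ≠ 0) : HasDerivAt psi (w⁻¹ - (w ^ 2)⁻¹) w := by
  have h1 : HasDerivAt psi (w⁻¹ + -(w ^ 2)⁻¹) w :=
    ((Real.hasDerivAt_log hw).sub_const 1).add (hasDerivAt_inv hw)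
  exact h1.congr_deriv (by ring)

theorem psi_one : psi 1 = 0 := by simp [psi]

theorem psi_mono {w z : ℝ} (hw : 1 ≤ w) (hwz : w ≤ z) : psi w ≤ psi z := by
  have hm : MonotoneOn psi (Set.Ici 1) := by
    refine monotoneOn_of_deriv_nonneg (convex_Ici 1) ?_ ?_ ?_
    · intro y hy
      have : (1:ℝ) ≤ y := hy
      exact (psi_deriv (by linarith)).continuousAt.continuousWithinAt
    · intro y hy
      rw [interior_Ici] at hy
      have : (1:ℝ) < y := hy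
      exact (psi_deriv (by linarith)).differentiableAt.differentiableWithinAt
    · intro y hy
      rw [interior_Ici] at hy
      have : (1:ℝ) < y := hy
      rw [(psi_deriv (by linarith)).deriv]
      rw [sub_nonneg]
      apply inv_anti₀ (by linarith)
      nlinarith
  exact hm hw (hw.trans hwz) hwz

/-- `ψ(w)/(w - 1)` is nondecreasing on `[1,3]` -/
theorem psi_ratio1 {w z : ℝ} (hw : 1 ≤ w) (hwz : w ≤ z) (hz : z ≤ 3) :
    psi w * (z - 1) ≤ psi z * (w - 1) := by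
  rcases eq_or_lt_of_le hw with h1 | h1
  · rw [← h1, psi_one]
    simp
  have hm : MonotoneOn (fun y => psi y / (y - 1)) (Set.Icc w z) := by
    refine monotoneOn_of_deriv_nonneg (convex_Icc w z) ?_ ?_ ?_
    · intro y hy
      have hy1 : 1 < y := lt_of_lt_of_le h1 hy.1
      exact ((psi_deriv (by linarith)).continuousAt.div
        (by fun_prop) (by linarith)).continuousWithinAt
    · intro y hy
      rw [interior_Icc] at hy
      have hy1 : 1 < y := h1.trans hy.1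
      exact ((psi_deriv (by linarith)).div ((hasDerivAt_id y).sub_const 1)
        (by simp; linarith)).differentiableAt.differentiableWithinAt
    · intro y hy
      rw [interior_Icc] at hy
      have hy1 : 1 < y := h1.trans hy.1
      have hd := (psi_deriv (by linarith : y ≠ 0)).div ((hasDerivAt_id y).sub_const 1)
        (by simp; linarith : id y - 1 ≠ 0)
      have hd' : deriv (fun y => psi y / (y - 1)) y = ((y⁻¹ - (y ^ 2)⁻¹) * (id y - 1) - psi y * 1) /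
          (id y - 1) ^ 2 := hd.deriv
      rw [hd']
      refine div_nonneg ?_ (sq_nonneg _)
      have := phi_nonneg hy1.le (hy.2.le.trans hz)
      unfold psi
      simp only [id]
      have hy0 : y ≠ 0 := by linarith
      have e : (y⁻¹ - (y ^ 2)⁻¹) * (y - 1) - (Real.log y - 1 + y⁻¹) * 1 =
          2 - 3 * y⁻¹ + y⁻¹ ^ 2 - Real.log y := by
        field_simp
        ring
      rw [e]
      exact this
  have h2 := hm (Set.left_mem_Icc.2 hwz) (Set.right_mem_Icc.2 hwz) hwz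
  simp only at h2
  rw [div_le_div_iff₀ (by linarith) (by linarith)] at h2
  exact h2

/-- `ψ(w)/(w - z₀)` is nondecreasing on `[1,3]` -/
theorem psi_ratio {w z z0 : ℝ} (hw : 1 ≤ w) (hwz : w ≤ z) (hz : z ≤ 3) (hz0 : z0 ≤ 1) :
    psi w * (z - z0) ≤ psi z * (w - z0) := by
  have h1 := psi_ratio1 hw hwz hz
  have h2 := psi_mono hw hwz
  nlinarith

/-- bound of `∑ ψ⁺` by the first moment -/
theorem sum_psip_le {ι : Type} (I : Finset ι) (w : ι → ℝ) {z z0 : ℝ} (h0 : ∀ k ∈ I, z0 ≤ w k)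
    (hw : ∀ k ∈ I, w k ≤ z) (hz1 : 1 ≤ z) (hz : z ≤ 3) (hz0 : z0 ≤ 1) (hzz : z0 < z) :
    ∑ k ∈ I, psip (w k) ≤ psi z / (z - z0) * ∑ k ∈ I, (w k - z0) := by
  rw [Finset.mul_sum]
  refine Finset.sum_le_sum fun k hk => ?_
  have hp : 0 ≤ psi z := psi_nonneg (by linarith)
  unfold psip
  split_ifs with h
  · rw [div_mul_eq_mul_div, le_div_iff₀ (by linarith)]
    exact psi_ratio h (hw k hk) hz hz0
  · have := h0 k hk
    exact mul_nonneg (div_nonneg hp (by linarith)) (by linarith)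

/-- bound of `∑ ψ⁺` by `Δ` -/
theorem sum_psip_le' {ι : Type} (I : Finset ι) (t : ι → ℝ) (ht : ∀ k ∈ I, 0 < t k) {w s : ℝ}
    (hs0 : 0 ≤ s)
    (hs : ∀ y : ℝ, 0 < y → 1 ≤ w * y → psi (w * y) ≤ s * (y - 1 - Real.log y)) :
    ∑ k ∈ I, psip (w * t k) ≤ s * ∑ k ∈ I, (t k - 1 - Real.log (t k)) := by
  rw [Finset.mul_sum]
  refine Finset.sum_le_sum fun k hk => ?_
  unfold psip
  split_ifs with h
  · exact hs _ (ht k hk) h
  · have := Real.log_le_sub_one_of_pos (ht k hk)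
    exact mul_nonneg hs0 (by linarith)

/-! ### (G3) for frames -/

section G3

theorem Dall_ge {N : ℕ} {a : ℝ} {ζ z : Fin N → ℂ} (h : Fr N a ζ z) {l Ψ G : ℝ} (hl : 0 < l)
    (hG : G ≤ Gall a ζ) (hΨ : ∑ k, psip (l * (1 - a ^ 2) * ‖u a ζ k‖) ≤ Ψ) :
    l * (G - 1 / 2 * Ψ) ≤ Dall a ζ := by
  have h1 := sum_D_ge univ (fun k => ‖u a ζ k‖) (fun k => ‖1 - (a : ℂ) * u a ζ k‖)
    (fun k _ => norm_pos_iff.2 (h.u_ne k)) (fun k _ => norm_nonneg _) (fun k _ => h.gl k)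
    h.m_pos hl
  simp only [← log_rho] at h1
  refine le_trans ?_ h1
  refine mul_le_mul_of_nonneg_left ?_ hl.le
  have : ∑ k, Real.log (rho a ζ k) = Gall a ζ := rfl
  linarith

theorem DS_ge {M : ℕ} {a : ℝ} {ζ z : Fin (M + 1) → ℂ} (h : Fr (M + 1) a ζ z) {l Ψ G : ℝ}
    (hl : 0 < l) (hG : G ≤ GS a ζ)
    (hΨ : ∑ k : Fin M, psip (l * (1 - a ^ 2) * ‖ut a ζ k‖) ≤ Ψ) :
    l * (G - 1 / 2 * Ψ) ≤ DS a ζ := by
  have h1 := sum_D_ge univ (fun k : Fin M => ‖ut a ζ k‖) (fun k => ‖vt a ζ k‖)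
    (fun k _ => norm_pos_iff.2 (h.u_ne k.succ)) (fun k _ => norm_nonneg _)
    (fun k _ => h.gl k.succ) h.m_pos hl
  have e : ∀ k : Fin M, 1 / 2 * Real.log (1 + (1 - a ^ 2) * (‖ut a ζ k‖ ^ 2 - ‖vt a ζ k‖ ^ 2)) =
      Real.log (rho a ζ k.succ) := fun k => (log_rho a ζ k.succ).symm
  simp only [e] at h1
  refine le_trans ?_ h1
  refine mul_le_mul_of_nonneg_left ?_ hl.le
  have : ∑ k : Fin M, Real.log (rho a ζ k.succ) = GS a ζ := rfl
  linarith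

/-- `x t - (1 - a) ≥ 0` -/
theorem xt_ge {N : ℕ} {a : ℝ} {ζ z : Fin N → ℂ} (h : Fr N a ζ z) (k : Fin N) :
    1 - a ≤ (1 - a ^ 2) * ‖u a ζ k‖ := by
  have ha0 := h.a0
  have ha1 := h.a1
  have h1 := h.gl k
  have e := norm_sub_norm_le (1 : ℂ) ((a : ℂ) * u a ζ k)
  rw [norm_one, norm_mul, Complex.norm_real, Real.norm_of_nonneg ha0.le] at e
  have h2 : 1 ≤ (1 + a) * ‖u a ζ k‖ := by linarith
  nlinarith

/-- lower bound of `D_S`: first moment form.  `T ≥ x t_k` on the tail, `1 ≤ z ≤ 3`,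
`z (1 - a) ≤ T`. -/
theorem DS_ge_T {M : ℕ} {a : ℝ} {ζ z' : Fin (M + 1) → ℂ} (h : Fr (M + 1) a ζ z')
    {T z G : ℝ} (hT : ∀ k : Fin M, (1 - a ^ 2) * ‖ut a ζ k‖ ≤ T) (hTb : 1 - a < T) (hz1 : 1 ≤ z)
    (hz3 : z ≤ 3) (hzb : z * (1 - a) ≤ T) (hG : G ≤ GS a ζ) :
    z / T * (G - 1 / 2 * (psi z * (((1 - a ^ 2) * (M + 1 - ‖u a ζ 0‖) - M * (1 - a)) /
      (T - (1 - a))))) ≤ DS a ζ := by
  have ha1 := h.a1
  have hT0 : 0 < T := by linarith
  have hz0 : 0 < z := by linarith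
  refine DS_ge h (div_pos hz0 hT0) hG ?_
  have h1 := sum_psip_le univ (fun k : Fin M => z / T * (1 - a ^ 2) * ‖ut a ζ k‖) (z := z)
    (z0 := z / T * (1 - a)) (fun k _ => by
      have := xt_ge h k.succ
      have h2 : 0 < z / T := div_pos hz0 hT0
      have h3 : (1 - a) ≤ (1 - a ^ 2) * ‖ut a ζ k‖ := this
      rw [mul_assoc]
      exact mul_le_mul_of_nonneg_left h3 h2.le) (fun k _ => by
      have h2 : 0 < z / T := div_pos hz0 hT0
      rw [mul_assoc]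
      calc z / T * ((1 - a ^ 2) * ‖ut a ζ k‖) ≤ z / T * T :=
            mul_le_mul_of_nonneg_left (hT k) h2.le
        _ = z := by field_simp) hz1 hz3
    (by
      rw [div_mul_eq_mul_div, div_le_one hT0]
      exact hzb)
    (by
      rw [div_mul_eq_mul_div, div_lt_iff₀ hT0]
      nlinarith)
  refine h1.trans (le_of_eq ?_)
  have e1 : ∑ k : Fin M, (z / T * (1 - a ^ 2) * ‖ut a ζ k‖ - z / T * (1 - a)) =
      z / T * ((1 - a ^ 2) * (M + 1 - ‖u a ζ 0‖) - M * (1 - a)) := by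
    rw [Finset.sum_sub_distrib, ← Finset.mul_sum, mean_tail h]
    simp only [Finset.sum_const, Finset.card_univ, Fintype.card_fin, nsmul_eq_mul]
    ring
  rw [e1]
  have e2 : z - z / T * (1 - a) = z / T * (T - (1 - a)) := by
    field_simp
  rw [e2]
  have h4 : T - (1 - a) ≠ 0 := by linarith
  field_simp

/-- the same for all indices -/
theorem Dall_ge_T {N : ℕ} {a : ℝ} {ζ z' : Fin N → ℂ} (h : Fr N a ζ z')
    {T z G : ℝ} (hT : ∀ k, (1 - a ^ 2) * ‖u a ζ k‖ ≤ T) (hTb : 1 - a < T) (hz1 : 1 ≤ z)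
    (hz3 : z ≤ 3) (hzb : z * (1 - a) ≤ T) (hG : G ≤ Gall a ζ) :
    z / T * (G - 1 / 2 * (psi z * (N * (a * (1 - a)) / (T - (1 - a))))) ≤ Dall a ζ := by
  have ha1 := h.a1
  have hT0 : 0 < T := by linarith
  have hz0 : 0 < z := by linarith
  refine Dall_ge h (div_pos hz0 hT0) hG ?_
  have h1 := sum_psip_le univ (fun k => z / T * (1 - a ^ 2) * ‖u a ζ k‖) (z := z)
    (z0 := z / T * (1 - a)) (fun k _ => by
      have h3 := xt_ge h k
      have h2 : 0 < z / T := div_pos hz0 hT0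
      rw [mul_assoc]
      exact mul_le_mul_of_nonneg_left h3 h2.le) (fun k _ => by
      have h2 : 0 < z / T := div_pos hz0 hT0
      rw [mul_assoc]
      calc z / T * ((1 - a ^ 2) * ‖u a ζ k‖) ≤ z / T * T :=
            mul_le_mul_of_nonneg_left (hT k) h2.le
        _ = z := by field_simp) hz1 hz3
    (by
      rw [div_mul_eq_mul_div, div_le_one hT0]
      exact hzb)
    (by
      rw [div_mul_eq_mul_div, div_lt_iff₀ hT0]
      nlinarith)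
  refine h1.trans (le_of_eq ?_)
  have e1 : ∑ k, (z / T * (1 - a ^ 2) * ‖u a ζ k‖ - z / T * (1 - a)) =
      z / T * (N * (a * (1 - a))) := by
    rw [Finset.sum_sub_distrib, ← Finset.mul_sum, h.mean]
    simp only [Finset.sum_const, Finset.card_univ, Fintype.card_fin, nsmul_eq_mul]
    ring
  rw [e1]
  have e2 : z - z / T * (1 - a) = z / T * (T - (1 - a)) := by
    field_simp
  rw [e2]
  have h4 : T - (1 - a) ≠ 0 := by linarith
  field_simp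

theorem sum_g {N : ℕ} {a : ℝ} {ζ z : Fin N → ℂ} (h : Fr N a ζ z) :
    ∑ k, (‖u a ζ k‖ - 1 - Real.log ‖u a ζ k‖) = Del a ζ := by
  unfold Del
  rw [Finset.sum_sub_distrib, Finset.sum_sub_distrib, h.mean]
  simp

/-- lower bound of `D_S`: `Δ` form (`w ≤ 1`, `ψ(w y) ≤ s g(y)`) -/
theorem DS_ge_Del {M : ℕ} {a : ℝ} {ζ z : Fin (M + 1) → ℂ} (h : Fr (M + 1) a ζ z)
    {w s G : ℝ} (hw : 0 < w) (hs0 : 0 ≤ s)
    (hs : ∀ y : ℝ, 0 < y → 1 ≤ w * y → psi (w * y) ≤ s * (y - 1 - Real.log y))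
    (hG : G ≤ GS a ζ) :
    w / (1 - a ^ 2) * (G - 1 / 2 * (s * (Del a ζ - (‖u a ζ 0‖ - 1 - Real.log ‖u a ζ 0‖)))) ≤
      DS a ζ := by
  have hx := h.m_pos
  refine DS_ge h (div_pos hw hx) hG ?_
  have e : ∀ k : Fin M, w / (1 - a ^ 2) * (1 - a ^ 2) * ‖ut a ζ k‖ = w * ‖ut a ζ k‖ := fun k => by
    field_simp
  simp only [e]
  refine (sum_psip_le' univ (fun k : Fin M => ‖ut a ζ k‖)
    (fun k _ => norm_pos_iff.2 (h.u_ne k.succ)) hs0 hs).trans (le_of_eq ?_)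
  congr 1
  have h1 := sum_g h
  rw [Fin.sum_univ_succ] at h1
  have h2 : ∑ k : Fin M, (‖ut a ζ k‖ - 1 - Real.log ‖ut a ζ k‖) =
      ∑ k : Fin M, (‖u a ζ k.succ‖ - 1 - Real.log ‖u a ζ k.succ‖) := rfl
  rw [h2]
  linarith

/-- lower bound of `D_all`: `Δ` form -/
theorem Dall_ge_Del {N : ℕ} {a : ℝ} {ζ z : Fin N → ℂ} (h : Fr N a ζ z)
    {w s G : ℝ} (hw : 0 < w) (hs0 : 0 ≤ s)
    (hs : ∀ y : ℝ, 0 < y → 1 ≤ w * y → psi (w * y) ≤ s * (y - 1 - Real.log y))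
    (hG : G ≤ Gall a ζ) :
    w / (1 - a ^ 2) * (G - 1 / 2 * (s * Del a ζ)) ≤ Dall a ζ := by
  have hx := h.m_pos
  refine Dall_ge h (div_pos hw hx) hG ?_
  have e : ∀ k, w / (1 - a ^ 2) * (1 - a ^ 2) * ‖u a ζ k‖ = w * ‖u a ζ k‖ := fun k => by
    field_simp
  simp only [e]
  refine (sum_psip_le' univ (fun k => ‖u a ζ k‖)
    (fun k _ => norm_pos_iff.2 (h.u_ne k)) hs0 hs).trans (le_of_eq ?_)
  rw [sum_g h]

end G3

end Pool.Agent.Lib.MP_172a45_an.L
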