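import Pool.Agent.Lib.MP_172a45_an.L.F0
import Pool.Agent.Lib.MP_172a45_an.L.Gam
import Pool.Agent.Lib.MP_172a45_an.F.H69.Phase

set_option autoImplicit false

/-!
# `∫ q ≥ exp(-Δ) J`, `J = ∫ exp(u Δ) u^D du ≥ exp(Δ (D+1)/(D+2)) / (D+1)`
-/

namespace Pool.Agent.Lib.MP_172a45_an.L

open Finset Real
open Pool.Agent.Lib.MP_172a45_an.F
open Pool.Agent.Lib.MP_172a45_an.F.Fr

variable {M : ℕ} {a : ℝ} {ζ z : Fin (M + 1) → ℂ}

/-- `‖u_k‖ ≥ 1/2` -/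
theorem norm_u_ge_half {N : ℕ} {a : ℝ} {ζ z : Fin N → ℂ} (h : Fr N a ζ z) (k : Fin N) :
    1 / 2 ≤ ‖u a ζ k‖ := by
  have h3 := xt_ge h k
  have ha0 := h.a0
  have ha1 := h.a1
  have h4 : (1 - a) * 1 ≤ (1 - a) * ((1 + a) * ‖u a ζ k‖) := by
    calc (1 - a) * 1 ≤ (1 - a ^ 2) * ‖u a ζ k‖ := by rw [mul_one]; exact h3
      _ = _ := by ring
  have h5 := le_of_mul_le_mul_left h4 (by linarith)
  have h6 : 0 ≤ ‖u a ζ k‖ := norm_nonneg _
  nlinarith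

/-- one factor -/
theorem F0_one {N : ℕ} {a : ℝ} {ζ z : Fin N → ℂ} (h : Fr N a ζ z) (k : Fin N) {s : ℝ}
    (hs0 : 0 ≤ s) (hs1 : s < 1) :
    ‖u a ζ k‖ ^ s * (1 - s) ^ (‖u a ζ k‖ - ‖1 - (a : ℂ) * u a ζ k‖) ≤
      TT ‖1 - (a : ℂ) * u a ζ k‖ s := by
  have ha0 := h.a0
  have ha1 := h.a1
  refine F0 (norm_u_ge_half h k) (norm_nonneg _) (h.gl k) ?_ hs0 hs1
  have e := norm_sub_norm_le (1 : ℂ) ((a : ℂ) * u a ζ k)
  rw [norm_one, norm_mul, Complex.norm_real, Real.norm_of_nonneg ha0.le] at e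
  have h6 : 0 ≤ ‖u a ζ k‖ := norm_nonneg _
  nlinarith

theorem Dall_nonneg {N : ℕ} {a : ℝ} {ζ z : Fin N → ℂ} (h : Fr N a ζ z) : 0 ≤ Dall a ζ :=
  Finset.sum_nonneg fun k _ => sub_nonneg.2 (h.gl k)

/-- the root is above `‖v_0‖` -/
theorem norm_v0_le_root (h : Fr (M + 1) a ζ z) (hM : 0 < M)
    (hmax : ∀ k, ‖u a ζ k‖ ≤ ‖u a ζ 0‖) {c0 : ℝ} (hc1 : 1 ≤ c0)
    (hroot : (c0 - 1) * (c0 - kap a ζ) = pr a ζ) : ‖1 - (a : ℂ) * u a ζ 0‖ ≤ c0 :=
  h.norm_v0_le hM hc1 ((H69.kap_le_one h hM hmax).trans hc1) hroot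

/-- pointwise: `q(s) ≥ exp(-s Δ) (1 - s)^D` -/
theorem q_ge (h : Fr (M + 1) a ζ z) (hM : 0 < M)
    (hmax : ∀ k, ‖u a ζ k‖ ≤ ‖u a ζ 0‖) {c0 : ℝ} (hc1 : 1 ≤ c0)
    (hroot : (c0 - 1) * (c0 - kap a ζ) = pr a ζ) {s : ℝ} (hs0 : 0 ≤ s) (hs1 : s < 1) :
    Real.exp (-(s * Del a ζ)) * (1 - s) ^ Dall a ζ ≤
      TT c0 s * ∏ k : Fin M, TT ‖vt a ζ k‖ s := by
  have p2 : 0 < 1 - s := by linarith
  have h1 : ∏ k : Fin (M + 1), (‖u a ζ k‖ ^ s *
      (1 - s) ^ (‖u a ζ k‖ - ‖1 - (a : ℂ) * u a ζ k‖)) ≤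
      ∏ k : Fin (M + 1), TT ‖1 - (a : ℂ) * u a ζ k‖ s :=
    Finset.prod_le_prod (fun k _ => mul_nonneg (Real.rpow_nonneg (norm_nonneg _) _)
      (Real.rpow_nonneg p2.le _)) fun k _ => F0_one h k hs0 hs1
  have e1 : ∏ k : Fin (M + 1), (‖u a ζ k‖ ^ s *
      (1 - s) ^ (‖u a ζ k‖ - ‖1 - (a : ℂ) * u a ζ k‖)) =
      Real.exp (-(s * Del a ζ)) * (1 - s) ^ Dall a ζ := by
    rw [Finset.prod_mul_distrib]
    congr 1
    · rw [Real.finsetProd_rpow _ _ fun k _ => norm_nonneg _, h.prod_t, ← Real.exp_mul]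
      congr 1
      ring
    · unfold Dall
      rw [Real.rpow_sum_of_pos p2]
  rw [e1, Fin.prod_univ_succ] at h1
  refine h1.trans ?_
  have h2 : TT ‖1 - (a : ℂ) * u a ζ 0‖ s ≤ TT c0 s := by
    unfold TT
    have := mul_le_mul_of_nonneg_left (norm_v0_le_root h hM hmax hc1 hroot) hs0
    linarith
  exact mul_le_mul_of_nonneg_right h2 (Finset.prod_nonneg fun k _ => by
    unfold TT
    have := mul_nonneg hs0 (norm_nonneg (1 - (a : ℂ) * u a ζ k.succ))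
    linarith)

/-- `∫ (1-s)^D e^{(1-s)Δ} ≥ e^{Δ (D+1)/(D+2)}/(D+1)` -/
theorem J_ge {D Δ : ℝ} (hD : 0 ≤ D) :
    Real.exp (Δ * ((D + 1) / (D + 2))) / (D + 1) ≤
      ∫ s in (0:ℝ)..1, Real.exp ((1 - s) * Δ) * (1 - s) ^ D := by
  have hc : Continuous fun s : ℝ => (1 - s) ^ D :=
    (continuous_const.sub continuous_id).rpow_const fun s => Or.inr hD
  set u0 := (D + 1) / (D + 2) with hu0
  have hI0 := int_rpow hD
  have hI1 := int_s_rpow hD
  have hi1 : IntervalIntegrable (fun s : ℝ => (1 - s) ^ D) MeasureTheory.volume 0 1 :=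
    hc.intervalIntegrable _ _
  have hi2 : IntervalIntegrable (fun s : ℝ => s * (1 - s) ^ D) MeasureTheory.volume 0 1 :=
    (continuous_id.mul hc).intervalIntegrable _ _
  have h1 : ∫ s in (0:ℝ)..1, Real.exp (Δ * u0) * (1 + Δ * (1 - u0)) * (1 - s) ^ D -
      Real.exp (Δ * u0) * Δ * (s * (1 - s) ^ D) ≤
      ∫ s in (0:ℝ)..1, Real.exp ((1 - s) * Δ) * (1 - s) ^ D := by
    refine intervalIntegral.integral_mono_on zero_le_one
      ((hi1.const_mul _).sub (hi2.const_mul _))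
      (((by fun_prop : Continuous fun s : ℝ => Real.exp ((1 - s) * Δ)).mul hc).intervalIntegrable
        _ _) ?_
    intro s hs
    have p : 0 ≤ (1 - s) ^ D := Real.rpow_nonneg (by linarith [hs.2]) _
    have h2 : Real.exp (Δ * u0) * (1 + ((1 - s) * Δ - Δ * u0)) ≤ Real.exp ((1 - s) * Δ) := by
      have h3 := Real.add_one_le_exp ((1 - s) * Δ - Δ * u0)
      have h4 : Real.exp ((1 - s) * Δ) =
          Real.exp (Δ * u0) * Real.exp ((1 - s) * Δ - Δ * u0) := by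
        rw [← Real.exp_add]; congr 1; ring
      rw [h4]
      exact mul_le_mul_of_nonneg_left (by linarith) (Real.exp_pos _).le
    have h5 := mul_le_mul_of_nonneg_right h2 p
    refine le_trans (le_of_eq ?_) h5
    ring
  refine le_trans (le_of_eq ?_) h1
  rw [intervalIntegral.integral_sub (hi1.const_mul _) (hi2.const_mul _),
    intervalIntegral.integral_const_mul, intervalIntegral.integral_const_mul, hI0, hI1, hu0]
  have d1 : D + 1 ≠ 0 := by linarith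
  have d2 : D + 2 ≠ 0 := by linarith
  field_simp
  ring

/-- **(F0)** -/
theorem F0_int (h : Fr (M + 1) a ζ z) (hM : 0 < M)
    (hmax : ∀ k, ‖u a ζ k‖ ≤ ‖u a ζ 0‖) {c0 : ℝ} (hc1 : 1 ≤ c0)
    (hroot : (c0 - 1) * (c0 - kap a ζ) = pr a ζ) :
    Real.exp (-Del a ζ) * (Real.exp (Del a ζ * ((Dall a ζ + 1) / (Dall a ζ + 2))) /
      (Dall a ζ + 1)) ≤ ∫ s in (0:ℝ)..1, TT c0 s * ∏ k : Fin M, TT ‖vt a ζ k‖ s := by
  have hD := Dall_nonneg h
  have hc : Continuous fun s : ℝ => (1 - s) ^ Dall a ζ :=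
    (continuous_const.sub continuous_id).rpow_const fun s => Or.inr hD
  have hTc : ∀ c : ℝ, Continuous (TT c) := fun c => by unfold TT; fun_prop
  have h1 : ∫ s in (0:ℝ)..1, Real.exp (-Del a ζ) *
      (Real.exp ((1 - s) * Del a ζ) * (1 - s) ^ Dall a ζ) ≤
      ∫ s in (0:ℝ)..1, TT c0 s * ∏ k : Fin M, TT ‖vt a ζ k‖ s := by
    refine intervalIntegral.integral_mono_on_of_le_Ioo zero_le_one
      ((continuous_const.mul ((by fun_prop :
        Continuous fun s : ℝ => Real.exp ((1 - s) * Del a ζ)).mul hc)).intervalIntegrable _ _)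
      (((hTc c0).mul (continuous_finsetProd _ fun k _ => hTc _)).intervalIntegrable _ _) ?_
    intro s hs
    have h2 := q_ge h hM hmax hc1 hroot hs.1.le hs.2
    refine le_trans (le_of_eq ?_) h2
    rw [← mul_assoc, ← Real.exp_add]
    congr 2
    ring
  rw [intervalIntegral.integral_const_mul] at h1
  exact (mul_le_mul_of_nonneg_left (J_ge hD) (Real.exp_pos _).le).trans h1

end Pool.Agent.Lib.MP_172a45_an.L
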