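import Pool.Agent.Lib.MP_172a45_an.L.Start

set_option autoImplicit false

/-!
# The budget criterion
-/

namespace Pool.Agent.Lib.MP_172a45_an.L

open Finset Real
open Pool.Agent.Lib.MP_172a45_an.F
open Pool.Agent.Lib.MP_172a45_an.F.Fr

/-- `w² ≤ 4 e^{w-2}` -/
theorem sq_le_four_exp {w : ℝ} (hw : 0 ≤ w) : w ^ 2 ≤ 4 * Real.exp (w - 2) := by
  have h1 : w / 2 ≤ Real.exp (w / 2 - 1) := by
    have := Real.add_one_le_exp (w / 2 - 1)
    linarith
  have h2 : (w / 2) ^ 2 ≤ Real.exp (w / 2 - 1) ^ 2 :=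
    pow_le_pow_left₀ (by linarith) h1 2
  have h3 : Real.exp (w / 2 - 1) ^ 2 = Real.exp (w - 2) := by
    rw [← Real.exp_nat_mul]
    congr 1
    push_cast
    ring
  rw [h3] at h2
  nlinarith

/-- the optimal loss for given `A`, `B` -/
noncomputable def LL (A B : ℝ) : ℝ := (max (2 * B - A) 0) ^ 2 / (4 * B)

theorem LL_nonneg {A B : ℝ} (hB : 0 < B) : 0 ≤ LL A B := by
  unfold LL
  positivity

theorem LL_zero {A B : ℝ} (h : 2 * B ≤ A) : LL A B = 0 := by
  unfold LL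
  rw [max_eq_right (by linarith)]
  simp

/-- monotone in `B` -/
theorem LL_mono {A B B' : ℝ} (hA : 0 ≤ A) (hB : 0 < B) (hBB : B ≤ B') : LL A B ≤ LL A B' := by
  rcases le_total (2 * B) A with h | h
  · rw [LL_zero h]
    exact LL_nonneg (by linarith)
  · unfold LL
    rw [max_eq_left (by linarith), max_eq_left (by linarith)]
    rw [div_le_div_iff₀ (by linarith) (by linarith)]
    have h1 : (2 * B' - A) ^ 2 * (4 * B) - (2 * B - A) ^ 2 * (4 * B') =
        4 * (B' - B) * (4 * B * B' - A ^ 2) := by ring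
    have h2 : A ^ 2 ≤ 4 * B * B' := by nlinarith
    have h3 : 0 ≤ 4 * (B' - B) * (4 * B * B' - A ^ 2) :=
      mul_nonneg (by linarith) (by linarith)
    linarith

section Budget

/-- `B(s)` -/
noncomputable def Bf (κ τ s : ℝ) : ℝ := κ * (1 + s * τ) / (TT κ s * (1 - s))

/-- `A(s)` -/
noncomputable def Af (p c0 s : ℝ) : ℝ := s * p / TT c0 s

/-- `Z(s)` -/
noncomputable def Zf (κ p c0 s : ℝ) : ℝ := s * p * (TT κ s * (1 - s)) / (2 * κ * TT c0 s)

/-- `U(s)` -/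
noncomputable def Uf (κ p c0 m s : ℝ) : ℝ :=
  4 * Real.exp (-1) * (κ / (TT κ s * (1 - s))) * (TT c0 s * Real.exp (-(m * s)) *
    Real.exp (-Zf κ p c0 s))

variable {κ τ p c0 : ℝ}

theorem TTκ_pos (hκ : 0 < κ) {s : ℝ} (hs0 : 0 ≤ s) (hs1 : s < 1) : 0 < TT κ s := by
  unfold TT
  rcases eq_or_lt_of_le hs0 with h | h
  · rw [← h]; norm_num
  · have := mul_pos h hκ
    linarith

theorem TTκ_le (hκ1 : κ ≤ 1) {s : ℝ} (hs0 : 0 ≤ s) : TT κ s ≤ 1 := by
  unfold TT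
  nlinarith

theorem TTc_pos (hc1 : 1 ≤ c0) {s : ℝ} (hs0 : 0 ≤ s) : 1 ≤ TT c0 s := by
  unfold TT
  nlinarith

theorem Bf_pos (hκ : 0 < κ) (hτ : 0 ≤ τ) {s : ℝ} (hs0 : 0 ≤ s) (hs1 : s < 1) :
    0 < Bf κ τ s := by
  unfold Bf
  have h1 := TTκ_pos hκ hs0 hs1
  have h2 : 0 < 1 - s := by linarith
  positivity

theorem Bf_mono (hκ : 0 < κ) (hκ1 : κ ≤ 1) (hτ : 0 ≤ τ) {s s' : ℝ} (hs0 : 0 ≤ s) (hss : s ≤ s')
    (hs1 : s' < 1) : Bf κ τ s ≤ Bf κ τ s' := by
  unfold Bf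
  have h1 := TTκ_pos hκ (hs0.trans hss) hs1
  have h2 : 0 < 1 - s' := by linarith
  have h3 : TT κ s' ≤ TT κ s := by
    unfold TT
    nlinarith
  have h4 : TT κ s' * (1 - s') ≤ TT κ s * (1 - s) :=
    mul_le_mul h3 (by linarith) h2.le (h1.le.trans h3)
  refine div_le_div₀ (by nlinarith [mul_nonneg (hs0.trans hss) hτ]) ?_ (by positivity) h4
  exact mul_le_mul_of_nonneg_left (by nlinarith) hκ.le

theorem Q_ge (hκ1 : κ ≤ 1) {s : ℝ} :
    1 - (1 + (1 - κ)) * s ≤ TT κ s * (1 - s) := by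
  unfold TT
  nlinarith [mul_nonneg (sub_nonneg.2 hκ1) (sq_nonneg s)]

/-- zero loss -/
theorem two_B_le (hκ : 0 < κ) (hκ1 : κ ≤ 1) (hc1 : 1 ≤ c0) (hp : 0 ≤ p) {s : ℝ}
    (hs0 : 0 ≤ s) (hs1 : s < 1)
    (hz : 2 * κ * (1 + s * τ) * TT c0 s ≤ s * p * (1 - (1 + (1 - κ)) * s)) :
    2 * Bf κ τ s ≤ Af p c0 s := by
  have h1 := TTκ_pos hκ hs0 hs1
  have h2 : 0 < 1 - s := by linarith
  have h3 := TTc_pos hc1 hs0
  have h4 : 0 < TT κ s * (1 - s) := by positivity
  have h5 := Q_ge hκ1 (s := s)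
  have h6 : s * p * (1 - (1 + (1 - κ)) * s) ≤ s * p * (TT κ s * (1 - s)) :=
    mul_le_mul_of_nonneg_left h5 (by positivity)
  unfold Bf Af
  rw [← mul_div_assoc, div_le_div_iff₀ h4 (by linarith)]
  linarith

/-- the concave quadratic -/
theorem hz_between (hκ : 0 < κ) (hκ1 : κ ≤ 1) (hτ : 0 ≤ τ) (hc1 : 1 ≤ c0) (hp : 0 ≤ p)
    {s1 sc s : ℝ} (h1 : s1 ≤ s) (h2 : s ≤ sc)
    (hz1 : 2 * κ * (1 + s1 * τ) * TT c0 s1 ≤ s1 * p * (1 - (1 + (1 - κ)) * s1))
    (hzc : 2 * κ * (1 + sc * τ) * TT c0 sc ≤ sc * p * (1 - (1 + (1 - κ)) * sc)) :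
    2 * κ * (1 + s * τ) * TT c0 s ≤ s * p * (1 - (1 + (1 - κ)) * s) := by
  rcases eq_or_lt_of_le (h1.trans h2) with h | h
  · have : s = s1 := le_antisymm (by linarith) h1
    rw [this]; exact hz1
  · have e : ∀ x : ℝ, 2 * κ * (1 + x * τ) * TT c0 x - x * p * (1 - (1 + (1 - κ)) * x) =
        2 * κ + (2 * κ * (τ + (c0 - 1)) - p) * x +
          (2 * κ * (τ * (c0 - 1)) + p * (1 + (1 - κ))) * x ^ 2 := by
      intro x; unfold TT; ring
    have hq : 0 ≤ 2 * κ * (τ * (c0 - 1)) + p * (1 + (1 - κ)) := by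
      have : 0 ≤ τ * (c0 - 1) := mul_nonneg hτ (by linarith)
      have h3 : 0 ≤ p * (1 + (1 - κ)) := mul_nonneg hp (by linarith)
      positivity
    set A2 := 2 * κ * (τ * (c0 - 1)) + p * (1 + (1 - κ)) with hA2
    set A1 := 2 * κ * (τ + (c0 - 1)) - p with hA1
    have e1 := e s1
    have e2 := e sc
    have e3 := e s
    have g1 : 2 * κ + A1 * s1 + A2 * s1 ^ 2 ≤ 0 := by linarith
    have g2 : 2 * κ + A1 * sc + A2 * sc ^ 2 ≤ 0 := by linarith
    have g3 : (2 * κ + A1 * s + A2 * s ^ 2) * (sc - s1) ≤ 0 := by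
      have e4 : (2 * κ + A1 * s + A2 * s ^ 2) * (sc - s1) =
          (2 * κ + A1 * s1 + A2 * s1 ^ 2) * (sc - s) + (2 * κ + A1 * sc + A2 * sc ^ 2) * (s - s1)
          - A2 * ((s - s1) * (sc - s) * (sc - s1)) := by ring
      rw [e4]
      have g5 := mul_nonpos_of_nonpos_of_nonneg g1 (sub_nonneg.2 h2)
      have g6 := mul_nonpos_of_nonpos_of_nonneg g2 (sub_nonneg.2 h1)
      have g7 : 0 ≤ A2 * ((s - s1) * (sc - s) * (sc - s1)) :=
        mul_nonneg hq (mul_nonneg (mul_nonneg (sub_nonneg.2 h1) (sub_nonneg.2 h2)) (by linarith))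
      linarith
    have g4 : 2 * κ + A1 * s + A2 * s ^ 2 ≤ 0 := by
      by_contra hcon
      push Not at hcon
      have := mul_pos hcon (sub_pos.2 h)
      linarith
    linarith

/-- the loss near `0` -/
theorem LL_start (hκ : 0 < κ) (hκ1 : κ ≤ 1) (hτ : 0 ≤ τ) (hc1 : 1 ≤ c0) (hp : 0 ≤ p) {s s1 : ℝ}
    (hs0 : 0 ≤ s) (hss : s ≤ s1) (hs1p : 0 < s1) (hs1 : s1 < 1)
    (hz1 : 2 * κ * (1 + s1 * τ) * TT c0 s1 ≤ s1 * p * (1 - (1 + (1 - κ)) * s1)) :
    LL (Af p c0 s) (Bf κ τ s) ≤ (s1 * p / (2 * TT c0 s1)) * (1 - s / s1) ^ 2 := by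
  have hB1 := two_B_le hκ hκ1 hc1 hp hs1p.le hs1 hz1
  have hBp := Bf_pos hκ hτ hs0 (lt_of_le_of_lt hss hs1)
  have hBp1 := Bf_pos hκ hτ hs1p.le hs1
  have hBm := Bf_mono hκ hκ1 hτ hs0 hss hs1
  have hT := TTc_pos hc1 hs0
  have hT1 := TTc_pos hc1 hs1p.le
  have hA0 : 0 ≤ Af p c0 s := by unfold Af; positivity
  set K := s1 * p / (2 * TT c0 s1) with hK
  have hK1 : Af p c0 s1 = 2 * K := by
    rw [hK]; unfold Af
    field_simp
  have hBK : Bf κ τ s ≤ K := by linarith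
  have hK0 : 0 < K := lt_of_lt_of_le hBp hBK
  refine (LL_mono hA0 hBp hBK).trans ?_
  -- `A(s) ≥ 2 K s/s₁`
  have hAs : 2 * K * (s / s1) ≤ Af p c0 s := by
    rw [← hK1]
    unfold Af
    have hp1 : 0 < TT c0 s := by linarith
    have hp2 : 0 < TT c0 s1 := by linarith
    have e : s1 * p / TT c0 s1 * (s / s1) = s * p / TT c0 s1 := by
      field_simp
    rw [e]
    refine div_le_div_of_nonneg_left (by positivity) hp1 ?_
    unfold TT
    nlinarith
  have h01 : s / s1 ≤ 1 := by rw [div_le_one hs1p]; exact hss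
  unfold LL
  rw [div_le_iff₀ (by linarith)]
  have h2 : max (2 * K - Af p c0 s) 0 ≤ 2 * K * (1 - s / s1) := by
    refine max_le (by linarith) ?_
    exact mul_nonneg (by linarith) (by linarith)
  calc (max (2 * K - Af p c0 s) 0) ^ 2 ≤ (2 * K * (1 - s / s1)) ^ 2 :=
        pow_le_pow_left₀ (le_max_right _ _) h2 2
    _ = _ := by ring

/-- the pointwise `U` bound (without the factor `TT c0 s`) -/
theorem PLL_le (hκ : 0 < κ) (hτ : 0 ≤ τ) (hc1 : 1 ≤ c0)
    {s m P : ℝ} (hs0 : 0 ≤ s) (hs1 : s < 1)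
    (hP : P ≤ (1 + s * τ) * Real.exp (-((m + τ) * s))) :
    TT c0 s * P * LL (Af p c0 s) (Bf κ τ s) ≤ Uf κ p c0 m s := by
  have h1 := TTκ_pos hκ hs0 hs1
  have h2 : 0 < 1 - s := by linarith
  have hT := TTc_pos hc1 hs0
  have hT0 : 0 < TT c0 s := by linarith
  set Q := TT κ s * (1 - s) with hQ
  have hQ0 : 0 < Q := by positivity
  have hy : 0 < 1 + s * τ := by positivity
  set Z := Zf κ p c0 s with hZ
  have hZe : Z = s * p * Q / (2 * κ * TT c0 s) := by rw [hZ, hQ]; rfl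
  have hB : Bf κ τ s = κ * (1 + s * τ) / Q := by rw [hQ]; rfl
  have hA : Af p c0 s = 2 * κ / Q * Z := by
    rw [hZe]; unfold Af
    field_simp
  have hL : LL (Af p c0 s) (Bf κ τ s) = κ / Q * (max (1 + s * τ - Z) 0) ^ 2 / (1 + s * τ) := by
    unfold LL
    rw [hA, hB]
    have e1 : 2 * (κ * (1 + s * τ) / Q) - 2 * κ / Q * Z = 2 * κ / Q * (1 + s * τ - Z) := by ring
    have e2 : max (2 * κ / Q * (1 + s * τ - Z)) 0 = 2 * κ / Q * max (1 + s * τ - Z) 0 := by
      rw [mul_max_of_nonneg _ _ (by positivity : 0 ≤ 2 * κ / Q), mul_zero]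
    rw [e1, e2]
    field_simp
    ring
  rw [hL]
  have hw : (max (1 + s * τ - Z) 0) ^ 2 ≤ 4 * Real.exp (-1) * (Real.exp (-Z) *
      Real.exp (s * τ)) := by
    rcases le_total (1 + s * τ - Z) 0 with h | h
    · rw [max_eq_right h]
      have := Real.exp_pos (-1)
      have := Real.exp_pos (-Z)
      have := Real.exp_pos (s * τ)
      have h0 : (0:ℝ) ^ 2 = 0 := by norm_num
      rw [h0]
      positivity
    · rw [max_eq_left h]
      refine (sq_le_four_exp h).trans (le_of_eq ?_)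
      rw [← Real.exp_add, mul_assoc, ← Real.exp_add]
      congr 2
      ring
  have hL0 : 0 ≤ κ / Q * (max (1 + s * τ - Z) 0) ^ 2 / (1 + s * τ) := by positivity
  calc TT c0 s * P * (κ / Q * (max (1 + s * τ - Z) 0) ^ 2 / (1 + s * τ)) ≤
        TT c0 s * ((1 + s * τ) * Real.exp (-((m + τ) * s))) *
          (κ / Q * (max (1 + s * τ - Z) 0) ^ 2 / (1 + s * τ)) :=
        mul_le_mul_of_nonneg_right (mul_le_mul_of_nonneg_left hP hT0.le) hL0
    _ = κ / Q * (TT c0 s * Real.exp (-((m + τ) * s))) * (max (1 + s * τ - Z) 0) ^ 2 := by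
        field_simp
    _ ≤ κ / Q * (TT c0 s * Real.exp (-((m + τ) * s))) *
        (4 * Real.exp (-1) * (Real.exp (-Z) * Real.exp (s * τ))) :=
        mul_le_mul_of_nonneg_left hw (by positivity)
    _ = Uf κ p c0 m s := by
        unfold Uf
        rw [← hQ, ← hZ]
        have e : Real.exp (-((m + τ) * s)) * Real.exp (s * τ) = Real.exp (-(m * s)) := by
          rw [← Real.exp_add]
          congr 1
          ring
        calc κ / Q * (TT c0 s * Real.exp (-((m + τ) * s))) *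
            (4 * Real.exp (-1) * (Real.exp (-Z) * Real.exp (s * τ))) =
            4 * Real.exp (-1) * (κ / Q) * (TT c0 s *
              (Real.exp (-((m + τ) * s)) * Real.exp (s * τ)) * Real.exp (-Z)) := by ring
          _ = _ := by rw [e]

theorem TT_cont' (c : ℝ) : Continuous fun s => TT c s := TT_cont c

theorem Uf_cont (hκ : 0 < κ) (hc1 : 1 ≤ c0) {m sc se : ℝ} (hsc : 0 ≤ sc) (hse : se < 1) :
    ContinuousOn (Uf κ p c0 m) (Set.Icc sc se) := by
  have h1 : ∀ s ∈ Set.Icc sc se, TT κ s * (1 - s) ≠ 0 := fun s hs => by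
    have h1 := TTκ_pos hκ (hsc.trans hs.1) (lt_of_le_of_lt hs.2 hse)
    have h2 : 0 < 1 - s := by linarith [hs.2]
    positivity
  have h2 : ∀ s ∈ Set.Icc sc se, 2 * κ * TT c0 s ≠ 0 := fun s hs => by
    have h1 := TTc_pos hc1 (hsc.trans hs.1)
    positivity
  have hc1' : Continuous fun s => TT κ s * (1 - s) := (TT_cont κ).mul (by fun_prop)
  have hc2' : Continuous fun s : ℝ => s * p * (TT κ s * (1 - s)) := by
    refine Continuous.mul (by fun_prop) hc1'
  unfold Uf Zf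
  refine ContinuousOn.mul (ContinuousOn.mul continuousOn_const
    (continuousOn_const.div hc1'.continuousOn h1)) (ContinuousOn.mul ?_ ?_)
  · exact ((TT_cont c0).mul (by fun_prop)).continuousOn
  · refine ContinuousOn.rexp (ContinuousOn.neg ?_)
    exact hc2'.continuousOn.div ((continuous_const.mul (TT_cont c0)).continuousOn) h2

theorem LL_cont (hκ : 0 < κ) (hτ : 0 ≤ τ) (hc1 : 1 ≤ c0) {se : ℝ} (hse : se < 1) :
    ContinuousOn (fun s => LL (Af p c0 s) (Bf κ τ s)) (Set.Icc 0 se) := by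
  have h1 : ∀ s ∈ Set.Icc 0 se, TT κ s * (1 - s) ≠ 0 := fun s hs => by
    have h1 := TTκ_pos hκ hs.1 (lt_of_le_of_lt hs.2 hse)
    have h2 : 0 < 1 - s := by linarith [hs.2]
    positivity
  have h2 : ∀ s ∈ Set.Icc 0 se, TT c0 s ≠ 0 := fun s hs => by
    have h1 := TTc_pos hc1 hs.1
    linarith
  have hA : ContinuousOn (fun s => Af p c0 s) (Set.Icc 0 se) := by
    unfold Af
    exact (Continuous.continuousOn (by fun_prop)).div (TT_cont c0).continuousOn h2
  have hB : ContinuousOn (fun s => Bf κ τ s) (Set.Icc 0 se) := by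
    unfold Bf
    exact (Continuous.continuousOn (by fun_prop)).div
      ((TT_cont κ).mul (by fun_prop)).continuousOn h1
  have hB0 : ∀ s ∈ Set.Icc 0 se, 4 * Bf κ τ s ≠ 0 := fun s hs => by
    have := Bf_pos hκ hτ hs.1 (lt_of_le_of_lt hs.2 hse)
    positivity
  unfold LL
  exact ((((continuousOn_const.mul hB).sub hA).sup continuousOn_const).pow 2).div
    (continuousOn_const.mul hB) hB0

/-- `∫ (1 - s/s₁)² = s₁/3` -/
theorem int_sq {s1 : ℝ} (hs1 : 0 < s1) : ∫ s in (0:ℝ)..s1, (1 - s / s1) ^ 2 = s1 / 3 := by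
  have hd : ∀ s ∈ Set.uIcc (0:ℝ) s1, HasDerivAt (fun s : ℝ => -(s1 / 3) * (1 - s / s1) ^ 3)
      ((1 - s / s1) ^ 2) s := by
    intro s _
    have h := (((hasDerivAt_id s).div_const s1).const_sub 1).pow 3
    have h2 := h.const_mul (-(s1 / 3))
    refine h2.congr_deriv ?_
    simp only [id]
    generalize (1 - s / s1) = w
    field_simp
    norm_num
  rw [intervalIntegral.integral_eq_sub_of_hasDerivAt hd
    (Continuous.intervalIntegrable (by fun_prop) _ _)]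
  rw [div_self hs1.ne']
  ring

end Budget

/-- **The budget criterion.** -/
theorem budget {M : ℕ} {a : ℝ} {ζ z : Fin (M + 1) → ℂ} (h : Fr (M + 1) a ζ z) (hM : 0 < M)
    (hmax : ∀ k, ‖u a ζ k‖ ≤ ‖u a ζ 0‖) {c0 : ℝ} (hc1 : 1 ≤ c0)
    (hroot : (c0 - 1) * (c0 - kap a ζ) = pr a ζ) (hκ0 : 0 < kap a ζ) {Y s1 sc se e0 : ℝ}
    (hY : ∀ k, ‖vt a ζ k‖ ≤ 1 + Y) (hY0 : 0 ≤ Y) (hs1 : 0 < s1) (h1c : s1 ≤ sc) (hce : sc ≤ se)
    (hse : se < 1) (hw : 0 < se ^ 2 + se - 1)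
    (hz1 : 2 * kap a ζ * (1 + s1 * Y) * TT c0 s1 ≤
      s1 * pr a ζ * (1 - (1 + (1 - kap a ζ)) * s1))
    (hzc : 2 * kap a ζ * (1 + sc * Y) * TT c0 sc ≤
      sc * pr a ζ * (1 - (1 + (1 - kap a ζ)) * sc))
    (he0 : c0 - 1 - M * (1 - kap a ζ) ≤ e0) (he00 : 0 ≤ e0) :
    Gam a ζ c0 * (∫ s in (0:ℝ)..1, TT c0 s * ∏ k, TT ‖vt a ζ k‖ s) ≤ a * ∏ k, ‖u a ζ k‖ +
      Real.exp (e0 * s1) * (s1 * pr a ζ / (2 * TT c0 s1)) * (s1 / 3) +
      (∫ s in sc..se, Uf (kap a ζ) (pr a ζ) c0 (M * (1 - kap a ζ)) s) +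
      2 * se / (se ^ 2 + se - 1) * (4 * Real.exp (-1) / se) *
        (c0 * Real.exp (-(M * (1 - kap a ζ) * se))) := by
  set κ := kap a ζ with hκ
  set p := pr a ζ with hp
  set m := M * (1 - κ) with hm
  have hκ1 : κ ≤ 1 := H69.kap_le_one h hM hmax
  have hp0 : 0 ≤ p := by
    rw [hp]; unfold pr
    positivity
  have hse0 : 0 < se := lt_of_lt_of_le hs1 (h1c.trans hce)
  have hsc0 : 0 < sc := lt_of_lt_of_le hs1 h1c
  obtain ⟨τ, hτ0, hτ, hτe⟩ := exists_tau hM a ζ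
  have hτY : τ ≤ Y := by
    rcases hτe with h | ⟨k, hk⟩
    · rw [h]; exact hY0
    · have := hY k
      linarith
  have hs11 : s1 < 1 := lt_of_le_of_lt (h1c.trans hce) hse
  -- conditions for `τ`
  have hz1' : 2 * κ * (1 + s1 * τ) * TT c0 s1 ≤ s1 * p * (1 - (1 + (1 - κ)) * s1) := by
    refine le_trans ?_ hz1
    have h3 := TTc_pos hc1 hs1.le
    refine mul_le_mul_of_nonneg_right (mul_le_mul_of_nonneg_left ?_ (by linarith)) (by linarith)
    have := mul_le_mul_of_nonneg_left hτY hs1.le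
    linarith
  have hzc' : 2 * κ * (1 + sc * τ) * TT c0 sc ≤ sc * p * (1 - (1 + (1 - κ)) * sc) := by
    refine le_trans ?_ hzc
    have h3 := TTc_pos hc1 hsc0.le
    refine mul_le_mul_of_nonneg_right (mul_le_mul_of_nonneg_left ?_ (by linarith)) (by linarith)
    have := mul_le_mul_of_nonneg_left hτY hsc0.le
    linarith
  set q : ℝ → ℝ := fun s => TT c0 s * ∏ k : Fin M, TT ‖vt a ζ k‖ s with hq
  have hqc : Continuous q := q_cont c0 a ζ
  set L : ℝ → ℝ := fun s => LL (Af p c0 s) (Bf κ τ s) with hL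
  have hLc : ContinuousOn L (Set.Icc 0 se) := LL_cont hκ0 hτ0 hc1 hse
  have hqLc : ContinuousOn (fun s => q s * L s) (Set.Icc 0 se) := hqc.continuousOn.mul hLc
  have hi : ∀ x y : ℝ, 0 ≤ x → x ≤ y → y ≤ se →
      IntervalIntegrable (fun s => q s * L s) MeasureTheory.volume x y := by
    intro x y hx hxy hy
    refine ContinuousOn.intervalIntegrable (hqLc.mono ?_)
    rw [Set.uIcc_of_le hxy]
    exact Set.Icc_subset_Icc hx hy
  have key := H69.frame_phase2 h hM hmax hc1 hroot hτ0 hτ hse0 hse hw L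
    (hi 0 se le_rfl hse0.le le_rfl) (fun s hs => by
      left
      refine ⟨Bf κ τ s, Bf_pos hκ0 hτ0 hs.1.le (lt_of_le_of_lt hs.2 hse), le_rfl, ?_⟩
      have hB := Bf_pos hκ0 hτ0 hs.1.le (lt_of_le_of_lt hs.2 hse)
      show (max (2 * Bf κ τ s - Af p c0 s) 0) ^ 2 ≤ 4 * Bf κ τ s * LL (Af p c0 s) (Bf κ τ s)
      unfold LL
      rw [mul_div_cancel₀]
      positivity)
  have hP0 : ∀ s : ℝ, 0 ≤ s → s ≤ 1 → 0 ≤ ∏ k : Fin M, TT ‖vt a ζ k‖ s := fun s h0 h1 =>
    Finset.prod_nonneg fun k _ => TT_nonneg (norm_nonneg _) h0 h1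
  have hPτ : ∀ s : ℝ, 0 ≤ s → s ≤ 1 → ∏ k : Fin M, TT ‖vt a ζ k‖ s ≤
      (1 + s * τ) * Real.exp (-((m + τ) * s)) := fun s h0 h1 => P_le_tau hM h0 h1 hτe
  -- split the loss
  have hsplit : (∫ s in (0:ℝ)..se, q s * L s) = (∫ s in (0:ℝ)..s1, q s * L s) +
      (∫ s in s1..sc, q s * L s) + ∫ s in sc..se, q s * L s := by
    rw [intervalIntegral.integral_add_adjacent_intervals (hi 0 s1 le_rfl hs1.le
      (h1c.trans hce)) (hi s1 sc hs1.le h1c hce), intervalIntegral.integral_add_adjacent_intervals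
      (hi 0 sc le_rfl hsc0.le hce) (hi sc se hsc0.le hce le_rfl)]
  have hI2 : ∫ s in s1..sc, q s * L s = 0 := by
    rw [intervalIntegral.integral_congr (g := fun _ => (0:ℝ)) ?_]
    · simp
    · intro s hs
      rw [Set.uIcc_of_le h1c] at hs
      have hs0 : 0 ≤ s := hs1.le.trans hs.1
      have hs1' : s < 1 := lt_of_le_of_lt (hs.2.trans hce) hse
      have := two_B_le hκ0 hκ1 hc1 hp0 hs0 hs1'
        (hz_between hκ0 hκ1 hτ0 hc1 hp0 hs.1 hs.2 hz1' hzc')
      simp only [hL]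
      rw [LL_zero this, mul_zero]
  have hI3 : ∫ s in sc..se, q s * L s ≤ ∫ s in sc..se, Uf κ p c0 m s := by
    refine intervalIntegral.integral_mono_on hce (hi sc se hsc0.le hce le_rfl) ?_ ?_
    · refine ContinuousOn.intervalIntegrable ?_
      rw [Set.uIcc_of_le hce]
      exact Uf_cont hκ0 hc1 hsc0.le hse
    · intro s hs
      have hs0 : 0 ≤ s := hsc0.le.trans hs.1
      have hs1' : s < 1 := lt_of_le_of_lt hs.2 hse
      exact PLL_le hκ0 hτ0 hc1 hs0 hs1' (hPτ s hs0 hs1'.le)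
  have hI1 : ∫ s in (0:ℝ)..s1, q s * L s ≤
      Real.exp (e0 * s1) * (s1 * p / (2 * TT c0 s1)) * (s1 / 3) := by
    rw [← int_sq hs1, ← intervalIntegral.integral_const_mul]
    refine intervalIntegral.integral_mono_on hs1.le (hi 0 s1 le_rfl hs1.le (h1c.trans hce)) ?_ ?_
    · exact Continuous.intervalIntegrable (by fun_prop) _ _
    · intro s hs
      have hs1' : s < 1 := lt_of_le_of_lt hs.2 hs11
      have h1 := LL_start hκ0 hκ1 hτ0 hc1 hp0 hs.1 hs.2 hs1 hs11 hz1'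
      have hL0 : 0 ≤ L s := LL_nonneg (Bf_pos hκ0 hτ0 hs.1 hs1')
      have hq1 : q s ≤ Real.exp (e0 * s1) := by
        have h2 : TT c0 s ≤ Real.exp (-(s * (1 - c0))) := TT_le_exp
        have h3 : ∏ k : Fin M, TT ‖vt a ζ k‖ s ≤ Real.exp (-(m * s)) :=
          P_le_exp hM hs.1 hs1'.le
        have h4 : 0 ≤ TT c0 s := (TTc_pos hc1 hs.1).trans' zero_le_one
        calc q s ≤ Real.exp (-(s * (1 - c0))) * Real.exp (-(m * s)) :=
              mul_le_mul h2 h3 (hP0 s hs.1 hs1'.le) (Real.exp_pos _).le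
          _ = Real.exp ((c0 - 1 - m) * s) := by
              rw [← Real.exp_add]
              congr 1
              ring
          _ ≤ Real.exp (e0 * s1) := by
              refine Real.exp_le_exp.2 ?_
              calc (c0 - 1 - m) * s ≤ e0 * s := mul_le_mul_of_nonneg_right he0 hs.1
                _ ≤ e0 * s1 := mul_le_mul_of_nonneg_left hs.2 he00
      calc q s * L s ≤ Real.exp (e0 * s1) * L s := mul_le_mul_of_nonneg_right hq1 hL0
        _ ≤ Real.exp (e0 * s1) * ((s1 * p / (2 * TT c0 s1)) * (1 - s / s1) ^ 2) :=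
            mul_le_mul_of_nonneg_left h1 (Real.exp_pos _).le
        _ = _ := by ring
  -- late part
  have hlate : 2 * se / (se ^ 2 + se - 1) * ((1 + τ) * c0) * ∏ k : Fin M, TT ‖vt a ζ k‖ se ≤
      2 * se / (se ^ 2 + se - 1) * (4 * Real.exp (-1) / se) *
        (c0 * Real.exp (-(m * se))) := by
    have h1 := hPτ se hse0.le hse.le
    have h2 : (1 + τ) ≤ (1 + se * τ) / se := by
      rw [le_div_iff₀ hse0]
      nlinarith
    have h3 : (1 + se * τ) ^ 2 * Real.exp (-(τ * se)) ≤ 4 * Real.exp (-1) := by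
      have h4 := sq_le_four_exp (w := 1 + se * τ) (by positivity)
      calc (1 + se * τ) ^ 2 * Real.exp (-(τ * se)) ≤
            4 * Real.exp (1 + se * τ - 2) * Real.exp (-(τ * se)) :=
            mul_le_mul_of_nonneg_right h4 (Real.exp_pos _).le
        _ = 4 * Real.exp (-1) := by
            rw [mul_assoc, ← Real.exp_add]
            congr 2
            ring
    have h5 : 0 ≤ 2 * se / (se ^ 2 + se - 1) := by positivity
    have hc0 : 0 ≤ c0 := by linarith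
    have h6 : (1 + τ) * ∏ k : Fin M, TT ‖vt a ζ k‖ se ≤
        (4 * Real.exp (-1) / se) * Real.exp (-(m * se)) := by
      calc (1 + τ) * ∏ k : Fin M, TT ‖vt a ζ k‖ se ≤
            ((1 + se * τ) / se) * ((1 + se * τ) * Real.exp (-((m + τ) * se))) :=
            mul_le_mul h2 h1 (hP0 se hse0.le hse.le) (by positivity)
        _ = ((1 + se * τ) ^ 2 * Real.exp (-(τ * se))) / se * Real.exp (-(m * se)) := by
            have e : Real.exp (-((m + τ) * se)) = Real.exp (-(τ * se)) * Real.exp (-(m * se)) := by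
              rw [← Real.exp_add]
              congr 1
              ring
            rw [e]
            ring
        _ ≤ _ := mul_le_mul_of_nonneg_right (div_le_div_of_nonneg_right h3 hse0.le)
            (Real.exp_pos _).le
    calc 2 * se / (se ^ 2 + se - 1) * ((1 + τ) * c0) * ∏ k : Fin M, TT ‖vt a ζ k‖ se =
          2 * se / (se ^ 2 + se - 1) * c0 * ((1 + τ) * ∏ k : Fin M, TT ‖vt a ζ k‖ se) := by ring
      _ ≤ 2 * se / (se ^ 2 + se - 1) * c0 * ((4 * Real.exp (-1) / se) * Real.exp (-(m * se))) :=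
          mul_le_mul_of_nonneg_left h6 (by positivity)
      _ = _ := by ring
  have key2 : Gam a ζ c0 * (∫ s in (0:ℝ)..1, q s) - (∫ s in (0:ℝ)..se, q s * L s) -
      2 * se / (se ^ 2 + se - 1) * ((1 + τ) * c0) * ∏ k : Fin M, TT ‖vt a ζ k‖ se ≤
      a * ∏ k, ‖u a ζ k‖ := key
  rw [hsplit, hI2] at key2
  linarith

end Pool.Agent.Lib.MP_172a45_an.L
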