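import Pool.Agent.Lib.MP_172a45_an.L.Gam

set_option autoImplicit false

/-!
# The direction-tied lower bound of `Γ`

`ρ₀² ≤ 1 + 2 T D₀` with `T = x t₀`, `D₀ = t₀ - ‖v₀‖`; `G_S ≥ log((4 + 2A - ρ₀)/(1 + 2ρ₀))`.
-/

namespace Pool.Agent.Lib.MP_172a45_an.L

open Finset Real
open Pool.Agent.Lib.MP_172a45_an.F
open Pool.Agent.Lib.MP_172a45_an.F.Fr

section Dir

variable {M : ℕ} {a : ℝ} {ζ z : Fin (M + 1) → ℂ}

/-- (G4), tail, with the exact `ρ₀` -/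
theorem GS_rho0 (h : Fr (M + 1) a ζ z) :
    4 + (1 - a) * (M + 1) * (2 + 2 * a - a ^ 2) - rho a ζ 0 ≤
      Real.exp (GS a ζ) * (1 + 2 * rho a ζ 0) := by
  have h1 := Rw_rho' h
  have h2 := sum_sub_one_le univ (fun k : Fin M => rho a ζ k.succ) fun k _ => one_le_rho h k.succ
  rw [← exp_GS h] at h2
  rw [Fin.sum_univ_succ, Fin.prod_univ_succ, ← exp_GS h] at h1
  push_cast at h1
  linarith

theorem D0_nonneg (h : Fr (M + 1) a ζ z) : 0 ≤ ‖u a ζ 0‖ - ‖1 - (a : ℂ) * u a ζ 0‖ := by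
  have := h.gl 0
  linarith

theorem DS_nonneg (h : Fr (M + 1) a ζ z) : 0 ≤ DS a ζ := by
  unfold DS
  refine Finset.sum_nonneg fun k _ => ?_
  have := h.gl k.succ
  exact sub_nonneg.2 this

/-- `ρ₀² ≤ 1 + 2 x t₀ D₀` -/
theorem rho0_sq_le (h : Fr (M + 1) a ζ z) :
    rho a ζ 0 ^ 2 ≤ 1 + 2 * ((1 - a ^ 2) * ‖u a ζ 0‖) *
      (‖u a ζ 0‖ - ‖1 - (a : ℂ) * u a ζ 0‖) := by
  rw [rho_sq]
  have h1 := D0_nonneg h
  have h2 := h.m_pos
  nlinarith [mul_nonneg h2.le (sq_nonneg (‖u a ζ 0‖ - ‖1 - (a : ℂ) * u a ζ 0‖))]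

theorem kap_le (h : Fr (M + 1) a ζ z) (hM : 0 < M) :
    kap a ζ ≤ (M + 1 - ‖u a ζ 0‖) / M - DS a ζ / M := by
  have hM0 : (0 : ℝ) < M := by exact_mod_cast hM
  have h2 := kap_eq h hM
  rw [← sub_div, le_div_iff₀ hM0]
  linarith

/-- direction-tied bound, general form: any threshold `r ≥ 1` for `ρ₀` -/
theorem Gam_ge_dir (h : Fr (M + 1) a ζ z) (hM : 0 < M) (hκ1 : kap a ζ ≤ 1)
    {c0 : ℝ} (hroot : (c0 - 1) * (c0 - kap a ζ) = pr a ζ) {lam Ψ r G g : ℝ} (hlam : 0 < lam)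
    (hr : 1 ≤ r)
    (hΨ : ∑ k : Fin M, psip (lam * (1 - a ^ 2) * ‖ut a ζ k‖) ≤ Ψ)
    (hlr : 3 * lam * ((1 - a ^ 2) * ‖u a ζ 0‖) ≤ r * (1 + 2 * r))
    (hG : Real.exp G * (1 + 2 * r) ≤ 4 + (1 - a) * (M + 1) * (2 + 2 * a - a ^ 2) - r)
    (hg1 : g ≤ (1 - a) * ‖u a ζ 0‖ + 1 / 2 - (3 + a) / 2 * ((M + 1 - ‖u a ζ 0‖) / M))
    (hg2 : g ≤ (r ^ 2 - 1) / (2 * ((1 - a ^ 2) * ‖u a ζ 0‖)) - 2 * ((M + 1 - ‖u a ζ 0‖) / M)) :
    lam * (G - 1 / 2 * Ψ) + g ≤ Gam a ζ c0 := by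
  have hM0 : (0 : ℝ) < M := by exact_mod_cast hM
  have hDS := DS_nonneg h
  have hDM : 0 ≤ DS a ζ / M := div_nonneg hDS hM0.le
  have hT0 : 0 < (1 - a ^ 2) * ‖u a ζ 0‖ := mul_pos h.m_pos (norm_pos_iff.2 (h.u_ne 0))
  set T := (1 - a ^ 2) * ‖u a ζ 0‖ with hT
  have h4 := GS_rho0 h
  have hρ1 := one_le_rho h 0
  have hE := Real.exp_pos (GS a ζ)
  have hDSge : lam * (GS a ζ - 1 / 2 * Ψ) ≤ DS a ζ := DS_ge h hlam le_rfl hΨ
  rcases le_or_gt (rho a ζ 0) r with hc | hc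
  · -- `ρ₀ ≤ r`
    have h5 : Real.exp G ≤ Real.exp (GS a ζ) := by
      have : Real.exp G * (1 + 2 * r) ≤ Real.exp (GS a ζ) * (1 + 2 * r) := by nlinarith
      exact le_of_mul_le_mul_right this (by linarith)
    have h6 : G ≤ GS a ζ := Real.exp_le_exp.1 h5
    have h7 := Gam_ge2 h hM hκ1 hroot
    have h8 : lam * (G - 1 / 2 * Ψ) ≤ lam * (GS a ζ - 1 / 2 * Ψ) :=
      mul_le_mul_of_nonneg_left (by linarith) hlam.le
    have h9 : 0 ≤ DS a ζ * (3 / (2 * M)) := by positivity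
    linarith
  · -- `ρ₀ > r`
    set ρ := rho a ζ 0 with hρ
    have hx : 0 ≤ 3 * (ρ - r) / (1 + 2 * r) := div_nonneg (by linarith) (by linarith)
    have hE1 : 1 ≤ Real.exp (GS a ζ) := Real.one_le_exp (GS_nonneg h)
    have h5 : Real.exp G ≤ Real.exp (GS a ζ) * (1 + 3 * (ρ - r) / (1 + 2 * r)) := by
      have e : Real.exp (GS a ζ) * (1 + 3 * (ρ - r) / (1 + 2 * r)) * (1 + 2 * r) =
          Real.exp (GS a ζ) * (1 + 2 * r) + Real.exp (GS a ζ) * (3 * (ρ - r)) := by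
        have : (1 + 2 * r) ≠ 0 := by linarith
        field_simp
      have : Real.exp G * (1 + 2 * r) ≤
          Real.exp (GS a ζ) * (1 + 3 * (ρ - r) / (1 + 2 * r)) * (1 + 2 * r) := by
        rw [e]
        nlinarith
      exact le_of_mul_le_mul_right this (by linarith)
    have h6 : Real.exp G ≤ Real.exp (GS a ζ + 3 * (ρ - r) / (1 + 2 * r)) := by
      rw [Real.exp_add]
      refine h5.trans (mul_le_mul_of_nonneg_left ?_ hE.le)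
      have := Real.add_one_le_exp (3 * (ρ - r) / (1 + 2 * r))
      linarith
    have h7 : G ≤ GS a ζ + 3 * (ρ - r) / (1 + 2 * r) := Real.exp_le_exp.1 h6
    have h8 := Gam_ge1 h hM hroot
    rw [Dall_eq] at h8
    have h9 := kap_le h hM
    have h10 : lam * (G - 1 / 2 * Ψ) ≤
        lam * (GS a ζ - 1 / 2 * Ψ) + lam * (3 * (ρ - r) / (1 + 2 * r)) := by
      rw [← mul_add]
      exact mul_le_mul_of_nonneg_left (by linarith) hlam.le
    have h11 : lam * (3 * (ρ - r) / (1 + 2 * r)) ≤ (ρ - r) * r / T := by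
      rw [le_div_iff₀ hT0]
      have e : lam * (3 * (ρ - r) / (1 + 2 * r)) * T = (ρ - r) * (3 * lam * T / (1 + 2 * r)) := by
        ring
      rw [e]
      refine mul_le_mul_of_nonneg_left ?_ (by linarith)
      rw [div_le_iff₀ (by linarith)]
      linarith
    have h12 : (ρ - r) * r / T ≤ (ρ ^ 2 - r ^ 2) / (2 * T) := by
      rw [div_le_div_iff₀ hT0 (by linarith)]
      have : (ρ - r) * r * 2 ≤ ρ ^ 2 - r ^ 2 := by nlinarith
      nlinarith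
    have h13 : (ρ ^ 2 - 1) / (2 * T) ≤ ‖u a ζ 0‖ - ‖1 - (a : ℂ) * u a ζ 0‖ := by
      rw [div_le_iff₀ (by linarith)]
      have := rho0_sq_le h
      rw [← hT, ← hρ] at this
      linarith
    have h14 : (ρ ^ 2 - r ^ 2) / (2 * T) + (r ^ 2 - 1) / (2 * T) = (ρ ^ 2 - 1) / (2 * T) := by
      rw [← add_div]
      congr 1
      ring
    linarith

end Dir

end Pool.Agent.Lib.MP_172a45_an.L
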