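import Mathlib

/-!
`F0`: for `t ≥ 1/2`, `max (0, 1 - t) ≤ c ≤ t` and `0 ≤ s < 1`,
`t ^ s * (1 - s) ^ (t - c) ≤ 1 - s + s c`.
-/

namespace Pool.Agent.Lib.MP_172a45_an.L

open Real Set

/-- The derivative inequality behind region A. -/
private lemma quadA {t s : ℝ} (ht : 11/20 ≤ t) (ht1 : t ≤ 1) :
    (1 + t) * (1 - 2 * t * s) ≤ 2 * (1 - s) * (1 - s * t) := by
  have h1 : (1 - t) * (1 + t) ^ 2 ≤ 2 * t := by nlinarith [sq_nonneg (t - 11/20), mul_nonneg (sub_nonneg.2 ht) (sub_nonneg.2 ht1), mul_nonneg (mul_nonneg (sub_nonneg.2 ht) (sub_nonneg.2 ht)) (sub_nonneg.2 ht)]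
  have ht0 : 0 < t := by linarith
  have h2 : 0 ≤ 2 * t * ((1 - t) - 2 * s * (1 - t ^ 2) + 2 * t * s ^ 2) := by
    have h3 : 0 ≤ (1 - t) * (2 * t - (1 - t) * (1 + t) ^ 2) :=
      mul_nonneg (by linarith) (by linarith)
    nlinarith [sq_nonneg (2 * t * s - (1 - t ^ 2))]
  have h4 : 0 ≤ (1 - t) - 2 * s * (1 - t ^ 2) + 2 * t * s ^ 2 := by
    by_contra hneg
    push Not at hneg
    nlinarith
  nlinarith

/-- Region A: `t ≥ 0.55`. -/
private lemma F0_endA {t s : ℝ} (ht : 11/20 ≤ t) (ht1 : t ≤ 1) (hs0 : 0 ≤ s) (hs1 : s < 1) :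
    t ^ s * (1 - s) ^ (2*t-1) ≤ 1 - s*t := by
  have ht0 : 0 < t := by linarith
  set h : ℝ → ℝ := fun s => Real.log (1 - s * t) - s * Real.log t - (2 * t - 1) * Real.log (1 - s)
    with hh
  have hpos1 : ∀ x : ℝ, 0 ≤ x → x < 1 → 0 < 1 - x * t := by
    intro x hx0 hx1
    nlinarith
  have hlog : 2 * (1 - t) / (1 + t) ≤ - Real.log t := by
    have hx : 0 ≤ (1 - t) / t := div_nonneg (by linarith) ht0.le
    have := Real.le_log_one_add_of_nonneg hx
    have e1 : 1 + (1 - t) / t = t⁻¹ := by field_simp; ring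
    rw [e1, Real.log_inv] at this
    have e2 : 2 * ((1 - t) / t) / ((1 - t) / t + 2) = 2 * (1 - t) / (1 + t) := by
      have e3 : (1 - t) / t + 2 = (1 + t) / t := by field_simp; ring
      have p3 : (1 + t) ≠ 0 := by linarith
      rw [e3]
      field_simp
    rw [e2] at this
    exact this
  have hder : ∀ x : ℝ, 0 ≤ x → x < 1 →
      HasDerivAt h (-t / (1 - x * t) - Real.log t + (2 * t - 1) / (1 - x)) x := by
    intro x hx0 hx1
    have p1 := hpos1 x hx0 hx1
    have p2 : 0 < 1 - x := by linarith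
    have d1 : HasDerivAt (fun s : ℝ => Real.log (1 - s * t)) (-t / (1 - x * t)) x := by
      have : HasDerivAt (fun s : ℝ => 1 - s * t) (-t) x := by
        simpa using ((hasDerivAt_id x).mul_const t).const_sub 1
      exact this.log p1.ne'
    have d2 : HasDerivAt (fun s : ℝ => s * Real.log t) (Real.log t) x := by
      simpa using (hasDerivAt_id x).mul_const (Real.log t)
    have d3 : HasDerivAt (fun s : ℝ => (2 * t - 1) * Real.log (1 - s)) ((2 * t - 1) * (-1 / (1 - x))) x := by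
      have : HasDerivAt (fun s : ℝ => 1 - s) (-1) x := by
        simpa using (hasDerivAt_id x).const_sub 1
      exact (this.log p2.ne').const_mul _
    have := (d1.sub d2).sub d3
    refine this.congr_deriv ?_
    ring
  have hmono : MonotoneOn h (Ico 0 1) := by
    apply monotoneOn_of_deriv_nonneg (convex_Ico 0 1)
    · intro x hx
      exact (hder x hx.1 hx.2).continuousAt.continuousWithinAt
    · intro x hx
      rw [interior_Ico] at hx
      exact (hder x hx.1.le hx.2).differentiableAt.differentiableWithinAt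
    · intro x hx
      rw [interior_Ico] at hx
      rw [(hder x hx.1.le hx.2).deriv]
      have p1 := hpos1 x hx.1.le hx.2
      have p2 : 0 < 1 - x := by linarith [hx.2]
      have q := quadA (s := x) ht ht1
      have p3 : 0 < 1 + t := by linarith
      have key : 0 ≤ -t / (1 - x * t) + 2 * (1 - t) / (1 + t) + (2 * t - 1) / (1 - x) := by
        have e : -t / (1 - x * t) + 2 * (1 - t) / (1 + t) + (2 * t - 1) / (1 - x)
            = (1 - t) * (2 * (1 - x) * (1 - x * t) - (1 + t) * (1 - 2 * t * x))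
              / ((1 - x * t) * (1 + t) * (1 - x)) := by
          have q1 : 1 - x * t ≠ 0 := p1.ne'
          have q2 : 1 - x ≠ 0 := p2.ne'
          have q3 : 1 + t ≠ 0 := p3.ne'
          rw [div_add_div _ _ q1 q3, div_add_div _ _ (mul_ne_zero q1 q3) q2]
          congr 1
          ring
        rw [e]
        apply div_nonneg
        · exact mul_nonneg (by linarith) (by linarith)
        · positivity
      linarith
  have h0 : h 0 ≤ h s := hmono ⟨le_refl _, by norm_num⟩ ⟨hs0, hs1⟩ hs0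
  have h00 : h 0 = 0 := by simp [hh]
  rw [h00] at h0
  have p1 := hpos1 s hs0 hs1
  have p2 : 0 < 1 - s := by linarith
  rw [Real.rpow_def_of_pos ht0, Real.rpow_def_of_pos p2, ← Real.exp_add,
    ← Real.le_log_iff_exp_le p1]
  simp only [hh] at h0
  linarith

/-- Region B: `s ≤ 2 - 2t`. -/
private lemma F0_endB {t s : ℝ} (ht : 1/2 ≤ t) (ht1 : t < 1) (hs0 : 0 ≤ s) (hs1 : s < 1)
    (hst : s ≤ 2 - 2 * t) :
    t ^ s * (1 - s) ^ (2*t-1) ≤ 1 - s*t := by
  have ht0 : 0 < t := by linarith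
  have hd : 0 < 2 - 2 * t := by linarith
  have p2 : 0 < 1 - s := by linarith
  have am := Real.geom_mean_le_arith_mean2_weighted (w₁ := 2 * t - 1) (w₂ := 2 - 2 * t)
    (p₁ := 1 - s) (p₂ := 1 - s / 2) (by linarith) hd.le p2.le (by linarith) (by ring)
  have e1 : (2 * t - 1) * (1 - s) + (2 - 2 * t) * (1 - s / 2) = 1 - s * t := by ring
  rw [e1] at am
  set θ := s / (2 - 2 * t) with hθ
  have hθ0 : 0 ≤ θ := div_nonneg hs0 hd.le
  have hθ1 : θ ≤ 1 := (div_le_one hd).2 hst
  have am2 := Real.geom_mean_le_arith_mean2_weighted (w₁ := θ) (w₂ := 1 - θ)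
    (p₁ := t) (p₂ := 1) hθ0 (by linarith) ht0.le (by norm_num) (by ring)
  have e3 : θ * (2 - 2 * t) = s := by rw [hθ]; exact div_mul_cancel₀ _ hd.ne'
  have e2 : θ * t + (1 - θ) * 1 = 1 - s / 2 := by
    have : θ * t + (1 - θ) * 1 = 1 - θ * (2 - 2 * t) / 2 := by ring
    rw [this, e3]
  rw [e2, Real.one_rpow, mul_one] at am2
  have h3 : t ^ s ≤ (1 - s / 2) ^ (2 - 2 * t) := by
    calc t ^ s = (t ^ θ) ^ (2 - 2 * t) := by
          rw [← Real.rpow_mul ht0.le, hθ, div_mul_cancel₀ _ hd.ne']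
      _ ≤ _ := Real.rpow_le_rpow (Real.rpow_nonneg ht0.le _) am2 hd.le
  calc t ^ s * (1 - s) ^ (2*t-1) ≤ (1 - s / 2) ^ (2 - 2 * t) * (1 - s) ^ (2*t-1) :=
        mul_le_mul_of_nonneg_right h3 (Real.rpow_nonneg p2.le _)
    _ = (1 - s) ^ (2*t-1) * (1 - s / 2) ^ (2 - 2 * t) := mul_comm _ _
    _ ≤ _ := am

/-- Region C: `t ≤ 0.55`, `s ≥ 0.9`. -/
private lemma F0_endC {t s : ℝ} (ht : 1/2 ≤ t) (ht1 : t ≤ 11/20) (hs0 : 9/10 ≤ s) (hs1 : s < 1) :
    t ^ s * (1 - s) ^ (2*t-1) ≤ 1 - s*t := by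
  set x := 2 * t - 1 with hx
  have hx0 : 0 ≤ x := by rw [hx]; linarith
  have hx1 : x ≤ 1/10 := by rw [hx]; linarith
  have etx : t = (1 + x) / 2 := by rw [hx]; ring
  have p2 : 0 < 1 - s := by linarith
  have hs0' : 0 ≤ s := by linarith
  -- `t ^ s ≤ (1 - s/2) (1 + x)`
  have a1 : ((1:ℝ)/2) ^ s ≤ 1 - s / 2 := by
    have := Real.geom_mean_le_arith_mean2_weighted (w₁ := s) (w₂ := 1 - s)
      (p₁ := 1/2) (p₂ := 1) hs0' p2.le (by norm_num) (by norm_num) (by ring)
    rw [Real.one_rpow, mul_one] at this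
    linarith
  have a2 : (1 + x) ^ s ≤ Real.exp x := by
    calc (1 + x) ^ s ≤ (Real.exp x) ^ s :=
          Real.rpow_le_rpow (by linarith) (by linarith [Real.add_one_le_exp x]) hs0'
      _ = Real.exp (x * s) := (Real.exp_mul x s).symm
      _ ≤ Real.exp x := Real.exp_le_exp.2 (by nlinarith)
  have a3 : t ^ s ≤ (1 - s / 2) * Real.exp x := by
    have : t = (1/2) * (1 + x) := by rw [etx]; ring
    rw [this, Real.mul_rpow (by norm_num) (by linarith)]
    exact mul_le_mul a1 a2 (Real.rpow_nonneg (by linarith) _) (by linarith)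
  have a4 : (1 - s) ^ x ≤ Real.exp (-(23/10) * x) := by
    rw [Real.rpow_def_of_pos p2]
    apply Real.exp_le_exp.2
    have hl : Real.log (1 - s) ≤ -(23/10) := by
      have h10 : Real.log (1 - s) ≤ Real.log (1/10) :=
        Real.log_le_log p2 (by linarith)
      have : Real.log (1/10 : ℝ) ≤ -(23/10) := by
        have e : (1/10 : ℝ) = (10:ℝ)⁻¹ := by norm_num
        rw [e, Real.log_inv]
        have hb : (23/10 : ℝ) ≤ Real.log 10 := by
          rw [Real.le_log_iff_exp_le (by norm_num)]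
          have h1 : Real.exp 1 < 2.7182818286 := Real.exp_one_lt_d9
          have h2 : Real.exp (23/10) = Real.exp 1 ^ 2 * Real.exp (3/10) := by
            rw [← Real.exp_nat_mul, ← Real.exp_add]; norm_num
          have h3 : Real.exp (3/10) ≤ 1.34999 := by
            have := Real.exp_bound' (x := 3/10) (by norm_num) (by norm_num) (n := 6) (by norm_num)
            refine this.trans ?_
            norm_num [Finset.sum_range_succ, Nat.factorial]
          rw [h2]
          have h4 : Real.exp 1 ^ 2 ≤ 2.7182818286 ^ 2 :=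
            pow_le_pow_left₀ (Real.exp_pos _).le h1.le 2
          calc Real.exp 1 ^ 2 * Real.exp (3/10) ≤ 2.7182818286 ^ 2 * 1.34999 :=
                mul_le_mul h4 h3 (Real.exp_pos _).le (by norm_num)
            _ ≤ 10 := by norm_num
        linarith
      linarith
    nlinarith
  have a5 : t ^ s * (1 - s) ^ x ≤ (1 - s / 2) * Real.exp (-(13/10) * x) := by
    calc t ^ s * (1 - s) ^ x ≤ ((1 - s / 2) * Real.exp x) * Real.exp (-(23/10) * x) :=
          mul_le_mul a3 a4 (Real.rpow_nonneg p2.le _)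
            (mul_nonneg (by linarith) (Real.exp_pos _).le)
      _ = (1 - s / 2) * Real.exp (-(13/10) * x) := by
          rw [mul_assoc, ← Real.exp_add]; ring_nf
  have a6 : Real.exp (-(13/10) * x) ≤ 1 - x := by
    have h1 : 1 + (13/10) * x ≤ Real.exp ((13/10) * x) := by
      linarith [Real.add_one_le_exp ((13/10) * x)]
    have h2 : Real.exp (-(13/10) * x) = (Real.exp ((13/10) * x))⁻¹ := by
      rw [← Real.exp_neg]; ring_nf
    rw [h2]
    have h3 : (Real.exp ((13/10) * x))⁻¹ ≤ (1 + (13/10) * x)⁻¹ :=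
      inv_anti₀ (by nlinarith) h1
    refine h3.trans ?_
    rw [inv_le_comm₀ (by nlinarith) (by linarith)]
    rw [inv_le_iff_one_le_mul₀ (by linarith)]
    nlinarith
  calc t ^ s * (1 - s) ^ x ≤ (1 - s / 2) * Real.exp (-(13/10) * x) := a5
    _ ≤ (1 - s / 2) * (1 - x) := mul_le_mul_of_nonneg_left a6 (by linarith)
    _ ≤ 1 - s * t := by rw [etx]; nlinarith

theorem F0_end {t s : ℝ} (ht : 1/2 ≤ t) (ht1 : t ≤ 1) (hs0 : 0 ≤ s) (hs1 : s < 1) :
    t ^ s * (1 - s) ^ (2*t-1) ≤ 1 - s*t := by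
  rcases le_total (11/20) t with h | h
  · exact F0_endA h ht1 hs0 hs1
  · rcases le_total s (2 - 2 * t) with h2 | h2
    · exact F0_endB ht (by linarith) hs0 hs1 h2
    · exact F0_endC ht h (by linarith) hs1

theorem F0 {t c s : ℝ} (ht : 1/2 ≤ t) (hc0 : 0 ≤ c) (hct : c ≤ t) (hc1 : 1 - t ≤ c)
    (hs0 : 0 ≤ s) (hs1 : s < 1) : t ^ s * (1 - s) ^ (t - c) ≤ 1 - s + s*c := by
  have ht0 : 0 < t := by linarith
  have p2 : 0 < 1 - s := by linarith
  -- `t ^ s ≤ 1 - s + s t`
  have g1 : t ^ s ≤ 1 - s + s * t := by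
    have := Real.geom_mean_le_arith_mean2_weighted (w₁ := s) (w₂ := 1 - s)
      (p₁ := t) (p₂ := 1) hs0 p2.le ht0.le (by norm_num) (by ring)
    rw [Real.one_rpow, mul_one] at this
    linarith
  have g1pos : 0 < 1 - s + s * t := by nlinarith
  -- general combination
  have comb : ∀ {lam A E : ℝ}, 0 ≤ lam → lam ≤ 1 → 0 ≤ A → 0 ≤ E → t ^ s * (1 - s) ^ E ≤ A →
      t ^ s * (1 - s) ^ (lam * E) ≤ lam * A + (1 - lam) * (1 - s + s * t) := by
    intro lam A E hl0 hl1 hA hE hb
    have am := Real.geom_mean_le_arith_mean2_weighted (w₁ := lam) (w₂ := 1 - lam)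
      (p₁ := A) (p₂ := 1 - s + s * t) hl0 (by linarith) hA g1pos.le (by ring)
    refine le_trans ?_ am
    have h1 : (t ^ s * (1 - s) ^ E) ^ lam ≤ A ^ lam :=
      Real.rpow_le_rpow (mul_nonneg (Real.rpow_nonneg ht0.le _) (Real.rpow_nonneg p2.le _)) hb hl0
    have h2 : (t ^ s) ^ (1 - lam) ≤ (1 - s + s * t) ^ (1 - lam) :=
      Real.rpow_le_rpow (Real.rpow_nonneg ht0.le _) g1 (by linarith)
    calc t ^ s * (1 - s) ^ (lam * E)
        = (t ^ s * (1 - s) ^ E) ^ lam * (t ^ s) ^ (1 - lam) := by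
          rw [Real.mul_rpow (Real.rpow_nonneg ht0.le _) (Real.rpow_nonneg p2.le _),
            ← Real.rpow_mul p2.le, mul_right_comm,
            ← Real.rpow_add (Real.rpow_pos_of_pos ht0 _)]
          rw [show lam + (1 - lam) = 1 by ring, Real.rpow_one, mul_comm E lam]
      _ ≤ _ := mul_le_mul h1 h2 (Real.rpow_nonneg (Real.rpow_nonneg ht0.le _) _)
          (Real.rpow_nonneg hA _)
  rcases le_total 1 t with h | h
  · -- `t ≥ 1`
    have g2 : t ^ s * (1 - s) ^ t ≤ 1 - s := by
      have hls : Real.log (1 - s) ≤ -s := by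
        have := Real.log_le_sub_one_of_pos p2
        linarith
      have hlt : Real.log t ≤ t - 1 := Real.log_le_sub_one_of_pos ht0
      rw [Real.rpow_def_of_pos ht0, Real.rpow_def_of_pos p2, ← Real.exp_add,
        ← Real.le_log_iff_exp_le p2]
      nlinarith
    have hlam0 : 0 ≤ (t - c) / t := div_nonneg (by linarith) ht0.le
    have hlam1 : (t - c) / t ≤ 1 := (div_le_one ht0).2 (by linarith)
    have := comb hlam0 hlam1 p2.le ht0.le g2
    have e1 : (t - c) / t * t = t - c := div_mul_cancel₀ _ ht0.ne'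
    have e2 : (t - c) / t * (1 - s) + (1 - (t - c) / t) * (1 - s + s * t) = 1 - s + s * c := by
      field_simp
      ring
    rw [e1, e2] at this
    exact this
  · -- `t ≤ 1`
    rcases eq_or_lt_of_le ht with h2 | h2
    · have hc : c = t := by linarith
      rw [hc, sub_self, Real.rpow_zero, mul_one]
      exact g1
    · have hd : 0 < 2 * t - 1 := by linarith
      have hend := F0_end ht h hs0 hs1
      have hlam0 : 0 ≤ (t - c) / (2 * t - 1) := div_nonneg (by linarith) hd.le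
      have hlam1 : (t - c) / (2 * t - 1) ≤ 1 := (div_le_one hd).2 (by linarith)
      have hA : 0 ≤ 1 - s * t := by nlinarith
      have := comb hlam0 hlam1 hA hd.le hend
      have e1 : (t - c) / (2 * t - 1) * (2 * t - 1) = t - c := div_mul_cancel₀ _ hd.ne'
      have e2 : (t - c) / (2 * t - 1) * (1 - s * t)
          + (1 - (t - c) / (2 * t - 1)) * (1 - s + s * t) = 1 - s + s * c := by
        have e3 : (t - c) / (2 * t - 1) * (1 - s * t)
          + (1 - (t - c) / (2 * t - 1)) * (1 - s + s * t)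
            = 1 - s + s * t - s * ((t - c) / (2 * t - 1) * (2 * t - 1)) := by ring
        rw [e3, e1]; ring
      rw [e1, e2] at this
      exact this

end Pool.Agent.Lib.MP_172a45_an.L
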