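import Pool.Agent.Lib.MP_172a45_an.L.LcFacts

set_option autoImplicit false

/-!
# Part L-c, large `Γ`: the integral inequality
-/

namespace Pool.Agent.Lib.MP_172a45_an.L.Big

open Finset Real
open Pool.Agent.Lib.MP_172a45_an.F
open Pool.Agent.Lib.MP_172a45_an.F.Fr

/-- `∑ (d/ds)^k s^n / l^(k+1)` -/
noncomputable def Rm (l : ℝ) : ℕ → ℝ → ℝ
  | 0, _ => 1 / l
  | n + 1, s => s ^ (n + 1) / l + ((n : ℝ) + 1) / l * Rm l n s

theorem Rm_nonneg {l : ℝ} (hl : 0 < l) (n : ℕ) {s : ℝ} (hs : 0 ≤ s) : 0 ≤ Rm l n s := by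
  induction n with
  | zero => unfold Rm; positivity
  | succ n ih => unfold Rm; positivity

theorem Rm_deriv {l : ℝ} (hl : 0 < l) (n : ℕ) (s : ℝ) :
    HasDerivAt (Rm l n) (l * Rm l n s - s ^ n) s := by
  induction n with
  | zero =>
    have e : Rm l 0 = fun _ => 1 / l := by funext x; rfl
    rw [e]
    refine (hasDerivAt_const s (1 / l)).congr_deriv ?_
    field_simp
    simp
  | succ n ih =>
    have e : Rm l (n + 1) = fun x => x ^ (n + 1) / l + ((n : ℝ) + 1) / l * Rm l n x := by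
      funext x; rfl
    rw [e]
    have h1 := ((hasDerivAt_pow (n + 1) s).div_const l).add (ih.const_mul (((n : ℝ) + 1) / l))
    refine h1.congr_deriv ?_
    push_cast
    field_simp
    simp
    ring

theorem mom_eq {l : ℝ} (hl : 0 < l) (n : ℕ) (x : ℝ) :
    ∫ s in (0:ℝ)..x, Real.exp (-(l * s)) * s ^ n =
      Rm l n 0 - Real.exp (-(l * x)) * Rm l n x := by
  have hd : ∀ s ∈ Set.uIcc (0:ℝ) x, HasDerivAt (fun s => -(Real.exp (-(l * s)) * Rm l n s))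
      (Real.exp (-(l * s)) * s ^ n) s := by
    intro s _
    have h1 : HasDerivAt (fun s : ℝ => Real.exp (-(l * s))) (Real.exp (-(l * s)) * (-(l * 1))) s :=
      (((hasDerivAt_id s).const_mul l).neg).exp
    refine (h1.mul (Rm_deriv hl n s)).neg.congr_deriv ?_
    ring
  rw [intervalIntegral.integral_eq_sub_of_hasDerivAt hd
    (Continuous.intervalIntegrable (by fun_prop) _ _)]
  simp
  ring

theorem mom_le {l : ℝ} (hl : 0 < l) (n : ℕ) {x : ℝ} (hx : 0 ≤ x) :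
    ∫ s in (0:ℝ)..x, Real.exp (-(l * s)) * s ^ n ≤ Rm l n 0 := by
  rw [mom_eq hl]
  have := mul_nonneg (Real.exp_pos (-(l * x))).le (Rm_nonneg hl n hx)
  linarith

theorem Rm0 {l : ℝ} : Rm l 0 0 = 1 / l := rfl
theorem Rm1 {l : ℝ} : Rm l 1 0 = 1 / l * (1 / l) := by simp [Rm]
theorem Rm2 {l : ℝ} : Rm l 2 0 = 2 * (1 / l * (1 / l) ^ 2) := by simp [Rm]; ring
theorem Rm3 {l : ℝ} : Rm l 3 0 = 6 * (1 / l * (1 / l) ^ 3) := by simp [Rm]; ring
theorem Rm4 {l : ℝ} : Rm l 4 0 = 24 * (1 / l * (1 / l) ^ 4) := by simp [Rm]; ring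
theorem Rm5 {l : ℝ} : Rm l 5 0 = 120 * (1 / l * (1 / l) ^ 5) := by simp [Rm]; ring

/-- upper bound for the integral of a polynomial of degree `5` -/
theorem poly5_le {l : ℝ} (hl : 0 < l) {x : ℝ} (hx : 0 ≤ x) {c0 c1 c2 c3 c4 c5 : ℝ}
    (h0 : 0 ≤ c0) (h1 : 0 ≤ c1) (h2 : 0 ≤ c2) (h3 : 0 ≤ c3) (h4 : 0 ≤ c4) (h5 : 0 ≤ c5) :
    ∫ s in (0:ℝ)..x, Real.exp (-(l * s)) *
      (c0 + c1 * s + c2 * s ^ 2 + c3 * s ^ 3 + c4 * s ^ 4 + c5 * s ^ 5) ≤
      1 / l * (c0 + c1 * (1 / l) + 2 * c2 * (1 / l) ^ 2 + 6 * c3 * (1 / l) ^ 3 +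
        24 * c4 * (1 / l) ^ 4 + 120 * c5 * (1 / l) ^ 5) := by
  have hi : ∀ (c : ℝ) (n : ℕ), IntervalIntegrable (fun s => c * (Real.exp (-(l * s)) * s ^ n))
      MeasureTheory.volume 0 x := fun c n => Continuous.intervalIntegrable (by fun_prop) _ _
  have e : ∀ s : ℝ, Real.exp (-(l * s)) *
      (c0 + c1 * s + c2 * s ^ 2 + c3 * s ^ 3 + c4 * s ^ 4 + c5 * s ^ 5) =
      c0 * (Real.exp (-(l * s)) * s ^ 0) + (c1 * (Real.exp (-(l * s)) * s ^ 1) +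
      (c2 * (Real.exp (-(l * s)) * s ^ 2) + (c3 * (Real.exp (-(l * s)) * s ^ 3) +
      (c4 * (Real.exp (-(l * s)) * s ^ 4) + c5 * (Real.exp (-(l * s)) * s ^ 5))))) := by
    intro s; ring
  simp only [e]
  rw [intervalIntegral.integral_add (hi _ _) ((hi _ _).add ((hi _ _).add ((hi _ _).add
      ((hi _ _).add (hi _ _))))),
    intervalIntegral.integral_add (hi _ _) ((hi _ _).add ((hi _ _).add ((hi _ _).add (hi _ _)))),
    intervalIntegral.integral_add (hi _ _) ((hi _ _).add ((hi _ _).add (hi _ _))),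
    intervalIntegral.integral_add (hi _ _) ((hi _ _).add (hi _ _)),
    intervalIntegral.integral_add (hi _ _) (hi _ _)]
  simp only [intervalIntegral.integral_const_mul]
  have m0 := mul_le_mul_of_nonneg_left (mom_le hl 0 hx) h0
  have m1 := mul_le_mul_of_nonneg_left (mom_le hl 1 hx) h1
  have m2 := mul_le_mul_of_nonneg_left (mom_le hl 2 hx) h2
  have m3 := mul_le_mul_of_nonneg_left (mom_le hl 3 hx) h3
  have m4 := mul_le_mul_of_nonneg_left (mom_le hl 4 hx) h4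
  have m5 := mul_le_mul_of_nonneg_left (mom_le hl 5 hx) h5
  rw [Rm0] at m0
  rw [Rm1] at m1
  rw [Rm2] at m2
  rw [Rm3] at m3
  rw [Rm4] at m4
  rw [Rm5] at m5
  refine (add_le_add m0 (add_le_add m1 (add_le_add m2 (add_le_add m3
    (add_le_add m4 m5))))).trans (le_of_eq ?_)
  ring

/-- the positive part -/
theorem pos_eq {l : ℝ} (hl : 0 < l) (x X τ : ℝ) :
    ∫ s in (0:ℝ)..x, Real.exp (-(l * s)) * ((1 + s * X) * (1 + s * τ)) =
      (1 / l + (X + τ) / l ^ 2 + 2 * (X * τ) / l ^ 3) -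
      Real.exp (-(l * x)) * ((1 + x * X) * (1 + x * τ) / l +
        (X * (1 + x * τ) + τ * (1 + x * X)) / l ^ 2 + 2 * (X * τ) / l ^ 3) := by
  have hd : ∀ s ∈ Set.uIcc (0:ℝ) x, HasDerivAt
      (fun s => -(Real.exp (-(l * s)) * ((1 + s * X) * (1 + s * τ) / l +
        (X * (1 + s * τ) + τ * (1 + s * X)) / l ^ 2 + 2 * (X * τ) / l ^ 3)))
      (Real.exp (-(l * s)) * ((1 + s * X) * (1 + s * τ))) s := by
    intro s _
    have h1 : HasDerivAt (fun s : ℝ => Real.exp (-(l * s))) (Real.exp (-(l * s)) * (-(l * 1))) s :=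
      (((hasDerivAt_id s).const_mul l).neg).exp
    have h2 : HasDerivAt (fun s : ℝ => 1 + s * X) (1 * X) s :=
      ((hasDerivAt_id s).mul_const X).const_add 1
    have h3 : HasDerivAt (fun s : ℝ => 1 + s * τ) (1 * τ) s :=
      ((hasDerivAt_id s).mul_const τ).const_add 1
    have h4 := (((h2.mul h3).div_const l).add
      (((h3.const_mul X).add (h2.const_mul τ)).div_const (l ^ 2))).add_const (2 * (X * τ) / l ^ 3)
    refine (h1.mul h4).neg.congr_deriv ?_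
    simp only [Pi.mul_apply, Pi.add_apply]
    field_simp
    ring
  rw [intervalIntegral.integral_eq_sub_of_hasDerivAt hd
    (Continuous.intervalIntegrable (by fun_prop) _ _)]
  simp
  ring

/-- polynomial inequality at `α = 0` -/
theorem pl0 {β : ℝ} (h0 : 0 ≤ β) (h1 : β ≤ 1 / 2) :
    433 / 500 * ((1 + 2 * β + 2 * β ^ 2) +
      567 / 500 * (7 / 93 * (1 - β)) * (1 + 4 * β + 6 * β ^ 2) +
      6 * (7 / 93 * (1 - β)) ^ 2 * (2 + 12 * β + 24 * β ^ 2)) + 7 / 100 ≤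
    1109 / 500 * (1 + β) := by
  have h2 : 0 ≤ β * (1 / 2 - β) := mul_nonneg h0 (by linarith)
  have h3 : 0 ≤ β ^ 2 * (1 / 2 - β) := mul_nonneg (by positivity) (by linarith)
  nlinarith [mul_nonneg h2 h2, mul_nonneg h3 h0]

/-- polynomial inequality at `α = 1 - β` -/
theorem pl1 {β : ℝ} (h0 : 0 ≤ β) (h1 : β ≤ 1 / 2) :
    433 / 500 * ((1 + (1 - β) + 2 * β + 4 * (1 - β) * β + 2 * β ^ 2 + 6 * (1 - β) * β ^ 2) +
      567 / 500 * (7 / 93 * (1 - β)) *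
        (1 + 2 * (1 - β) + 4 * β + 12 * (1 - β) * β + 6 * β ^ 2 + 24 * (1 - β) * β ^ 2) +
      6 * (7 / 93 * (1 - β)) ^ 2 *
        (2 + 6 * (1 - β) + 12 * β + 48 * (1 - β) * β + 24 * β ^ 2 + 120 * (1 - β) * β ^ 2)) +
      7 / 100 ≤
    1109 / 500 * (1 + (1 - β) + β + 2 * (1 - β) * β) := by
  have h2 : 0 ≤ β * (1 / 2 - β) := mul_nonneg h0 (by linarith)
  have h3 : 0 ≤ β ^ 2 * (1 / 2 - β) := mul_nonneg (by positivity) (by linarith)
  nlinarith [mul_nonneg h2 h2, mul_nonneg h3 h0, mul_nonneg h3 h2, mul_nonneg h2 (sub_nonneg.2 h1)]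

/-- the main polynomial inequality -/
theorem pl {α β ε : ℝ} (hα : 0 ≤ α) (hβ : 0 ≤ β) (hβ1 : β ≤ 1 / 2) (hαβ : α ≤ 1 - β)
    (hε : 0 ≤ ε) (hε1 : ε ≤ 7 / 93 * (1 - β)) :
    433 / 500 * ((1 + α + 2 * β + 4 * α * β + 2 * β ^ 2 + 6 * α * β ^ 2) +
      567 / 500 * ε * (1 + 2 * α + 4 * β + 12 * α * β + 6 * β ^ 2 + 24 * α * β ^ 2) +
      6 * ε ^ 2 * (2 + 6 * α + 12 * β + 48 * α * β + 24 * β ^ 2 + 120 * α * β ^ 2)) + 7 / 100 ≤
    1109 / 500 * (1 + α + β + 2 * α * β) := by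
  have h0 := pl0 hβ hβ1
  have h1 := pl1 hβ hβ1
  have hu : 0 < 1 - β := by linarith
  have hmono : 433 / 500 * ((1 + α + 2 * β + 4 * α * β + 2 * β ^ 2 + 6 * α * β ^ 2) +
      567 / 500 * ε * (1 + 2 * α + 4 * β + 12 * α * β + 6 * β ^ 2 + 24 * α * β ^ 2) +
      6 * ε ^ 2 * (2 + 6 * α + 12 * β + 48 * α * β + 24 * β ^ 2 + 120 * α * β ^ 2)) ≤
      433 / 500 * ((1 + α + 2 * β + 4 * α * β + 2 * β ^ 2 + 6 * α * β ^ 2) +
      567 / 500 * (7 / 93 * (1 - β)) *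
        (1 + 2 * α + 4 * β + 12 * α * β + 6 * β ^ 2 + 24 * α * β ^ 2) +
      6 * (7 / 93 * (1 - β)) ^ 2 *
        (2 + 6 * α + 12 * β + 48 * α * β + 24 * β ^ 2 + 120 * α * β ^ 2)) := by
    gcongr
  have key : (1 - β) * (433 / 500 * ((1 + α + 2 * β + 4 * α * β + 2 * β ^ 2 + 6 * α * β ^ 2) +
      567 / 500 * (7 / 93 * (1 - β)) *
        (1 + 2 * α + 4 * β + 12 * α * β + 6 * β ^ 2 + 24 * α * β ^ 2) +
      6 * (7 / 93 * (1 - β)) ^ 2 *
        (2 + 6 * α + 12 * β + 48 * α * β + 24 * β ^ 2 + 120 * α * β ^ 2)) + 7 / 100) ≤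
      (1 - β) * (1109 / 500 * (1 + α + β + 2 * α * β)) := by
    have g0 := mul_le_mul_of_nonneg_left h0 (sub_nonneg.2 hαβ)
    have g1 := mul_le_mul_of_nonneg_left h1 hα
    linarith
  have := le_of_mul_le_mul_left key hu
  linarith

theorem exp104 : (31000 : ℝ) ≤ Real.exp (52 / 5) := by
  have h1 : Real.exp (52 / 5) = Real.exp 1 ^ 10 * Real.exp (2 / 5) := by
    rw [← Real.exp_nat_mul, ← Real.exp_add]
    congr 1
    norm_num
  have h2 := Real.exp_one_gt_d9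
  have h3 : (1:ℝ) + 2 / 5 + (2 / 5) ^ 2 / 2 ≤ Real.exp (2 / 5) :=
    Real.quadratic_le_exp_of_nonneg (by norm_num)
  rw [h1]
  calc (31000 : ℝ) ≤ (2.7182818283 : ℝ) ^ 10 * (1 + 2 / 5 + (2 / 5) ^ 2 / 2) := by norm_num
    _ ≤ _ := mul_le_mul (pow_le_pow_left₀ (by norm_num) h2.le _) h3 (by norm_num) (by positivity)

theorem sq_exp {m : ℝ} (hm : 93 / 7 ≤ m) : m ^ 2 * Real.exp (-(4 / 5 * m)) ≤ 169 / 31000 := by
  have h1 : m / 13 ≤ Real.exp (m / 13 - 1) := by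
    have := Real.add_one_le_exp (m / 13 - 1)
    linarith
  have h2 : (m / 13) ^ 2 ≤ Real.exp (m / 13 - 1) ^ 2 := pow_le_pow_left₀ (by positivity) h1 2
  rw [← Real.exp_nat_mul] at h2
  have h3 : Real.exp ((2:ℕ) * (m / 13 - 1)) ≤ Real.exp (4 / 5 * m - 52 / 5) := by
    rw [Real.exp_le_exp]
    push_cast
    linarith
  have h4 : m ^ 2 ≤ 169 * Real.exp (4 / 5 * m - 52 / 5) := by
    have e : (m / 13) ^ 2 = m ^ 2 / 169 := by ring
    rw [e] at h2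
    linarith
  have h5 : Real.exp (4 / 5 * m - 52 / 5) * Real.exp (-(4 / 5 * m)) = (Real.exp (52 / 5))⁻¹ := by
    rw [← Real.exp_add, ← Real.exp_neg]
    congr 1
    ring
  have h6 : (Real.exp (52 / 5))⁻¹ ≤ 31000⁻¹ := inv_anti₀ (by norm_num) exp104
  calc m ^ 2 * Real.exp (-(4 / 5 * m)) ≤
      169 * Real.exp (4 / 5 * m - 52 / 5) * Real.exp (-(4 / 5 * m)) :=
        mul_le_mul_of_nonneg_right h4 (Real.exp_pos _).le
    _ = 169 * (Real.exp (52 / 5))⁻¹ := by rw [mul_assoc, h5]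
    _ ≤ 169 * 31000⁻¹ := mul_le_mul_of_nonneg_left h6 (by norm_num)
    _ = _ := by norm_num

theorem tau_exp {τ : ℝ} (hτ : 0 ≤ τ) :
    (1 + τ) * (1 + τ / 13) * (1 + 4 / 5 * τ) * Real.exp (-(4 / 5 * τ)) ≤ 3 := by
  have h1 : 1 + τ / 5 ≤ Real.exp (τ / 5) := by
    have := Real.add_one_le_exp (τ / 5)
    linarith
  have h2 : (1 + τ / 5) ^ 4 ≤ Real.exp (τ / 5) ^ 4 := pow_le_pow_left₀ (by positivity) h1 4
  rw [← Real.exp_nat_mul] at h2
  have e : ((4:ℕ):ℝ) * (τ / 5) = 4 / 5 * τ := by push_cast; ring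
  rw [e] at h2
  have h3 : (1 + τ) * (1 + τ / 13) * (1 + 4 / 5 * τ) ≤ 3 * (1 + τ / 5) ^ 4 := by
    have e2 : 3 * (1 + τ / 5) ^ 4 - (1 + τ) * (1 + τ / 13) * (1 + 4 / 5 * τ) =
      2 + 34 / 65 * τ - 71 / 325 * τ ^ 2 + 56 / 1625 * τ ^ 3 + 3 / 625 * τ ^ 4 := by ring
    have : 0 ≤ 2 + 34 / 65 * τ - 71 / 325 * τ ^ 2 + 56 / 1625 * τ ^ 3 + 3 / 625 * τ ^ 4 := by
      nlinarith [mul_nonneg hτ (sq_nonneg (τ - 3)), pow_nonneg hτ 4]
    linarith
  have h4 : (1 + τ) * (1 + τ / 13) * (1 + 4 / 5 * τ) ≤ 3 * Real.exp (4 / 5 * τ) := by linarith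
  calc (1 + τ) * (1 + τ / 13) * (1 + 4 / 5 * τ) * Real.exp (-(4 / 5 * τ)) ≤
      3 * Real.exp (4 / 5 * τ) * Real.exp (-(4 / 5 * τ)) :=
        mul_le_mul_of_nonneg_right h4 (Real.exp_pos _).le
    _ = 3 := by rw [mul_assoc, ← Real.exp_add]; simp

/-- the late term and the tail -/
theorem small_le {m τ X : ℝ} (hm : 93 / 7 ≤ m) (hτ : 0 ≤ τ) (hX : 0 ≤ X) (hXm : X + 1 ≤ m) :
    (m + τ) * (40 / 11 * ((1 + τ) * (1 + X)) *
      ((1 + 4 / 5 * τ) * Real.exp (-((m + τ) * (4 / 5)))) +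
      1109 / 500 * (Real.exp (-((m + τ) * (4 / 5))) * ((1 + 4 / 5 * X) * (1 + 4 / 5 * τ) / (m + τ) +
        (X * (1 + 4 / 5 * τ) + τ * (1 + 4 / 5 * X)) / (m + τ) ^ 2 +
        2 * (X * τ) / (m + τ) ^ 3))) ≤ 7 / 100 := by
  set l := m + τ with hl
  have hl0 : 0 < l := by linarith
  have hm0 : 0 < m := by linarith
  have e1 : Real.exp (-(l * (4 / 5))) = Real.exp (-(4 / 5 * m)) * Real.exp (-(4 / 5 * τ)) := by
    rw [← Real.exp_add, hl]
    congr 1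
    ring
  set e := Real.exp (-(l * (4 / 5))) with he
  have he0 : 0 < e := Real.exp_pos _
  have hXl : X / l ≤ 1 := by rw [div_le_one hl0]; linarith
  have hτl : τ / l ≤ 1 := by rw [div_le_one hl0]; linarith
  have hXl0 : 0 ≤ X / l := by positivity
  have hτl0 : 0 ≤ τ / l := by positivity
  have e2 : l * (40 / 11 * ((1 + τ) * (1 + X)) * ((1 + 4 / 5 * τ) * e) +
      1109 / 500 * (e * ((1 + 4 / 5 * X) * (1 + 4 / 5 * τ) / l +
        (X * (1 + 4 / 5 * τ) + τ * (1 + 4 / 5 * X)) / l ^ 2 + 2 * (X * τ) / l ^ 3))) =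
      e * (40 / 11 * l * ((1 + τ) * (1 + X)) * (1 + 4 / 5 * τ) +
      1109 / 500 * ((1 + 4 / 5 * X) * (1 + 4 / 5 * τ) +
        (X / l * (1 + 4 / 5 * τ) + τ / l * (1 + 4 / 5 * X)) + 2 * (X / l * (τ / l)))) := by
    field_simp
  rw [e2]
  have a1 : l ≤ m * (1 + τ / 13) := by
    rw [hl]
    nlinarith
  have a2 : 40 / 11 * l * ((1 + τ) * (1 + X)) * (1 + 4 / 5 * τ) ≤
      40 / 11 * (m * (1 + τ / 13)) * ((1 + τ) * m) * (1 + 4 / 5 * τ) := by
    gcongr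
    linarith
  have a3 : (1 + 4 / 5 * X) * (1 + 4 / 5 * τ) +
        (X / l * (1 + 4 / 5 * τ) + τ / l * (1 + 4 / 5 * X)) + 2 * (X / l * (τ / l)) ≤
      m * (1 + 4 / 5 * τ) + (1 * (1 + 4 / 5 * τ) + 1 * m) + 2 * (1 * 1) := by
    gcongr
    · linarith
    · linarith
  have a4 : m * (1 + 4 / 5 * τ) + (1 * (1 + 4 / 5 * τ) + 1 * m) + 2 * (1 * 1) ≤
      1 / 5 * (m ^ 2 * ((1 + τ) * (1 + τ / 13) * (1 + 4 / 5 * τ))) := by
    have b1 : m * (1 + 4 / 5 * τ) + (1 * (1 + 4 / 5 * τ) + 1 * m) + 2 * (1 * 1) ≤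
        (2 * m + 3) * (1 + 4 / 5 * τ) := by nlinarith
    have b2 : 2 * m + 3 ≤ 1 / 5 * m ^ 2 := by nlinarith
    have b3 : 1 + 4 / 5 * τ ≤ (1 + τ) * (1 + τ / 13) * (1 + 4 / 5 * τ) := by
      have : 1 ≤ (1 + τ) * (1 + τ / 13) := by nlinarith
      nlinarith
    calc _ ≤ (2 * m + 3) * (1 + 4 / 5 * τ) := b1
      _ ≤ (1 / 5 * m ^ 2) * ((1 + τ) * (1 + τ / 13) * (1 + 4 / 5 * τ)) :=
          mul_le_mul b2 b3 (by positivity) (by positivity)
      _ = _ := by ring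
  have a5 := sq_exp hm
  have a6 := tau_exp hτ
  calc e * (40 / 11 * l * ((1 + τ) * (1 + X)) * (1 + 4 / 5 * τ) +
      1109 / 500 * ((1 + 4 / 5 * X) * (1 + 4 / 5 * τ) +
        (X / l * (1 + 4 / 5 * τ) + τ / l * (1 + 4 / 5 * X)) + 2 * (X / l * (τ / l)))) ≤
      e * (40 / 11 * (m * (1 + τ / 13)) * ((1 + τ) * m) * (1 + 4 / 5 * τ) +
      1109 / 500 * (1 / 5 * (m ^ 2 * ((1 + τ) * (1 + τ / 13) * (1 + 4 / 5 * τ))))) := by
        refine mul_le_mul_of_nonneg_left ?_ he0.le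
        refine add_le_add a2 (mul_le_mul_of_nonneg_left (a3.trans a4) (by norm_num))
    _ = (40 / 11 + 1109 / 2500) * (m ^ 2 * Real.exp (-(4 / 5 * m))) *
        ((1 + τ) * (1 + τ / 13) * (1 + 4 / 5 * τ) * Real.exp (-(4 / 5 * τ))) := by
        rw [e1]; ring
    _ ≤ (40 / 11 + 1109 / 2500) * (169 / 31000) * 3 := by
        refine mul_le_mul (mul_le_mul_of_nonneg_left a5 (by norm_num)) a6 (by positivity)
          (by norm_num)
    _ ≤ _ := by norm_num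

theorem Bf_le {κ τ s : ℝ} (hκ : 0 < κ) (hκ1 : κ ≤ 433 / 500) (hτ : 0 ≤ τ) (hs0 : 0 ≤ s)
    (hs1 : s ≤ 4 / 5) :
    Bf κ τ s ≤ (1 + s * τ) * (433 / 500 * (1 + 567 / 500 * s + 6 * s ^ 2)) := by
  have h1 := TTκ_pos hκ hs0 (by linarith : s < 1)
  have h2 : 0 < 1 - s := by linarith
  unfold Bf
  rw [div_le_iff₀ (by positivity)]
  have h3 : 1 ≤ (1 + 567 / 500 * s + 6 * s ^ 2) * ((1 - 67 / 500 * s) * (1 - s)) := by
    have e : (1 + 567 / 500 * s + 6 * s ^ 2) * ((1 - 67 / 500 * s) * (1 - s)) - 1 =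
      s ^ 2 * (1212011 / 250000 - 1663011 / 250000 * s + 201 / 250 * s ^ 2) := by ring
    have : 0 ≤ 1212011 / 250000 - 1663011 / 250000 * s + 201 / 250 * s ^ 2 := by nlinarith
    nlinarith [mul_nonneg (sq_nonneg s) this]
  have h4 : κ * (1 - 67 / 500 * s) ≤ 433 / 500 * TT κ s := by
    unfold TT
    nlinarith
  have h5 : κ ≤ 433 / 500 * (1 + 567 / 500 * s + 6 * s ^ 2) * (TT κ s * (1 - s)) := by
    calc κ ≤ κ * ((1 + 567 / 500 * s + 6 * s ^ 2) * ((1 - 67 / 500 * s) * (1 - s))) :=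
          le_mul_of_one_le_right hκ.le h3
      _ = (1 + 567 / 500 * s + 6 * s ^ 2) * (1 - s) * (κ * (1 - 67 / 500 * s)) := by ring
      _ ≤ (1 + 567 / 500 * s + 6 * s ^ 2) * (1 - s) * (433 / 500 * TT κ s) :=
          mul_le_mul_of_nonneg_left h4 (by positivity)
      _ = _ := by ring
  have h6 : 0 ≤ 1 + s * τ := by positivity
  calc κ * (1 + s * τ) ≤
      (433 / 500 * (1 + 567 / 500 * s + 6 * s ^ 2) * (TT κ s * (1 - s))) * (1 + s * τ) :=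
        mul_le_mul_of_nonneg_right h5 h6
    _ = _ := by ring

theorem Bf_cont {κ τ : ℝ} (hκ : 0 < κ) {se : ℝ} (hse : se < 1) :
    ContinuousOn (fun s => Bf κ τ s) (Set.Icc 0 se) := by
  have h1 : ∀ s ∈ Set.Icc 0 se, TT κ s * (1 - s) ≠ 0 := fun s hs => by
    have h1 := TTκ_pos hκ hs.1 (lt_of_le_of_lt hs.2 hse)
    have h2 : 0 < 1 - s := by linarith [hs.2]
    positivity
  unfold Bf
  exact (Continuous.continuousOn (by fun_prop)).div
      ((TT_cont κ).mul (by fun_prop)).continuousOn h1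

/-- **the integral inequality** -/
theorem J_nonneg {m τ X κ : ℝ} (hm : 93 / 7 ≤ m) (hτ : 0 ≤ τ) (hτm : τ ≤ m) (hX : 0 ≤ X)
    (hXm : X + 1 ≤ m) (hκ : 0 < κ) (hκ1 : κ ≤ 433 / 500) :
    0 ≤ (∫ s in (0:ℝ)..(4 / 5), Real.exp (-((m + τ) * s)) * ((1 + s * X) * (1 + s * τ)) *
      (1109 / 500 - Bf κ τ s)) - 40 / 11 * ((1 + τ) * (1 + X)) *
      ((1 + 4 / 5 * τ) * Real.exp (-((m + τ) * (4 / 5)))) := by
  have hsm := small_le hm hτ hX hXm
  set l := m + τ with hl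
  have hl0 : 0 < l := by linarith
  have hpos := pos_eq hl0 (4 / 5) X τ
  have hneg := poly5_le hl0 (x := 4 / 5) (by norm_num)
    (c0 := 433 / 500 * 1) (c1 := 433 / 500 * ((X + 2 * τ) + 567 / 500))
    (c2 := 433 / 500 * ((2 * X * τ + τ ^ 2) + 567 / 500 * (X + 2 * τ) + 6))
    (c3 := 433 / 500 * (X * τ ^ 2 + 567 / 500 * (2 * X * τ + τ ^ 2) + 6 * (X + 2 * τ)))
    (c4 := 433 / 500 * (567 / 500 * (X * τ ^ 2) + 6 * (2 * X * τ + τ ^ 2)))
    (c5 := 433 / 500 * (6 * (X * τ ^ 2)))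
    (by positivity) (by positivity) (by positivity) (by positivity) (by positivity) (by positivity)
  have hint : (1109 / 500 * ∫ s in (0:ℝ)..(4 / 5), Real.exp (-(l * s)) *
      ((1 + s * X) * (1 + s * τ))) - (∫ s in (0:ℝ)..(4 / 5), Real.exp (-(l * s)) *
        (433 / 500 * 1 + 433 / 500 * ((X + 2 * τ) + 567 / 500) * s +
        433 / 500 * ((2 * X * τ + τ ^ 2) + 567 / 500 * (X + 2 * τ) + 6) * s ^ 2 +
        433 / 500 * (X * τ ^ 2 + 567 / 500 * (2 * X * τ + τ ^ 2) + 6 * (X + 2 * τ)) * s ^ 3 +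
        433 / 500 * (567 / 500 * (X * τ ^ 2) + 6 * (2 * X * τ + τ ^ 2)) * s ^ 4 +
        433 / 500 * (6 * (X * τ ^ 2)) * s ^ 5)) ≤
      ∫ s in (0:ℝ)..(4 / 5), Real.exp (-(l * s)) * ((1 + s * X) * (1 + s * τ)) *
      (1109 / 500 - Bf κ τ s) := by
    rw [← intervalIntegral.integral_const_mul, ← intervalIntegral.integral_sub
      (Continuous.intervalIntegrable (by fun_prop) _ _)
      (Continuous.intervalIntegrable (by fun_prop) _ _)]
    refine intervalIntegral.integral_mono_on (by norm_num)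
      (Continuous.intervalIntegrable (by fun_prop) _ _) ?_ ?_
    · refine ContinuousOn.intervalIntegrable ?_
      rw [Set.uIcc_of_le (by norm_num)]
      refine ContinuousOn.mul (Continuous.continuousOn (by fun_prop)) ?_
      exact continuousOn_const.sub (Bf_cont hκ (by norm_num))
    · intro s hs
      have hs0 := hs.1
      have h1 := Bf_le hκ hκ1 hτ hs.1 hs.2
      have h2 : 0 ≤ Real.exp (-(l * s)) * ((1 + s * X) * (1 + s * τ)) := by positivity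
      have h3 := mul_le_mul_of_nonneg_left h1 h2
      have e : Real.exp (-(l * s)) * ((1 + s * X) * (1 + s * τ)) *
          ((1 + s * τ) * (433 / 500 * (1 + 567 / 500 * s + 6 * s ^ 2))) =
          Real.exp (-(l * s)) *
        (433 / 500 * 1 + 433 / 500 * ((X + 2 * τ) + 567 / 500) * s +
        433 / 500 * ((2 * X * τ + τ ^ 2) + 567 / 500 * (X + 2 * τ) + 6) * s ^ 2 +
        433 / 500 * (X * τ ^ 2 + 567 / 500 * (2 * X * τ + τ ^ 2) + 6 * (X + 2 * τ)) * s ^ 3 +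
        433 / 500 * (567 / 500 * (X * τ ^ 2) + 6 * (2 * X * τ + τ ^ 2)) * s ^ 4 +
        433 / 500 * (6 * (X * τ ^ 2)) * s ^ 5) := by ring
      rw [← e]
      linarith
  rw [hpos] at hint
  -- the variables `ε, α, β`
  have hε0 : 0 < 1 / l := by positivity
  have hεl : 1 / l * m + 1 / l * τ = 1 := by
    rw [← mul_add, ← hl]; field_simp
  have hβ1 : 1 / l * τ ≤ 1 / 2 := by
    have := mul_le_mul_of_nonneg_left hτm hε0.le
    linarith
  have hαβ : 1 / l * X ≤ 1 - 1 / l * τ := by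
    have := mul_le_mul_of_nonneg_left (by linarith : X ≤ m) hε0.le
    linarith
  have hε1 : 1 / l ≤ 7 / 93 * (1 - 1 / l * τ) := by
    have := mul_le_mul_of_nonneg_left hm hε0.le
    linarith
  have hpl := pl (α := 1 / l * X) (β := 1 / l * τ) (ε := 1 / l) (by positivity) (by positivity)
    hβ1 hαβ hε0.le hε1
  have hpl2 := mul_le_mul_of_nonneg_left hpl hε0.le
  have e1 : (1 / l + (X + τ) / l ^ 2 + 2 * (X * τ) / l ^ 3) =
      1 / l * (1 + 1 / l * X + 1 / l * τ + 2 * (1 / l * X) * (1 / l * τ)) := by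
    field_simp
    ring
  rw [e1] at hint
  have hsm2 := mul_le_mul_of_nonneg_left hsm hε0.le
  rw [← mul_assoc, one_div_mul_cancel hl0.ne', one_mul] at hsm2
  set E := Real.exp (-(l * (4 / 5))) with hE
  set T1 := E * ((1 + 4 / 5 * X) * (1 + 4 / 5 * τ) / l +
        (X * (1 + 4 / 5 * τ) + τ * (1 + 4 / 5 * X)) / l ^ 2 + 2 * (X * τ) / l ^ 3) with hT1
  set T2 := 40 / 11 * ((1 + τ) * (1 + X)) * ((1 + 4 / 5 * τ) * E) with hT2
  set ε := 1 / l with hε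
  linarith

end Pool.Agent.Lib.MP_172a45_an.L.Big
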