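import Pool.Agent.Lib.MP_172a45_an.L.LcFacts

set_option autoImplicit false

/-!
# The box lemma for part L-c
-/

namespace Pool.Agent.Lib.MP_172a45_an.L

open Finset Real
open Pool.Agent.Lib.MP_172a45_an.F
open Pool.Agent.Lib.MP_172a45_an.F.Fr

/-- a decreasing factor -/
theorem dec_factor {X Xm β σ ρ : ℝ} (hX : Xm ≤ X) (hb : 0 < Xm + β) (hσ : 0 ≤ σ)
    (h1 : 0 < 1 + σ * Xm) (hρ : 1 / (Xm + β) + σ / (1 + σ * Xm) ≤ ρ) :
    (X + β) * (1 + σ * X) * Real.exp (-(ρ * X)) ≤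
      (Xm + β) * (1 + σ * Xm) * Real.exp (-(ρ * Xm)) := by
  have e1 : X + β ≤ (Xm + β) * Real.exp ((X - Xm) / (Xm + β)) := by
    have := Real.add_one_le_exp ((X - Xm) / (Xm + β))
    have h2 := mul_le_mul_of_nonneg_left this hb.le
    have e : (Xm + β) * ((X - Xm) / (Xm + β) + 1) = X + β := by
      field_simp
      ring
    linarith
  have e2 : 1 + σ * X ≤ (1 + σ * Xm) * Real.exp (σ * (X - Xm) / (1 + σ * Xm)) := by
    have := Real.add_one_le_exp (σ * (X - Xm) / (1 + σ * Xm))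
    have h2 := mul_le_mul_of_nonneg_left this h1.le
    have e : (1 + σ * Xm) * (σ * (X - Xm) / (1 + σ * Xm) + 1) = 1 + σ * X := by
      field_simp
      ring
    linarith
  have h3 : 0 ≤ 1 + σ * X := by nlinarith
  have e3 : (X + β) * (1 + σ * X) ≤ (Xm + β) * (1 + σ * Xm) *
      Real.exp ((X - Xm) / (Xm + β) + σ * (X - Xm) / (1 + σ * Xm)) := by
    rw [Real.exp_add]
    calc (X + β) * (1 + σ * X) ≤ ((Xm + β) * Real.exp ((X - Xm) / (Xm + β))) *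
          ((1 + σ * Xm) * Real.exp (σ * (X - Xm) / (1 + σ * Xm))) :=
          mul_le_mul e1 e2 h3 (by positivity)
      _ = _ := by ring
  calc (X + β) * (1 + σ * X) * Real.exp (-(ρ * X)) ≤
        ((Xm + β) * (1 + σ * Xm) *
        Real.exp ((X - Xm) / (Xm + β) + σ * (X - Xm) / (1 + σ * Xm))) * Real.exp (-(ρ * X)) :=
        mul_le_mul_of_nonneg_right e3 (Real.exp_pos _).le
    _ = (Xm + β) * (1 + σ * Xm) *
        Real.exp ((X - Xm) / (Xm + β) + σ * (X - Xm) / (1 + σ * Xm) - ρ * X) := by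
        rw [mul_assoc, ← Real.exp_add]
        congr 2
        
    _ ≤ (Xm + β) * (1 + σ * Xm) * Real.exp (-(ρ * Xm)) := by
        refine mul_le_mul_of_nonneg_left (Real.exp_le_exp.2 ?_) (by positivity)
        have h4 : (X - Xm) / (Xm + β) + σ * (X - Xm) / (1 + σ * Xm) =
            (X - Xm) * (1 / (Xm + β) + σ / (1 + σ * Xm)) := by ring
        rw [h4]
        have := mul_le_mul_of_nonneg_left hρ (by linarith : 0 ≤ X - Xm)
        linarith

theorem exp_quarter (k : ℕ) : Real.exp (-((k : ℝ) / 4)) ≤ (7789 / 10000 : ℝ) ^ k := by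
  have h1 : Real.exp (-((k : ℝ) / 4)) = Real.exp (-(1 / 4)) ^ k := by
    rw [← Real.exp_nat_mul]
    congr 1
    ring
  rw [h1]
  refine pow_le_pow_left₀ (Real.exp_pos _).le ?_ k
  rw [Real.exp_neg]
  have h2 := Real.sum_le_exp_of_nonneg (x := 1 / 4) (by norm_num) 5
  have h3 : (10000 / 7789 : ℝ) ≤ Real.exp (1 / 4) := by
    refine le_trans ?_ h2
    norm_num [Finset.sum_range_succ, Nat.factorial]
  calc (Real.exp (1 / 4))⁻¹ ≤ (10000 / 7789 : ℝ)⁻¹ := inv_anti₀ (by norm_num) h3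
    _ = 7789 / 10000 := by norm_num

/-- the constant of a step -/
noncomputable def Vc (κ1 Xm β σ σ' : ℝ) (k : ℕ) : ℝ :=
  4 * κ1 / ((1 - σ') * (1 - (1 - κ1) * σ')) * ((Xm + β) * (1 + σ * Xm)) * (7789 / 10000) ^ k

/-- one step of the `U`-integral, pointwise -/
theorem U_pt {κ κ1 p c0 m t Xm β μ1 σ σ' s : ℝ} {k : ℕ} (hκ : 0 < κ) (hκ1 : κ ≤ κ1)
    (hκ11 : κ1 ≤ 1) (hXm : 0 < Xm) (hX : Xm ≤ c0 - 1) (hp : (c0 - 1) ^ 2 ≤ p)
    (hm : c0 - 1 - μ1 ≤ m) (hσ : 0 < σ) (hs : σ ≤ s) (hs' : s ≤ σ') (hσ' : σ' < 1)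
    (ht : t ≤ c0 - 1 + β) (hb : 0 < Xm + β)
    (hmon : 1 / (Xm + β) + σ / (1 + σ * Xm) ≤ σ) (hq : μ1 * (1 + σ * Xm) ≤ σ * Xm ^ 2)
    (hk : (k : ℝ) / 4 ≤ (Xm - μ1) * σ +
      σ * Xm ^ 2 * ((1 - σ') * (1 - (1 - κ1) * σ')) / (2 * κ1 * (1 + σ * Xm)) + 1) :
    t * Uf κ p c0 m s ≤ Vc κ1 Xm β σ σ' k := by
  set X := c0 - 1 with hXdef
  have hκ10 : 0 < κ1 := by linarith
  have hs0 : 0 < s := by linarith
  have hs1 : s < 1 := by linarith
  have hσ'0 : 0 < σ' := by linarith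
  have hX0 : 0 < X := by linarith
  set Q1 := (1 - σ') * (1 - (1 - κ1) * σ') with hQ1
  have hq0 : 0 < 1 - (1 - κ1) * σ' := by nlinarith
  have hQ10 : 0 < Q1 := by
    have : 0 < 1 - σ' := by linarith
    positivity
  set Q := TT κ s * (1 - s) with hQ
  have hTκ := TTκ_pos hκ hs0.le hs1
  have hQ0 : 0 < Q := by
    have : 0 < 1 - s := by linarith
    positivity
  have hTX : TT c0 s = 1 + s * X := by unfold TT; rw [hXdef]; ring
  have hTX0 : 0 < 1 + s * X := by positivity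
  -- `κ Q₁ ≤ κ₁ Q`
  have hκQ : κ * Q1 ≤ κ1 * Q := by
    have h1 : κ * TT κ1 s ≤ κ1 * TT κ s := by unfold TT; nlinarith
    have h2 : 1 - (1 - κ1) * σ' ≤ TT κ1 s := by unfold TT; nlinarith
    have h3 : 0 ≤ TT κ1 s := hq0.le.trans h2
    calc κ * Q1 = κ * (1 - (1 - κ1) * σ') * (1 - σ') := by rw [hQ1]; ring
      _ ≤ κ * TT κ1 s * (1 - s) := by
          refine mul_le_mul (mul_le_mul_of_nonneg_left h2 hκ.le) (by linarith) (by linarith)
            (by positivity)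
      _ ≤ κ1 * TT κ s * (1 - s) := mul_le_mul_of_nonneg_right h1 (by linarith)
      _ = κ1 * Q := by rw [hQ]; ring
  have hκQ' : κ / Q ≤ κ1 / Q1 := by
    rw [div_le_div_iff₀ hQ0 hQ10]
    linarith
  -- `Z`
  set Zl := σ * Xm ^ 2 * Q1 / (2 * κ1 * (1 + σ * Xm)) with hZl
  have hZ : Zl ≤ Zf κ p c0 s := by
    have h1 : σ * Xm ^ 2 / (1 + σ * Xm) ≤ σ * X ^ 2 / (1 + σ * X) := by
      rw [div_le_div_iff₀ (by positivity) (by positivity)]
      have h2 : 0 ≤ X - Xm := by linarith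
      nlinarith [mul_nonneg (mul_nonneg hσ.le h2) (by positivity : 0 ≤ X + Xm + σ * (X * Xm))]
    have h2 : σ * X ^ 2 / (1 + σ * X) ≤ s * p / (1 + s * X) := by
      rw [div_le_div_iff₀ (by positivity) (by positivity)]
      have h3 : σ * X ^ 2 * (1 + s * X) ≤ s * X ^ 2 * (1 + σ * X) := by
        nlinarith [mul_nonneg (sub_nonneg.2 hs) (sq_nonneg X)]
      have h4 : s * X ^ 2 * (1 + σ * X) ≤ s * p * (1 + σ * X) := by gcongr
      linarith
    have h3 : Q1 / κ1 ≤ Q / κ := by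
      rw [div_le_div_iff₀ hκ10 hκ]
      linarith
    have e1 : Zf κ p c0 s = (s * p / (1 + s * X)) * (Q / κ) / 2 := by
      unfold Zf
      rw [hTX, ← hQ]
      field_simp
    have e2 : Zl = (σ * Xm ^ 2 / (1 + σ * Xm)) * (Q1 / κ1) / 2 := by
      rw [hZl]
      field_simp
    rw [e1, e2]
    refine div_le_div_of_nonneg_right ?_ (by norm_num)
    exact mul_le_mul (h1.trans h2) h3 (by positivity) (by
      have : 0 ≤ p := (sq_nonneg _).trans hp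
      positivity)
  -- `TT c0 s exp(-m s)`
  have hT : TT c0 s * Real.exp (-(m * s)) ≤
      (1 + σ * X) * Real.exp (-((X - μ1) * σ)) := by
    rw [hTX]
    have h1 : X / (1 + σ * X) ≤ X - μ1 := by
      rw [div_le_iff₀ (by positivity)]
      have h2 : 0 ≤ X - Xm := by linarith
      have h3 : 0 ≤ σ * (X + Xm - μ1) := by
        have : μ1 ≤ Xm := by
          have h4 : μ1 * (1 + σ * Xm) ≤ Xm * (1 + σ * Xm) := by nlinarith
          exact le_of_mul_le_mul_right h4 (by positivity)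
        exact mul_nonneg hσ.le (by linarith)
      nlinarith [mul_nonneg h2 h3]
    have h2 : 1 + s * X ≤ (1 + σ * X) * Real.exp ((s - σ) * (X / (1 + σ * X))) := by
      have := Real.add_one_le_exp ((s - σ) * (X / (1 + σ * X)))
      have h3 := mul_le_mul_of_nonneg_left this (by positivity : 0 ≤ 1 + σ * X)
      have e : (1 + σ * X) * ((s - σ) * (X / (1 + σ * X)) + 1) = 1 + s * X := by
        field_simp
        ring
      linarith
    calc (1 + s * X) * Real.exp (-(m * s)) ≤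
          ((1 + σ * X) * Real.exp ((s - σ) * (X / (1 + σ * X)))) * Real.exp (-((X - μ1) * s)) := by
          refine mul_le_mul h2 (Real.exp_le_exp.2 ?_) (Real.exp_pos _).le (by positivity)
          have := mul_le_mul_of_nonneg_right hm hs0.le
          linarith
      _ = (1 + σ * X) * Real.exp ((s - σ) * (X / (1 + σ * X)) - (X - μ1) * s) := by
          rw [mul_assoc, ← Real.exp_add]
          congr 2
      _ ≤ _ := by
          refine mul_le_mul_of_nonneg_left (Real.exp_le_exp.2 ?_) (by positivity)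
          have := mul_le_mul_of_nonneg_left h1 (sub_nonneg.2 hs)
          linarith
  have hdf := dec_factor hX hb hσ.le (by positivity : 0 < 1 + σ * Xm) hmon
  have hXβ : 0 < X + β := by linarith
  have hE : Real.exp (-1) * (Real.exp (-((Xm - μ1) * σ)) * Real.exp (-Zl)) ≤
      (7789 / 10000 : ℝ) ^ k := by
    refine le_trans ?_ (exp_quarter k)
    rw [← Real.exp_add, ← Real.exp_add]
    refine Real.exp_le_exp.2 ?_
    linarith
  have hU0 : 0 ≤ Uf κ p c0 m s := by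
    unfold Uf
    rw [hTX]
    positivity
  calc t * Uf κ p c0 m s ≤ (X + β) * Uf κ p c0 m s := mul_le_mul_of_nonneg_right ht hU0
    _ = 4 * (κ / Q) * (Real.exp (-1) * ((X + β) * (TT c0 s * Real.exp (-(m * s))) *
        Real.exp (-Zf κ p c0 s))) := by
        unfold Uf
        rw [← hQ]
        ring
    _ ≤ 4 * (κ1 / Q1) * (Real.exp (-1) * ((X + β) * ((1 + σ * X) *
        Real.exp (-((X - μ1) * σ))) * Real.exp (-Zl))) := by
        have h5 : (X + β) * (TT c0 s * Real.exp (-(m * s))) ≤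
            (X + β) * ((1 + σ * X) * Real.exp (-((X - μ1) * σ))) :=
          mul_le_mul_of_nonneg_left hT hXβ.le
        have h6 : Real.exp (-Zf κ p c0 s) ≤ Real.exp (-Zl) := Real.exp_le_exp.2 (by linarith)
        have h7 : 0 ≤ TT c0 s := by rw [hTX]; positivity
        refine mul_le_mul (by linarith) ?_ (by positivity) (by positivity)
        refine mul_le_mul_of_nonneg_left ?_ (Real.exp_pos _).le
        exact mul_le_mul h5 h6 (Real.exp_pos _).le (by positivity)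
    _ = 4 * (κ1 / Q1) * (((X + β) * (1 + σ * X) * Real.exp (-(σ * X))) *
        (Real.exp (-1) * (Real.exp (μ1 * σ) * Real.exp (-Zl)))) := by
        have e : Real.exp (-((X - μ1) * σ)) = Real.exp (-(σ * X)) * Real.exp (μ1 * σ) := by
          rw [← Real.exp_add]
          congr 1
          ring
        rw [e]
        ring
    _ ≤ 4 * (κ1 / Q1) * (((Xm + β) * (1 + σ * Xm) * Real.exp (-(σ * Xm))) *
        (Real.exp (-1) * (Real.exp (μ1 * σ) * Real.exp (-Zl)))) := by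
        refine mul_le_mul_of_nonneg_left ?_ (by positivity)
        exact mul_le_mul_of_nonneg_right hdf (by positivity)
    _ = 4 * (κ1 / Q1) * ((Xm + β) * (1 + σ * Xm)) *
        (Real.exp (-1) * (Real.exp (-((Xm - μ1) * σ)) * Real.exp (-Zl))) := by
        have e : Real.exp (-((Xm - μ1) * σ)) = Real.exp (-(σ * Xm)) * Real.exp (μ1 * σ) := by
          rw [← Real.exp_add]
          congr 1
          ring
        rw [e]
        ring
    _ ≤ 4 * (κ1 / Q1) * ((Xm + β) * (1 + σ * Xm)) * (7789 / 10000 : ℝ) ^ k :=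
        mul_le_mul_of_nonneg_left hE (by positivity)
    _ = Vc κ1 Xm β σ σ' k := by
        unfold Vc
        rw [← hQ1]
        ring

/-- one step of the `U`-integral -/
theorem U_int {κ κ1 p c0 m t Xm β μ1 σ σ' : ℝ} {k : ℕ} (hc1 : 1 ≤ c0) (hκ : 0 < κ)
    (hκ1 : κ ≤ κ1)
    (hκ11 : κ1 ≤ 1) (hXm : 0 < Xm) (hX : Xm ≤ c0 - 1) (hp : (c0 - 1) ^ 2 ≤ p)
    (hm : c0 - 1 - μ1 ≤ m) (hσ : 0 < σ) (hss : σ ≤ σ') (hσ' : σ' < 1)
    (ht : t ≤ c0 - 1 + β) (hb : 0 < Xm + β)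
    (hmon : 1 / (Xm + β) + σ / (1 + σ * Xm) ≤ σ) (hq : μ1 * (1 + σ * Xm) ≤ σ * Xm ^ 2)
    (hk : (k : ℝ) / 4 ≤ (Xm - μ1) * σ +
      σ * Xm ^ 2 * ((1 - σ') * (1 - (1 - κ1) * σ')) / (2 * κ1 * (1 + σ * Xm)) + 1) :
    t * (∫ s in σ..σ', Uf κ p c0 m s) ≤ (σ' - σ) * Vc κ1 Xm β σ σ' k := by
  rw [← intervalIntegral.integral_const_mul]
  have hi : IntervalIntegrable (fun s => t * Uf κ p c0 m s) MeasureTheory.volume σ σ' := by
    refine ContinuousOn.intervalIntegrable ?_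
    rw [Set.uIcc_of_le hss]
    exact continuousOn_const.mul (Uf_cont hκ hc1 hσ.le hσ')
  have h1 := intervalIntegral.integral_mono_on hss hi
    (_root_.intervalIntegrable_const (c := Vc κ1 Xm β σ σ' k)) fun s hs =>
    U_pt hκ hκ1 hκ11 hXm hX hp hm hσ hs.1 hs.2 hσ' ht hb hmon hq hk
  rw [intervalIntegral.integral_const, smul_eq_mul] at h1
  exact h1

/-- conditions of one step -/
structure Cs (κ1 μ1 Xm β σ σ' : ℝ) (k : ℕ) : Prop where
  mon : 1 / (Xm + β) + σ / (1 + σ * Xm) ≤ σ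
  q : μ1 * (1 + σ * Xm) ≤ σ * Xm ^ 2
  k : (k : ℝ) / 4 ≤ (Xm - μ1) * σ +
      σ * Xm ^ 2 * ((1 - σ') * (1 - (1 - κ1) * σ')) / (2 * κ1 * (1 + σ * Xm)) + 1

theorem frac_mono {p q r s x y : ℝ} (hxy : x ≤ y) (hx : 0 < r * x + s) (hr : 0 ≤ r)
    (h : q * r ≤ p * s) : (p * x + q) / (r * x + s) ≤ (p * y + q) / (r * y + s) := by
  have hy : 0 < r * y + s := by nlinarith
  rw [div_le_div_iff₀ hx hy]
  nlinarith [mul_nonneg (sub_nonneg.2 hxy) (sub_nonneg.2 h)]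

/-- monotonicity of `t I₀` in `t` -/
theorem iota_mono {t tm β p : ℝ} (ht : tm ≤ t) (htm : 0 < tm) (hβ : β ≤ tm) (hβ0 : 0 ≤ β)
    (hp : 5 / 4 ≤ p) :
    tm * I0 (tm - β) ((p - 1) * tm + 1 / 2) (p * tm + 3) ≤
      t * I0 (t - β) ((p - 1) * t + 1 / 2) (p * t + 3) := by
  have e : ∀ x : ℝ, 0 < x → x * I0 (x - β) ((p - 1) * x + 1 / 2) (p * x + 3) =
      (1 * x + 0) / (p * x + 4) + (1 * x + 0) / (p * x + 4) * ((p * x + (1 / 2 - β)) / (p * x + 5)) +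
      2 * ((1 * x + 0) / (p * x + 4)) * ((1 * x + (-β)) / (p * x + 5)) *
        (((p - 1) * x + 1 / 2) / (p * x + 6)) := by
    intro x hx
    have h1 : 0 < p * x := by positivity
    unfold I0
    have h4 : p * x + 4 ≠ 0 := by linarith
    have h5 : p * x + 5 ≠ 0 := by linarith
    have h6 : p * x + 6 ≠ 0 := by linarith
    have e1 : p * x + 3 + 1 = p * x + 4 := by ring
    have e2 : p * x + 3 + 2 = p * x + 5 := by ring
    have e3 : p * x + 3 + 3 = p * x + 6 := by ring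
    rw [e1, e2, e3]
    field_simp
    ring
  have ht0 : 0 < t := by linarith
  have hp0 : 0 ≤ p := by linarith
  have hpt : 0 < p * tm := by positivity
  have hpt' : 0 < p * t := by positivity
  rw [e tm htm, e t ht0]
  have f1 := frac_mono (p := 1) (q := 0) (r := p) (s := 4) ht (by linarith) hp0 (by linarith)
  have f2 := frac_mono (p := p) (q := 1 / 2 - β) (r := p) (s := 5) ht (by linarith) hp0
    (by nlinarith)
  have f3 := frac_mono (p := 1) (q := -β) (r := p) (s := 5) ht (by linarith) hp0 (by nlinarith)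
  have f4 := frac_mono (p := p - 1) (q := 1 / 2) (r := p) (s := 6) ht (by linarith) hp0
    (by linarith)
  have g1 : 0 ≤ (1 * tm + 0) / (p * tm + 4) := by positivity
  have g1' : 0 ≤ (1 * t + 0) / (p * t + 4) := by positivity
  have g2 : 0 ≤ (p * tm + (1 / 2 - β)) / (p * tm + 5) := by
    refine div_nonneg ?_ (by linarith)
    nlinarith
  have g3 : 0 ≤ (1 * tm + (-β)) / (p * tm + 5) := div_nonneg (by linarith) (by linarith)
  have g3' : 0 ≤ (1 * t + (-β)) / (p * t + 5) := div_nonneg (by linarith) (by linarith)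
  have g4 : 0 ≤ ((p - 1) * tm + 1 / 2) / (p * tm + 6) := by
    refine div_nonneg ?_ (by linarith)
    nlinarith
  refine add_le_add (add_le_add f1 (mul_le_mul f1 f2 g2 g1')) ?_
  exact mul_le_mul (mul_le_mul (mul_le_mul_of_nonneg_left f1 (by norm_num)) f3 g3
    (by positivity)) f4 g4 (mul_nonneg (by positivity) g3')

/-- condition `hz` at `s₁ = c/X²` -/
theorem box_hz1 {κ κ1 μ1 c Xm β X p t c0 : ℝ} (hc0 : c0 = X + 1) (hκ0 : 0 < κ) (hκ : κ ≤ κ1)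
    (hμ : 1 - κ ≤ μ1) (hκ1 : κ ≤ 1)
    (hc : 0 < c) (hXm : 0 < Xm) (hX : Xm ≤ X) (hβ1 : 1 ≤ β) (ht : t ≤ X + β) (ht1 : 1 ≤ t)
    (hp : X ^ 2 ≤ p)
    (n1 : 2 * κ1 * (1 + c / Xm + c * (β - 1) / Xm ^ 2) * (1 + c / Xm) ≤
      c * (1 - (1 + μ1) * (c / Xm ^ 2))) :
    2 * κ * (1 + (c / X ^ 2) * (t - 1)) * TT c0 (c / X ^ 2) ≤
      (c / X ^ 2) * p * (1 - (1 + (1 - κ)) * (c / X ^ 2)) := by
  have hX0 : 0 < X := by linarith
  have hκ10 : 0 < κ1 := by linarith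
  have hv : 1 / X ≤ 1 / Xm := one_div_le_one_div_of_le hXm hX
  have hs1pos : 0 < c / X ^ 2 := by positivity
  have hs1le : c / X ^ 2 ≤ c / Xm ^ 2 :=
    div_le_div_of_nonneg_left hc.le (by positivity) (pow_le_pow_left₀ hXm.le hX 2)
  have hTT1 : TT c0 (c / X ^ 2) = 1 + c * (1 / X) := by
    unfold TT
    rw [hc0]
    field_simp
    ring
  have hs1X : c / X ^ 2 * X ^ 2 = c := by field_simp
  have hb1 : 0 ≤ β - 1 := by linarith
  have hm1 : 0 ≤ 2 * κ1 * (1 + c / Xm + c * (β - 1) / Xm ^ 2) * (1 + c / Xm) := by positivity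
  have hbr : 0 ≤ 1 - (1 + μ1) * (c / Xm ^ 2) := by
    by_contra hcon
    push Not at hcon
    have := mul_neg_of_pos_of_neg hc hcon
    linarith
  have hμ10 : 0 ≤ μ1 := by linarith
  rw [hTT1]
  have h1 : c / X ^ 2 * (t - 1) ≤ c / Xm + c * (β - 1) / Xm ^ 2 := by
    have h2 : c / X ^ 2 * (t - 1) ≤ c / X ^ 2 * (X + (β - 1)) :=
      mul_le_mul_of_nonneg_left (by linarith) hs1pos.le
    have h3 : c / X ^ 2 * (X + (β - 1)) = c * (1 / X) + (β - 1) * (c / X ^ 2) := by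
      field_simp
    have h4 : c * (1 / X) ≤ c * (1 / Xm) := mul_le_mul_of_nonneg_left hv hc.le
    have h5 : (β - 1) * (c / X ^ 2) ≤ (β - 1) * (c / Xm ^ 2) :=
      mul_le_mul_of_nonneg_left hs1le hb1
    have h6 : (β - 1) * (c / Xm ^ 2) = c * (β - 1) / Xm ^ 2 := by ring
    have h7 : c * (1 / Xm) = c / Xm := by ring
    linarith
  have h7 : 1 + c * (1 / X) ≤ 1 + c / Xm := by
    have := mul_le_mul_of_nonneg_left hv hc.le
    have e : c * (1 / Xm) = c / Xm := by ring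
    linarith
  have h8 : 0 ≤ 1 + c / X ^ 2 * (t - 1) := by
    have : 0 ≤ t - 1 := by linarith
    positivity
  calc 2 * κ * (1 + c / X ^ 2 * (t - 1)) * (1 + c * (1 / X)) ≤
        2 * κ1 * (1 + c / Xm + c * (β - 1) / Xm ^ 2) * (1 + c / Xm) := by
        refine mul_le_mul (mul_le_mul (by linarith) (by linarith) h8 (by positivity)) h7
          (by positivity) (by positivity)
    _ ≤ c * (1 - (1 + μ1) * (c / Xm ^ 2)) := n1
    _ ≤ c / X ^ 2 * p * (1 - (1 + (1 - κ)) * (c / X ^ 2)) := by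
        have h10 : c ≤ c / X ^ 2 * p := by
          calc c = c / X ^ 2 * X ^ 2 := hs1X.symm
            _ ≤ _ := mul_le_mul_of_nonneg_left hp hs1pos.le
        have h11 : 1 - (1 + μ1) * (c / Xm ^ 2) ≤ 1 - (1 + (1 - κ)) * (c / X ^ 2) := by
          have h12 : (1 + (1 - κ)) * (c / X ^ 2) ≤ (1 + μ1) * (c / Xm ^ 2) :=
            mul_le_mul (by linarith) hs1le hs1pos.le (by linarith)
          linarith
        have hp0 : 0 ≤ p := (sq_nonneg _).trans hp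
        exact mul_le_mul h10 h11 hbr (by positivity)

/-- condition `hz` at `3/20` -/
theorem box_hzc {κ κ1 μ1 Xm β X p t c0 : ℝ} (hc0 : c0 = X + 1) (hκ0 : 0 < κ) (hκ : κ ≤ κ1)
    (hμ : 1 - κ ≤ μ1)
    (hXm : 0 < Xm) (hX : Xm ≤ X) (hβ1 : 1 ≤ β) (ht : t ≤ X + β) (ht1 : 1 ≤ t)
    (hp : X ^ 2 ≤ p)
    (n2 : 2 * κ1 * (1 / Xm + 3 / 20 * (1 + (β - 1) / Xm)) * (1 / Xm + 3 / 20) ≤
      3 / 20 * (1 - (1 + μ1) * (3 / 20))) :
    2 * κ * (1 + 3 / 20 * (t - 1)) * TT c0 (3 / 20) ≤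
      3 / 20 * p * (1 - (1 + (1 - κ)) * (3 / 20)) := by
  have hX0 : 0 < X := by linarith
  have hκ10 : 0 < κ1 := by linarith
  have hTTc : TT c0 (3 / 20) = 1 + 3 / 20 * X := by
    unfold TT
    rw [hc0]
    ring
  have hb1 : 0 ≤ β - 1 := by linarith
  have hbX : 0 ≤ (β - 1) / Xm := div_nonneg hb1 hXm.le
  rw [hTTc]
  have h2 : 1 ≤ X * (1 / Xm) := by
    rw [mul_one_div, le_div_iff₀ hXm]; linarith
  have h1 : 1 + 3 / 20 * (t - 1) ≤ X * (1 / Xm + 3 / 20 * (1 + (β - 1) / Xm)) := by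
    have h3 : β - 1 ≤ X * ((β - 1) / Xm) := by
      have := mul_le_mul_of_nonneg_right h2 hb1
      calc β - 1 = 1 * (β - 1) := by ring
        _ ≤ X * (1 / Xm) * (β - 1) := this
        _ = _ := by ring
    have e : X * (1 / Xm + 3 / 20 * (1 + (β - 1) / Xm)) =
        X * (1 / Xm) + 3 / 20 * (X + X * ((β - 1) / Xm)) := by ring
    rw [e]
    linarith
  have h4 : 1 + 3 / 20 * X ≤ X * (1 / Xm + 3 / 20) := by
    have e : X * (1 / Xm + 3 / 20) = X * (1 / Xm) + 3 / 20 * X := by ring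
    rw [e]
    linarith
  have h5 : 0 ≤ 1 + 3 / 20 * (t - 1) := by linarith
  have hp0 : 0 ≤ p := (sq_nonneg _).trans hp
  calc 2 * κ * (1 + 3 / 20 * (t - 1)) * (1 + 3 / 20 * X) ≤
        2 * κ1 * (X * (1 / Xm + 3 / 20 * (1 + (β - 1) / Xm))) * (X * (1 / Xm + 3 / 20)) := by
        refine mul_le_mul (mul_le_mul (by linarith) h1 h5 (by positivity)) h4
          (by positivity) (by positivity)
    _ = X ^ 2 * (2 * κ1 * (1 / Xm + 3 / 20 * (1 + (β - 1) / Xm)) * (1 / Xm + 3 / 20)) := by ring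
    _ ≤ X ^ 2 * (3 / 20 * (1 - (1 + μ1) * (3 / 20))) :=
        mul_le_mul_of_nonneg_left n2 (by positivity)
    _ ≤ p * (3 / 20 * (1 - (1 + (1 - κ)) * (3 / 20))) := by
        have h9 : 0 ≤ 3 / 20 * (1 - (1 + μ1) * (3 / 20)) := by
          refine le_trans ?_ n2
          positivity
        exact mul_le_mul hp (by linarith) h9 hp0
    _ = _ := by ring

/-- the start loss -/
theorem box_L1 {κ μ1 c Xm β X p t c0 : ℝ} (hc0 : c0 = X + 1) (hμ : 1 - κ ≤ μ1) (hκ1 : κ ≤ 1)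
    (hc : 0 < c) (hμc : μ1 ≤ c) (hXm : 0 < Xm) (hX : Xm ≤ X) (hβ0 : 0 ≤ β) (ht : t ≤ X + β)
    (ht1 : 0 ≤ t) (hroot : X * (X + (1 - κ)) = p) (n1c : c / Xm ^ 2 ≤ 3 / 20) :
    t * (Real.exp (1 * (c / X ^ 2)) * ((c / X ^ 2) * p / (2 * TT c0 (c / X ^ 2))) *
      ((c / X ^ 2) / 3)) ≤ c ^ 2 / 6 * ((Xm + β) / Xm ^ 2) / (1 - c / Xm ^ 2) := by
  have hX0 : 0 < X := by linarith
  have hv : 1 / X ≤ 1 / Xm := one_div_le_one_div_of_le hXm hX
  have hv0 : 0 ≤ 1 / X := by positivity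
  have hs1pos : 0 < c / X ^ 2 := by positivity
  have hs1le : c / X ^ 2 ≤ c / Xm ^ 2 :=
    div_le_div_of_nonneg_left hc.le (by positivity) (pow_le_pow_left₀ hXm.le hX 2)
  have hTT1 : TT c0 (c / X ^ 2) = 1 + c * (1 / X) := by
    unfold TT
    rw [hc0]
    field_simp
    ring
  have h1 : c / X ^ 2 * p / (2 * TT c0 (c / X ^ 2)) ≤ c / 2 := by
    rw [hTT1]
    have h2 : 0 < 1 + c * (1 / X) := by positivity
    rw [div_le_div_iff₀ (by positivity) (by norm_num)]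
    have h3 : c / X ^ 2 * p = c * (1 + (1 - κ) * (1 / X)) := by
      rw [← hroot]
      field_simp
    rw [h3]
    have h4 : (1 - κ) * (1 / X) ≤ c * (1 / X) :=
      mul_le_mul_of_nonneg_right (by linarith) hv0
    have h5 := mul_le_mul_of_nonneg_left h4 hc.le
    have e : c * (1 + (1 - κ) * (1 / X)) * 2 = 2 * c + 2 * (c * ((1 - κ) * (1 / X))) := by ring
    have e2 : c * (2 * (1 + c * (1 / X))) = 2 * c + 2 * (c * (c * (1 / X))) := by ring
    rw [e, e2]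
    linarith
  have h5 : Real.exp (1 * (c / X ^ 2)) ≤ 1 / (1 - c / Xm ^ 2) := by
    have h6 : c / Xm ^ 2 < 1 := by linarith
    rw [one_mul, le_div_iff₀ (by linarith)]
    have h7 := Real.add_one_le_exp (-(c / X ^ 2))
    have h8 : Real.exp (c / X ^ 2) * (1 - c / Xm ^ 2) ≤
        Real.exp (c / X ^ 2) * Real.exp (-(c / X ^ 2)) :=
      mul_le_mul_of_nonneg_left (by linarith) (Real.exp_pos _).le
    rw [← Real.exp_add, add_neg_cancel, Real.exp_zero] at h8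
    exact h8
  have h9 : t * (c / X ^ 2) ≤ c * ((Xm + β) / Xm ^ 2) := by
    have h10 : t * (c / X ^ 2) ≤ (X + β) * (c / X ^ 2) :=
      mul_le_mul_of_nonneg_right ht hs1pos.le
    have h11 : (X + β) * (c / X ^ 2) = c * ((X + β) / X ^ 2) := by ring
    have h12 : (X + β) / X ^ 2 ≤ (Xm + β) / Xm ^ 2 := by
      have e1 : ∀ x : ℝ, 0 < x → (x + β) / x ^ 2 = 1 / x + β * (1 / x) ^ 2 := by
        intro x hx
        field_simp
      rw [e1 X hX0, e1 Xm hXm]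
      have h13 := pow_le_pow_left₀ hv0 hv 2
      have := mul_le_mul_of_nonneg_left h13 hβ0
      linarith
    rw [h11] at h10
    exact h10.trans (mul_le_mul_of_nonneg_left h12 hc.le)
  have h13 : 0 < 1 / (1 - c / Xm ^ 2) := by
    have : 0 < 1 - c / Xm ^ 2 := by linarith
    positivity
  have hp0 : 0 ≤ p := by
    rw [← hroot]
    have : 0 ≤ 1 - κ := by linarith
    positivity
  have hT0 : 0 ≤ TT c0 (c / X ^ 2) := by rw [hTT1]; positivity
  calc t * (Real.exp (1 * (c / X ^ 2)) * (c / X ^ 2 * p / (2 * TT c0 (c / X ^ 2))) *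
      ((c / X ^ 2) / 3)) =
        Real.exp (1 * (c / X ^ 2)) * (c / X ^ 2 * p / (2 * TT c0 (c / X ^ 2))) *
          (t * (c / X ^ 2)) / 3 := by ring
    _ ≤ 1 / (1 - c / Xm ^ 2) * (c / 2) * (c * ((Xm + β) / Xm ^ 2)) / 3 := by
        refine div_le_div_of_nonneg_right ?_ (by norm_num)
        exact mul_le_mul (mul_le_mul h5 h1 (by positivity) h13.le) h9 (by positivity)
          (by positivity)
    _ = _ := by ring

/-- the late loss -/
theorem box_late {μ1 Xm β X m t c0 : ℝ} {k8 : ℕ} (hc0 : c0 = X + 1) (hXm : 2 ≤ Xm) (hX : Xm ≤ X)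
    (hβ1 : 1 ≤ β) (ht : t ≤ X + β) (hm : X - μ1 ≤ m)
    (hk8 : (k8 : ℝ) / 4 ≤ (Xm - μ1) * (19 / 20) + 1) :
    t * (2 * (19 / 20) / ((19 / 20) ^ 2 + 19 / 20 - 1) *
      (4 * Real.exp (-1) / (19 / 20)) * (c0 * Real.exp (-(m * (19 / 20))))) ≤
      3200 / 341 * ((Xm + β) * (1 + Xm)) * (7789 / 10000) ^ k8 := by
  have hXβ : 0 < Xm + β := by linarith
  have h1 := dec_factor (σ := 1) (ρ := 19 / 20) hX hXβ zero_le_one (by linarith) (by
    have h2 : 1 / (Xm + β) ≤ 1 / 3 := one_div_le_one_div_of_le (by norm_num) (by linarith)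
    have h3 : 1 / (1 + 1 * Xm) ≤ 1 / 3 := one_div_le_one_div_of_le (by norm_num) (by linarith)
    linarith)
  have h2 : c0 * Real.exp (-(m * (19 / 20))) ≤
      (1 + X) * Real.exp (-(19 / 20 * X)) * Real.exp (μ1 * (19 / 20)) := by
    have e : c0 = 1 + X := by rw [hc0]; ring
    rw [e, mul_assoc (1 + X), ← Real.exp_add]
    refine mul_le_mul_of_nonneg_left (Real.exp_le_exp.2 ?_) (by linarith)
    linarith
  have h3 : Real.exp (-1) * (Real.exp (-(19 / 20 * Xm)) * Real.exp (μ1 * (19 / 20))) ≤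
      (7789 / 10000 : ℝ) ^ k8 := by
    refine le_trans ?_ (exp_quarter k8)
    rw [← Real.exp_add, ← Real.exp_add]
    refine Real.exp_le_exp.2 ?_
    linarith
  have e4 : (2 * (19 / 20) / ((19 / 20) ^ 2 + 19 / 20 - 1) *
    (4 * Real.exp (-1) / (19 / 20)) : ℝ) = 3200 / 341 * Real.exp (-1) := by ring
  rw [e4]
  have hc00 : 0 ≤ c0 := by rw [hc0]; linarith
  calc t * (3200 / 341 * Real.exp (-1) * (c0 * Real.exp (-(m * (19 / 20))))) ≤
        (X + β) * (3200 / 341 * Real.exp (-1) *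
          ((1 + X) * Real.exp (-(19 / 20 * X)) * Real.exp (μ1 * (19 / 20)))) := by
        refine mul_le_mul ht (mul_le_mul_of_nonneg_left h2 (by positivity)) (by positivity)
          (by linarith)
    _ = 3200 / 341 * (Real.exp (-1) * Real.exp (μ1 * (19 / 20))) *
          ((X + β) * (1 + 1 * X) * Real.exp (-(19 / 20 * X))) := by ring
    _ ≤ 3200 / 341 * (Real.exp (-1) * Real.exp (μ1 * (19 / 20))) *
          ((Xm + β) * (1 + 1 * Xm) * Real.exp (-(19 / 20 * Xm))) :=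
        mul_le_mul_of_nonneg_left h1 (by positivity)
    _ = 3200 / 341 * ((Xm + β) * (1 + Xm)) *
          (Real.exp (-1) * (Real.exp (-(19 / 20 * Xm)) * Real.exp (μ1 * (19 / 20)))) := by ring
    _ ≤ _ := mul_le_mul_of_nonneg_left h3 (by positivity)

/-- the right side -/
theorem box_eD {a t tm Pr : ℝ} {k9 : ℕ} (ha1 : a ≤ 1) (ha0 : 0 ≤ a) (htm : tm ≤ t) (htm2 : 2 ≤ tm)
    (hPr0 : 0 ≤ Pr) (hPr : Pr ≤ t * Real.exp (1 - t)) (hk9 : (k9 : ℝ) / 4 ≤ tm - 1) :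
    t * (a * Pr) ≤ tm * (1 + tm) * (7789 / 10000) ^ k9 := by
  have ht0 : 0 ≤ t := by linarith
  have h2 := dec_factor (X := t) (Xm := tm) (β := 0) (σ := 1) (ρ := 1) htm (by linarith)
    zero_le_one (by linarith) (by
      have h3 : 1 / (tm + 0) ≤ 1 / 2 := one_div_le_one_div_of_le (by norm_num) (by linarith)
      have h4 : 1 / (1 + 1 * tm) ≤ 1 / 2 := one_div_le_one_div_of_le (by norm_num) (by linarith)
      linarith)
  have h5 : Real.exp 1 * Real.exp (-(1 * tm)) ≤ (7789 / 10000 : ℝ) ^ k9 := by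
    refine le_trans ?_ (exp_quarter k9)
    rw [← Real.exp_add]
    refine Real.exp_le_exp.2 ?_
    linarith
  have h6 : 0 ≤ Real.exp 1 * Real.exp (-(1 * t)) := by positivity
  calc t * (a * Pr) ≤ t * (1 * (t * Real.exp (1 - t))) := by
        refine mul_le_mul_of_nonneg_left ?_ ht0
        exact mul_le_mul ha1 hPr hPr0 zero_le_one
    _ = (Real.exp 1 * Real.exp (-(1 * t))) * (t * t) := by
        have e : Real.exp (1 - t) = Real.exp 1 * Real.exp (-(1 * t)) := by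
          rw [← Real.exp_add]; congr 1; ring
        rw [e]
        ring
    _ ≤ (Real.exp 1 * Real.exp (-(1 * t))) * ((t + 0) * (1 + 1 * t)) := by
        refine mul_le_mul_of_nonneg_left ?_ h6
        nlinarith
    _ = Real.exp 1 * ((t + 0) * (1 + 1 * t) * Real.exp (-(1 * t))) := by ring
    _ ≤ Real.exp 1 * ((tm + 0) * (1 + 1 * tm) * Real.exp (-(1 * tm))) :=
        mul_le_mul_of_nonneg_left h2 (Real.exp_pos _).le
    _ = tm * (1 + tm) * (Real.exp 1 * Real.exp (-(1 * tm))) := by ring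
    _ ≤ _ := mul_le_mul_of_nonneg_left h5 (by
        have : 0 ≤ 1 + tm := by linarith
        have : 0 ≤ tm := by linarith
        positivity)

/-- the sum of the constants -/
noncomputable def Vs (κ1 Xm β : ℝ) (k0 k1 k2 k3 k4 k5 k6 k7 : ℕ) : ℝ :=
  1 / 20 * Vc κ1 Xm β (3 / 20) (1 / 5) k0 + 1 / 20 * Vc κ1 Xm β (1 / 5) (1 / 4) k1 +
  1 / 20 * Vc κ1 Xm β (1 / 4) (3 / 10) k2 + 1 / 10 * Vc κ1 Xm β (3 / 10) (2 / 5) k3 +
  1 / 10 * Vc κ1 Xm β (2 / 5) (1 / 2) k4 + 3 / 20 * Vc κ1 Xm β (1 / 2) (13 / 20) k5 +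
  3 / 20 * Vc κ1 Xm β (13 / 20) (4 / 5) k6 + 3 / 20 * Vc κ1 Xm β (4 / 5) (19 / 20) k7

/-- the conditions of the eight steps -/
structure C8 (κ1 μ1 Xm β : ℝ) (k0 k1 k2 k3 k4 k5 k6 k7 : ℕ) : Prop where
  s0 : Cs κ1 μ1 Xm β (3 / 20) (1 / 5) k0
  s1 : Cs κ1 μ1 Xm β (1 / 5) (1 / 4) k1
  s2 : Cs κ1 μ1 Xm β (1 / 4) (3 / 10) k2
  s3 : Cs κ1 μ1 Xm β (3 / 10) (2 / 5) k3
  s4 : Cs κ1 μ1 Xm β (2 / 5) (1 / 2) k4
  s5 : Cs κ1 μ1 Xm β (1 / 2) (13 / 20) k5
  s6 : Cs κ1 μ1 Xm β (13 / 20) (4 / 5) k6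
  s7 : Cs κ1 μ1 Xm β (4 / 5) (19 / 20) k7

theorem box_U {κ κ1 p c0 m t Xm β μ1 : ℝ} {k0 k1 k2 k3 k4 k5 k6 k7 : ℕ} (hc1 : 1 ≤ c0)
    (hκ : 0 < κ) (hκ1 : κ ≤ κ1)
    (hκ11 : κ1 ≤ 1) (hXm : 0 < Xm) (hX : Xm ≤ c0 - 1) (hp : (c0 - 1) ^ 2 ≤ p)
    (hm : c0 - 1 - μ1 ≤ m)
    (ht : t ≤ c0 - 1 + β) (hb : 0 < Xm + β)
    (hs : C8 κ1 μ1 Xm β k0 k1 k2 k3 k4 k5 k6 k7) :
    t * (∫ s in (3 / 20 : ℝ)..(19 / 20), Uf κ p c0 m s) ≤ Vs κ1 Xm β k0 k1 k2 k3 k4 k5 k6 k7 := by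
  have hU : ∀ (σ σ' : ℝ) (k : ℕ), 0 < σ → σ ≤ σ' → σ' < 1 → Cs κ1 μ1 Xm β σ σ' k →
      t * (∫ s in σ..σ', Uf κ p c0 m s) ≤ (σ' - σ) * Vc κ1 Xm β σ σ' k :=
    fun σ σ' k h1 h2 h3 hcs => U_int hc1 hκ hκ1 hκ11 hXm hX hp hm h1 h2 h3 ht hb
      hcs.mon hcs.q hcs.k
  have hi : ∀ x y : ℝ, 0 ≤ x → x ≤ y → y < 1 →
      IntervalIntegrable (fun s => Uf κ p c0 m s) MeasureTheory.volume x y := by
    intro x y hx hxy hy
    refine ContinuousOn.intervalIntegrable ?_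
    rw [Set.uIcc_of_le hxy]
    exact Uf_cont hκ hc1 hx hy
  have step : ∀ (x y w V : ℝ), 0 ≤ x → x ≤ y → y ≤ w → w < 1 →
      t * (∫ s in y..w, Uf κ p c0 m s) ≤ V → t * (∫ s in x..w, Uf κ p c0 m s) ≤
        t * (∫ s in x..y, Uf κ p c0 m s) + V := by
    intro x y w V h0 h1 h2 h3 h4
    rw [← intervalIntegral.integral_add_adjacent_intervals (hi x y h0 h1 (by linarith))
      (hi y w (by linarith) h2 h3), mul_add]
    linarith
  have u0 := hU _ _ _ (by norm_num) (by norm_num) (by norm_num) hs.s0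
  have u1 := hU _ _ _ (by norm_num) (by norm_num) (by norm_num) hs.s1
  have u2 := hU _ _ _ (by norm_num) (by norm_num) (by norm_num) hs.s2
  have u3 := hU _ _ _ (by norm_num) (by norm_num) (by norm_num) hs.s3
  have u4 := hU _ _ _ (by norm_num) (by norm_num) (by norm_num) hs.s4
  have u5 := hU _ _ _ (by norm_num) (by norm_num) (by norm_num) hs.s5
  have u6 := hU _ _ _ (by norm_num) (by norm_num) (by norm_num) hs.s6
  have u7 := hU _ _ _ (by norm_num) (by norm_num) (by norm_num) hs.s7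
  have v6 := step (13 / 20) (4 / 5) (19 / 20) _ (by norm_num) (by norm_num) (by norm_num)
    (by norm_num) u7
  have v5 := step (1 / 2) (13 / 20) (19 / 20) _ (by norm_num) (by norm_num) (by norm_num)
    (by norm_num) v6
  have v4 := step (2 / 5) (1 / 2) (19 / 20) _ (by norm_num) (by norm_num) (by norm_num)
    (by norm_num) v5
  have v3 := step (3 / 10) (2 / 5) (19 / 20) _ (by norm_num) (by norm_num) (by norm_num)
    (by norm_num) v4
  have v2 := step (1 / 4) (3 / 10) (19 / 20) _ (by norm_num) (by norm_num) (by norm_num)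
    (by norm_num) v3
  have v1 := step (1 / 5) (1 / 4) (19 / 20) _ (by norm_num) (by norm_num) (by norm_num)
    (by norm_num) v2
  have v0 := step (3 / 20) (1 / 5) (19 / 20) _ (by norm_num) (by norm_num) (by norm_num)
    (by norm_num) v1
  have e20 : (1 / 5 - 3 / 20 : ℝ) = 1 / 20 := by norm_num
  have e21 : (1 / 4 - 1 / 5 : ℝ) = 1 / 20 := by norm_num
  have e22 : (3 / 10 - 1 / 4 : ℝ) = 1 / 20 := by norm_num
  have e23 : (2 / 5 - 3 / 10 : ℝ) = 1 / 10 := by norm_num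
  have e24 : (1 / 2 - 2 / 5 : ℝ) = 1 / 10 := by norm_num
  have e25 : (13 / 20 - 1 / 2 : ℝ) = 3 / 20 := by norm_num
  have e26 : (4 / 5 - 13 / 20 : ℝ) = 3 / 20 := by norm_num
  have e27 : (19 / 20 - 4 / 5 : ℝ) = 3 / 20 := by norm_num
  rw [e20] at u0
  rw [e21] at u1
  rw [e22] at u2
  rw [e23] at u3
  rw [e24] at u4
  rw [e25] at u5
  rw [e26] at u6
  rw [e27] at v0
  unfold Vs
  linarith

/-- the numeric conditions of a box -/
structure Nb (R1 tm Xm β κ1 μ1 c γ : ℝ) (k0 k1 k2 k3 k4 k5 k6 k7 k8 k9 : ℕ) : Prop where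
  hXm0 : 2 ≤ Xm
  hXm : Xm = tm - β
  hκ11 : κ1 ≤ 1
  hβ1 : 1 / 2 ≤ β
  hc : μ1 ≤ c
  hc0 : 0 < c
  hγ0 : 0 ≤ γ
  hR1 : 5 / 2 ≤ R1
  n1 : 2 * κ1 * (1 + c / Xm + c * (max β 1 - 1) / Xm ^ 2) * (1 + c / Xm) ≤
      c * (1 - (1 + μ1) * (c / Xm ^ 2))
  n1c : c / Xm ^ 2 ≤ 3 / 20
  n2 : 2 * κ1 * (1 / Xm + 3 / 20 * (1 + (max β 1 - 1) / Xm)) * (1 / Xm + 3 / 20) ≤
      3 / 20 * (1 - (1 + μ1) * (3 / 20))
  s : C8 κ1 μ1 Xm β k0 k1 k2 k3 k4 k5 k6 k7
  hk8 : (k8 : ℝ) / 4 ≤ (Xm - μ1) * (19 / 20) + 1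
  hk9 : (k9 : ℝ) / 4 ≤ tm - 1
  n4 : c ^ 2 / 6 * ((Xm + β) / Xm ^ 2) / (1 - c / Xm ^ 2) +
      Vs κ1 Xm β k0 k1 k2 k3 k4 k5 k6 k7 +
      3200 / 341 * ((Xm + max β 1) * (1 + Xm)) * (7789 / 10000) ^ k8 +
      tm * (1 + tm) * (7789 / 10000) ^ k9 <
      γ * (tm * I0 (tm - β) ((R1 / 2 - 1) * tm + 1 / 2) (R1 / 2 * tm + 3))

/-- **The box lemma.** -/
theorem box {M : ℕ} {a : ℝ} {ζ z : Fin (M + 1) → ℂ} (h : Fr (M + 1) a ζ z) (hM : 99 ≤ M)
    (hmax : ∀ k, ‖u a ζ k‖ ≤ ‖u a ζ 0‖) {c0 : ℝ} (hc1 : 1 ≤ c0)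
    (hroot : (c0 - 1) * (c0 - kap a ζ) = pr a ζ)
    {R1 tm Xm β κ1 μ1 c γ : ℝ} {k0 k1 k2 k3 k4 k5 k6 k7 k8 k9 : ℕ}
    (htm : tm ≤ ‖u a ζ 0‖) (hR : (M : ℝ) + 1 ≤ R1 * ‖u a ζ 0‖) (hd : DS a ζ ≤ 7 / 2)
    (hC : 10 ≤ a * ‖u a ζ 0‖) (hβ : (1 - a) * ‖u a ζ 0‖ + 27 / 50 ≤ β)
    (hκ : kap a ζ ≤ κ1) (hμ : 1 - kap a ζ ≤ μ1) (hγ : γ ≤ Gam a ζ c0)
    (nb : Nb R1 tm Xm β κ1 μ1 c γ k0 k1 k2 k3 k4 k5 k6 k7 k8 k9) : False := by
  have hM0 : 0 < M := by omega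
  have ha0 := h.a0
  have ha1 := h.a1
  have hκ0 := kap_pos h hM0 hmax
  have hκle1 : kap a ζ ≤ 1 := H69.kap_le_one h hM0 hmax
  have hX := X_ge h hM hc1 hroot hd hC
  have hroot' : (c0 - 1) * (c0 - 1 + (1 - kap a ζ)) = pr a ζ := by rw [← hroot]; ring
  have hG : Gam a ζ c0 = M * (1 - kap a ζ) + (1 - kap a ζ) - (c0 - 1) := by unfold Gam; ring
  have hXm0 := nb.hXm0
  have hXmeq := nb.hXm
  have hX1 : ‖u a ζ 0‖ - β ≤ c0 - 1 := by linarith
  have hXmX : Xm ≤ c0 - 1 := by linarith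
  have hX0 : 0 < c0 - 1 := by linarith
  have hXm0' : 0 < Xm := by linarith
  have hp : (c0 - 1) ^ 2 ≤ pr a ζ := by
    rw [← hroot', sq]
    exact mul_le_mul_of_nonneg_left (by linarith) hX0.le
  have hΓ0 : 0 ≤ Gam a ζ c0 := nb.hγ0.trans hγ
  have hmX : c0 - 1 - μ1 ≤ M * (1 - kap a ζ) := by linarith
  have htX : ‖u a ζ 0‖ ≤ c0 - 1 + β := by linarith
  have htX1 : ‖u a ζ 0‖ ≤ c0 - 1 + max β 1 := htX.trans (by linarith [le_max_left β 1])
  have ht1 : 1 ≤ ‖u a ζ 0‖ := one_le_t0 h hmax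
  have hce : c0 = (c0 - 1) + 1 := by ring
  have hβ0 : 0 ≤ β := by linarith [nb.hβ1]
  have hs1le : c / (c0 - 1) ^ 2 ≤ c / Xm ^ 2 :=
    div_le_div_of_nonneg_left nb.hc0.le (by positivity) (pow_le_pow_left₀ hXm0'.le hXmX 2)
  have hs1pos : 0 < c / (c0 - 1) ^ 2 := div_pos nb.hc0 (by positivity)
  have hz1 := box_hz1 hce hκ0 hκ hμ hκle1 nb.hc0 hXm0' hXmX (le_max_right β 1) htX1 ht1 hp nb.n1
  have hzc := box_hzc hce hκ0 hκ hμ hXm0' hXmX (le_max_right β 1) htX1 ht1 hp nb.n2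
  have hbud := budget h hM0 hmax hc1 hroot hκ0 (Y := ‖u a ζ 0‖ - 1) (s1 := c / (c0 - 1) ^ 2)
    (sc := 3 / 20) (se := 19 / 20) (e0 := 1) (fun k => vt_le h hmax k) (by linarith) hs1pos
    (hs1le.trans nb.n1c) (by norm_num) (by norm_num) (by norm_num) hz1 hzc
    (by linarith) zero_le_one
  have hIq := int_q_ge h hM0 hc1
  have hI0 := I0_ge h hM0 (X := c0 - 1) (X' := ‖u a ζ 0‖ - β) (by linarith) hX1 hR hd
  have hI0t := iota_mono (β := β) (p := R1 / 2) htm (by linarith) (by linarith) hβ0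
    (by linarith [nb.hR1])
  have hL1 := box_L1 hce hμ hκle1 nb.hc0 nb.hc hXm0' hXmX hβ0 htX (by linarith) hroot' nb.n1c
  have hU := box_U hc1 hκ0 hκ nb.hκ11 hXm0' hXmX hp hmX htX (by linarith) nb.s
  have hlate := box_late hce hXm0 hXmX (le_max_right β 1) htX1 hmX nb.hk8
  have heD := box_eD ha1.le ha0.le htm (by linarith)
    (Finset.prod_nonneg fun k _ => norm_nonneg (u a ζ k)) (prod_u_le h) nb.hk9
  have ht0 : 0 ≤ ‖u a ζ 0‖ := norm_nonneg _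
  have hq0 : 0 ≤ ∫ s in (0:ℝ)..1, TT c0 s * ∏ k, TT ‖vt a ζ k‖ s :=
    intervalIntegral.integral_nonneg zero_le_one fun s hs =>
      mul_nonneg ((TTc_pos hc1 hs.1).trans' zero_le_one)
        (Finset.prod_nonneg fun k _ => TT_nonneg (norm_nonneg _) hs.1 hs.2)
  have hfin : γ * (tm * I0 (tm - β) ((R1 / 2 - 1) * tm + 1 / 2) (R1 / 2 * tm + 3)) ≤
      ‖u a ζ 0‖ * (Gam a ζ c0 * ∫ s in (0:ℝ)..1, TT c0 s * ∏ k, TT ‖vt a ζ k‖ s) := by
    calc γ * (tm * I0 (tm - β) ((R1 / 2 - 1) * tm + 1 / 2) (R1 / 2 * tm + 3)) ≤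
          γ * (‖u a ζ 0‖ * I0 (‖u a ζ 0‖ - β) ((R1 / 2 - 1) * ‖u a ζ 0‖ + 1 / 2)
            (R1 / 2 * ‖u a ζ 0‖ + 3)) := mul_le_mul_of_nonneg_left hI0t nb.hγ0
      _ ≤ γ * (‖u a ζ 0‖ * ∫ s in (0:ℝ)..1, TT c0 s * ∏ k, TT ‖vt a ζ k‖ s) :=
          mul_le_mul_of_nonneg_left (mul_le_mul_of_nonneg_left (hI0.trans hIq) ht0) nb.hγ0
      _ ≤ Gam a ζ c0 * (‖u a ζ 0‖ * ∫ s in (0:ℝ)..1, TT c0 s * ∏ k, TT ‖vt a ζ k‖ s) :=
          mul_le_mul_of_nonneg_right hγ (mul_nonneg ht0 hq0)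
      _ = _ := by ring
  have hb2 := mul_le_mul_of_nonneg_left hbud ht0
  rw [mul_add, mul_add, mul_add] at hb2
  have n4 := nb.n4
  linarith

end Pool.Agent.Lib.MP_172a45_an.L
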