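import Pool.Agent.Lib.MP_172a45_an.L.Budget

set_option autoImplicit false

/-!
# Facts for part L-c (`t₀ ≥ N/7`)
-/

namespace Pool.Agent.Lib.MP_172a45_an.L

open Finset Real
open Pool.Agent.Lib.MP_172a45_an.F
open Pool.Agent.Lib.MP_172a45_an.F.Fr

variable {M : ℕ} {a : ℝ} {ζ z : Fin (M + 1) → ℂ}

theorem pr_nonneg (a : ℝ) (ζ : Fin (M + 1) → ℂ) : 0 ≤ pr a ζ := by
  unfold pr
  positivity

/-- the root exists -/
theorem exists_c0 (h : Fr (M + 1) a ζ z) (hM : 0 < M)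
    (hmax : ∀ k, ‖u a ζ k‖ ≤ ‖u a ζ 0‖) :
    ∃ c0 : ℝ, 1 ≤ c0 ∧ (c0 - 1) * (c0 - kap a ζ) = pr a ζ := by
  have hκ1 := H69.kap_le_one h hM hmax
  have hp := pr_nonneg a ζ
  have hs0 : 0 ≤ (1 - kap a ζ) ^ 2 + 4 * pr a ζ := by positivity
  have hs : √((1 - kap a ζ) ^ 2 + 4 * pr a ζ) ^ 2 = (1 - kap a ζ) ^ 2 + 4 * pr a ζ :=
    Real.sq_sqrt hs0
  have h1 : 1 - kap a ζ ≤ √((1 - kap a ζ) ^ 2 + 4 * pr a ζ) :=
    Real.le_sqrt_of_sq_le (by linarith)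
  refine ⟨(1 + kap a ζ + √((1 - kap a ζ) ^ 2 + 4 * pr a ζ)) / 2, by linarith, ?_⟩
  nlinarith

theorem one_le_t0 (h : Fr (M + 1) a ζ z) (hmax : ∀ k, ‖u a ζ k‖ ≤ ‖u a ζ 0‖) :
    1 ≤ ‖u a ζ 0‖ := by
  have h1 := h.mean
  have h2 : ∑ k, ‖u a ζ k‖ ≤ ∑ _k : Fin (M + 1), ‖u a ζ 0‖ := Finset.sum_le_sum fun k _ => hmax k
  simp only [Finset.sum_const, Finset.card_univ, Fintype.card_fin, nsmul_eq_mul] at h2
  rw [h1] at h2
  push_cast at h2
  have : (0 : ℝ) < M + 1 := by positivity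
  nlinarith

theorem kap_pos (h : Fr (M + 1) a ζ z) (hM : 0 < M) (hmax : ∀ k, ‖u a ζ k‖ ≤ ‖u a ζ 0‖) :
    0 < kap a ζ := by
  have ha0 := h.a0
  have ha1 := h.a1
  have hM0 : (0 : ℝ) < M := by exact_mod_cast hM
  have h1 := one_sub_kap_le h hM
  have h2 := one_le_t0 h hmax
  have h3 : tm a ζ ≤ 1 := by
    unfold tm
    rw [mean_tail h, div_le_one hM0]
    linarith
  nlinarith

theorem m_eq (h : Fr (M + 1) a ζ z) (hM : 0 < M) :
    (M : ℝ) * (1 - kap a ζ) = ‖u a ζ 0‖ - 1 + DS a ζ := by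
  have := kap_eq h hM
  linarith

theorem pr_ge (h : Fr (M + 1) a ζ z) :
    a * ‖u a ζ 0‖ * (a * ‖u a ζ 0‖ - a * ((M + 1 - ‖u a ζ 0‖) / M)) ≤ pr a ζ := by
  have ha0 := h.a0
  have h2 : ‖(∑ k : Fin M, ut a ζ k) / (M : ℂ)‖ ≤ (M + 1 - ‖u a ζ 0‖) / M := by
    rw [norm_div, Complex.norm_natCast, ← mean_tail h]
    exact div_le_div_of_nonneg_right (norm_sum_le _ _) (Nat.cast_nonneg _)
  have h3 := norm_sub_norm_le (u a ζ 0) ((∑ k : Fin M, ut a ζ k) / (M : ℂ))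
  unfold pr
  have h4 : 0 ≤ ‖u a ζ 0‖ := norm_nonneg _
  have h5 : a * ‖u a ζ 0‖ * (a * ‖u a ζ 0‖ - a * ((M + 1 - ‖u a ζ 0‖) / M)) =
      a ^ 2 * (‖u a ζ 0‖ * (‖u a ζ 0‖ - (M + 1 - ‖u a ζ 0‖) / M)) := by ring
  rw [h5]
  gcongr
  linarith

/-- `X ≥ a t - 27/50` -/
theorem X_ge (h : Fr (M + 1) a ζ z) (hM : 99 ≤ M) {c0 : ℝ} (hc1 : 1 ≤ c0)
    (hroot : (c0 - 1) * (c0 - kap a ζ) = pr a ζ) (hd : DS a ζ ≤ 7 / 2)
    (hC : 10 ≤ a * ‖u a ζ 0‖) : a * ‖u a ζ 0‖ - 27 / 50 ≤ c0 - 1 := by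
  have ha0 := h.a0
  have ha1 := h.a1
  have hM1 : (99 : ℝ) ≤ M := by exact_mod_cast hM
  have hM0 : (0 : ℝ) < M := by linarith
  have h1 := pr_ge h
  have h2 := m_eq h (by omega)
  have hd0 := DS_nonneg h
  set C := a * ‖u a ζ 0‖ with hCdef
  set m' := (M + 1 - ‖u a ζ 0‖) / M with hm'
  set μ := 1 - kap a ζ with hμ
  have h3 : μ + m' = 1 + DS a ζ / M := by
    rw [hm']
    field_simp
    linarith
  have h4 : DS a ζ / M ≤ 7 / 2 / 99 := div_le_div₀ (by norm_num) hd (by norm_num) hM1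
  have hm0 : 0 ≤ m' := by
    have : tm a ζ = m' := by
      unfold tm; rw [mean_tail h]
    rw [← this]; unfold tm; positivity
  have hμ0 : 0 ≤ μ := by
    have h5 : 0 ≤ (M : ℝ) * μ := by
      rw [h2]
      have : 10 ≤ ‖u a ζ 0‖ := by
        have : a * ‖u a ζ 0‖ ≤ 1 * ‖u a ζ 0‖ :=
          mul_le_mul_of_nonneg_right ha1.le (norm_nonneg _)
        linarith
      linarith
    by_contra hcon
    push Not at hcon
    nlinarith
  by_contra hcon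
  push Not at hcon
  have h6 : (c0 - 1) * (c0 - 1 + μ) = pr a ζ := by
    rw [← hroot, hμ]; ring
  have h7 : (c0 - 1) * (c0 - 1 + μ) < (C - 27 / 50) * (C - 27 / 50 + μ) := by
    nlinarith
  have h8 : (C - 27 / 50) * (C - 27 / 50 + μ) ≤ C * (C - a * m') := by
    have h9 : a * m' ≤ m' := by nlinarith
    have h10 : C * (2 * (27 / 50) - μ - a * m') ≥ 10 * (2 * (27 / 50) - 1 - 7 / 2 / 99) := by
      have h11 : 2 * (27 / 50) - 1 - 7 / 2 / 99 ≤ 2 * (27 / 50) - μ - a * m' := by linarith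
      nlinarith
    nlinarith
  linarith

/-- `∏ t ≤ t₀ exp(1 - t₀)` -/
theorem prod_u_le (h : Fr (M + 1) a ζ z) :
    ∏ k, ‖u a ζ k‖ ≤ ‖u a ζ 0‖ * Real.exp (1 - ‖u a ζ 0‖) := by
  rw [Fin.prod_univ_succ]
  refine mul_le_mul_of_nonneg_left ?_ (norm_nonneg _)
  have h1 : ∏ k : Fin M, ‖u a ζ k.succ‖ ≤ ∏ k : Fin M, Real.exp (‖u a ζ k.succ‖ - 1) := by
    refine Finset.prod_le_prod (fun k _ => norm_nonneg _) fun k _ => ?_
    have := Real.add_one_le_exp (‖u a ζ k.succ‖ - 1)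
    linarith
  refine h1.trans (le_of_eq ?_)
  rw [← Real.exp_sum, Finset.sum_sub_distrib]
  have h2 : ∑ k : Fin M, ‖u a ζ k.succ‖ = M + 1 - ‖u a ζ 0‖ := mean_tail h
  rw [h2]
  simp only [Finset.sum_const, Finset.card_univ, Fintype.card_fin, nsmul_eq_mul, mul_one]
  congr 1
  ring

/-- `c_k ≤ t₀` on the tail -/
theorem vt_le (h : Fr (M + 1) a ζ z) (hmax : ∀ k, ‖u a ζ k‖ ≤ ‖u a ζ 0‖) (k : Fin M) :
    ‖vt a ζ k‖ ≤ 1 + (‖u a ζ 0‖ - 1) := by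
  have h1 : ‖vt a ζ k‖ ≤ ‖u a ζ k.succ‖ := h.gl k.succ
  have h2 := hmax k.succ
  linarith

/-- pole: `t₀ ≤ (M + 1) a/(1+a) + 1/(1+a)` -/
theorem pole (h : Fr (M + 1) a ζ z) :
    (1 + a) * ‖u a ζ 0‖ ≤ (M + 1) * a + 1 := by
  have ha0 := h.a0
  have h1 := mean_tail h
  have h2 : ∑ _k : Fin M, 1 / (1 + a) ≤ ∑ k : Fin M, ‖ut a ζ k‖ :=
    Finset.sum_le_sum fun k _ => t_ge_inv h k.succ
  simp only [Finset.sum_const, Finset.card_univ, Fintype.card_fin, nsmul_eq_mul] at h2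
  rw [h1, mul_one_div, div_le_iff₀ (by linarith)] at h2
  linarith

/-! ### Lower bound of `I₀` -/

theorem I0_mono {X W D δ δ' : ℝ} (hX : 0 ≤ X) (hW : 0 ≤ W) (hD : 0 ≤ D) (hδ : 0 ≤ δ)
    (hδ' : δ ≤ δ') : I0 X (W + δ) (D + δ') ≤ I0 X W D := by
  rw [← int_I0 hD, ← int_I0 (by linarith : 0 ≤ D + δ')]
  refine intervalIntegral.integral_mono_on_of_le_Ioo zero_le_one ?_ ?_ ?_
  · exact (Continuous.mul (by fun_prop) (Continuous.mul (by fun_prop)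
      (Continuous.rpow_const (by fun_prop) fun _ => Or.inr (by linarith)))).intervalIntegrable _ _
  · exact (Continuous.mul (by fun_prop) (Continuous.mul (by fun_prop)
      (Continuous.rpow_const (by fun_prop) fun _ => Or.inr hD))).intervalIntegrable _ _
  · intro s hs
    have hs0 := hs.1.le
    have hs1 := hs.2
    have h1 : 0 ≤ 1 + s * X := by positivity
    refine mul_le_mul_of_nonneg_left ?_ h1
    have h2 : (1 - s) ^ (D + δ') = (1 - s) ^ D * (1 - s) ^ δ' := Real.rpow_add (by linarith) _ _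
    have h3 : (1 - s) ^ δ' * (1 + s * δ) ≤ 1 := by
      have h7 : (1 - s) ^ δ' ≤ Real.exp (-(s * δ')) := by
        have h8 : 1 - s ≤ Real.exp (-s) := by
          have := Real.add_one_le_exp (-s)
          linarith
        calc (1 - s) ^ δ' ≤ (Real.exp (-s)) ^ δ' :=
              Real.rpow_le_rpow (by linarith) h8 (hδ.trans hδ')
          _ = _ := by
              rw [← Real.exp_mul]
              congr 1
              ring
      have h9 : 1 + s * δ ≤ Real.exp (s * δ') := by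
        have := Real.add_one_le_exp (s * δ')
        have := mul_le_mul_of_nonneg_left hδ' hs0
        linarith
      calc (1 - s) ^ δ' * (1 + s * δ) ≤ Real.exp (-(s * δ')) * Real.exp (s * δ') :=
            mul_le_mul h7 h9 (by positivity) (Real.exp_pos _).le
        _ = 1 := by rw [← Real.exp_add]; simp
    have h4 : 0 ≤ (1 - s) ^ D := Real.rpow_nonneg (by linarith) _
    have h5 : 0 ≤ (1 - s) ^ δ' := Real.rpow_nonneg (by linarith) _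
    have h6 : (1 + s * (W + δ)) * (1 - s) ^ δ' ≤ 1 + s * W := by
      have h12 : 1 + s * (W + δ) ≤ (1 + s * W) * (1 + s * δ) := by
        nlinarith [mul_nonneg (mul_nonneg hs0 hW) (mul_nonneg hs0 hδ)]
      calc (1 + s * (W + δ)) * (1 - s) ^ δ' ≤ ((1 + s * W) * (1 + s * δ)) * (1 - s) ^ δ' :=
            mul_le_mul_of_nonneg_right h12 h5
        _ = (1 + s * W) * ((1 - s) ^ δ' * (1 + s * δ)) := by ring
        _ ≤ (1 + s * W) * 1 := mul_le_mul_of_nonneg_left h3 (by positivity)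
        _ = _ := mul_one _
    calc (1 + s * (W + δ)) * (1 - s) ^ (D + δ') =
          ((1 + s * (W + δ)) * (1 - s) ^ δ') * (1 - s) ^ D := by rw [h2]; ring
      _ ≤ (1 + s * W) * (1 - s) ^ D := mul_le_mul_of_nonneg_right h6 h4

theorem I0_mono_X {X X' W D : ℝ} (hX : X ≤ X') (hW : 0 ≤ W) (hD : 0 ≤ D) :
    I0 X W D ≤ I0 X' W D := by
  unfold I0
  gcongr

/-- the bound of `I₀` used in the boxes: `M + 1 ≤ R₁ t`, `d ≤ 7/2` -/
theorem I0_ge (h : Fr (M + 1) a ζ z) (hM : 0 < M) {X X' R1 : ℝ} (hX' : 0 ≤ X') (hX : X' ≤ X)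
    (hR : (M : ℝ) + 1 ≤ R1 * ‖u a ζ 0‖) (hd : DS a ζ ≤ 7 / 2) :
    I0 X' ((R1 / 2 - 1) * ‖u a ζ 0‖ + 1 / 2) (R1 / 2 * ‖u a ζ 0‖ + 3) ≤
      I0 X (WW a ζ) (DD a ζ) := by
  have ha0 := h.a0
  have ha1 := h.a1
  have hM0 : (0 : ℝ) < M := by exact_mod_cast hM
  have hW := WW_nonneg h hM
  have hD := DD_nonneg h
  have h1 : M * (a / (1 + a)) ≤ M * (1 / 2 : ℝ) := by
    refine mul_le_mul_of_nonneg_left ?_ hM0.le
    rw [div_le_div_iff₀ (by linarith) (by norm_num)]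
    linarith
  have h2 : WW a ζ = M * (a / (1 + a)) - ‖u a ζ 0‖ + 1 := by
    unfold WW DD
    rw [m_eq h hM]
    ring
  have h3 : DD a ζ = M * (a / (1 + a)) + DS a ζ := rfl
  have h4 := I0_mono (X := X') (W := WW a ζ) (D := DD a ζ)
    (δ := (R1 / 2 - 1) * ‖u a ζ 0‖ + 1 / 2 - WW a ζ) (δ' := R1 / 2 * ‖u a ζ 0‖ + 3 - DD a ζ)
    hX' hW hD (by rw [h2]; linarith) (by rw [h2, h3]; linarith)
  have e1 : WW a ζ + ((R1 / 2 - 1) * ‖u a ζ 0‖ + 1 / 2 - WW a ζ) =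
      (R1 / 2 - 1) * ‖u a ζ 0‖ + 1 / 2 := by ring
  have e2 : DD a ζ + (R1 / 2 * ‖u a ζ 0‖ + 3 - DD a ζ) = R1 / 2 * ‖u a ζ 0‖ + 3 := by ring
  rw [e1, e2] at h4
  exact h4.trans (I0_mono_X hX hW hD)

end Pool.Agent.Lib.MP_172a45_an.L
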