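import Pool.Agent.Lib.MP_172a45_an.L.LcFacts

set_option autoImplicit false

/-!
# Lower bounds of `Γ` for part L-c
-/

namespace Pool.Agent.Lib.MP_172a45_an.L

open Finset Real
open Pool.Agent.Lib.MP_172a45_an.F
open Pool.Agent.Lib.MP_172a45_an.F.Fr

/-- wrapper of the direction-tied bound: `B = (1-a) t`, `M + 1 = R t` -/
theorem Gam_ge_z {M : ℕ} {a : ℝ} {ζ z' : Fin (M + 1) → ℂ} (h : Fr (M + 1) a ζ z') (hM : 99 ≤ M)
    (hmax : ∀ k, ‖u a ζ k‖ ≤ ‖u a ζ 0‖) {c0 : ℝ}
    (hroot : (c0 - 1) * (c0 - kap a ζ) = pr a ζ) {B R z ψ r ρ γ : ℝ}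
    (hB : B = (1 - a) * ‖u a ζ 0‖) (hR : (M : ℝ) + 1 = R * ‖u a ζ 0‖) (ht : 100 / 7 ≤ ‖u a ζ 0‖)
    (hR7 : R ≤ 7) (hR2 : 2 ≤ R)
    (hz1 : 1 ≤ z) (hz3 : z ≤ 3) (hψ : psi z ≤ ψ) (hr : 1 ≤ r) (hzr : 3 * z ≤ r * (1 + 2 * r))
    (hrB : 1 + 2 * B + 407 / 100 * B ^ 2 ≤ r ^ 2) (hρ : (1 - a) ^ 2 ≤ 3 - ρ) (hρ0 : 0 ≤ ρ)
    (hx : 0 ≤ 3 + ρ * (B * R) - 3 * r)
    (hL : 0 ≤ 2 * (3 + ρ * (B * R) - 3 * r) -
      1 / 2 * ψ * ((R - 193 / 100) / (193 / 100)) * (5 + ρ * (B * R) + r))
    (hP : 0 ≤ z * (2 * (3 + ρ * (B * R) - 3 * r) -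
      1 / 2 * ψ * ((R - 193 / 100) / (193 / 100)) * (5 + ρ * (B * R) + r)) * R +
      2 * B * (5 + ρ * (B * R) + r) * ((B + 1 / 2 - γ) * R - 200 / 99 * (R - 1))) :
    γ ≤ Gam a ζ c0 := by
  have ha0 := h.a0
  have ha1 := h.a1
  have hM0 : 0 < M := by omega
  have hM99 : (99 : ℝ) ≤ M := by exact_mod_cast hM
  have hM0' : (0 : ℝ) < M := by linarith
  have hκ1 := H69.kap_le_one h hM0 hmax
  set t := ‖u a ζ 0‖ with htdef
  have ht0 : 0 < t := by linarith
  have hB0 : 0 < B := by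
    rw [hB]
    have : 0 < 1 - a := by linarith
    positivity
  have hR0 : 0 < R := by linarith
  set b := 1 - a with hb
  have hb0 : 0 < b := by rw [hb]; linarith
  have hb1 : b < 1 := by rw [hb]; linarith
  set x := 1 - a ^ 2 with hxdef
  have hxb : x = b * (2 - b) := by rw [hxdef, hb]; ring
  have hT : x * t = (2 - b) * B := by rw [hxb, hB]; ring
  have hT0 : 0 < x * t := mul_pos h.m_pos ht0
  have hTne : x * t ≠ 0 := hT0.ne'
  have hTB : x * t ≤ 2 * B := by rw [hT]; linarith [mul_pos hb0 hB0]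
  set m' := (M + 1 - t) / M with hm'
  have hm'0 : 0 ≤ m' := by
    rw [hm']
    refine div_nonneg ?_ hM0'.le
    rw [hR]
    linarith [mul_nonneg (by linarith : 0 ≤ R - 1) ht0.le]
  -- `m' ≤ (100/99)(1 - 1/R)`
  have hm'R : m' * R ≤ 100 / 99 * (R - 1) := by
    rw [hm', div_mul_eq_mul_div, div_le_iff₀ hM0']
    have e : (M : ℝ) = R * t - 1 := by linarith
    rw [hR, e]
    have h1 : 100 ≤ R * t := by linarith
    linarith [mul_nonneg (by linarith : 0 ≤ R - 1) (by linarith : 0 ≤ R * t - 100)]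
  have hm'1 : m' ≤ 433 / 500 := by
    have h1 : 100 / 99 * (R - 1) ≤ 433 / 500 * R := by linarith
    have h2 : m' * R ≤ 433 / 500 * R := by linarith
    exact le_of_mul_le_mul_right h2 hR0
  have hbB : b ≤ 7 / 100 * B := by
    rw [hB]
    linarith [mul_nonneg hb0.le (by linarith : (0 : ℝ) ≤ 7 / 100 * t - 1)]
  -- the constant `j`
  set jh := (R - 193 / 100) / (193 / 100) with hjh
  have hjh0 : 0 ≤ jh := div_nonneg (by linarith) (by norm_num)
  have hψ0 : 0 ≤ psi z := psi_nonneg (by linarith)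
  have hΨ : ∑ k : Fin M, psip (z / (x * t) * x * ‖ut a ζ k‖) ≤ ψ * jh := by
    have hTb : b < x * t := by
      rw [hxb]
      have h2 : 1 * t < (2 - b) * t := mul_lt_mul_of_pos_right (by linarith) ht0
      have h3 : 1 < (2 - b) * t := by linarith
      have h4 : b * 1 < b * ((2 - b) * t) := mul_lt_mul_of_pos_left h3 hb0
      linarith
    have h1 := sum_psip_le univ (fun k : Fin M => z / (x * t) * x * ‖ut a ζ k‖) (z := z)
      (z0 := z / (x * t) * b) (fun k _ => by
        have h3 : b ≤ x * ‖ut a ζ k‖ := xt_ge h k.succ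
        have h2 : 0 < z / (x * t) := div_pos (by linarith) hT0
        rw [mul_assoc]
        exact mul_le_mul_of_nonneg_left h3 h2.le) (fun k _ => by
        have h2 : 0 < z / (x * t) := div_pos (by linarith) hT0
        have h3 : x * ‖ut a ζ k‖ ≤ x * t := mul_le_mul_of_nonneg_left (hmax k.succ) h.m_pos.le
        rw [mul_assoc]
        calc z / (x * t) * (x * ‖ut a ζ k‖) ≤ z / (x * t) * (x * t) :=
              mul_le_mul_of_nonneg_left h3 h2.le
          _ = z := div_mul_cancel₀ z hTne) hz1 hz3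
      (by
        rw [div_mul_eq_mul_div, div_le_one hT0, hxb]
        have h2 : 1 * t < (2 - b) * t := mul_lt_mul_of_pos_right (by linarith) ht0
        have h3 : z ≤ (2 - b) * t := by linarith
        have h4 : b * z ≤ b * ((2 - b) * t) := mul_le_mul_of_nonneg_left h3 hb0.le
        linarith)
      (by
        rw [div_mul_eq_mul_div, div_lt_iff₀ hT0]
        exact mul_lt_mul_of_pos_left hTb (by linarith))
    refine h1.trans ?_
    have e1 : ∑ k : Fin M, (z / (x * t) * x * ‖ut a ζ k‖ - z / (x * t) * b) =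
        z / (x * t) * (x * (M + 1 - t) - M * b) := by
      rw [Finset.sum_sub_distrib, ← Finset.mul_sum, mean_tail h]
      simp only [Finset.sum_const, Finset.card_univ, Fintype.card_fin, nsmul_eq_mul]
      ring
    rw [e1]
    have e2 : psi z / (z - z / (x * t) * b) * (z / (x * t) * (x * (M + 1 - t) - M * b)) =
        psi z * ((x * (M + 1 - t) - M * b) / (x * t - b)) := by
      have h3 : z - z / (x * t) * b = z / (x * t) * (x * t - b) := by
        have h7 : z / (x * t) * (x * t) = z := div_mul_cancel₀ z hTne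
        linear_combination (-1 : ℝ) * h7
      rw [h3]
      have h4 : x * t - b ≠ 0 := by linarith
      have h6 : z / (x * t) ≠ 0 := (div_pos (by linarith) hT0).ne'
      rw [div_mul_eq_mul_div, mul_div_assoc, mul_div_mul_left _ _ h6]
    rw [e2]
    have hj : (x * (M + 1 - t) - M * b) / (x * t - b) ≤ jh := by
      rw [div_le_iff₀ (by linarith), hjh, div_mul_eq_mul_div, le_div_iff₀ (by norm_num)]
      have e : (M : ℝ) = R * t - 1 := by linarith
      rw [hR, e, hxb]
      have h7 : 0 ≤ b * (R * (7 / 100 * t - 1)) := by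
        have : 0 ≤ 7 / 100 * t - 1 := by linarith
        positivity
      have h8 : 0 ≤ b * (b * t * (93 / 100 * R)) := by positivity
      linarith
    calc psi z * ((x * (M + 1 - t) - M * b) / (x * t - b)) ≤ psi z * jh :=
          mul_le_mul_of_nonneg_left hj hψ0
      _ ≤ ψ * jh := mul_le_mul_of_nonneg_right hψ hjh0
  -- `G`
  set N0 := 5 + ρ * (B * R) + r with hN0
  have hN00 : 0 < N0 := by
    rw [hN0]
    positivity
  set G := 2 * (3 + ρ * (B * R) - 3 * r) / N0 with hG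
  have hGe : Real.exp G * (1 + 2 * r) ≤ 4 + (1 - a) * (M + 1) * (2 + 2 * a - a ^ 2) - r := by
    have hr0 : 0 < 1 + 2 * r := by linarith
    set x0 := (3 + ρ * (B * R) - 3 * r) / (1 + 2 * r) with hx0
    have hx00 : 0 ≤ x0 := div_nonneg hx hr0.le
    have h1 := Real.le_log_one_add_of_nonneg hx00
    have e1 : 2 * x0 / (x0 + 2) = G := by
      rw [hG, hx0, hN0]
      have h2 : 5 + ρ * (B * R) + r ≠ 0 := hN00.ne'
      have h3 : (3 + ρ * (B * R) - 3 * r) / (1 + 2 * r) + 2 =
          (5 + ρ * (B * R) + r) / (1 + 2 * r) := by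
        field_simp
        ring
      rw [h3]
      field_simp
    rw [e1] at h1
    have h2 : Real.exp G ≤ 1 + x0 := by
      rw [← Real.exp_log (by linarith : (0:ℝ) < 1 + x0)]
      exact Real.exp_le_exp.2 h1
    have h3 : (1 + x0) * (1 + 2 * r) = 4 + ρ * (B * R) - r := by
      rw [hx0]
      field_simp
      ring
    have h4 : ρ * (B * R) ≤ (1 - a) * (M + 1) * (2 + 2 * a - a ^ 2) := by
      have e2 : (1 - a) * (M + 1) * (2 + 2 * a - a ^ 2) = (B * R) * (3 - (1 - a) ^ 2) := by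
        rw [hR, hB, hb]; ring
      rw [e2]
      have h5 : 0 ≤ B * R := by positivity
      have h6 := mul_le_mul_of_nonneg_left (by linarith : ρ ≤ 3 - (1 - a) ^ 2) h5
      linarith
    calc Real.exp G * (1 + 2 * r) ≤ (1 + x0) * (1 + 2 * r) :=
          mul_le_mul_of_nonneg_right h2 hr0.le
      _ = 4 + ρ * (B * R) - r := h3
      _ ≤ _ := by linarith
  -- `g`
  have h1 := Gam_ge_dir h hM0 hκ1 hroot (lam := z / (x * t)) (Ψ := ψ * jh) (r := r) (G := G)
    (g := B + 1 / 2 - (3 + a) / 2 * m') (div_pos (by linarith) hT0) hr hΨ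
    (by
      have e : 3 * (z / (x * t)) * (x * t) = 3 * z := by
        rw [mul_assoc, div_mul_cancel₀ z hTne]
      rw [← hxdef, ← htdef, e]
      exact hzr) hGe (by rw [hB])
    (by
      rw [← hxdef, ← htdef, ← hm']
      have h2 : (3 + a) / 2 = 2 - b / 2 := by rw [hb]; ring
      have h3 : B + 1 / 2 + b / 2 * m' ≤ (r ^ 2 - 1) / (2 * (x * t)) := by
        rw [le_div_iff₀ (by linarith), hT]
        have h6 : 2 * b * B * (m' - 1 / 2) ≤ 2 * (7 / 100 * B) * B * (433 / 500 - 1 / 2) := by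
          rcases le_total m' (1 / 2) with h7 | h7
          · have : 2 * b * B * (m' - 1 / 2) ≤ 0 :=
              mul_nonpos_of_nonneg_of_nonpos (by positivity) (by linarith)
            have h8 : 0 ≤ 2 * (7 / 100 * B) * B * (433 / 500 - 1 / 2) := by positivity
            linarith
          · refine mul_le_mul ?_ (by linarith) (by linarith) (by positivity)
            exact mul_le_mul_of_nonneg_right (by linarith) hB0.le
        have h9 : 0 ≤ b * B * B := by positivity
        have h10 : 0 ≤ b * b * B * m' := by positivity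
        have h11 : 0 ≤ B * B := by positivity
        linarith
      rw [h2]
      linarith)
  -- conclusion
  refine le_trans ?_ h1
  have hLL : 0 ≤ G - 1 / 2 * (ψ * jh) := by
    have e : G - 1 / 2 * (ψ * jh) = (2 * (3 + ρ * (B * R) - 3 * r) -
      1 / 2 * ψ * jh * N0) / N0 := by
      rw [hG]
      field_simp
    rw [e]
    exact div_nonneg hL hN00.le
  have h2 : z / (2 * B) * (G - 1 / 2 * (ψ * jh)) ≤ z / (x * t) * (G - 1 / 2 * (ψ * jh)) := by
    refine mul_le_mul_of_nonneg_right ?_ hLL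
    exact div_le_div_of_nonneg_left (by linarith) hT0 hTB
  have h3 : (3 + a) / 2 * m' ≤ 2 * m' := by
    linarith [mul_nonneg (by linarith : 0 ≤ 1 - a) hm'0]
  have h4 : 2 * m' ≤ 200 / 99 * (R - 1) / R := by
    rw [le_div_iff₀ hR0]
    linarith
  have h5 : γ ≤ z / (2 * B) * (G - 1 / 2 * (ψ * jh)) + (B + 1 / 2) - 200 / 99 * (R - 1) / R := by
    have e : z / (2 * B) * (G - 1 / 2 * (ψ * jh)) + (B + 1 / 2) - 200 / 99 * (R - 1) / R - γ =
        (z * (2 * (3 + ρ * (B * R) - 3 * r) - 1 / 2 * ψ * jh * N0) * R +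
        2 * B * N0 * ((B + 1 / 2 - γ) * R - 200 / 99 * (R - 1))) / (2 * B * N0 * R) := by
      rw [hG]
      field_simp
      ring
    have : 0 ≤ z / (2 * B) * (G - 1 / 2 * (ψ * jh)) + (B + 1 / 2) - 200 / 99 * (R - 1) / R - γ := by
      rw [e]
      exact div_nonneg hP (by positivity)
    linarith
  linarith

end Pool.Agent.Lib.MP_172a45_an.L
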