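import Pool.Agent.Lib.MP_172a45_an.L.LcFacts

set_option autoImplicit false

/-!
# Lower bound of `Γ` near the pole (`N ≤ 3.1 t₀`)
-/

namespace Pool.Agent.Lib.MP_172a45_an.L

open Finset Real
open Pool.Agent.Lib.MP_172a45_an.F
open Pool.Agent.Lib.MP_172a45_an.F.Fr

namespace Pole

variable {M : ℕ} {a : ℝ} {ζ z : Fin (M + 1) → ℂ}

/-- `w = x (N - t₀) - M b` -/
noncomputable def w {M : ℕ} (a : ℝ) (ζ : Fin (M + 1) → ℂ) : ℝ :=
  (1 - a ^ 2) * (M + 1 - ‖u a ζ 0‖) - M * (1 - a)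

theorem sum_w (h : Fr (M + 1) a ζ z) :
    ∑ k : Fin M, ((1 - a ^ 2) * ‖ut a ζ k‖ - (1 - a)) = w a ζ := by
  rw [Finset.sum_sub_distrib, ← Finset.mul_sum, mean_tail h]
  simp only [Finset.sum_const, Finset.card_univ, Fintype.card_fin, nsmul_eq_mul]
  rfl

theorem term_nonneg (h : Fr (M + 1) a ζ z) (k : Fin M) :
    0 ≤ (1 - a ^ 2) * ‖ut a ζ k‖ - (1 - a) := by
  have h3 : (1 - a) ≤ (1 - a ^ 2) * ‖ut a ζ k‖ := xt_ge h k.succ
  linarith

theorem w_nonneg (h : Fr (M + 1) a ζ z) : 0 ≤ w a ζ := by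
  rw [← sum_w h]
  exact Finset.sum_nonneg fun k _ => term_nonneg h k

theorem xt_le (h : Fr (M + 1) a ζ z) (k : Fin M) :
    (1 - a ^ 2) * ‖ut a ζ k‖ ≤ w a ζ + (1 - a) := by
  have h1 := Finset.single_le_sum (f := fun k : Fin M => (1 - a ^ 2) * ‖ut a ζ k‖ - (1 - a))
    (fun k _ => term_nonneg h k) (Finset.mem_univ k)
  rw [sum_w h] at h1
  linarith

theorem GS_le_w (h : Fr (M + 1) a ζ z) : GS a ζ ≤ w a ζ := by
  rw [← sum_w h]
  unfold GS
  refine Finset.sum_le_sum fun k _ => ?_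
  have h1 := one_le_rho h k.succ
  have h2 := rho_le h k.succ
  have h3 := Real.log_le_sub_one_of_pos (show 0 < rho a ζ k.succ by linarith)
  unfold ut
  linarith

/-- `G ≥ 2 (P - D)/(P + D)` from `exp G * D ≥ P` -/
theorem log_lower {G P D : ℝ} (hD : 0 < D) (hPD : D ≤ P) (h : P ≤ Real.exp G * D) :
    2 * (P - D) ≤ G * (P + D) := by
  have hP : 0 < P := by linarith
  have h1 : P / D ≤ Real.exp G := by rwa [div_le_iff₀ hD]
  have h2 : Real.log (P / D) ≤ G := by
    rw [Real.log_le_iff_le_exp (div_pos hP hD)]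
    exact h1
  have h3 := Real.le_log_one_add_of_nonneg (x := P / D - 1) (by
    rw [sub_nonneg, one_le_div hD]
    exact hPD)
  have e1 : 1 + (P / D - 1) = P / D := by ring
  have e2 : 2 * (P / D - 1) / (P / D - 1 + 2) = 2 * (P - D) / (P + D) := by
    have : P / D - 1 + 2 = (P + D) / D := by
      field_simp
      ring
    rw [this]
    field_simp
  rw [e1, e2] at h3
  have h4 : 2 * (P - D) / (P + D) ≤ G := h3.trans h2
  rwa [div_le_iff₀ (by linarith)] at h4

/-- the basic inequality for `G_S` -/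
theorem GS_lower (h : Fr (M + 1) a ζ z) :
    2 * ((M + 1) * (1 - a) * (1 - a) * (2 + a) + 3 * w a ζ) ≤
      GS a ζ * (6 + (M + 1) * (1 - a) * (2 + 3 * a - a ^ 2) - w a ζ) := by
  have ha0 := h.a0
  have ha1 := h.a1
  have h1 := GS_rho0 h
  have h2 := rho_le h 0
  have h3 := one_le_rho h 0
  have hE := Real.exp_pos (GS a ζ)
  set t := ‖u a ζ 0‖ with ht
  set r0 := a + (1 - a ^ 2) * t with hr0
  have hw : w a ζ = 1 + (M + 1) * a * (1 - a) - r0 := by
    rw [hr0]
    unfold w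
    rw [← ht]
    ring
  have h4 : 4 + (1 - a) * (M + 1) * (2 + 2 * a - a ^ 2) - r0 ≤ Real.exp (GS a ζ) * (1 + 2 * r0) := by
    have : Real.exp (GS a ζ) * (1 + 2 * rho a ζ 0) ≤ Real.exp (GS a ζ) * (1 + 2 * r0) :=
      mul_le_mul_of_nonneg_left (by linarith) hE.le
    linarith
  have hw0 := w_nonneg h
  have hM0 : (0 : ℝ) ≤ M := Nat.cast_nonneg _
  have hPD : 1 + 2 * r0 ≤ 4 + (1 - a) * (M + 1) * (2 + 2 * a - a ^ 2) - r0 := by
    have e : 4 + (1 - a) * (M + 1) * (2 + 2 * a - a ^ 2) - r0 - (1 + 2 * r0) =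
        (M + 1) * (1 - a) * (1 - a) * (2 + a) + 3 * w a ζ := by
      rw [hw]
      ring
    have : 0 ≤ (M + 1) * (1 - a) * (1 - a) * (2 + a) := by
      have : 0 ≤ 1 - a := by linarith
      positivity
    linarith
  have h5 := log_lower (by linarith) hPD h4
  have e1 : 4 + (1 - a) * (M + 1) * (2 + 2 * a - a ^ 2) - r0 - (1 + 2 * r0) =
      (M + 1) * (1 - a) * (1 - a) * (2 + a) + 3 * w a ζ := by
    rw [hw]
    ring
  have e2 : 4 + (1 - a) * (M + 1) * (2 + 2 * a - a ^ 2) - r0 + (1 + 2 * r0) =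
      6 + (M + 1) * (1 - a) * (2 + 3 * a - a ^ 2) - w a ζ := by
    rw [hw]
    ring
  rw [e1, e2] at h5
  exact h5

/-- `D_S ≥ G_S/(w + b)` -/
theorem DS_lower (h : Fr (M + 1) a ζ z) : GS a ζ / (w a ζ + (1 - a)) ≤ DS a ζ := by
  have ha1 := h.a1
  have hw0 := w_nonneg h
  have hT : 0 < w a ζ + (1 - a) := by linarith
  have h1 := DS_ge h (l := 1 / (w a ζ + (1 - a))) (Ψ := 0) (G := GS a ζ) (by positivity) le_rfl (by
    refine Finset.sum_nonpos fun k _ => ?_
    rw [psip_of_le]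
    rw [mul_assoc, one_div, inv_mul_le_iff₀ hT, mul_one]
    exact xt_le h k)
  refine le_trans (le_of_eq ?_) h1
  ring

theorem w_le (h : Fr (M + 1) a ζ z) : w a ζ ≤ (M + 1) * a * (1 - a) := by
  have h2 := rho_le h 0
  have h3 := one_le_rho h 0
  have e : w a ζ = 1 + (M + 1) * a * (1 - a) - (a + (1 - a ^ 2) * ‖u a ζ 0‖) := by
    unfold w
    ring
  rw [e]
  linarith

/-- `ω ≥ 1.48` -/
theorem om_ge (h : Fr (M + 1) a ζ z) : 148 / 100 * (1 - a) ≤ w a ζ := by
  have ha0 := h.a0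
  have ha1 := h.a1
  have h1 := GS_lower h
  have h2 := GS_le_w h
  have h3 := w_nonneg h
  have h4 := w_le h
  have hM0 : (0 : ℝ) ≤ M := Nat.cast_nonneg _
  set b := 1 - a with hb
  have hb0 : 0 < b := by rw [hb]; linarith
  set N : ℝ := (M : ℝ) + 1 with hN
  have hN0 : 0 < N := by linarith
  have hF : 0 < 6 + N * b * (2 + 3 * a - a ^ 2) - w a ζ := by
    have h5 : N * a * b ≤ N * b * (2 + 3 * a - a ^ 2) := by
      have : 0 ≤ N * b * (2 + 2 * a - a ^ 2) := by
        have : 0 ≤ 2 + 2 * a - a ^ 2 := by nlinarith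
        positivity
      linarith
    linarith
  have h6 : GS a ζ * (6 + N * b * (2 + 3 * a - a ^ 2) - w a ζ) ≤
      w a ζ * (6 + N * b * (2 + 3 * a - a ^ 2) - w a ζ) := mul_le_mul_of_nonneg_right h2 hF.le
  have h7 : (N * b) * (2 * b * (2 + a)) ≤ (N * b) * (w a ζ * (2 + 3 * a - a ^ 2)) := by
    nlinarith [sq_nonneg (w a ζ)]
  have h8 : 2 * b * (2 + a) ≤ w a ζ * (2 + 3 * a - a ^ 2) :=
    le_of_mul_le_mul_left h7 (by positivity)
  have h9 : 148 / 100 * (2 + 3 * a - a ^ 2) ≤ 2 * (2 + a) := by nlinarith [sq_nonneg (a - 1 / 2), sq_nonneg (a - 4 / 5)]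
  have h10 : 0 < 2 + 3 * a - a ^ 2 := by nlinarith
  have h11 : (148 / 100 * b) * (2 + 3 * a - a ^ 2) ≤ w a ζ * (2 + 3 * a - a ^ 2) := by
    refine le_trans ?_ h8
    have := mul_le_mul_of_nonneg_left h9 hb0.le
    linarith
  exact le_of_mul_le_mul_right h11 h10

/-- one range of `R` -/
theorem sub {q c R ω W R1 K : ℝ} (hq : 0 ≤ q) (hc : c ≤ 3) (hcq : 298 / 100 * q ≤ c)
    (hW0 : 0 < W) (hW : W ≤ ω + 1) (hR0 : 0 < R) (hR : R ≤ R1)
    (hK : K * ((3 + 2 * q) * W * R1) ≤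
      (3 * W - 3 + 298 / 100 * q) * R1 + (q + 200 / 99) * ((3 + 2 * q) * W)) :
    K ≤ 2 * (c + 3 * ω) / ((6 + 4 * q) * (ω + 1)) + (q + 200 / 99) / R := by
  have hω : 0 < ω + 1 := by linarith
  have hR1 : 0 < R1 := by linarith
  have h1 : (q + 200 / 99) / R1 ≤ (q + 200 / 99) / R :=
    div_le_div_of_nonneg_left (by linarith) hR0 hR
  have h2 : (3 * W - 3 + 298 / 100 * q) / ((3 + 2 * q) * W) ≤
      2 * (c + 3 * ω) / ((6 + 4 * q) * (ω + 1)) := by
    rw [div_le_div_iff₀ (by positivity) (by positivity)]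
    have h3 : (3 * W - 3 + 298 / 100 * q) * (ω + 1) ≤ (c + 3 * ω) * W := by
      have h4 : (3 * W - 3 + 298 / 100 * q) * (ω + 1) ≤ (3 * W - 3 + c) * (ω + 1) :=
        mul_le_mul_of_nonneg_right (by linarith) hω.le
      have h5 : (3 * W - 3 + c) * (ω + 1) ≤ (c + 3 * ω) * W := by
        nlinarith [mul_nonneg (sub_nonneg.2 hc) (sub_nonneg.2 hW)]
      linarith
    have h6 := mul_le_mul_of_nonneg_right h3 (show 0 ≤ 6 + 4 * q by linarith)
    linarith
  have h3 : K ≤ (3 * W - 3 + 298 / 100 * q) / ((3 + 2 * q) * W) + (q + 200 / 99) / R1 := by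
    rw [div_add_div _ _ (by positivity) hR1.ne', le_div_iff₀ (by positivity)]
    linarith
  linarith

/-- the numerical inequality -/
theorem num {q b R ω : ℝ} (hq : 0 < q) (hb0 : 0 < b) (hb1 : b < 1) (hbq : 100 * b ≤ q)
    (hR : R ≤ 31 / 10) (hR2 : 2 ≤ R) (hω : 148 / 100 ≤ ω)
    (hω2 : 1 + 1000 / 31 * (R - 2) - 21 / 31 * q ≤ ω) :
    1 / 50 ≤ 2 * (q * (3 - b) + 3 * ω) / ((6 + 4 * q) * (ω + 1)) + (q + 200 / 99) / R +
      1 / 2 - 200 / 99 := by
  rcases le_total 3 (q * (3 - b)) with hc | hc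
  · have hq1 : 1 ≤ q := by
      by_contra hcon
      push Not at hcon
      nlinarith
    have h1 : (q + 200 / 99) / (31 / 10) ≤ (q + 200 / 99) / R :=
      div_le_div_of_nonneg_left (by linarith) (by linarith) hR
    have h2 : 3 / (3 + 2 * q) ≤ 2 * (q * (3 - b) + 3 * ω) / ((6 + 4 * q) * (ω + 1)) := by
      rw [div_le_div_iff₀ (by positivity) (by positivity)]
      have h3 : 3 * (ω + 1) ≤ q * (3 - b) + 3 * ω := by linarith
      have h6 := mul_le_mul_of_nonneg_right h3 (show 0 ≤ 6 + 4 * q by linarith)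
      linarith
    have h3 : 1 / 50 - 1 / 2 + 200 / 99 ≤ 3 / (3 + 2 * q) + (q + 200 / 99) / (31 / 10) := by
      rw [div_add_div _ _ (by positivity) (by norm_num), le_div_iff₀ (by positivity)]
      nlinarith
    linarith
  · have hq15 : q ≤ 3 / 2 := by nlinarith
    have hb15 : b ≤ 15 / 1000 := by linarith
    have hq1 : q ≤ 10051 / 10000 := by
      by_contra hcon
      push Not at hcon
      nlinarith
    have hb2 : b ≤ 2 / 100 := by linarith
    have hcq : 298 / 100 * q ≤ q * (3 - b) := by nlinarith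
    have key : 1 / 50 - 1 / 2 + 200 / 99 ≤
        2 * (q * (3 - b) + 3 * ω) / ((6 + 4 * q) * (ω + 1)) + (q + 200 / 99) / R := by
      rcases le_total R (21 / 10) with h1 | h1
      · refine sub (W := 248 / 100) (R1 := 21 / 10) hq.le hc hcq (by norm_num) (by linarith)
          (by linarith) h1 ?_
        nlinarith
      rcases le_total R (24 / 10) with h2 | h2
      · refine sub (W := 454 / 100) (R1 := 24 / 10) hq.le hc hcq (by norm_num) (by linarith)
          (by linarith) h2 ?_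
        nlinarith
      rcases le_total R (28 / 10) with h3 | h3
      · refine sub (W := 14) (R1 := 28 / 10) hq.le hc hcq (by norm_num) (by linarith)
          (by linarith) h3 ?_
        nlinarith [sq_nonneg (q - 1 / 2)]
      · refine sub (W := 27) (R1 := 31 / 10) hq.le hc hcq (by norm_num) (by linarith)
          (by linarith) hR ?_
        nlinarith [sq_nonneg (q - 66 / 100)]
    linarith

end Pole

theorem LcPoleGam {M : ℕ} {a : ℝ} {ζ z : Fin (M + 1) → ℂ} (h : Fr (M + 1) a ζ z) (hM : 99 ≤ M)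
    (hmax : ∀ k, ‖u a ζ k‖ ≤ ‖u a ζ 0‖) {c0 : ℝ}
    (hroot : (c0 - 1) * (c0 - kap a ζ) = pr a ζ) (hR : (M : ℝ) + 1 ≤ 31 / 10 * ‖u a ζ 0‖) :
    1 / 50 ≤ Gam a ζ c0 := by
  have ha0 := h.a0
  have ha1 := h.a1
  have hM1 : (99 : ℝ) ≤ M := by exact_mod_cast hM
  have hM0 : (0 : ℝ) < M := by linarith
  have hκ1 := H69.kap_le_one h (by omega) hmax
  have hG2 := Gam_ge2 h (by omega) hκ1 hroot
  have hDS0 := DS_nonneg h
  have hDSG := Pole.DS_lower h
  have hGS := Pole.GS_lower h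
  have hGS0 := GS_nonneg h
  have hw0 := Pole.w_nonneg h
  have hom := Pole.om_ge h
  have hwle := Pole.w_le h
  have hwdef : Pole.w a ζ = (1 - a ^ 2) * (M + 1 - ‖u a ζ 0‖) - M * (1 - a) := rfl
  have htail : 0 ≤ (M : ℝ) + 1 - ‖u a ζ 0‖ := by
    rw [← mean_tail h]
    exact Finset.sum_nonneg fun k _ => norm_nonneg _
  set w := Pole.w a ζ with hw
  set t := ‖u a ζ 0‖ with ht
  set b := 1 - a with hb
  have hb0 : 0 < b := by rw [hb]; linarith
  have hb1 : b < 1 := by rw [hb]; linarith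
  set N : ℝ := (M : ℝ) + 1 with hN
  have hN100 : 100 ≤ N := by rw [hN]; linarith
  have ht0 : 0 < t := by linarith
  have ht32 : 1000 / 31 ≤ t := by linarith
  set ω := w / b with hω
  have hwω : w = b * ω := by rw [hω]; field_simp
  have hω1 : 148 / 100 ≤ ω := by
    rw [hω, le_div_iff₀ hb0]
    exact hom
  set R := N / t with hRdef
  have hR1 : R ≤ 31 / 10 := by
    rw [hRdef, div_le_iff₀ ht0]
    exact hR
  have hRt : R * t = N := by rw [hRdef]; field_simp
  -- formula for ω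
  have hωf : ω = 1 + N * a - (2 - b) * t := by
    have h1 : b * ω = b * (1 + N * a - (2 - b) * t) := by
      rw [← hwω, hwdef]
      have : a = 1 - b := by rw [hb]; ring
      have hMN : (M : ℝ) = N - 1 := by rw [hN]; ring
      rw [this, hMN]
      ring
    exact mul_left_cancel₀ hb0.ne' h1
  have hωf2 : ω = 1 + t * (R - 2) - b * t * (R - 1) := by
    rw [hωf, ← hRt]
    have : a = 1 - b := by rw [hb]; ring
    rw [this]
    ring
  set q := N * b with hq
  have hq0 : 0 < q := by positivity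
  have hbt : b * t = q / R := by
    rw [hRdef, hq]
    field_simp
  have hR2 : 2 ≤ R := by
    by_contra hcon
    push Not at hcon
    have h1 : 1 ≤ R := by
      rw [hRdef, one_le_div ht0]
      linarith
    have h2 : t * (R - 2) ≤ 0 := mul_nonpos_of_nonneg_of_nonpos ht0.le (by linarith)
    have h3 : 0 ≤ b * t * (R - 1) := mul_nonneg (mul_nonneg hb0.le ht0.le) (by linarith)
    linarith
  have hω2 : 1 + 1000 / 31 * (R - 2) - 21 / 31 * q ≤ ω := by
    rw [hωf2]
    have h1 : 1000 / 31 * (R - 2) ≤ t * (R - 2) := mul_le_mul_of_nonneg_right ht32 (by linarith)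
    have h2 : b * t * (R - 1) ≤ 21 / 31 * q := by
      rw [hbt, div_mul_eq_mul_div, div_le_iff₀ (by linarith)]
      nlinarith
    linarith
  have hbq : 100 * b ≤ q := by
    rw [hq]
    nlinarith
  have hnum := Pole.num hq0 hb0 hb1 hbq hR1 hR2 hω1 hω2
  -- the bound of DS
  have hF0 : 0 < 6 + q * (2 + 3 * a - a ^ 2) - w := by
    have h5 : N * a * b ≤ q * (2 + 3 * a - a ^ 2) := by
      have : 0 ≤ q * (2 + 2 * a - a ^ 2) := by
        have : 0 ≤ 2 + 2 * a - a ^ 2 := by nlinarith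
        positivity
      rw [hq] at this ⊢
      linarith
    linarith
  have hF1 : 6 + q * (2 + 3 * a - a ^ 2) - w ≤ 6 + 4 * q := by
    have : q * (2 + 3 * a - a ^ 2) ≤ q * 4 := by
      refine mul_le_mul_of_nonneg_left ?_ hq0.le
      nlinarith
    linarith
  have hDS : 2 * (q * (3 - b) + 3 * ω) / ((6 + 4 * q) * (ω + 1)) ≤ DS a ζ := by
    refine le_trans ?_ hDSG
    rw [div_le_div_iff₀ (by positivity) (by linarith)]
    have e1 : 2 * (q * (3 - b) + 3 * ω) * (w + b) =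
        (2 * (q * b * (2 + a) + 3 * w)) * (ω + 1) := by
      have : a = 1 - b := by rw [hb]; ring
      rw [hwω, this]
      ring
    rw [e1]
    have h1 : 2 * (q * b * (2 + a) + 3 * w) ≤ GS a ζ * (6 + 4 * q) :=
      hGS.trans (mul_le_mul_of_nonneg_left hF1 hGS0)
    have h2 := mul_le_mul_of_nonneg_right h1 (show 0 ≤ ω + 1 by linarith)
    linarith
  -- Γ
  have h1 : 0 ≤ DS a ζ * (3 / (2 * M)) := by positivity
  have h2 : (3 + a) / 2 * ((N - t) / M) ≤ 200 / 99 * (1 - 1 / R) := by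
    have h3 : (N - t) / M ≤ 100 / 99 * (1 - 1 / R) := by
      have e : 100 / 99 * (1 - 1 / R) = 100 / 99 * ((N - t) / N) := by
        rw [hRdef]
        field_simp
      rw [e, div_le_iff₀ hM0]
      have e2 : 100 / 99 * ((N - t) / N) * M = (N - t) * (100 / 99 * (M / N)) := by ring
      rw [e2]
      have h4 : 1 ≤ 100 / 99 * ((M : ℝ) / N) := by
        rw [← mul_div_assoc, le_div_iff₀ (by linarith)]
        have hMN : (M : ℝ) = N - 1 := by rw [hN]; ring
        rw [hMN]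
        linarith
      nlinarith
    have h4 : 0 ≤ (N - t) / M := div_nonneg htail hM0.le
    nlinarith
  have h3 : (q + 200 / 99) / R = q / R + 200 / 99 * (1 / R) := by ring
  rw [h3] at hnum
  have h4 : (1 - a) * t = q / R := hbt
  rw [hbt] at hG2
  linarith

end Pool.Agent.Lib.MP_172a45_an.L
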