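import Pool.Agent.Lib.MP_172a45_an.L.LcNum
import Pool.Agent.Lib.MP_172a45_an.L.LcPole

set_option autoImplicit false

/-!
# Part L-c: `N ≥ 100`, `t₀ ≥ N/7`
-/

namespace Pool.Agent.Lib.MP_172a45_an.L

open Finset Real
open Pool.Agent.Lib.MP_172a45_an.F
open Pool.Agent.Lib.MP_172a45_an.F.Fr

theorem nb_pole : Nb (31/10) (129/4) (2821/100) (101/25) (137/200) (557/1000) (77/50) (1/50) 70 74 77 75 80 80 87 95 109 125 where
  hXm0 := by norm_num
  hXm := by norm_num
  hκ11 := by norm_num
  hβ1 := by norm_num
  hc := by norm_num
  hc0 := by norm_num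
  hγ0 := by norm_num
  hR1 := by norm_num
  n1 := by rw [max_eq_left (by norm_num : (1:ℝ) ≤ 101/25)]; norm_num
  n1c := by norm_num
  n2 := by rw [max_eq_left (by norm_num : (1:ℝ) ≤ 101/25)]; norm_num
  s := by constructor <;> constructor <;> norm_num
  hk8 := by norm_num
  hk9 := by norm_num
  n4 := by rw [max_eq_left (by norm_num : (1:ℝ) ≤ 101/25)]; norm_num [Vs, Vc, I0]

/-- **Part L-c** (small `Γ`) -/
theorem Lc_small {M : ℕ} {a : ℝ} {ζ z : Fin (M + 1) → ℂ} (h : Fr (M + 1) a ζ z) (hM : 99 ≤ M)
    (hmax : ∀ k, ‖u a ζ k‖ ≤ ‖u a ζ 0‖) (ht : ((M : ℝ) + 1) / 7 ≤ ‖u a ζ 0‖)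
    {c0 : ℝ} (hc1 : 1 ≤ c0) (hroot : (c0 - 1) * (c0 - kap a ζ) = pr a ζ)
    (hΓ : Gam a ζ c0 < 567 / 250) : False := by
  have hM0 : 0 < M := by omega
  have hM99 : (99 : ℝ) ≤ M := by exact_mod_cast hM
  have hM0' : (0 : ℝ) < M := by linarith
  have ha0 := h.a0
  have ha1 := h.a1
  have ht0 : 0 < ‖u a ζ 0‖ := norm_pos_iff.2 (h.u_ne 0)
  have ht14 : 100 / 7 ≤ ‖u a ζ 0‖ := by linarith
  have hd0 := DS_nonneg h
  have hκ1 := H69.kap_le_one h hM0 hmax
  have h2 := Gam_ge2 h hM0 hκ1 hroot
  obtain ⟨B, hB⟩ : ∃ B, B = (1 - a) * ‖u a ζ 0‖ := ⟨_, rfl⟩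
  obtain ⟨R, hRdef⟩ : ∃ R, R = ((M : ℝ) + 1) / ‖u a ζ 0‖ := ⟨_, rfl⟩
  have hR : (M : ℝ) + 1 = R * ‖u a ζ 0‖ := by
    rw [hRdef, div_mul_cancel₀ _ ht0.ne']
  have hR7 : R ≤ 7 := by
    rw [hRdef, div_le_iff₀ ht0]; linarith
  have hm' : (M + 1 - ‖u a ζ 0‖) / M ≤ 6 / 7 * (100 / 99) := by
    rw [div_le_iff₀ hM0']; linarith
  have hm0 : 0 ≤ (M + 1 - ‖u a ζ 0‖) / M := by
    have h3 := pole h
    refine div_nonneg ?_ hM0'.le
    have h4 : (1 + a) * ‖u a ζ 0‖ ≤ (1 + a) * (M + 1) := by nlinarith
    have := le_of_mul_le_mul_left h4 (by linarith)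
    linarith
  have hB0 : 0 ≤ B := by
    rw [hB]
    exact mul_nonneg (by linarith) ht0.le
  have hdB : DS a ζ + B ≤ 7 / 2 := by
    rw [← hB] at h2
    have h5 : (3 + a) / 2 * ((M + 1 - ‖u a ζ 0‖) / M) ≤ 2 * (6 / 7 * (100 / 99)) :=
      mul_le_mul (by linarith) hm' hm0 (by norm_num)
    have h6 : DS a ζ ≤ DS a ζ * (1 + 3 / (2 * M)) := by
      have : 0 ≤ DS a ζ * (3 / (2 * M)) := by positivity
      linarith
    linarith
  have hd : DS a ζ ≤ 7 / 2 := by linarith
  have hB1 : B ≤ 7 / 2 := by linarith
  have hC : 10 ≤ a * ‖u a ζ 0‖ := by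
    have : a * ‖u a ζ 0‖ = ‖u a ζ 0‖ - B := by rw [hB]; ring
    linarith
  rcases le_total R (31 / 10) with hr0 | hr0
  · have hRt : (M : ℝ) + 1 ≤ 31 / 10 * ‖u a ζ 0‖ := by
      rw [hR]; exact mul_le_mul_of_nonneg_right hr0 ht0.le
    refine row_fin h hM hmax hc1 hroot hd (B1 := 7 / 2) (R0 := 19 / 10) ?_ hRt (by norm_num) hC
      (by rw [← hB]; exact hB1) (LcPoleGam h hM hmax hroot hRt) (by norm_num) (by norm_num)
      (by norm_num) (by norm_num) nb_pole
    have h3 := pole h
    have h4 : a * (19 / 10 * ‖u a ζ 0‖) ≤ a * ((M : ℝ) + 1) := by nlinarith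
    exact le_of_mul_le_mul_left h4 ha0
  · rcases le_total R (4) with hr | hr
    · rcases le_total B (3/20) with hb | hb
      · exact row_0 h hM hmax hc1 hroot hd hB hR hC (by linarith) (by linarith) (by linarith) (by linarith)
      · rcases le_total B (1/2) with hb | hb
        · exact row_1 h hM hmax hc1 hroot hd hB hR hC (by linarith) (by linarith) (by linarith) (by linarith)
        · rcases le_total B (3/2) with hb | hb
          · exact row_2 h hM hmax hc1 hroot hd hB hR hC (by linarith) (by linarith) (by linarith) (by linarith)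
          · exact row_3 h hM hmax hc1 hroot hd hB hR hC (by linarith) (by linarith) (by linarith) (by linarith)
    · rcases le_total R (5) with hr | hr
      · rcases le_total B (3/20) with hb | hb
        · exact row_4 h hM hmax hc1 hroot hd hB hR hC (by linarith) (by linarith) (by linarith) (by linarith)
        · rcases le_total B (1/2) with hb | hb
          · exact row_5 h hM hmax hc1 hroot hd hB hR hC (by linarith) (by linarith) (by linarith) (by linarith)
          · rcases le_total B (3/2) with hb | hb
            · exact row_6 h hM hmax hc1 hroot hd hB hR hC (by linarith) (by linarith) (by linarith) (by linarith)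
            · exact row_7 h hM hmax hc1 hroot hd hB hR hC (by linarith) (by linarith) (by linarith) (by linarith)
      · rcases le_total R (6) with hr | hr
        · rcases le_total B (3/20) with hb | hb
          · exact row_8 h hM hmax hc1 hroot hd hB hR hC (by linarith) (by linarith) (by linarith) (by linarith)
          · rcases le_total B (1/2) with hb | hb
            · exact row_9 h hM hmax hc1 hroot hd hB hR hC (by linarith) (by linarith) (by linarith) (by linarith)
            · rcases le_total B (3/2) with hb | hb
              · exact row_10 h hM hmax hc1 hroot hd hB hR hC (by linarith) (by linarith) (by linarith) (by linarith)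
              · exact row_11 h hM hmax hc1 hroot hd hB hR hC (by linarith) (by linarith) (by linarith) (by linarith)
        · rcases le_total R (13/2) with hr | hr
          · rcases le_total B (3/20) with hb | hb
            · exact row_12 h hM hmax hc1 hroot hd hB hR hC (by linarith) (by linarith) (by linarith) (by linarith)
            · rcases le_total B (1/2) with hb | hb
              · exact row_13 h hM hmax hc1 hroot hd hB hR hC (by linarith) (by linarith) (by linarith) (by linarith)
              · rcases le_total B (1) with hb | hb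
                · exact row_14 h hM hmax hc1 hroot hd hB hR hC (by linarith) (by linarith) (by linarith) (by linarith)
                · rcases le_total B (2) with hb | hb
                  · exact row_15 h hM hmax hc1 hroot hd hB hR hC (by linarith) (by linarith) (by linarith) (by linarith)
                  · exact row_16 h hM hmax hc1 hroot hd hB hR hC (by linarith) (by linarith) (by linarith) (by linarith)
          · rcases le_total B (3/20) with hb | hb
            · exact row_17 h hM hmax hc1 hroot hd hB hR hC (by linarith) (by linarith) (by linarith) (by linarith)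
            · rcases le_total B (1/2) with hb | hb
              · exact row_18 h hM hmax hc1 hroot hd hB hR hC (by linarith) (by linarith) (by linarith) (by linarith)
              · rcases le_total B (1) with hb | hb
                · exact row_19 h hM hmax hc1 hroot hd hB hR hC (by linarith) (by linarith) (by linarith) (by linarith)
                · rcases le_total B (3/2) with hb | hb
                  · exact row_20 h hM hmax hc1 hroot hd hB hR hC (by linarith) (by linarith) (by linarith) (by linarith)
                  · rcases le_total B (11/5) with hb | hb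
                    · exact row_21 h hM hmax hc1 hroot hd hB hR hC (by linarith) (by linarith) (by linarith) (by linarith)
                    · rcases le_total B (14/5) with hb | hb
                      · exact row_22 h hM hmax hc1 hroot hd hB hR hC (by linarith) (by linarith) (by linarith) (by linarith)
                      · rcases le_total B (33/10) with hb | hb
                        · exact row_23 h hM hmax hc1 hroot hd hB hR hC (by linarith) (by linarith) (by linarith) (by linarith)
                        · exact absurd (row_24 h hM hmax hc1 hroot hd hB hR hC (by linarith) (by linarith) (by linarith) (by linarith)) (not_le.2 hΓ)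

end Pool.Agent.Lib.MP_172a45_an.L
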