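import Pool.Agent.Lib.MP_172a45_an.L.LcNum0

set_option autoImplicit false

/-!
# The boxes of part L-c (generated)
-/

namespace Pool.Agent.Lib.MP_172a45_an.L

open Finset Real
open Pool.Agent.Lib.MP_172a45_an.F
open Pool.Agent.Lib.MP_172a45_an.F.Fr

theorem gb_5 {B R : ℝ} (b0 : 3/20 ≤ B) (b1 : B ≤ 1/2) (r0 : 4 ≤ R) (r1 : R ≤ 5) :
    0 ≤ 3 + (299/100) * (B * R) - 3 * (471/500 + 1593/1000 * B) ∧
    0 ≤ 2 * (3 + (299/100) * (B * R) - 3 * (471/500 + 1593/1000 * B)) - 1 / 2 * (159/5000) * ((R - 193 / 100) / (193 / 100)) * (5 + (299/100) * (B * R) + (471/500 + 1593/1000 * B)) ∧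
    0 ≤ (13/10) * (2 * (3 + (299/100) * (B * R) - 3 * (471/500 + 1593/1000 * B)) - 1 / 2 * (159/5000) * ((R - 193 / 100) / (193 / 100)) * (5 + (299/100) * (B * R) + (471/500 + 1593/1000 * B))) * R + 2 * B * (5 + (299/100) * (B * R) + (471/500 + 1593/1000 * B)) * ((B + 1 / 2 - (137/1000)) * R - 200 / 99 * (R - 1)) := by
  have hu : 0 ≤ B - 3/20 := by linarith
  have hv : 0 ≤ 1/2 - B := by linarith
  have hp : 0 ≤ R - 4 := by linarith
  have hq : 0 ≤ 5 - R := by linarith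
  refine ⟨?_, ?_, ?_⟩
  · have e : 3 + (299/100) * (B * R) - 3 * (471/500 + 1593/1000 * B) =
        (25023/7000) * (1/2 - B)^1 * (5 - R)^1 + (33993/7000) * (1/2 - B)^1 * (R - 4)^1 + (7529/700) * (B - 3/20)^1 * (5 - R)^1 + (10519/700) * (B - 3/20)^1 * (R - 4)^1 := by ring
    rw [e]
    positivity
  · have e : 2 * (3 + (299/100) * (B * R) - 3 * (471/500 + 1593/1000 * B)) - 1 / 2 * (159/5000) * ((R - 193 / 100) / (193 / 100)) * (5 + (299/100) * (B * R) + (471/500 + 1593/1000 * B)) =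
        (91339189413/13510000000) * (1/2 - B)^1 * (5 - R)^2 + (53617828779/3377500000) * (1/2 - B)^1 * (R - 4)^1 * (5 - R)^1 + (122989502703/13510000000) * (1/2 - B)^1 * (R - 4)^2 + (28224732019/1351000000) * (B - 3/20)^1 * (5 - R)^2 + (16872001467/337750000) * (B - 3/20)^1 * (R - 4)^1 * (5 - R)^1 + (39215732849/1351000000) * (B - 3/20)^1 * (R - 4)^2 := by ring
    rw [e]
    positivity
  · have e : (13/10) * (2 * (3 + (299/100) * (B * R) - 3 * (471/500 + 1593/1000 * B)) - 1 / 2 * (159/5000) * ((R - 193 / 100) / (193 / 100)) * (5 + (299/100) * (B * R) + (471/500 + 1593/1000 * B))) * R + 2 * B * (5 + (299/100) * (B * R) + (471/500 + 1593/1000 * B)) * ((B + 1 / 2 - (137/1000)) * R - 200 / 99 * (R - 1)) =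
        (2881156628089/45511812500) * (1/2 - B)^3 * (5 - R)^3 + (20665684594273/78020250000) * (1/2 - B)^3 * (R - 4)^1 * (5 - R)^2 + (12275573995733/34133859375) * (1/2 - B)^3 * (R - 4)^2 * (5 - R)^1 + (17252417208377/109228350000) * (1/2 - B)^3 * (R - 4)^3 + (14533989468227/68267718750) * (B - 3/20)^1 * (1/2 - B)^2 * (5 - R)^3 + (114621734995739/117030375000) * (B - 3/20)^1 * (1/2 - B)^2 * (R - 4)^1 * (5 - R)^2 + (290666593320001/204803156250) * (B - 3/20)^1 * (1/2 - B)^2 * (R - 4)^2 * (5 - R)^1 + (106846523958511/163842525000) * (B - 3/20)^1 * (1/2 - B)^2 * (R - 4)^3 + (21050963477197/136535437500) * (B - 3/20)^2 * (1/2 - B)^1 * (5 - R)^3 + (27137410322947/33437250000) * (B - 3/20)^2 * (1/2 - B)^1 * (R - 4)^1 * (5 - R)^2 + (261909898682393/204803156250) * (B - 3/20)^2 * (1/2 - B)^1 * (R - 4)^2 * (5 - R)^1 + (22594452982669/36409450000) * (B - 3/20)^2 * (1/2 - B)^1 * (R - 4)^3 + (514339090017/4551181250)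 * (B - 3/20)^3 * (5 - R)^3 + (111911159753/236425000) * (B - 3/20)^3 * (R - 4)^1 * (5 - R)^2 + (13363877615254/20480315625) * (B - 3/20)^3 * (R - 4)^2 * (5 - R)^1 + (9562321837363/32768505000) * (B - 3/20)^3 * (R - 4)^3 := by ring
    rw [e]
    positivity

theorem nb_5 : Nb (5) (20) (474/25) (26/25) (809/1000) (139/500) (199/100) (137/1000) 41 45 48 48 52 54 59 65 74 76 where
  hXm0 := by norm_num
  hXm := by norm_num
  hκ11 := by norm_num
  hβ1 := by norm_num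
  hc := by norm_num
  hc0 := by norm_num
  hγ0 := by norm_num
  hR1 := by norm_num
  n1 := by rw [max_eq_left (by norm_num : (1:ℝ) ≤ 26/25)]; norm_num
  n1c := by norm_num
  n2 := by rw [max_eq_left (by norm_num : (1:ℝ) ≤ 26/25)]; norm_num
  s := by constructor <;> constructor <;> norm_num
  hk8 := by norm_num
  hk9 := by norm_num
  n4 := by rw [max_eq_left (by norm_num : (1:ℝ) ≤ 26/25)]; norm_num [Vs, Vc, I0]

theorem row_5 {M : ℕ} {a : ℝ} {ζ z : Fin (M + 1) → ℂ} (h : Fr (M + 1) a ζ z)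
    (hM : 99 ≤ M) (hmax : ∀ k, ‖u a ζ k‖ ≤ ‖u a ζ 0‖) {c0 : ℝ} (hc1 : 1 ≤ c0)
    (hroot : (c0 - 1) * (c0 - kap a ζ) = pr a ζ) (hd : DS a ζ ≤ 7 / 2) {B R : ℝ}
    (hB : B = (1 - a) * ‖u a ζ 0‖) (hR : (M : ℝ) + 1 = R * ‖u a ζ 0‖)
    (hC : 10 ≤ a * ‖u a ζ 0‖) (b0 : 3/20 ≤ B) (b1 : B ≤ 1/2) (r0 : 4 ≤ R) (r1 : R ≤ 5) : False := by
  have ht0 : 0 < ‖u a ζ 0‖ := norm_pos_iff.2 (h.u_ne 0)
  have hM99 : (99 : ℝ) ≤ M := by exact_mod_cast hM
  have ha1 := h.a1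
  have ht : 100 / (5) ≤ ‖u a ζ 0‖ := by
    rw [div_le_iff₀ (by norm_num)]
    have := mul_le_mul_of_nonneg_right r1 ht0.le
    linarith
  have hb : 1 - a ≤ 1/40 := by
    have h1 : (1 - a) * (100 / (5)) ≤ 1/2 := by
      have := mul_le_mul_of_nonneg_left ht (by linarith : 0 ≤ 1 - a)
      linarith
    norm_num at h1 ⊢
    linarith
  have hρ : (1 - a) ^ 2 ≤ 3 - (299/100) := by
    have := pow_le_pow_left₀ (by linarith : 0 ≤ 1 - a) hb 2
    norm_num at this ⊢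
    linarith
  obtain ⟨g1, g2, g3⟩ := gb_5 b0 b1 r0 r1
  have hγ := Gam_ge_z h hM hmax hroot (z := 13/10) (ψ := 159/5000) (r := 471/500 + 1593/1000 * B) (ρ := 299/100) (γ := 137/1000)
    hB hR (by norm_num at ht ⊢; linarith) (by linarith) (by linarith) (by norm_num) (by norm_num)
    psi_13 (by linarith) (by nlinarith) (by nlinarith [mul_nonneg (sub_nonneg.2 b0) (sub_nonneg.2 b1)]) hρ (by norm_num) g1 g2 g3
  refine row_fin h hM hmax hc1 hroot hd (B1 := 1/2) (R0 := 4) ?_ ?_ (by norm_num) hC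
    (by rw [← hB]; exact b1) hγ (by norm_num) (by norm_num) (by norm_num) (by norm_num) nb_5
  · rw [hR]; exact mul_le_mul_of_nonneg_right r0 ht0.le
  · rw [hR]; exact mul_le_mul_of_nonneg_right r1 ht0.le

theorem gb_6 {B R : ℝ} (b0 : 1/2 ≤ B) (b1 : B ≤ 3/2) (r0 : 4 ≤ R) (r1 : R ≤ 5) :
    0 ≤ 3 + (149/50) * (B * R) - 3 * (793/1000 + 189/100 * B) ∧
    0 ≤ 2 * (3 + (149/50) * (B * R) - 3 * (793/1000 + 189/100 * B)) - 1 / 2 * (159/5000) * ((R - 193 / 100) / (193 / 100)) * (5 + (149/50) * (B * R) + (793/1000 + 189/100 * B)) ∧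
    0 ≤ (13/10) * (2 * (3 + (149/50) * (B * R) - 3 * (793/1000 + 189/100 * B)) - 1 / 2 * (159/5000) * ((R - 193 / 100) / (193 / 100)) * (5 + (149/50) * (B * R) + (793/1000 + 189/100 * B))) * R + 2 * B * (5 + (149/50) * (B * R) + (793/1000 + 189/100 * B)) * ((B + 1 / 2 - (18/125)) * R - 200 / 99 * (R - 1)) := by
  have hu : 0 ≤ B - 1/2 := by linarith
  have hv : 0 ≤ 3/2 - B := by linarith
  have hp : 0 ≤ R - 4 := by linarith
  have hq : 0 ≤ 5 - R := by linarith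
  refine ⟨?_, ?_, ?_⟩
  · have e : 3 + (149/50) * (B * R) - 3 * (793/1000 + 189/100 * B) =
        (1873/500) * (3/2 - B)^1 * (5 - R)^1 + (1309/250) * (3/2 - B)^1 * (R - 4)^1 + (2499/250) * (B - 1/2)^1 * (5 - R)^1 + (7233/500) * (B - 1/2)^1 * (R - 4)^1 := by ring
    rw [e]
    positivity
  · have e : 2 * (3 + (149/50) * (B * R) - 3 * (793/1000 + 189/100 * B)) - 1 / 2 * (159/5000) * ((R - 193 / 100) / (193 / 100)) * (5 + (149/50) * (B * R) + (793/1000 + 189/100 * B)) =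
        (7020815363/965000000) * (3/2 - B)^1 * (5 - R)^2 + (16791861441/965000000) * (3/2 - B)^1 * (R - 4)^1 * (5 - R)^1 + (4879600289/482500000) * (3/2 - B)^1 * (R - 4)^2 + (9428025549/482500000) * (B - 1/2)^1 * (5 - R)^2 + (46054903041/965000000) * (B - 1/2)^1 * (R - 4)^1 * (5 - R)^1 + (27163315443/965000000) * (B - 1/2)^1 * (R - 4)^2 := by ring
    rw [e]
    positivity
  · have e : (13/10) * (2 * (3 + (149/50) * (B * R) - 3 * (793/1000 + 189/100 * B)) - 1 / 2 * (159/5000) * ((R - 193 / 100) / (193 / 100)) * (5 + (149/50) * (B * R) + (793/1000 + 189/100 * B))) * R + 2 * B * (5 + (149/50) * (B * R) + (793/1000 + 189/100 * B)) * ((B + 1 / 2 - (18/125)) * R - 200 / 99 * (R - 1)) =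
        (346533244327/79612500000) * (3/2 - B)^3 * (5 - R)^3 + (1617551424143/86850000000) * (3/2 - B)^3 * (R - 4)^1 * (5 - R)^2 + (8310764145193/318450000000) * (3/2 - B)^3 * (R - 4)^2 * (5 - R)^1 + (1128238054343/95535000000) * (3/2 - B)^3 * (R - 4)^3 + (60343373828/2487890625) * (B - 1/2)^1 * (3/2 - B)^2 * (5 - R)^3 + (22174586410261/238837500000) * (B - 1/2)^1 * (3/2 - B)^2 * (R - 4)^1 * (5 - R)^2 + (12801723637573/106150000000) * (B - 1/2)^1 * (3/2 - B)^2 * (R - 4)^2 * (5 - R)^1 + (9922559370913/191070000000) * (B - 1/2)^1 * (3/2 - B)^2 * (R - 4)^3 + (3169967025337/26537500000) * (B - 1/2)^2 * (3/2 - B)^1 * (5 - R)^3 + (42140813825041/106150000000) * (B - 1/2)^2 * (3/2 - B)^1 * (R - 4)^1 * (5 - R)^2 + (141482655013859/318450000000) * (B - 1/2)^2 * (3/2 - B)^1 * (R - 4)^2 * (5 - R)^1 + (1326606145157/7961250000) * (B - 1/2)^2 * (3/2 - B)^1 * (R - 4)^3 + (2786839226307/13268750000) * (B - 1/2)^3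 * (5 - R)^3 + (37453642191661/53075000000) * (B - 1/2)^3 * (R - 4)^1 * (5 - R)^2 + (83869384082111/106150000000) * (B - 1/2)^3 * (R - 4)^2 * (5 - R)^1 + (6250346357949/21230000000) * (B - 1/2)^3 * (R - 4)^3 := by ring
    rw [e]
    positivity

theorem nb_6 : Nb (5) (20) (449/25) (51/25) (809/1000) (139/500) (51/25) (18/125) 39 42 45 45 49 51 56 62 71 76 where
  hXm0 := by norm_num
  hXm := by norm_num
  hκ11 := by norm_num
  hβ1 := by norm_num
  hc := by norm_num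
  hc0 := by norm_num
  hγ0 := by norm_num
  hR1 := by norm_num
  n1 := by rw [max_eq_left (by norm_num : (1:ℝ) ≤ 51/25)]; norm_num
  n1c := by norm_num
  n2 := by rw [max_eq_left (by norm_num : (1:ℝ) ≤ 51/25)]; norm_num
  s := by constructor <;> constructor <;> norm_num
  hk8 := by norm_num
  hk9 := by norm_num
  n4 := by rw [max_eq_left (by norm_num : (1:ℝ) ≤ 51/25)]; norm_num [Vs, Vc, I0]

theorem row_6 {M : ℕ} {a : ℝ} {ζ z : Fin (M + 1) → ℂ} (h : Fr (M + 1) a ζ z)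
    (hM : 99 ≤ M) (hmax : ∀ k, ‖u a ζ k‖ ≤ ‖u a ζ 0‖) {c0 : ℝ} (hc1 : 1 ≤ c0)
    (hroot : (c0 - 1) * (c0 - kap a ζ) = pr a ζ) (hd : DS a ζ ≤ 7 / 2) {B R : ℝ}
    (hB : B = (1 - a) * ‖u a ζ 0‖) (hR : (M : ℝ) + 1 = R * ‖u a ζ 0‖)
    (hC : 10 ≤ a * ‖u a ζ 0‖) (b0 : 1/2 ≤ B) (b1 : B ≤ 3/2) (r0 : 4 ≤ R) (r1 : R ≤ 5) : False := by
  have ht0 : 0 < ‖u a ζ 0‖ := norm_pos_iff.2 (h.u_ne 0)
  have hM99 : (99 : ℝ) ≤ M := by exact_mod_cast hM
  have ha1 := h.a1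
  have ht : 100 / (5) ≤ ‖u a ζ 0‖ := by
    rw [div_le_iff₀ (by norm_num)]
    have := mul_le_mul_of_nonneg_right r1 ht0.le
    linarith
  have hb : 1 - a ≤ 3/40 := by
    have h1 : (1 - a) * (100 / (5)) ≤ 3/2 := by
      have := mul_le_mul_of_nonneg_left ht (by linarith : 0 ≤ 1 - a)
      linarith
    norm_num at h1 ⊢
    linarith
  have hρ : (1 - a) ^ 2 ≤ 3 - (149/50) := by
    have := pow_le_pow_left₀ (by linarith : 0 ≤ 1 - a) hb 2
    norm_num at this ⊢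
    linarith
  obtain ⟨g1, g2, g3⟩ := gb_6 b0 b1 r0 r1
  have hγ := Gam_ge_z h hM hmax hroot (z := 13/10) (ψ := 159/5000) (r := 793/1000 + 189/100 * B) (ρ := 149/50) (γ := 18/125)
    hB hR (by norm_num at ht ⊢; linarith) (by linarith) (by linarith) (by norm_num) (by norm_num)
    psi_13 (by linarith) (by nlinarith) (by nlinarith [mul_nonneg (sub_nonneg.2 b0) (sub_nonneg.2 b1)]) hρ (by norm_num) g1 g2 g3
  refine row_fin h hM hmax hc1 hroot hd (B1 := 3/2) (R0 := 4) ?_ ?_ (by norm_num) hC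
    (by rw [← hB]; exact b1) hγ (by norm_num) (by norm_num) (by norm_num) (by norm_num) nb_6
  · rw [hR]; exact mul_le_mul_of_nonneg_right r0 ht0.le
  · rw [hR]; exact mul_le_mul_of_nonneg_right r1 ht0.le

theorem gb_7 {B R : ℝ} (b0 : 3/2 ≤ B) (b1 : B ≤ 7/2) (r0 : 4 ≤ R) (r1 : R ≤ 5) :
    0 ≤ 3 + (147/50) * (B * R) - 3 * (643/1000 + 199/100 * B) ∧
    0 ≤ 2 * (3 + (147/50) * (B * R) - 3 * (643/1000 + 199/100 * B)) - 1 / 2 * (159/5000) * ((R - 193 / 100) / (193 / 100)) * (5 + (147/50) * (B * R) + (643/1000 + 199/100 * B)) ∧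
    0 ≤ (13/10) * (2 * (3 + (147/50) * (B * R) - 3 * (643/1000 + 199/100 * B)) - 1 / 2 * (159/5000) * ((R - 193 / 100) / (193 / 100)) * (5 + (147/50) * (B * R) + (643/1000 + 199/100 * B))) * R + 2 * B * (5 + (147/50) * (B * R) + (643/1000 + 199/100 * B)) * ((B + 1 / 2 - (437/1000)) * R - 200 / 99 * (R - 1)) := by
  have hu : 0 ≤ B - 3/2 := by linarith
  have hv : 0 ≤ 7/2 - B := by linarith
  have hp : 0 ≤ R - 4 := by linarith
  have hq : 0 ≤ 5 - R := by linarith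
  refine ⟨?_, ?_, ?_⟩
  · have e : 3 + (147/50) * (B * R) - 3 * (643/1000 + 199/100 * B) =
        (2439/500) * (7/2 - B)^1 * (5 - R)^1 + (7083/1000) * (7/2 - B)^1 * (R - 4)^1 + (2667/250) * (B - 3/2)^1 * (5 - R)^1 + (15813/1000) * (B - 3/2)^1 * (R - 4)^1 := by ring
    rw [e]
    positivity
  · have e : 2 * (3 + (147/50) * (B * R) - 3 * (643/1000 + 199/100 * B)) - 1 / 2 * (159/5000) * ((R - 193 / 100) / (193 / 100)) * (5 + (147/50) * (B * R) + (643/1000 + 199/100 * B)) =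
        (9198400329/965000000) * (7/2 - B)^1 * (5 - R)^2 + (45023497551/1930000000) * (7/2 - B)^1 * (R - 4)^1 * (5 - R)^1 + (26591637393/1930000000) * (7/2 - B)^1 * (R - 4)^2 + (10073411727/482500000) * (B - 3/2)^1 * (5 - R)^2 + (99850200831/1930000000) * (B - 3/2)^1 * (R - 4)^1 * (5 - R)^1 + (59474748423/1930000000) * (B - 3/2)^1 * (R - 4)^2 := by ring
    rw [e]
    positivity
  · have e : (13/10) * (2 * (3 + (147/50) * (B * R) - 3 * (643/1000 + 199/100 * B)) - 1 / 2 * (159/5000) * ((R - 193 / 100) / (193 / 100)) * (5 + (147/50) * (B * R) + (643/1000 + 199/100 * B))) * R + 2 * B * (5 + (147/50) * (B * R) + (643/1000 + 199/100 * B)) * ((B + 1 / 2 - (437/1000)) * R - 200 / 99 * (R - 1)) =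
        (137772600177/9650000000) * (7/2 - B)^3 * (5 - R)^3 + (20077240575521/424600000000) * (7/2 - B)^3 * (R - 4)^1 * (5 - R)^2 + (44451738696461/849200000000) * (7/2 - B)^3 * (R - 4)^2 * (5 - R)^1 + (3283246570499/169840000000) * (7/2 - B)^3 * (R - 4)^3 + (21240788279/150781250) * (B - 3/2)^1 * (7/2 - B)^2 * (5 - R)^3 + (299439420702677/636900000000) * (B - 3/2)^1 * (7/2 - B)^2 * (R - 4)^1 * (5 - R)^2 + (1331437481102029/2547600000000) * (B - 3/2)^1 * (7/2 - B)^2 * (R - 4)^2 * (5 - R)^1 + (98499796288561/509520000000) * (B - 3/2)^1 * (7/2 - B)^2 * (R - 4)^3 + (12422905447543/28950000000) * (B - 3/2)^2 * (7/2 - B)^1 * (5 - R)^3 + (5523863288075057/3821400000000) * (B - 3/2)^2 * (7/2 - B)^1 * (R - 4)^1 * (5 - R)^2 + (12375201375151727/7642800000000) * (B - 3/2)^2 * (7/2 - B)^1 * (R - 4)^2 * (5 - R)^1 + (921373229643893/1528560000000) * (B - 3/2)^2 * (7/2 - B)^1 * (R - 4)^3 + (5971245949253/14475000000)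 * (B - 3/2)^3 * (5 - R)^3 + (1340987939259671/955350000000) * (B - 3/2)^3 * (R - 4)^1 * (5 - R)^2 + (12127889556113789/7642800000000) * (B - 3/2)^3 * (R - 4)^2 * (5 - R)^1 + (910539723912701/1528560000000) * (B - 3/2)^3 * (R - 4)^3 := by ring
    rw [e]
    positivity

theorem nb_7 : Nb (5) (20) (399/25) (101/25) (809/1000) (139/500) (54/25) (437/1000) 34 38 40 40 44 46 50 55 63 76 where
  hXm0 := by norm_num
  hXm := by norm_num
  hκ11 := by norm_num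
  hβ1 := by norm_num
  hc := by norm_num
  hc0 := by norm_num
  hγ0 := by norm_num
  hR1 := by norm_num
  n1 := by rw [max_eq_left (by norm_num : (1:ℝ) ≤ 101/25)]; norm_num
  n1c := by norm_num
  n2 := by rw [max_eq_left (by norm_num : (1:ℝ) ≤ 101/25)]; norm_num
  s := by constructor <;> constructor <;> norm_num
  hk8 := by norm_num
  hk9 := by norm_num
  n4 := by rw [max_eq_left (by norm_num : (1:ℝ) ≤ 101/25)]; norm_num [Vs, Vc, I0]

theorem row_7 {M : ℕ} {a : ℝ} {ζ z : Fin (M + 1) → ℂ} (h : Fr (M + 1) a ζ z)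
    (hM : 99 ≤ M) (hmax : ∀ k, ‖u a ζ k‖ ≤ ‖u a ζ 0‖) {c0 : ℝ} (hc1 : 1 ≤ c0)
    (hroot : (c0 - 1) * (c0 - kap a ζ) = pr a ζ) (hd : DS a ζ ≤ 7 / 2) {B R : ℝ}
    (hB : B = (1 - a) * ‖u a ζ 0‖) (hR : (M : ℝ) + 1 = R * ‖u a ζ 0‖)
    (hC : 10 ≤ a * ‖u a ζ 0‖) (b0 : 3/2 ≤ B) (b1 : B ≤ 7/2) (r0 : 4 ≤ R) (r1 : R ≤ 5) : False := by
  have ht0 : 0 < ‖u a ζ 0‖ := norm_pos_iff.2 (h.u_ne 0)
  have hM99 : (99 : ℝ) ≤ M := by exact_mod_cast hM
  have ha1 := h.a1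
  have ht : 100 / (5) ≤ ‖u a ζ 0‖ := by
    rw [div_le_iff₀ (by norm_num)]
    have := mul_le_mul_of_nonneg_right r1 ht0.le
    linarith
  have hb : 1 - a ≤ 7/40 := by
    have h1 : (1 - a) * (100 / (5)) ≤ 7/2 := by
      have := mul_le_mul_of_nonneg_left ht (by linarith : 0 ≤ 1 - a)
      linarith
    norm_num at h1 ⊢
    linarith
  have hρ : (1 - a) ^ 2 ≤ 3 - (147/50) := by
    have := pow_le_pow_left₀ (by linarith : 0 ≤ 1 - a) hb 2
    norm_num at this ⊢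
    linarith
  obtain ⟨g1, g2, g3⟩ := gb_7 b0 b1 r0 r1
  have hγ := Gam_ge_z h hM hmax hroot (z := 13/10) (ψ := 159/5000) (r := 643/1000 + 199/100 * B) (ρ := 147/50) (γ := 437/1000)
    hB hR (by norm_num at ht ⊢; linarith) (by linarith) (by linarith) (by norm_num) (by norm_num)
    psi_13 (by linarith) (by nlinarith) (by nlinarith [mul_nonneg (sub_nonneg.2 b0) (sub_nonneg.2 b1)]) hρ (by norm_num) g1 g2 g3
  refine row_fin h hM hmax hc1 hroot hd (B1 := 7/2) (R0 := 4) ?_ ?_ (by norm_num) hC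
    (by rw [← hB]; exact b1) hγ (by norm_num) (by norm_num) (by norm_num) (by norm_num) nb_7
  · rw [hR]; exact mul_le_mul_of_nonneg_right r0 ht0.le
  · rw [hR]; exact mul_le_mul_of_nonneg_right r1 ht0.le

theorem gb_8 {B R : ℝ} (b0 : 0 ≤ B) (b1 : B ≤ 3/20) (r0 : 5 ≤ R) (r1 : R ≤ 6) :
    0 ≤ 3 + (299/100) * (B * R) - 3 * (1 + 6/5 * B) ∧
    0 ≤ 2 * (3 + (299/100) * (B * R) - 3 * (1 + 6/5 * B)) - 1 / 2 * (0) * ((R - 193 / 100) / (193 / 100)) * (5 + (299/100) * (B * R) + (1 + 6/5 * B)) ∧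
    0 ≤ (1) * (2 * (3 + (299/100) * (B * R) - 3 * (1 + 6/5 * B)) - 1 / 2 * (0) * ((R - 193 / 100) / (193 / 100)) * (5 + (299/100) * (B * R) + (1 + 6/5 * B))) * R + 2 * B * (5 + (299/100) * (B * R) + (1 + 6/5 * B)) * ((B + 1 / 2 - (241/1000)) * R - 200 / 99 * (R - 1)) := by
  have hu : 0 ≤ B - 0 := by linarith
  have hv : 0 ≤ 3/20 - B := by linarith
  have hp : 0 ≤ R - 5 := by linarith
  have hq : 0 ≤ 6 - R := by linarith
  have hB : 0 ≤ B := b0
  refine ⟨?_, ?_, ?_⟩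
  · have e : 3 + (299/100) * (B * R) - 3 * (1 + 6/5 * B) =
        B * ((227/20) * (6 - R)^1 + (717/50) * (R - 5)^1) := by ring
    rw [e]
    positivity
  · have e : 2 * (3 + (299/100) * (B * R) - 3 * (1 + 6/5 * B)) - 1 / 2 * (0) * ((R - 193 / 100) / (193 / 100)) * (5 + (299/100) * (B * R) + (1 + 6/5 * B)) =
        B * ((227/10) * (6 - R)^1 + (717/25) * (R - 5)^1) := by ring
    rw [e]
    positivity
  · have e : (1) * (2 * (3 + (299/100) * (B * R) - 3 * (1 + 6/5 * B)) - 1 / 2 * (0) * ((R - 193 / 100) / (193 / 100)) * (5 + (299/100) * (B * R) + (1 + 6/5 * B))) * R + 2 * B * (5 + (299/100) * (B * R) + (1 + 6/5 * B)) * ((B + 1 / 2 - (241/1000)) * R - 200 / 99 * (R - 1)) =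
        B * ((423328/297) * (3/20 - B)^2 * (6 - R)^2 + (233704/55) * (3/20 - B)^2 * (R - 5)^1 * (6 - R)^1 + (4588048/1485) * (3/20 - B)^2 * (R - 5)^2 + (17715881/9900) * (B - 0)^1 * (3/20 - B)^1 * (6 - R)^2 + (215552683/37125) * (B - 0)^1 * (3/20 - B)^1 * (R - 5)^1 * (6 - R)^1 + (831227311/185625) * (B - 0)^1 * (3/20 - B)^1 * (R - 5)^2 + (15611393/29700) * (B - 0)^2 * (6 - R)^2 + (72103033/37125) * (B - 0)^2 * (R - 5)^1 * (6 - R)^1 + (300355661/185625) * (B - 0)^2 * (R - 5)^2) := by ring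
    rw [e]
    positivity

theorem nb_8 : Nb (6) (833/50) (1597/100) (69/100) (421/500) (57/250) (221/100) (241/1000) 34 37 39 40 44 46 50 55 63 62 where
  hXm0 := by norm_num
  hXm := by norm_num
  hκ11 := by norm_num
  hβ1 := by norm_num
  hc := by norm_num
  hc0 := by norm_num
  hγ0 := by norm_num
  hR1 := by norm_num
  n1 := by rw [max_eq_right (by norm_num : (69/100:ℝ) ≤ 1)]; norm_num
  n1c := by norm_num
  n2 := by rw [max_eq_right (by norm_num : (69/100:ℝ) ≤ 1)]; norm_num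
  s := by constructor <;> constructor <;> norm_num
  hk8 := by norm_num
  hk9 := by norm_num
  n4 := by rw [max_eq_right (by norm_num : (69/100:ℝ) ≤ 1)]; norm_num [Vs, Vc, I0]

theorem row_8 {M : ℕ} {a : ℝ} {ζ z : Fin (M + 1) → ℂ} (h : Fr (M + 1) a ζ z)
    (hM : 99 ≤ M) (hmax : ∀ k, ‖u a ζ k‖ ≤ ‖u a ζ 0‖) {c0 : ℝ} (hc1 : 1 ≤ c0)
    (hroot : (c0 - 1) * (c0 - kap a ζ) = pr a ζ) (hd : DS a ζ ≤ 7 / 2) {B R : ℝ}
    (hB : B = (1 - a) * ‖u a ζ 0‖) (hR : (M : ℝ) + 1 = R * ‖u a ζ 0‖)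
    (hC : 10 ≤ a * ‖u a ζ 0‖) (b0 : 0 ≤ B) (b1 : B ≤ 3/20) (r0 : 5 ≤ R) (r1 : R ≤ 6) : False := by
  have ht0 : 0 < ‖u a ζ 0‖ := norm_pos_iff.2 (h.u_ne 0)
  have hM99 : (99 : ℝ) ≤ M := by exact_mod_cast hM
  have ha1 := h.a1
  have ht : 100 / (6) ≤ ‖u a ζ 0‖ := by
    rw [div_le_iff₀ (by norm_num)]
    have := mul_le_mul_of_nonneg_right r1 ht0.le
    linarith
  have hb : 1 - a ≤ 9/1000 := by
    have h1 : (1 - a) * (100 / (6)) ≤ 3/20 := by
      have := mul_le_mul_of_nonneg_left ht (by linarith : 0 ≤ 1 - a)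
      linarith
    norm_num at h1 ⊢
    linarith
  have hρ : (1 - a) ^ 2 ≤ 3 - (299/100) := by
    have := pow_le_pow_left₀ (by linarith : 0 ≤ 1 - a) hb 2
    norm_num at this ⊢
    linarith
  obtain ⟨g1, g2, g3⟩ := gb_8 b0 b1 r0 r1
  have hγ := Gam_ge_z h hM hmax hroot (z := 1) (ψ := 0) (r := 1 + 6/5 * B) (ρ := 299/100) (γ := 241/1000)
    hB hR (by norm_num at ht ⊢; linarith) (by linarith) (by linarith) (by norm_num) (by norm_num)
    psi_1' (by linarith) (by nlinarith) (by nlinarith [mul_nonneg (sub_nonneg.2 b0) (sub_nonneg.2 b1)]) hρ (by norm_num) g1 g2 g3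
  refine row_fin h hM hmax hc1 hroot hd (B1 := 3/20) (R0 := 5) ?_ ?_ (by norm_num) hC
    (by rw [← hB]; exact b1) hγ (by norm_num) (by norm_num) (by norm_num) (by norm_num) nb_8
  · rw [hR]; exact mul_le_mul_of_nonneg_right r0 ht0.le
  · rw [hR]; exact mul_le_mul_of_nonneg_right r1 ht0.le

theorem gb_9 {B R : ℝ} (b0 : 3/20 ≤ B) (b1 : B ≤ 1/2) (r0 : 5 ≤ R) (r1 : R ≤ 6) :
    0 ≤ 3 + (299/100) * (B * R) - 3 * (471/500 + 1593/1000 * B) ∧
    0 ≤ 2 * (3 + (299/100) * (B * R) - 3 * (471/500 + 1593/1000 * B)) - 1 / 2 * (159/5000) * ((R - 193 / 100) / (193 / 100)) * (5 + (299/100) * (B * R) + (471/500 + 1593/1000 * B)) ∧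
    0 ≤ (13/10) * (2 * (3 + (299/100) * (B * R) - 3 * (471/500 + 1593/1000 * B)) - 1 / 2 * (159/5000) * ((R - 193 / 100) / (193 / 100)) * (5 + (299/100) * (B * R) + (471/500 + 1593/1000 * B))) * R + 2 * B * (5 + (299/100) * (B * R) + (471/500 + 1593/1000 * B)) * ((B + 1 / 2 - (213/1000)) * R - 200 / 99 * (R - 1)) := by
  have hu : 0 ≤ B - 3/20 := by linarith
  have hv : 0 ≤ 1/2 - B := by linarith
  have hp : 0 ≤ R - 5 := by linarith
  have hq : 0 ≤ 6 - R := by linarith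
  refine ⟨?_, ?_, ?_⟩
  · have e : 3 + (299/100) * (B * R) - 3 * (471/500 + 1593/1000 * B) =
        (33993/7000) * (1/2 - B)^1 * (6 - R)^1 + (42963/7000) * (1/2 - B)^1 * (R - 5)^1 + (10519/700) * (B - 3/20)^1 * (6 - R)^1 + (13509/700) * (B - 3/20)^1 * (R - 5)^1 := by ring
    rw [e]
    positivity
  · have e : 2 * (3 + (299/100) * (B * R) - 3 * (471/500 + 1593/1000 * B)) - 1 / 2 * (159/5000) * ((R - 193 / 100) / (193 / 100)) * (5 + (299/100) * (B * R) + (471/500 + 1593/1000 * B)) =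
        (122989502703/13510000000) * (1/2 - B)^1 * (6 - R)^2 + (2477559783/120625000) * (1/2 - B)^1 * (R - 5)^1 * (6 - R)^1 + (154354569993/13510000000) * (1/2 - B)^1 * (R - 5)^2 + (39215732849/1351000000) * (B - 3/20)^1 * (6 - R)^2 + (1595980813/24125000) * (B - 3/20)^1 * (R - 5)^1 * (6 - R)^1 + (50111651679/1351000000) * (B - 3/20)^1 * (R - 5)^2 := by ring
    rw [e]
    positivity
  · have e : (13/10) * (2 * (3 + (299/100) * (B * R) - 3 * (471/500 + 1593/1000 * B)) - 1 / 2 * (159/5000) * ((R - 193 / 100) / (193 / 100)) * (5 + (299/100) * (B * R) + (471/500 + 1593/1000 * B))) * R + 2 * B * (5 + (299/100) * (B * R) + (471/500 + 1593/1000 * B)) * ((B + 1 / 2 - (213/1000)) * R - 200 / 99 * (R - 1)) =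
        (14806024949297/109228350000) * (1/2 - B)^3 * (6 - R)^3 + (140684887486151/273070875000) * (1/2 - B)^3 * (R - 5)^1 * (6 - R)^2 + (351146601886859/546141750000) * (1/2 - B)^3 * (R - 5)^2 * (6 - R)^1 + (71872883197021/273070875000) * (1/2 - B)^3 * (R - 5)^3 + (84753010819891/163842525000) * (B - 3/20)^1 * (1/2 - B)^2 * (6 - R)^3 + (840871700717203/409606312500) * (B - 3/20)^1 * (1/2 - B)^2 * (R - 5)^1 * (6 - R)^2 + (2170410951593677/819212625000) * (B - 3/20)^1 * (1/2 - B)^2 * (R - 5)^2 * (6 - R)^1 + (455971561061363/409606312500) * (B - 3/20)^1 * (1/2 - B)^2 * (R - 5)^3 + (13913607886669/36409450000) * (B - 3/20)^2 * (1/2 - B)^1 * (6 - R)^3 + (1360223212298743/819212625000) * (B - 3/20)^2 * (1/2 - B)^1 * (R - 5)^1 * (6 - R)^2 + (416114962730343/182047250000) * (B - 3/20)^2 * (1/2 - B)^1 * (R - 5)^2 * (6 - R)^1 + (74967878806123/74473875000) * (B - 3/20)^2 * (1/2 - B)^1 * (R - 5)^3 + (5434346200963/32768505000)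 * (B - 3/20)^3 * (6 - R)^3 + (55870043338229/81921262500) * (B - 3/20)^3 * (R - 5)^1 * (6 - R)^2 + (148698012295681/163842525000) * (B - 3/20)^3 * (R - 5)^2 * (6 - R)^1 + (32034235678519/81921262500) * (B - 3/20)^3 * (R - 5)^3 := by ring
    rw [e]
    positivity

theorem nb_9 : Nb (6) (833/50) (781/50) (26/25) (421/500) (57/250) (223/100) (213/1000) 33 36 39 39 43 45 49 54 62 62 where
  hXm0 := by norm_num
  hXm := by norm_num
  hκ11 := by norm_num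
  hβ1 := by norm_num
  hc := by norm_num
  hc0 := by norm_num
  hγ0 := by norm_num
  hR1 := by norm_num
  n1 := by rw [max_eq_left (by norm_num : (1:ℝ) ≤ 26/25)]; norm_num
  n1c := by norm_num
  n2 := by rw [max_eq_left (by norm_num : (1:ℝ) ≤ 26/25)]; norm_num
  s := by constructor <;> constructor <;> norm_num
  hk8 := by norm_num
  hk9 := by norm_num
  n4 := by rw [max_eq_left (by norm_num : (1:ℝ) ≤ 26/25)]; norm_num [Vs, Vc, I0]

theorem row_9 {M : ℕ} {a : ℝ} {ζ z : Fin (M + 1) → ℂ} (h : Fr (M + 1) a ζ z)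
    (hM : 99 ≤ M) (hmax : ∀ k, ‖u a ζ k‖ ≤ ‖u a ζ 0‖) {c0 : ℝ} (hc1 : 1 ≤ c0)
    (hroot : (c0 - 1) * (c0 - kap a ζ) = pr a ζ) (hd : DS a ζ ≤ 7 / 2) {B R : ℝ}
    (hB : B = (1 - a) * ‖u a ζ 0‖) (hR : (M : ℝ) + 1 = R * ‖u a ζ 0‖)
    (hC : 10 ≤ a * ‖u a ζ 0‖) (b0 : 3/20 ≤ B) (b1 : B ≤ 1/2) (r0 : 5 ≤ R) (r1 : R ≤ 6) : False := by
  have ht0 : 0 < ‖u a ζ 0‖ := norm_pos_iff.2 (h.u_ne 0)
  have hM99 : (99 : ℝ) ≤ M := by exact_mod_cast hM
  have ha1 := h.a1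
  have ht : 100 / (6) ≤ ‖u a ζ 0‖ := by
    rw [div_le_iff₀ (by norm_num)]
    have := mul_le_mul_of_nonneg_right r1 ht0.le
    linarith
  have hb : 1 - a ≤ 3/100 := by
    have h1 : (1 - a) * (100 / (6)) ≤ 1/2 := by
      have := mul_le_mul_of_nonneg_left ht (by linarith : 0 ≤ 1 - a)
      linarith
    norm_num at h1 ⊢
    linarith
  have hρ : (1 - a) ^ 2 ≤ 3 - (299/100) := by
    have := pow_le_pow_left₀ (by linarith : 0 ≤ 1 - a) hb 2
    norm_num at this ⊢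
    linarith
  obtain ⟨g1, g2, g3⟩ := gb_9 b0 b1 r0 r1
  have hγ := Gam_ge_z h hM hmax hroot (z := 13/10) (ψ := 159/5000) (r := 471/500 + 1593/1000 * B) (ρ := 299/100) (γ := 213/1000)
    hB hR (by norm_num at ht ⊢; linarith) (by linarith) (by linarith) (by norm_num) (by norm_num)
    psi_13 (by linarith) (by nlinarith) (by nlinarith [mul_nonneg (sub_nonneg.2 b0) (sub_nonneg.2 b1)]) hρ (by norm_num) g1 g2 g3
  refine row_fin h hM hmax hc1 hroot hd (B1 := 1/2) (R0 := 5) ?_ ?_ (by norm_num) hC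
    (by rw [← hB]; exact b1) hγ (by norm_num) (by norm_num) (by norm_num) (by norm_num) nb_9
  · rw [hR]; exact mul_le_mul_of_nonneg_right r0 ht0.le
  · rw [hR]; exact mul_le_mul_of_nonneg_right r1 ht0.le

end Pool.Agent.Lib.MP_172a45_an.L
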