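import Pool.Agent.Lib.MP_172a45_an.L.LcNum0

set_option autoImplicit false

/-!
# The boxes of part L-c (generated)
-/

namespace Pool.Agent.Lib.MP_172a45_an.L

open Finset Real
open Pool.Agent.Lib.MP_172a45_an.F
open Pool.Agent.Lib.MP_172a45_an.F.Fr

theorem gb_10 {B R : ℝ} (b0 : 1/2 ≤ B) (b1 : B ≤ 3/2) (r0 : 5 ≤ R) (r1 : R ≤ 6) :
    0 ≤ 3 + (149/50) * (B * R) - 3 * (793/1000 + 189/100 * B) ∧
    0 ≤ 2 * (3 + (149/50) * (B * R) - 3 * (793/1000 + 189/100 * B)) - 1 / 2 * (723/10000) * ((R - 193 / 100) / (193 / 100)) * (5 + (149/50) * (B * R) + (793/1000 + 189/100 * B)) ∧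
    0 ≤ (3/2) * (2 * (3 + (149/50) * (B * R) - 3 * (793/1000 + 189/100 * B)) - 1 / 2 * (723/10000) * ((R - 193 / 100) / (193 / 100)) * (5 + (149/50) * (B * R) + (793/1000 + 189/100 * B))) * R + 2 * B * (5 + (149/50) * (B * R) + (793/1000 + 189/100 * B)) * ((B + 1 / 2 - (271/1000)) * R - 200 / 99 * (R - 1)) := by
  have hu : 0 ≤ B - 1/2 := by linarith
  have hv : 0 ≤ 3/2 - B := by linarith
  have hp : 0 ≤ R - 5 := by linarith
  have hq : 0 ≤ 6 - R := by linarith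
  refine ⟨?_, ?_, ?_⟩
  · have e : 3 + (149/50) * (B * R) - 3 * (793/1000 + 189/100 * B) =
        (1309/250) * (3/2 - B)^1 * (6 - R)^1 + (3363/500) * (3/2 - B)^1 * (R - 5)^1 + (7233/500) * (B - 1/2)^1 * (6 - R)^1 + (2367/125) * (B - 1/2)^1 * (R - 5)^1 := by ring
    rw [e]
    positivity
  · have e : 2 * (3 + (149/50) * (B * R) - 3 * (793/1000 + 189/100 * B)) - 1 / 2 * (723/10000) * ((R - 193 / 100) / (193 / 100)) * (5 + (149/50) * (B * R) + (793/1000 + 189/100 * B)) =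
        (9318184333/965000000) * (3/2 - B)^1 * (6 - R)^2 + (42345880187/1930000000) * (3/2 - B)^1 * (R - 5)^1 * (6 - R)^1 + (23655648021/1930000000) * (3/2 - B)^1 * (R - 5)^2 + (52400806071/1930000000) * (B - 1/2)^1 * (6 - R)^2 + (120439874607/1930000000) * (B - 1/2)^1 * (R - 5)^1 * (6 - R)^1 + (16969369509/482500000) * (B - 1/2)^1 * (R - 5)^2 := by ring
    rw [e]
    positivity
  · have e : (3/2) * (2 * (3 + (149/50) * (B * R) - 3 * (793/1000 + 189/100 * B)) - 1 / 2 * (723/10000) * ((R - 193 / 100) / (193 / 100)) * (5 + (149/50) * (B * R) + (793/1000 + 189/100 * B))) * R + 2 * B * (5 + (149/50) * (B * R) + (793/1000 + 189/100 * B)) * ((B + 1 / 2 - (271/1000)) * R - 200 / 99 * (R - 1)) =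
        (362493292541/38214000000) * (3/2 - B)^3 * (6 - R)^3 + (1601897416443/42460000000) * (3/2 - B)^3 * (R - 5)^1 * (6 - R)^2 + (18650895139579/382140000000) * (3/2 - B)^3 * (R - 5)^2 * (6 - R)^1 + (435708547639/21230000000) * (3/2 - B)^3 * (R - 5)^3 + (2312625374491/76428000000) * (B - 1/2)^1 * (3/2 - B)^2 * (6 - R)^3 + (15637867053577/127380000000) * (B - 1/2)^1 * (3/2 - B)^2 * (R - 5)^1 * (6 - R)^2 + (1404975332963/8685000000) * (B - 1/2)^1 * (3/2 - B)^2 * (R - 5)^2 * (6 - R)^1 + (2199037755383/31845000000) * (B - 1/2)^1 * (3/2 - B)^2 * (R - 5)^3 + (346905693689/3184500000) * (B - 1/2)^2 * (3/2 - B)^1 * (6 - R)^3 + (46894442780767/127380000000) * (B - 1/2)^2 * (3/2 - B)^1 * (R - 5)^1 * (6 - R)^2 + (53034981049069/127380000000) * (B - 1/2)^2 * (3/2 - B)^1 * (R - 5)^2 * (6 - R)^1 + (908156300471/5790000000) * (B - 1/2)^2 * (3/2 - B)^1 * (R - 5)^3 + (2174484339903/8492000000) * (B - 1/2)^3 *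 (6 - R)^3 + (36098972792173/42460000000) * (B - 1/2)^3 * (R - 5)^1 * (6 - R)^2 + (19952136802023/21230000000) * (B - 1/2)^3 * (R - 5)^2 * (6 - R)^1 + (1834048753111/5307500000) * (B - 1/2)^3 * (R - 5)^3 := by ring
    rw [e]
    positivity

theorem nb_10 : Nb (6) (833/50) (731/50) (51/25) (421/500) (57/250) (58/25) (271/1000) 31 34 36 37 40 42 46 51 58 62 where
  hXm0 := by norm_num
  hXm := by norm_num
  hκ11 := by norm_num
  hβ1 := by norm_num
  hc := by norm_num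
  hc0 := by norm_num
  hγ0 := by norm_num
  hR1 := by norm_num
  n1 := by rw [max_eq_left (by norm_num : (1:ℝ) ≤ 51/25)]; norm_num
  n1c := by norm_num
  n2 := by rw [max_eq_left (by norm_num : (1:ℝ) ≤ 51/25)]; norm_num
  s := by constructor <;> constructor <;> norm_num
  hk8 := by norm_num
  hk9 := by norm_num
  n4 := by rw [max_eq_left (by norm_num : (1:ℝ) ≤ 51/25)]; norm_num [Vs, Vc, I0]

theorem row_10 {M : ℕ} {a : ℝ} {ζ z : Fin (M + 1) → ℂ} (h : Fr (M + 1) a ζ z)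
    (hM : 99 ≤ M) (hmax : ∀ k, ‖u a ζ k‖ ≤ ‖u a ζ 0‖) {c0 : ℝ} (hc1 : 1 ≤ c0)
    (hroot : (c0 - 1) * (c0 - kap a ζ) = pr a ζ) (hd : DS a ζ ≤ 7 / 2) {B R : ℝ}
    (hB : B = (1 - a) * ‖u a ζ 0‖) (hR : (M : ℝ) + 1 = R * ‖u a ζ 0‖)
    (hC : 10 ≤ a * ‖u a ζ 0‖) (b0 : 1/2 ≤ B) (b1 : B ≤ 3/2) (r0 : 5 ≤ R) (r1 : R ≤ 6) : False := by
  have ht0 : 0 < ‖u a ζ 0‖ := norm_pos_iff.2 (h.u_ne 0)
  have hM99 : (99 : ℝ) ≤ M := by exact_mod_cast hM
  have ha1 := h.a1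
  have ht : 100 / (6) ≤ ‖u a ζ 0‖ := by
    rw [div_le_iff₀ (by norm_num)]
    have := mul_le_mul_of_nonneg_right r1 ht0.le
    linarith
  have hb : 1 - a ≤ 9/100 := by
    have h1 : (1 - a) * (100 / (6)) ≤ 3/2 := by
      have := mul_le_mul_of_nonneg_left ht (by linarith : 0 ≤ 1 - a)
      linarith
    norm_num at h1 ⊢
    linarith
  have hρ : (1 - a) ^ 2 ≤ 3 - (149/50) := by
    have := pow_le_pow_left₀ (by linarith : 0 ≤ 1 - a) hb 2
    norm_num at this ⊢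
    linarith
  obtain ⟨g1, g2, g3⟩ := gb_10 b0 b1 r0 r1
  have hγ := Gam_ge_z h hM hmax hroot (z := 3/2) (ψ := 723/10000) (r := 793/1000 + 189/100 * B) (ρ := 149/50) (γ := 271/1000)
    hB hR (by norm_num at ht ⊢; linarith) (by linarith) (by linarith) (by norm_num) (by norm_num)
    psi_15 (by linarith) (by nlinarith) (by nlinarith [mul_nonneg (sub_nonneg.2 b0) (sub_nonneg.2 b1)]) hρ (by norm_num) g1 g2 g3
  refine row_fin h hM hmax hc1 hroot hd (B1 := 3/2) (R0 := 5) ?_ ?_ (by norm_num) hC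
    (by rw [← hB]; exact b1) hγ (by norm_num) (by norm_num) (by norm_num) (by norm_num) nb_10
  · rw [hR]; exact mul_le_mul_of_nonneg_right r0 ht0.le
  · rw [hR]; exact mul_le_mul_of_nonneg_right r1 ht0.le

theorem gb_11 {B R : ℝ} (b0 : 3/2 ≤ B) (b1 : B ≤ 7/2) (r0 : 5 ≤ R) (r1 : R ≤ 6) :
    0 ≤ 3 + (147/50) * (B * R) - 3 * (643/1000 + 199/100 * B) ∧
    0 ≤ 2 * (3 + (147/50) * (B * R) - 3 * (643/1000 + 199/100 * B)) - 1 / 2 * (723/10000) * ((R - 193 / 100) / (193 / 100)) * (5 + (147/50) * (B * R) + (643/1000 + 199/100 * B)) ∧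
    0 ≤ (3/2) * (2 * (3 + (147/50) * (B * R) - 3 * (643/1000 + 199/100 * B)) - 1 / 2 * (723/10000) * ((R - 193 / 100) / (193 / 100)) * (5 + (147/50) * (B * R) + (643/1000 + 199/100 * B))) * R + 2 * B * (5 + (147/50) * (B * R) + (643/1000 + 199/100 * B)) * ((B + 1 / 2 - (609/1000)) * R - 200 / 99 * (R - 1)) := by
  have hu : 0 ≤ B - 3/2 := by linarith
  have hv : 0 ≤ 7/2 - B := by linarith
  have hp : 0 ≤ R - 5 := by linarith
  have hq : 0 ≤ 6 - R := by linarith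
  refine ⟨?_, ?_, ?_⟩
  · have e : 3 + (147/50) * (B * R) - 3 * (643/1000 + 199/100 * B) =
        (7083/1000) * (7/2 - B)^1 * (6 - R)^1 + (1161/125) * (7/2 - B)^1 * (R - 5)^1 + (15813/1000) * (B - 3/2)^1 * (6 - R)^1 + (10479/500) * (B - 3/2)^1 * (R - 5)^1 := by ring
    rw [e]
    positivity
  · have e : 2 * (3 + (147/50) * (B * R) - 3 * (643/1000 + 199/100 * B)) - 1 / 2 * (723/10000) * ((R - 193 / 100) / (193 / 100)) * (5 + (147/50) * (B * R) + (643/1000 + 199/100 * B)) =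
        (51276100221/3860000000) * (7/2 - B)^1 * (6 - R)^2 + (117976366737/3860000000) * (7/2 - B)^1 * (R - 5)^1 * (6 - R)^1 + (8317605627/482500000) * (7/2 - B)^1 * (R - 5)^2 + (114967171131/3860000000) * (B - 3/2)^1 * (6 - R)^2 + (266196056217/3860000000) * (B - 3/2)^1 * (R - 5)^1 * (6 - R)^1 + (75428450793/1930000000) * (B - 3/2)^1 * (R - 5)^2 := by ring
    rw [e]
    positivity
  · have e : (3/2) * (2 * (3 + (147/50) * (B * R) - 3 * (643/1000 + 199/100 * B)) - 1 / 2 * (723/10000) * ((R - 193 / 100) / (193 / 100)) * (5 + (147/50) * (B * R) + (643/1000 + 199/100 * B))) * R + 2 * B * (5 + (147/50) * (B * R) + (643/1000 + 199/100 * B)) * ((B + 1 / 2 - (609/1000)) * R - 200 / 99 * (R - 1)) =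
        (812232930533/67936000000) * (7/2 - B)^3 * (6 - R)^3 + (13329401966203/339680000000) * (7/2 - B)^3 * (R - 5)^1 * (6 - R)^2 + (7302275661223/169840000000) * (7/2 - B)^3 * (R - 5)^2 * (6 - R)^1 + (333190818713/21230000000) * (7/2 - B)^3 * (R - 5)^3 + (30670456709047/203808000000) * (B - 3/2)^1 * (7/2 - B)^2 * (6 - R)^3 + (504368549847527/1019040000000) * (B - 3/2)^1 * (7/2 - B)^2 * (R - 5)^1 * (6 - R)^2 + (138085995570601/254760000000) * (B - 3/2)^1 * (7/2 - B)^2 * (R - 5)^2 * (6 - R)^1 + (50314831039153/254760000000) * (B - 3/2)^1 * (7/2 - B)^2 * (R - 5)^3 + (320925281614691/611424000000) * (B - 3/2)^2 * (7/2 - B)^1 * (6 - R)^3 + (5311727550378481/3057120000000) * (B - 3/2)^2 * (7/2 - B)^1 * (R - 5)^1 * (6 - R)^2 + (2924688666201391/1528560000000) * (B - 3/2)^2 * (7/2 - B)^1 * (R - 5)^2 * (6 - R)^1 + (267750985464157/382140000000) * (B - 3/2)^2 * (7/2 - B)^1 * (R - 5)^3 + (338270673462347/611424000000)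 * (B - 3/2)^3 * (6 - R)^3 + (5641212496131727/3057120000000) * (B - 3/2)^3 * (R - 5)^1 * (6 - R)^2 + (391019636516099/191070000000) * (B - 3/2)^3 * (R - 5)^2 * (6 - R)^1 + (576586144084523/764280000000) * (B - 3/2)^3 * (R - 5)^3 := by ring
    rw [e]
    positivity

theorem nb_11 : Nb (6) (833/50) (631/50) (101/25) (421/500) (57/250) (261/100) (609/1000) 26 29 31 32 35 36 40 44 51 62 where
  hXm0 := by norm_num
  hXm := by norm_num
  hκ11 := by norm_num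
  hβ1 := by norm_num
  hc := by norm_num
  hc0 := by norm_num
  hγ0 := by norm_num
  hR1 := by norm_num
  n1 := by rw [max_eq_left (by norm_num : (1:ℝ) ≤ 101/25)]; norm_num
  n1c := by norm_num
  n2 := by rw [max_eq_left (by norm_num : (1:ℝ) ≤ 101/25)]; norm_num
  s := by constructor <;> constructor <;> norm_num
  hk8 := by norm_num
  hk9 := by norm_num
  n4 := by rw [max_eq_left (by norm_num : (1:ℝ) ≤ 101/25)]; norm_num [Vs, Vc, I0]

theorem row_11 {M : ℕ} {a : ℝ} {ζ z : Fin (M + 1) → ℂ} (h : Fr (M + 1) a ζ z)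
    (hM : 99 ≤ M) (hmax : ∀ k, ‖u a ζ k‖ ≤ ‖u a ζ 0‖) {c0 : ℝ} (hc1 : 1 ≤ c0)
    (hroot : (c0 - 1) * (c0 - kap a ζ) = pr a ζ) (hd : DS a ζ ≤ 7 / 2) {B R : ℝ}
    (hB : B = (1 - a) * ‖u a ζ 0‖) (hR : (M : ℝ) + 1 = R * ‖u a ζ 0‖)
    (hC : 10 ≤ a * ‖u a ζ 0‖) (b0 : 3/2 ≤ B) (b1 : B ≤ 7/2) (r0 : 5 ≤ R) (r1 : R ≤ 6) : False := by
  have ht0 : 0 < ‖u a ζ 0‖ := norm_pos_iff.2 (h.u_ne 0)
  have hM99 : (99 : ℝ) ≤ M := by exact_mod_cast hM
  have ha1 := h.a1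
  have ht : 100 / (6) ≤ ‖u a ζ 0‖ := by
    rw [div_le_iff₀ (by norm_num)]
    have := mul_le_mul_of_nonneg_right r1 ht0.le
    linarith
  have hb : 1 - a ≤ 21/100 := by
    have h1 : (1 - a) * (100 / (6)) ≤ 7/2 := by
      have := mul_le_mul_of_nonneg_left ht (by linarith : 0 ≤ 1 - a)
      linarith
    norm_num at h1 ⊢
    linarith
  have hρ : (1 - a) ^ 2 ≤ 3 - (147/50) := by
    have := pow_le_pow_left₀ (by linarith : 0 ≤ 1 - a) hb 2
    norm_num at this ⊢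
    linarith
  obtain ⟨g1, g2, g3⟩ := gb_11 b0 b1 r0 r1
  have hγ := Gam_ge_z h hM hmax hroot (z := 3/2) (ψ := 723/10000) (r := 643/1000 + 199/100 * B) (ρ := 147/50) (γ := 609/1000)
    hB hR (by norm_num at ht ⊢; linarith) (by linarith) (by linarith) (by norm_num) (by norm_num)
    psi_15 (by linarith) (by nlinarith) (by nlinarith [mul_nonneg (sub_nonneg.2 b0) (sub_nonneg.2 b1)]) hρ (by norm_num) g1 g2 g3
  refine row_fin h hM hmax hc1 hroot hd (B1 := 7/2) (R0 := 5) ?_ ?_ (by norm_num) hC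
    (by rw [← hB]; exact b1) hγ (by norm_num) (by norm_num) (by norm_num) (by norm_num) nb_11
  · rw [hR]; exact mul_le_mul_of_nonneg_right r0 ht0.le
  · rw [hR]; exact mul_le_mul_of_nonneg_right r1 ht0.le

theorem gb_12 {B R : ℝ} (b0 : 0 ≤ B) (b1 : B ≤ 3/20) (r0 : 6 ≤ R) (r1 : R ≤ 13/2) :
    0 ≤ 3 + (299/100) * (B * R) - 3 * (1 + 6/5 * B) ∧
    0 ≤ 2 * (3 + (299/100) * (B * R) - 3 * (1 + 6/5 * B)) - 1 / 2 * (0) * ((R - 193 / 100) / (193 / 100)) * (5 + (299/100) * (B * R) + (1 + 6/5 * B)) ∧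
    0 ≤ (1) * (2 * (3 + (299/100) * (B * R) - 3 * (1 + 6/5 * B)) - 1 / 2 * (0) * ((R - 193 / 100) / (193 / 100)) * (5 + (299/100) * (B * R) + (1 + 6/5 * B))) * R + 2 * B * (5 + (299/100) * (B * R) + (1 + 6/5 * B)) * ((B + 1 / 2 - (37/100)) * R - 200 / 99 * (R - 1)) := by
  have hu : 0 ≤ B - 0 := by linarith
  have hv : 0 ≤ 3/20 - B := by linarith
  have hp : 0 ≤ R - 6 := by linarith
  have hq : 0 ≤ 13/2 - R := by linarith
  have hB : 0 ≤ B := b0
  refine ⟨?_, ?_, ?_⟩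
  · have e : 3 + (299/100) * (B * R) - 3 * (1 + 6/5 * B) =
        B * ((717/25) * (13/2 - R)^1 + (3167/100) * (R - 6)^1) := by ring
    rw [e]
    positivity
  · have e : 2 * (3 + (299/100) * (B * R) - 3 * (1 + 6/5 * B)) - 1 / 2 * (0) * ((R - 193 / 100) / (193 / 100)) * (5 + (299/100) * (B * R) + (1 + 6/5 * B)) =
        B * ((1434/25) * (13/2 - R)^1 + (3167/50) * (R - 6)^1) := by ring
    rw [e]
    positivity
  · have e : (1) * (2 * (3 + (299/100) * (B * R) - 3 * (1 + 6/5 * B)) - 1 / 2 * (0) * ((R - 193 / 100) / (193 / 100)) * (5 + (299/100) * (B * R) + (1 + 6/5 * B))) * R + 2 * B * (5 + (299/100) * (B * R) + (1 + 6/5 * B)) * ((B + 1 / 2 - (37/100)) * R - 200 / 99 * (R - 1)) =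
        B * ((3180032/297) * (3/20 - B)^2 * (13/2 - R)^2 + (2488544/99) * (3/20 - B)^2 * (R - 6)^1 * (13/2 - R)^1 + (396776/27) * (3/20 - B)^2 * (R - 6)^2 + (513047816/37125) * (B - 0)^1 * (3/20 - B)^1 * (13/2 - R)^2 + (1245019828/37125) * (B - 0)^1 * (3/20 - B)^1 * (R - 6)^1 * (13/2 - R)^1 + (15129463/750) * (B - 0)^1 * (3/20 - B)^1 * (R - 6)^2 + (149651296/37125) * (B - 0)^2 * (13/2 - R)^2 + (385537168/37125) * (B - 0)^2 * (R - 6)^1 * (13/2 - R)^1 + (22107026/3375) * (B - 0)^2 * (R - 6)^2) := by ring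
    rw [e]
    positivity

theorem nb_12 : Nb (13/2) (769/50) (1469/100) (69/100) (171/200) (97/500) (233/100) (37/100) 31 34 36 37 40 42 47 51 59 57 where
  hXm0 := by norm_num
  hXm := by norm_num
  hκ11 := by norm_num
  hβ1 := by norm_num
  hc := by norm_num
  hc0 := by norm_num
  hγ0 := by norm_num
  hR1 := by norm_num
  n1 := by rw [max_eq_right (by norm_num : (69/100:ℝ) ≤ 1)]; norm_num
  n1c := by norm_num
  n2 := by rw [max_eq_right (by norm_num : (69/100:ℝ) ≤ 1)]; norm_num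
  s := by constructor <;> constructor <;> norm_num
  hk8 := by norm_num
  hk9 := by norm_num
  n4 := by rw [max_eq_right (by norm_num : (69/100:ℝ) ≤ 1)]; norm_num [Vs, Vc, I0]

theorem row_12 {M : ℕ} {a : ℝ} {ζ z : Fin (M + 1) → ℂ} (h : Fr (M + 1) a ζ z)
    (hM : 99 ≤ M) (hmax : ∀ k, ‖u a ζ k‖ ≤ ‖u a ζ 0‖) {c0 : ℝ} (hc1 : 1 ≤ c0)
    (hroot : (c0 - 1) * (c0 - kap a ζ) = pr a ζ) (hd : DS a ζ ≤ 7 / 2) {B R : ℝ}
    (hB : B = (1 - a) * ‖u a ζ 0‖) (hR : (M : ℝ) + 1 = R * ‖u a ζ 0‖)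
    (hC : 10 ≤ a * ‖u a ζ 0‖) (b0 : 0 ≤ B) (b1 : B ≤ 3/20) (r0 : 6 ≤ R) (r1 : R ≤ 13/2) : False := by
  have ht0 : 0 < ‖u a ζ 0‖ := norm_pos_iff.2 (h.u_ne 0)
  have hM99 : (99 : ℝ) ≤ M := by exact_mod_cast hM
  have ha1 := h.a1
  have ht : 100 / (13/2) ≤ ‖u a ζ 0‖ := by
    rw [div_le_iff₀ (by norm_num)]
    have := mul_le_mul_of_nonneg_right r1 ht0.le
    linarith
  have hb : 1 - a ≤ 39/4000 := by
    have h1 : (1 - a) * (100 / (13/2)) ≤ 3/20 := by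
      have := mul_le_mul_of_nonneg_left ht (by linarith : 0 ≤ 1 - a)
      linarith
    norm_num at h1 ⊢
    linarith
  have hρ : (1 - a) ^ 2 ≤ 3 - (299/100) := by
    have := pow_le_pow_left₀ (by linarith : 0 ≤ 1 - a) hb 2
    norm_num at this ⊢
    linarith
  obtain ⟨g1, g2, g3⟩ := gb_12 b0 b1 r0 r1
  have hγ := Gam_ge_z h hM hmax hroot (z := 1) (ψ := 0) (r := 1 + 6/5 * B) (ρ := 299/100) (γ := 37/100)
    hB hR (by norm_num at ht ⊢; linarith) (by linarith) (by linarith) (by norm_num) (by norm_num)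
    psi_1' (by linarith) (by nlinarith) (by nlinarith [mul_nonneg (sub_nonneg.2 b0) (sub_nonneg.2 b1)]) hρ (by norm_num) g1 g2 g3
  refine row_fin h hM hmax hc1 hroot hd (B1 := 3/20) (R0 := 6) ?_ ?_ (by norm_num) hC
    (by rw [← hB]; exact b1) hγ (by norm_num) (by norm_num) (by norm_num) (by norm_num) nb_12
  · rw [hR]; exact mul_le_mul_of_nonneg_right r0 ht0.le
  · rw [hR]; exact mul_le_mul_of_nonneg_right r1 ht0.le

theorem gb_13 {B R : ℝ} (b0 : 3/20 ≤ B) (b1 : B ≤ 1/2) (r0 : 6 ≤ R) (r1 : R ≤ 13/2) :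
    0 ≤ 3 + (299/100) * (B * R) - 3 * (471/500 + 1593/1000 * B) ∧
    0 ≤ 2 * (3 + (299/100) * (B * R) - 3 * (471/500 + 1593/1000 * B)) - 1 / 2 * (159/5000) * ((R - 193 / 100) / (193 / 100)) * (5 + (299/100) * (B * R) + (471/500 + 1593/1000 * B)) ∧
    0 ≤ (13/10) * (2 * (3 + (299/100) * (B * R) - 3 * (471/500 + 1593/1000 * B)) - 1 / 2 * (159/5000) * ((R - 193 / 100) / (193 / 100)) * (5 + (299/100) * (B * R) + (471/500 + 1593/1000 * B))) * R + 2 * B * (5 + (299/100) * (B * R) + (471/500 + 1593/1000 * B)) * ((B + 1 / 2 - (57/200)) * R - 200 / 99 * (R - 1)) := by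
  have hu : 0 ≤ B - 3/20 := by linarith
  have hv : 0 ≤ 1/2 - B := by linarith
  have hp : 0 ≤ R - 6 := by linarith
  have hq : 0 ≤ 13/2 - R := by linarith
  refine ⟨?_, ?_, ?_⟩
  · have e : 3 + (299/100) * (B * R) - 3 * (471/500 + 1593/1000 * B) =
        (42963/3500) * (1/2 - B)^1 * (13/2 - R)^1 + (11862/875) * (1/2 - B)^1 * (R - 6)^1 + (13509/350) * (B - 3/20)^1 * (13/2 - R)^1 + (7502/175) * (B - 3/20)^1 * (R - 6)^1 := by ring
    rw [e]
    positivity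
  · have e : 2 * (3 + (299/100) * (B * R) - 3 * (471/500 + 1593/1000 * B)) - 1 / 2 * (159/5000) * ((R - 193 / 100) / (193 / 100)) * (5 + (299/100) * (B * R) + (471/500 + 1593/1000 * B)) =
        (154354569993/3377500000) * (1/2 - B)^1 * (13/2 - R)^2 + (324320362131/3377500000) * (1/2 - B)^1 * (R - 6)^1 * (13/2 - R)^1 + (42482534097/844375000) * (1/2 - B)^1 * (R - 6)^2 + (50111651679/337750000) * (B - 3/20)^1 * (13/2 - R)^2 + (105647492273/337750000) * (B - 3/20)^1 * (R - 6)^1 * (13/2 - R)^1 + (3470247209/21109375) * (B - 3/20)^1 * (R - 6)^2 := by ring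
    rw [e]
    positivity
  · have e : (13/10) * (2 * (3 + (299/100) * (B * R) - 3 * (471/500 + 1593/1000 * B)) - 1 / 2 * (159/5000) * ((R - 193 / 100) / (193 / 100)) * (5 + (299/100) * (B * R) + (471/500 + 1593/1000 * B))) * R + 2 * B * (5 + (299/100) * (B * R) + (471/500 + 1593/1000 * B)) * ((B + 1 / 2 - (57/200)) * R - 200 / 99 * (R - 1)) =
        (64549776935341/34133859375) * (1/2 - B)^3 * (13/2 - R)^3 + (851506581205999/136535437500) * (1/2 - B)^3 * (R - 6)^1 * (13/2 - R)^2 + (933511074053861/136535437500) * (1/2 - B)^3 * (R - 6)^2 * (13/2 - R)^1 + (7731552369829/3103078125) * (1/2 - B)^3 * (R - 6)^3 + (777844297409686/102401578125) * (B - 3/20)^1 * (1/2 - B)^2 * (13/2 - R)^3 + (5201619750346577/204803156250) * (B - 3/20)^1 * (1/2 - B)^2 * (R - 6)^1 * (13/2 - R)^2 + (5773839594812053/204803156250) * (B - 3/20)^1 * (1/2 - B)^2 * (R - 6)^2 * (13/2 - R)^1 + (96717548579584/9309234375) * (B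 - 3/20)^1 * (1/2 - B)^2 * (R - 6)^3 + (52986880294123/9309234375) * (B - 3/20)^2 * (1/2 - B)^1 * (13/2 - R)^3 + (897447592588363/45511812500) * (B - 3/20)^2 * (1/2 - B)^1 * (R - 6)^1 * (13/2 - R)^2 + (9245626332126013/409606312500) * (B - 3/20)^2 * (1/2 - B)^1 * (R - 6)^2 * (13/2 - R)^1 + (26512643306719/3103078125) * (B - 3/20)^2 * (1/2 - B)^1 * (R - 6)^3 + (38136175816238/20480315625) * (B - 3/20)^3 * (13/2 - R)^3 + (265534394440061/40960631250) * (B - 3/20)^3 * (R - 6)^1 * (13/2 - R)^2 + (27756436755709/3723693750) * (B - 3/20)^3 * (R - 6)^2 * (13/2 - R)^1 + (5274702963112/1861846875) * (B - 3/20)^3 * (R - 6)^3 := by ring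
    rw [e]
    positivity

theorem nb_13 : Nb (13/2) (769/50) (717/50) (26/25) (171/200) (97/500) (47/20) (57/200) 30 33 35 36 39 41 46 50 57 57 where
  hXm0 := by norm_num
  hXm := by norm_num
  hκ11 := by norm_num
  hβ1 := by norm_num
  hc := by norm_num
  hc0 := by norm_num
  hγ0 := by norm_num
  hR1 := by norm_num
  n1 := by rw [max_eq_left (by norm_num : (1:ℝ) ≤ 26/25)]; norm_num
  n1c := by norm_num
  n2 := by rw [max_eq_left (by norm_num : (1:ℝ) ≤ 26/25)]; norm_num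
  s := by constructor <;> constructor <;> norm_num
  hk8 := by norm_num
  hk9 := by norm_num
  n4 := by rw [max_eq_left (by norm_num : (1:ℝ) ≤ 26/25)]; norm_num [Vs, Vc, I0]

theorem row_13 {M : ℕ} {a : ℝ} {ζ z : Fin (M + 1) → ℂ} (h : Fr (M + 1) a ζ z)
    (hM : 99 ≤ M) (hmax : ∀ k, ‖u a ζ k‖ ≤ ‖u a ζ 0‖) {c0 : ℝ} (hc1 : 1 ≤ c0)
    (hroot : (c0 - 1) * (c0 - kap a ζ) = pr a ζ) (hd : DS a ζ ≤ 7 / 2) {B R : ℝ}
    (hB : B = (1 - a) * ‖u a ζ 0‖) (hR : (M : ℝ) + 1 = R * ‖u a ζ 0‖)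
    (hC : 10 ≤ a * ‖u a ζ 0‖) (b0 : 3/20 ≤ B) (b1 : B ≤ 1/2) (r0 : 6 ≤ R) (r1 : R ≤ 13/2) : False := by
  have ht0 : 0 < ‖u a ζ 0‖ := norm_pos_iff.2 (h.u_ne 0)
  have hM99 : (99 : ℝ) ≤ M := by exact_mod_cast hM
  have ha1 := h.a1
  have ht : 100 / (13/2) ≤ ‖u a ζ 0‖ := by
    rw [div_le_iff₀ (by norm_num)]
    have := mul_le_mul_of_nonneg_right r1 ht0.le
    linarith
  have hb : 1 - a ≤ 13/400 := by
    have h1 : (1 - a) * (100 / (13/2)) ≤ 1/2 := by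
      have := mul_le_mul_of_nonneg_left ht (by linarith : 0 ≤ 1 - a)
      linarith
    norm_num at h1 ⊢
    linarith
  have hρ : (1 - a) ^ 2 ≤ 3 - (299/100) := by
    have := pow_le_pow_left₀ (by linarith : 0 ≤ 1 - a) hb 2
    norm_num at this ⊢
    linarith
  obtain ⟨g1, g2, g3⟩ := gb_13 b0 b1 r0 r1
  have hγ := Gam_ge_z h hM hmax hroot (z := 13/10) (ψ := 159/5000) (r := 471/500 + 1593/1000 * B) (ρ := 299/100) (γ := 57/200)
    hB hR (by norm_num at ht ⊢; linarith) (by linarith) (by linarith) (by norm_num) (by norm_num)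
    psi_13 (by linarith) (by nlinarith) (by nlinarith [mul_nonneg (sub_nonneg.2 b0) (sub_nonneg.2 b1)]) hρ (by norm_num) g1 g2 g3
  refine row_fin h hM hmax hc1 hroot hd (B1 := 1/2) (R0 := 6) ?_ ?_ (by norm_num) hC
    (by rw [← hB]; exact b1) hγ (by norm_num) (by norm_num) (by norm_num) (by norm_num) nb_13
  · rw [hR]; exact mul_le_mul_of_nonneg_right r0 ht0.le
  · rw [hR]; exact mul_le_mul_of_nonneg_right r1 ht0.le

theorem gb_14 {B R : ℝ} (b0 : 1/2 ≤ B) (b1 : B ≤ 1) (r0 : 6 ≤ R) (r1 : R ≤ 13/2) :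
    0 ≤ 3 + (299/100) * (B * R) - 3 * (407/500 + 37/20 * B) ∧
    0 ≤ 2 * (3 + (299/100) * (B * R) - 3 * (407/500 + 37/20 * B)) - 1 / 2 * (723/10000) * ((R - 193 / 100) / (193 / 100)) * (5 + (299/100) * (B * R) + (407/500 + 37/20 * B)) ∧
    0 ≤ (3/2) * (2 * (3 + (299/100) * (B * R) - 3 * (407/500 + 37/20 * B)) - 1 / 2 * (723/10000) * ((R - 193 / 100) / (193 / 100)) * (5 + (299/100) * (B * R) + (407/500 + 37/20 * B))) * R + 2 * B * (5 + (299/100) * (B * R) + (407/500 + 37/20 * B)) * ((B + 1 / 2 - (331/1000)) * R - 200 / 99 * (R - 1)) := by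
  have hu : 0 ≤ B - 1/2 := by linarith
  have hv : 0 ≤ 1 - B := by linarith
  have hp : 0 ≤ R - 6 := by linarith
  have hq : 0 ≤ 13/2 - R := by linarith
  refine ⟨?_, ?_, ?_⟩
  · have e : 3 + (299/100) * (B * R) - 3 * (407/500 + 37/20 * B) =
        (6753/250) * (1 - B)^1 * (13/2 - R)^1 + (15001/500) * (1 - B)^1 * (R - 6)^1 + (6474/125) * (B - 1/2)^1 * (13/2 - R)^1 + (14443/250) * (B - 1/2)^1 * (R - 6)^1 := by ring
    rw [e]
    positivity
  · have e : 2 * (3 + (299/100) * (B * R) - 3 * (407/500 + 37/20 * B)) - 1 / 2 * (723/10000) * ((R - 193 / 100) / (193 / 100)) * (5 + (299/100) * (B * R) + (407/500 + 37/20 * B)) =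
        (47510613951/482500000) * (1 - B)^1 * (13/2 - R)^2 + (200008174909/965000000) * (1 - B)^1 * (R - 6)^1 * (13/2 - R)^1 + (104932902757/965000000) * (1 - B)^1 * (R - 6)^2 + (23106075339/120625000) * (B - 1/2)^1 * (13/2 - R)^2 + (195024497917/482500000) * (B - 1/2)^1 * (R - 6)^1 * (13/2 - R)^1 + (102546152311/482500000) * (B - 1/2)^1 * (R - 6)^2 := by ring
    rw [e]
    positivity
  · have e : (3/2) * (2 * (3 + (299/100) * (B * R) - 3 * (407/500 + 37/20 * B)) - 1 / 2 * (723/10000) * ((R - 193 / 100) / (193 / 100)) * (5 + (299/100) * (B * R) + (407/500 + 37/20 * B))) * R + 2 * B * (5 + (299/100) * (B * R) + (407/500 + 37/20 * B)) * ((B + 1 / 2 - (331/1000)) * R - 200 / 99 * (R - 1)) =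
        (5791408591981/5970937500) * (1 - B)^3 * (13/2 - R)^3 + (26062941842203/7961250000) * (1 - B)^3 * (R - 6)^1 * (13/2 - R)^2 + (174984819229477/47767500000) * (1 - B)^3 * (R - 6)^2 * (13/2 - R)^1 + (655781674443/482500000) * (1 - B)^3 * (R - 6)^3 + (7922111824819/2985468750) * (B - 1/2)^1 * (1 - B)^2 * (13/2 - R)^3 + (36188907352507/3980625000) * (B - 1/2)^1 * (1 - B)^2 * (R - 6)^1 * (13/2 - R)^2 + (123079491139499/11941875000) * (B - 1/2)^1 * (1 - B)^2 * (R - 6)^2 * (13/2 - R)^1 + (116629205149/30156250) * (B - 1/2)^1 * (1 - B)^2 * (R - 6)^3 + (20650498257533/5970937500) * (B - 1/2)^2 * (1 - B)^1 * (13/2 - R)^3 + (91734031250819/7961250000) * (B - 1/2)^2 * (1 - B)^1 * (R - 6)^1 * (13/2 - R)^2 + (609216275278961/47767500000) * (B - 1/2)^2 * (1 - B)^1 * (R - 6)^2 * (13/2 - R)^1 + (2261977960839/482500000) * (B - 1/2)^2 * (1 - B)^1 * (R - 6)^3 + (5485377274969/1492734375) * (B - 1/2)^3 * (13/2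 - R)^3 + (11649685711001/995156250) * (B - 1/2)^3 * (R - 6)^1 * (13/2 - R)^2 + (296771267625221/23883750000) * (B - 1/2)^3 * (R - 6)^2 * (13/2 - R)^1 + (1059886826449/241250000) * (B - 1/2)^3 * (R - 6)^3 := by ring
    rw [e]
    positivity

theorem nb_14 : Nb (13/2) (769/50) (346/25) (77/50) (171/200) (97/500) (241/100) (331/1000) 29 32 34 35 38 40 44 48 55 57 where
  hXm0 := by norm_num
  hXm := by norm_num
  hκ11 := by norm_num
  hβ1 := by norm_num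
  hc := by norm_num
  hc0 := by norm_num
  hγ0 := by norm_num
  hR1 := by norm_num
  n1 := by rw [max_eq_left (by norm_num : (1:ℝ) ≤ 77/50)]; norm_num
  n1c := by norm_num
  n2 := by rw [max_eq_left (by norm_num : (1:ℝ) ≤ 77/50)]; norm_num
  s := by constructor <;> constructor <;> norm_num
  hk8 := by norm_num
  hk9 := by norm_num
  n4 := by rw [max_eq_left (by norm_num : (1:ℝ) ≤ 77/50)]; norm_num [Vs, Vc, I0]

theorem row_14 {M : ℕ} {a : ℝ} {ζ z : Fin (M + 1) → ℂ} (h : Fr (M + 1) a ζ z)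
    (hM : 99 ≤ M) (hmax : ∀ k, ‖u a ζ k‖ ≤ ‖u a ζ 0‖) {c0 : ℝ} (hc1 : 1 ≤ c0)
    (hroot : (c0 - 1) * (c0 - kap a ζ) = pr a ζ) (hd : DS a ζ ≤ 7 / 2) {B R : ℝ}
    (hB : B = (1 - a) * ‖u a ζ 0‖) (hR : (M : ℝ) + 1 = R * ‖u a ζ 0‖)
    (hC : 10 ≤ a * ‖u a ζ 0‖) (b0 : 1/2 ≤ B) (b1 : B ≤ 1) (r0 : 6 ≤ R) (r1 : R ≤ 13/2) : False := by
  have ht0 : 0 < ‖u a ζ 0‖ := norm_pos_iff.2 (h.u_ne 0)
  have hM99 : (99 : ℝ) ≤ M := by exact_mod_cast hM
  have ha1 := h.a1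
  have ht : 100 / (13/2) ≤ ‖u a ζ 0‖ := by
    rw [div_le_iff₀ (by norm_num)]
    have := mul_le_mul_of_nonneg_right r1 ht0.le
    linarith
  have hb : 1 - a ≤ 13/200 := by
    have h1 : (1 - a) * (100 / (13/2)) ≤ 1 := by
      have := mul_le_mul_of_nonneg_left ht (by linarith : 0 ≤ 1 - a)
      linarith
    norm_num at h1 ⊢
    linarith
  have hρ : (1 - a) ^ 2 ≤ 3 - (299/100) := by
    have := pow_le_pow_left₀ (by linarith : 0 ≤ 1 - a) hb 2
    norm_num at this ⊢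
    linarith
  obtain ⟨g1, g2, g3⟩ := gb_14 b0 b1 r0 r1
  have hγ := Gam_ge_z h hM hmax hroot (z := 3/2) (ψ := 723/10000) (r := 407/500 + 37/20 * B) (ρ := 299/100) (γ := 331/1000)
    hB hR (by norm_num at ht ⊢; linarith) (by linarith) (by linarith) (by norm_num) (by norm_num)
    psi_15 (by linarith) (by nlinarith) (by nlinarith [mul_nonneg (sub_nonneg.2 b0) (sub_nonneg.2 b1)]) hρ (by norm_num) g1 g2 g3
  refine row_fin h hM hmax hc1 hroot hd (B1 := 1) (R0 := 6) ?_ ?_ (by norm_num) hC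
    (by rw [← hB]; exact b1) hγ (by norm_num) (by norm_num) (by norm_num) (by norm_num) nb_14
  · rw [hR]; exact mul_le_mul_of_nonneg_right r0 ht0.le
  · rw [hR]; exact mul_le_mul_of_nonneg_right r1 ht0.le

end Pool.Agent.Lib.MP_172a45_an.L
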