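import Pool.Agent.Lib.MP_172a45_an.L.LcNum0

set_option autoImplicit false

/-!
# The boxes of part L-c (generated)
-/

namespace Pool.Agent.Lib.MP_172a45_an.L

open Finset Real
open Pool.Agent.Lib.MP_172a45_an.F
open Pool.Agent.Lib.MP_172a45_an.F.Fr

theorem gb_15 {B R : ℝ} (b0 : 1 ≤ B) (b1 : B ≤ 2) (r0 : 6 ≤ R) (r1 : R ≤ 13/2) :
    0 ≤ 3 + (149/50) * (B * R) - 3 * (71/100 + 977/500 * B) ∧
    0 ≤ 2 * (3 + (149/50) * (B * R) - 3 * (71/100 + 977/500 * B)) - 1 / 2 * (723/10000) * ((R - 193 / 100) / (193 / 100)) * (5 + (149/50) * (B * R) + (71/100 + 977/500 * B)) ∧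
    0 ≤ (3/2) * (2 * (3 + (149/50) * (B * R) - 3 * (71/100 + 977/500 * B)) - 1 / 2 * (723/10000) * ((R - 193 / 100) / (193 / 100)) * (5 + (149/50) * (B * R) + (71/100 + 977/500 * B))) * R + 2 * B * (5 + (149/50) * (B * R) + (71/100 + 977/500 * B)) * ((B + 1 / 2 - (11/25)) * R - 200 / 99 * (R - 1)) := by
  have hu : 0 ≤ B - 1 := by linarith
  have hv : 0 ≤ 2 - B := by linarith
  have hp : 0 ≤ R - 6 := by linarith
  have hq : 0 ≤ 13/2 - R := by linarith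
  refine ⟨?_, ?_, ?_⟩
  · have e : 3 + (149/50) * (B * R) - 3 * (71/100 + 977/500 * B) =
        (3222/125) * (2 - B)^1 * (13/2 - R)^1 + (7189/250) * (2 - B)^1 * (R - 6)^1 + (12453/250) * (B - 1)^1 * (13/2 - R)^1 + (13943/250) * (B - 1)^1 * (R - 6)^1 := by ring
    rw [e]
    positivity
  · have e : 2 * (3 + (149/50) * (B * R) - 3 * (71/100 + 977/500 * B)) - 1 / 2 * (723/10000) * ((R - 193 / 100) / (193 / 100)) * (5 + (149/50) * (B * R) + (71/100 + 977/500 * B)) =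
        (11497344627/120625000) * (2 - B)^1 * (13/2 - R)^2 + (97049224771/482500000) * (2 - B)^1 * (R - 6)^1 * (13/2 - R)^1 + (51032914513/482500000) * (2 - B)^1 * (R - 6)^2 + (89460672171/482500000) * (B - 1)^1 * (13/2 - R)^2 + (94582744051/241250000) * (B - 1)^1 * (R - 6)^1 * (13/2 - R)^1 + (99650952431/482500000) * (B - 1)^1 * (R - 6)^2 := by ring
    rw [e]
    positivity
  · have e : (3/2) * (2 * (3 + (149/50) * (B * R) - 3 * (71/100 + 977/500 * B)) - 1 / 2 * (723/10000) * ((R - 193 / 100) / (193 / 100)) * (5 + (149/50) * (B * R) + (71/100 + 977/500 * B))) * R + 2 * B * (5 + (149/50) * (B * R) + (71/100 + 977/500 * B)) * ((B + 1 / 2 - (11/25)) * R - 200 / 99 * (R - 1)) =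
        (1114774877057/5970937500) * (2 - B)^3 * (13/2 - R)^3 + (905828609338/1492734375) * (2 - B)^3 * (R - 6)^1 * (13/2 - R)^2 + (62753355894763/95535000000) * (2 - B)^3 * (R - 6)^2 * (13/2 - R)^1 + (2055338563663/8685000000) * (2 - B)^3 * (R - 6)^3 + (15268869756539/7961250000) * (B - 1)^1 * (2 - B)^2 * (13/2 - R)^3 + (577266919830223/95535000000) * (B - 1)^1 * (2 - B)^2 * (R - 6)^1 * (13/2 - R)^2 + (25258185595843/3980625000) * (B - 1)^1 * (2 - B)^2 * (R - 6)^2 * (13/2 - R)^1 + (19283997875407/8685000000) * (B - 1)^1 * (2 - B)^2 * (R - 6)^3 + (3078518668163/477675000) * (B - 1)^2 * (2 - B)^1 * (13/2 - R)^3 + (3505147747829/173700000) * (B - 1)^2 * (2 - B)^1 * (R - 6)^1 * (13/2 - R)^2 + (80458792308071/3821400000) * (B - 1)^2 * (2 - B)^1 * (R - 6)^2 * (13/2 - R)^1 + (2542917405017/347400000) * (B - 1)^2 * (2 - B)^1 * (R - 6)^3 + (17561623578529/2653750000) * (B - 1)^3 * (13/2 - R)^3 + (1983075691113359/95535000000)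 * (B - 1)^3 * (R - 6)^1 * (13/2 - R)^2 + (345421310176051/15922500000) * (B - 1)^3 * (R - 6)^2 * (13/2 - R)^1 + (65604965573681/8685000000) * (B - 1)^3 * (R - 6)^3 := by ring
    rw [e]
    positivity

theorem nb_15 : Nb (13/2) (769/50) (321/25) (127/50) (171/200) (97/500) (64/25) (11/25) 26 29 31 32 35 37 41 45 52 57 where
  hXm0 := by norm_num
  hXm := by norm_num
  hκ11 := by norm_num
  hβ1 := by norm_num
  hc := by norm_num
  hc0 := by norm_num
  hγ0 := by norm_num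
  hR1 := by norm_num
  n1 := by rw [max_eq_left (by norm_num : (1:ℝ) ≤ 127/50)]; norm_num
  n1c := by norm_num
  n2 := by rw [max_eq_left (by norm_num : (1:ℝ) ≤ 127/50)]; norm_num
  s := by constructor <;> constructor <;> norm_num
  hk8 := by norm_num
  hk9 := by norm_num
  n4 := by rw [max_eq_left (by norm_num : (1:ℝ) ≤ 127/50)]; norm_num [Vs, Vc, I0]

theorem row_15 {M : ℕ} {a : ℝ} {ζ z : Fin (M + 1) → ℂ} (h : Fr (M + 1) a ζ z)
    (hM : 99 ≤ M) (hmax : ∀ k, ‖u a ζ k‖ ≤ ‖u a ζ 0‖) {c0 : ℝ} (hc1 : 1 ≤ c0)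
    (hroot : (c0 - 1) * (c0 - kap a ζ) = pr a ζ) (hd : DS a ζ ≤ 7 / 2) {B R : ℝ}
    (hB : B = (1 - a) * ‖u a ζ 0‖) (hR : (M : ℝ) + 1 = R * ‖u a ζ 0‖)
    (hC : 10 ≤ a * ‖u a ζ 0‖) (b0 : 1 ≤ B) (b1 : B ≤ 2) (r0 : 6 ≤ R) (r1 : R ≤ 13/2) : False := by
  have ht0 : 0 < ‖u a ζ 0‖ := norm_pos_iff.2 (h.u_ne 0)
  have hM99 : (99 : ℝ) ≤ M := by exact_mod_cast hM
  have ha1 := h.a1
  have ht : 100 / (13/2) ≤ ‖u a ζ 0‖ := by
    rw [div_le_iff₀ (by norm_num)]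
    have := mul_le_mul_of_nonneg_right r1 ht0.le
    linarith
  have hb : 1 - a ≤ 13/100 := by
    have h1 : (1 - a) * (100 / (13/2)) ≤ 2 := by
      have := mul_le_mul_of_nonneg_left ht (by linarith : 0 ≤ 1 - a)
      linarith
    norm_num at h1 ⊢
    linarith
  have hρ : (1 - a) ^ 2 ≤ 3 - (149/50) := by
    have := pow_le_pow_left₀ (by linarith : 0 ≤ 1 - a) hb 2
    norm_num at this ⊢
    linarith
  obtain ⟨g1, g2, g3⟩ := gb_15 b0 b1 r0 r1
  have hγ := Gam_ge_z h hM hmax hroot (z := 3/2) (ψ := 723/10000) (r := 71/100 + 977/500 * B) (ρ := 149/50) (γ := 11/25)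
    hB hR (by norm_num at ht ⊢; linarith) (by linarith) (by linarith) (by norm_num) (by norm_num)
    psi_15 (by linarith) (by nlinarith) (by nlinarith [mul_nonneg (sub_nonneg.2 b0) (sub_nonneg.2 b1)]) hρ (by norm_num) g1 g2 g3
  refine row_fin h hM hmax hc1 hroot hd (B1 := 2) (R0 := 6) ?_ ?_ (by norm_num) hC
    (by rw [← hB]; exact b1) hγ (by norm_num) (by norm_num) (by norm_num) (by norm_num) nb_15
  · rw [hR]; exact mul_le_mul_of_nonneg_right r0 ht0.le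
  · rw [hR]; exact mul_le_mul_of_nonneg_right r1 ht0.le

theorem gb_16 {B R : ℝ} (b0 : 2 ≤ B) (b1 : B ≤ 7/2) (r0 : 6 ≤ R) (r1 : R ≤ 13/2) :
    0 ≤ 3 + (147/50) * (B * R) - 3 * (63/100 + 997/500 * B) ∧
    0 ≤ 2 * (3 + (147/50) * (B * R) - 3 * (63/100 + 997/500 * B)) - 1 / 2 * (723/10000) * ((R - 193 / 100) / (193 / 100)) * (5 + (147/50) * (B * R) + (63/100 + 997/500 * B)) ∧
    0 ≤ (3/2) * (2 * (3 + (147/50) * (B * R) - 3 * (63/100 + 997/500 * B)) - 1 / 2 * (723/10000) * ((R - 193 / 100) / (193 / 100)) * (5 + (147/50) * (B * R) + (63/100 + 997/500 * B))) * R + 2 * B * (5 + (147/50) * (B * R) + (63/100 + 997/500 * B)) * ((B + 1 / 2 - (499/500)) * R - 200 / 99 * (R - 1)) := by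
  have hu : 0 ≤ B - 2 := by linarith
  have hv : 0 ≤ 7/2 - B := by linarith
  have hp : 0 ≤ R - 6 := by linarith
  have hq : 0 ≤ 13/2 - R := by linarith
  refine ⟨?_, ?_, ?_⟩
  · have e : 3 + (147/50) * (B * R) - 3 * (63/100 + 997/500 * B) =
        (4071/125) * (7/2 - B)^1 * (13/2 - R)^1 + (4561/125) * (7/2 - B)^1 * (R - 6)^1 + (13971/250) * (B - 2)^1 * (13/2 - R)^1 + (7843/125) * (B - 2)^1 * (R - 6)^1 := by ring
    rw [e]
    positivity
  · have e : 2 * (3 + (147/50) * (B * R) - 3 * (63/100 + 997/500 * B)) - 1 / 2 * (723/10000) * ((R - 193 / 100) / (193 / 100)) * (5 + (147/50) * (B * R) + (63/100 + 997/500 * B)) =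
        (29226164937/241250000) * (7/2 - B)^1 * (13/2 - R)^2 + (30910215767/120625000) * (7/2 - B)^1 * (R - 6)^1 * (13/2 - R)^1 + (32576553097/241250000) * (7/2 - B)^1 * (R - 6)^2 + (100563449637/482500000) * (B - 2)^1 * (13/2 - R)^2 + (212966136209/482500000) * (B - 2)^1 * (R - 6)^1 * (13/2 - R)^1 + (56170344661/241250000) * (B - 2)^1 * (R - 6)^2 := by ring
    rw [e]
    positivity
  · have e : (3/2) * (2 * (3 + (147/50) * (B * R) - 3 * (63/100 + 997/500 * B)) - 1 / 2 * (723/10000) * ((R - 193 / 100) / (193 / 100)) * (5 + (147/50) * (B * R) + (63/100 + 997/500 * B))) * R + 2 * B * (5 + (147/50) * (B * R) + (63/100 + 997/500 * B)) * ((B + 1 / 2 - (499/500)) * R - 200 / 99 * (R - 1)) =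
        (13584181852627/26869218750) * (7/2 - B)^3 * (13/2 - R)^3 + (168577005963173/107476875000) * (7/2 - B)^3 * (R - 6)^1 * (13/2 - R)^2 + (87152382075721/53738437500) * (7/2 - B)^3 * (R - 6)^2 * (13/2 - R)^1 + (5459929517207/9770625000) * (7/2 - B)^3 * (R - 6)^3 + (1054137872609/195412500) * (B - 2)^1 * (7/2 - B)^2 * (13/2 - R)^3 + (28977480039581/1719630000) * (B - 2)^1 * (7/2 - B)^2 * (R - 6)^1 * (13/2 - R)^2 + (150810669022829/8598150000) * (B - 2)^1 * (7/2 - B)^2 * (R - 6)^2 * (13/2 - R)^1 + (475488699517/78165000) * (B - 2)^1 * (7/2 - B)^2 * (R - 6)^3 + (193870833775217/13434609375) * (B - 2)^2 * (7/2 - B)^1 * (13/2 - R)^3 + (2430376379588633/53738437500) * (B - 2)^2 * (7/2 - B)^1 * (R - 6)^1 * (13/2 - R)^2 + (5075608227752039/107476875000) * (B - 2)^2 * (7/2 - B)^1 * (R - 6)^2 * (13/2 - R)^1 + (160527133153069/9770625000) * (B - 2)^2 * (7/2 - B)^1 * (R - 6)^3 + (18607679699959/1628437500)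 * (B - 2)^3 * (13/2 - R)^3 + (7716047769073253/214953750000) * (B - 2)^3 * (R - 6)^1 * (13/2 - R)^2 + (299102142470231/7961250000) * (B - 2)^3 * (R - 6)^2 * (13/2 - R)^1 + (127995699310651/9770625000) * (B - 2)^3 * (R - 6)^3 := by ring
    rw [e]
    positivity

theorem nb_16 : Nb (13/2) (769/50) (567/50) (101/25) (171/200) (97/500) (59/20) (499/500) 23 26 28 28 31 33 37 40 46 57 where
  hXm0 := by norm_num
  hXm := by norm_num
  hκ11 := by norm_num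
  hβ1 := by norm_num
  hc := by norm_num
  hc0 := by norm_num
  hγ0 := by norm_num
  hR1 := by norm_num
  n1 := by rw [max_eq_left (by norm_num : (1:ℝ) ≤ 101/25)]; norm_num
  n1c := by norm_num
  n2 := by rw [max_eq_left (by norm_num : (1:ℝ) ≤ 101/25)]; norm_num
  s := by constructor <;> constructor <;> norm_num
  hk8 := by norm_num
  hk9 := by norm_num
  n4 := by rw [max_eq_left (by norm_num : (1:ℝ) ≤ 101/25)]; norm_num [Vs, Vc, I0]

theorem row_16 {M : ℕ} {a : ℝ} {ζ z : Fin (M + 1) → ℂ} (h : Fr (M + 1) a ζ z)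
    (hM : 99 ≤ M) (hmax : ∀ k, ‖u a ζ k‖ ≤ ‖u a ζ 0‖) {c0 : ℝ} (hc1 : 1 ≤ c0)
    (hroot : (c0 - 1) * (c0 - kap a ζ) = pr a ζ) (hd : DS a ζ ≤ 7 / 2) {B R : ℝ}
    (hB : B = (1 - a) * ‖u a ζ 0‖) (hR : (M : ℝ) + 1 = R * ‖u a ζ 0‖)
    (hC : 10 ≤ a * ‖u a ζ 0‖) (b0 : 2 ≤ B) (b1 : B ≤ 7/2) (r0 : 6 ≤ R) (r1 : R ≤ 13/2) : False := by
  have ht0 : 0 < ‖u a ζ 0‖ := norm_pos_iff.2 (h.u_ne 0)
  have hM99 : (99 : ℝ) ≤ M := by exact_mod_cast hM
  have ha1 := h.a1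
  have ht : 100 / (13/2) ≤ ‖u a ζ 0‖ := by
    rw [div_le_iff₀ (by norm_num)]
    have := mul_le_mul_of_nonneg_right r1 ht0.le
    linarith
  have hb : 1 - a ≤ 91/400 := by
    have h1 : (1 - a) * (100 / (13/2)) ≤ 7/2 := by
      have := mul_le_mul_of_nonneg_left ht (by linarith : 0 ≤ 1 - a)
      linarith
    norm_num at h1 ⊢
    linarith
  have hρ : (1 - a) ^ 2 ≤ 3 - (147/50) := by
    have := pow_le_pow_left₀ (by linarith : 0 ≤ 1 - a) hb 2
    norm_num at this ⊢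
    linarith
  obtain ⟨g1, g2, g3⟩ := gb_16 b0 b1 r0 r1
  have hγ := Gam_ge_z h hM hmax hroot (z := 3/2) (ψ := 723/10000) (r := 63/100 + 997/500 * B) (ρ := 147/50) (γ := 499/500)
    hB hR (by norm_num at ht ⊢; linarith) (by linarith) (by linarith) (by norm_num) (by norm_num)
    psi_15 (by linarith) (by nlinarith) (by nlinarith [mul_nonneg (sub_nonneg.2 b0) (sub_nonneg.2 b1)]) hρ (by norm_num) g1 g2 g3
  refine row_fin h hM hmax hc1 hroot hd (B1 := 7/2) (R0 := 6) ?_ ?_ (by norm_num) hC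
    (by rw [← hB]; exact b1) hγ (by norm_num) (by norm_num) (by norm_num) (by norm_num) nb_16
  · rw [hR]; exact mul_le_mul_of_nonneg_right r0 ht0.le
  · rw [hR]; exact mul_le_mul_of_nonneg_right r1 ht0.le

theorem gb_17 {B R : ℝ} (b0 : 0 ≤ B) (b1 : B ≤ 3/20) (r0 : 13/2 ≤ R) (r1 : R ≤ 7) :
    0 ≤ 3 + (299/100) * (B * R) - 3 * (1 + 6/5 * B) ∧
    0 ≤ 2 * (3 + (299/100) * (B * R) - 3 * (1 + 6/5 * B)) - 1 / 2 * (0) * ((R - 193 / 100) / (193 / 100)) * (5 + (299/100) * (B * R) + (1 + 6/5 * B)) ∧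
    0 ≤ (1) * (2 * (3 + (299/100) * (B * R) - 3 * (1 + 6/5 * B)) - 1 / 2 * (0) * ((R - 193 / 100) / (193 / 100)) * (5 + (299/100) * (B * R) + (1 + 6/5 * B))) * R + 2 * B * (5 + (299/100) * (B * R) + (1 + 6/5 * B)) * ((B + 1 / 2 - (233/500)) * R - 200 / 99 * (R - 1)) := by
  have hu : 0 ≤ B - 0 := by linarith
  have hv : 0 ≤ 3/20 - B := by linarith
  have hp : 0 ≤ R - 13/2 := by linarith
  have hq : 0 ≤ 7 - R := by linarith
  have hB : 0 ≤ B := b0
  refine ⟨?_, ?_, ?_⟩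
  · have e : 3 + (299/100) * (B * R) - 3 * (1 + 6/5 * B) =
        B * ((3167/100) * (7 - R)^1 + (1733/50) * (R - 13/2)^1) := by ring
    rw [e]
    positivity
  · have e : 2 * (3 + (299/100) * (B * R) - 3 * (1 + 6/5 * B)) - 1 / 2 * (0) * ((R - 193 / 100) / (193 / 100)) * (5 + (299/100) * (B * R) + (1 + 6/5 * B)) =
        B * ((3167/50) * (7 - R)^1 + (1733/25) * (R - 13/2)^1) := by ring
    rw [e]
    positivity
  · have e : (1) * (2 * (3 + (299/100) * (B * R) - 3 * (1 + 6/5 * B)) - 1 / 2 * (0) * ((R - 193 / 100) / (193 / 100)) * (5 + (299/100) * (B * R) + (1 + 6/5 * B))) * R + 2 * B * (5 + (299/100) * (B * R) + (1 + 6/5 * B)) * ((B + 1 / 2 - (233/500)) * R - 200 / 99 * (R - 1)) =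
        B * ((1804168/135) * (3/20 - B)^2 * (7 - R)^2 + (45856832/1485) * (3/20 - B)^2 * (R - 13/2)^1 * (7 - R)^1 + (8801888/495) * (3/20 - B)^2 * (R - 13/2)^2 + (63088067/3750) * (B - 0)^1 * (3/20 - B)^1 * (7 - R)^2 + (7452646414/185625) * (B - 0)^1 * (3/20 - B)^1 * (R - 13/2)^1 * (7 - R)^1 + (490417634/20625) * (B - 0)^1 * (3/20 - B)^1 * (R - 13/2)^2 + (76482514/16875) * (B - 0)^2 * (7 - R)^2 + (716217688/61875) * (B - 0)^2 * (R - 13/2)^1 * (7 - R)^1 + (447697352/61875) * (B - 0)^2 * (R - 13/2)^2) := by ring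
    rw [e]
    positivity

theorem nb_17 : Nb (7) (357/25) (1359/100) (69/100) (433/500) (181/1000) (123/50) (233/500) 28 31 33 34 37 39 43 48 54 53 where
  hXm0 := by norm_num
  hXm := by norm_num
  hκ11 := by norm_num
  hβ1 := by norm_num
  hc := by norm_num
  hc0 := by norm_num
  hγ0 := by norm_num
  hR1 := by norm_num
  n1 := by rw [max_eq_right (by norm_num : (69/100:ℝ) ≤ 1)]; norm_num
  n1c := by norm_num
  n2 := by rw [max_eq_right (by norm_num : (69/100:ℝ) ≤ 1)]; norm_num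
  s := by constructor <;> constructor <;> norm_num
  hk8 := by norm_num
  hk9 := by norm_num
  n4 := by rw [max_eq_right (by norm_num : (69/100:ℝ) ≤ 1)]; norm_num [Vs, Vc, I0]

theorem row_17 {M : ℕ} {a : ℝ} {ζ z : Fin (M + 1) → ℂ} (h : Fr (M + 1) a ζ z)
    (hM : 99 ≤ M) (hmax : ∀ k, ‖u a ζ k‖ ≤ ‖u a ζ 0‖) {c0 : ℝ} (hc1 : 1 ≤ c0)
    (hroot : (c0 - 1) * (c0 - kap a ζ) = pr a ζ) (hd : DS a ζ ≤ 7 / 2) {B R : ℝ}
    (hB : B = (1 - a) * ‖u a ζ 0‖) (hR : (M : ℝ) + 1 = R * ‖u a ζ 0‖)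
    (hC : 10 ≤ a * ‖u a ζ 0‖) (b0 : 0 ≤ B) (b1 : B ≤ 3/20) (r0 : 13/2 ≤ R) (r1 : R ≤ 7) : False := by
  have ht0 : 0 < ‖u a ζ 0‖ := norm_pos_iff.2 (h.u_ne 0)
  have hM99 : (99 : ℝ) ≤ M := by exact_mod_cast hM
  have ha1 := h.a1
  have ht : 100 / (7) ≤ ‖u a ζ 0‖ := by
    rw [div_le_iff₀ (by norm_num)]
    have := mul_le_mul_of_nonneg_right r1 ht0.le
    linarith
  have hb : 1 - a ≤ 21/2000 := by
    have h1 : (1 - a) * (100 / (7)) ≤ 3/20 := by
      have := mul_le_mul_of_nonneg_left ht (by linarith : 0 ≤ 1 - a)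
      linarith
    norm_num at h1 ⊢
    linarith
  have hρ : (1 - a) ^ 2 ≤ 3 - (299/100) := by
    have := pow_le_pow_left₀ (by linarith : 0 ≤ 1 - a) hb 2
    norm_num at this ⊢
    linarith
  obtain ⟨g1, g2, g3⟩ := gb_17 b0 b1 r0 r1
  have hγ := Gam_ge_z h hM hmax hroot (z := 1) (ψ := 0) (r := 1 + 6/5 * B) (ρ := 299/100) (γ := 233/500)
    hB hR (by norm_num at ht ⊢; linarith) (by linarith) (by linarith) (by norm_num) (by norm_num)
    psi_1' (by linarith) (by nlinarith) (by nlinarith [mul_nonneg (sub_nonneg.2 b0) (sub_nonneg.2 b1)]) hρ (by norm_num) g1 g2 g3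
  refine row_fin h hM hmax hc1 hroot hd (B1 := 3/20) (R0 := 13/2) ?_ ?_ (by norm_num) hC
    (by rw [← hB]; exact b1) hγ (by norm_num) (by norm_num) (by norm_num) (by norm_num) nb_17
  · rw [hR]; exact mul_le_mul_of_nonneg_right r0 ht0.le
  · rw [hR]; exact mul_le_mul_of_nonneg_right r1 ht0.le

theorem gb_18 {B R : ℝ} (b0 : 3/20 ≤ B) (b1 : B ≤ 1/2) (r0 : 13/2 ≤ R) (r1 : R ≤ 7) :
    0 ≤ 3 + (299/100) * (B * R) - 3 * (471/500 + 1593/1000 * B) ∧
    0 ≤ 2 * (3 + (299/100) * (B * R) - 3 * (471/500 + 1593/1000 * B)) - 1 / 2 * (159/5000) * ((R - 193 / 100) / (193 / 100)) * (5 + (299/100) * (B * R) + (471/500 + 1593/1000 * B)) ∧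
    0 ≤ (13/10) * (2 * (3 + (299/100) * (B * R) - 3 * (471/500 + 1593/1000 * B)) - 1 / 2 * (159/5000) * ((R - 193 / 100) / (193 / 100)) * (5 + (299/100) * (B * R) + (471/500 + 1593/1000 * B))) * R + 2 * B * (5 + (299/100) * (B * R) + (471/500 + 1593/1000 * B)) * ((B + 1 / 2 - (9/25)) * R - 200 / 99 * (R - 1)) := by
  have hu : 0 ≤ B - 3/20 := by linarith
  have hv : 0 ≤ 1/2 - B := by linarith
  have hp : 0 ≤ R - 13/2 := by linarith
  have hq : 0 ≤ 7 - R := by linarith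
  refine ⟨?_, ?_, ?_⟩
  · have e : 3 + (299/100) * (B * R) - 3 * (471/500 + 1593/1000 * B) =
        (11862/875) * (1/2 - B)^1 * (7 - R)^1 + (7419/500) * (1/2 - B)^1 * (R - 13/2)^1 + (7502/175) * (B - 3/20)^1 * (7 - R)^1 + (2357/50) * (B - 3/20)^1 * (R - 13/2)^1 := by ring
    rw [e]
    positivity
  · have e : 2 * (3 + (299/100) * (B * R) - 3 * (471/500 + 1593/1000 * B)) - 1 / 2 * (159/5000) * ((R - 193 / 100) / (193 / 100)) * (5 + (299/100) * (B * R) + (471/500 + 1593/1000 * B)) =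
        (42482534097/844375000) * (1/2 - B)^1 * (7 - R)^2 + (355400183421/3377500000) * (1/2 - B)^1 * (R - 13/2)^1 * (7 - R)^1 + (185434391283/3377500000) * (1/2 - B)^1 * (R - 13/2)^2 + (3470247209/21109375) * (B - 3/20)^1 * (7 - R)^2 + (116448329103/337750000) * (B - 3/20)^1 * (R - 13/2)^1 * (7 - R)^1 + (60912488509/337750000) * (B - 3/20)^1 * (R - 13/2)^2 := by ring
    rw [e]
    positivity
  · have e : (13/10) * (2 * (3 + (299/100) * (B * R) - 3 * (471/500 + 1593/1000 * B)) - 1 / 2 * (159/5000) * ((R - 193 / 100) / (193 / 100)) * (5 + (299/100) * (B * R) + (471/500 + 1593/1000 * B))) * R + 2 * B * (5 + (299/100) * (B * R) + (471/500 + 1593/1000 * B)) * ((B + 1 / 2 - (9/25)) * R - 200 / 99 * (R - 1)) =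
        (6961297524079/3103078125) * (1/2 - B)^3 * (7 - R)^3 + (200500514062949/27307087500) * (1/2 - B)^3 * (R - 13/2)^1 * (7 - R)^2 + (1091098942195517/136535437500) * (1/2 - B)^3 * (R - 13/2)^2 * (7 - R)^1 + (65813027770583/22755906250) * (1/2 - B)^3 * (R - 13/2)^3 + (82523815054834/9309234375) * (B - 3/20)^1 * (1/2 - B)^2 * (7 - R)^3 + (602246170053116/20480315625) * (B - 3/20)^1 * (1/2 - B)^2 * (R - 13/2)^1 * (7 - R)^2 + (3317455627974458/102401578125) * (B - 3/20)^1 * (1/2 - B)^2 * (R - 13/2)^2 * (7 - R)^1 + (404641852681684/34133859375) * (B - 3/20)^1 * (1/2 - B)^2 * (R - 13/2)^3 + (17906741944219/3103078125) * (B - 3/20)^2 * (1/2 - B)^1 * (7 - R)^3 + (1642501176679087/81921262500) * (B - 3/20)^2 * (1/2 - B)^1 * (R - 13/2)^1 * (7 - R)^2 + (9415296579584111/409606312500) * (B - 3/20)^2 * (1/2 - B)^1 * (R - 13/2)^2 * (7 - R)^1 + (594354802923389/68267718750) * (B - 3/20)^2 * (1/2 - B)^1 *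 (R - 13/2)^3 + (2487755943112/1861846875) * (B - 3/20)^3 * (7 - R)^3 + (3627273227827/744738750) * (B - 3/20)^3 * (R - 13/2)^1 * (7 - R)^2 + (79205702319311/13653543750) * (B - 3/20)^3 * (R - 13/2)^2 * (7 - R)^1 + (5157356325509/2275590625) * (B - 3/20)^3 * (R - 13/2)^3 := by ring
    rw [e]
    positivity

theorem nb_18 : Nb (7) (357/25) (331/25) (26/25) (433/500) (181/1000) (249/100) (9/25) 27 30 32 33 36 38 42 47 53 53 where
  hXm0 := by norm_num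
  hXm := by norm_num
  hκ11 := by norm_num
  hβ1 := by norm_num
  hc := by norm_num
  hc0 := by norm_num
  hγ0 := by norm_num
  hR1 := by norm_num
  n1 := by rw [max_eq_left (by norm_num : (1:ℝ) ≤ 26/25)]; norm_num
  n1c := by norm_num
  n2 := by rw [max_eq_left (by norm_num : (1:ℝ) ≤ 26/25)]; norm_num
  s := by constructor <;> constructor <;> norm_num
  hk8 := by norm_num
  hk9 := by norm_num
  n4 := by rw [max_eq_left (by norm_num : (1:ℝ) ≤ 26/25)]; norm_num [Vs, Vc, I0]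

theorem row_18 {M : ℕ} {a : ℝ} {ζ z : Fin (M + 1) → ℂ} (h : Fr (M + 1) a ζ z)
    (hM : 99 ≤ M) (hmax : ∀ k, ‖u a ζ k‖ ≤ ‖u a ζ 0‖) {c0 : ℝ} (hc1 : 1 ≤ c0)
    (hroot : (c0 - 1) * (c0 - kap a ζ) = pr a ζ) (hd : DS a ζ ≤ 7 / 2) {B R : ℝ}
    (hB : B = (1 - a) * ‖u a ζ 0‖) (hR : (M : ℝ) + 1 = R * ‖u a ζ 0‖)
    (hC : 10 ≤ a * ‖u a ζ 0‖) (b0 : 3/20 ≤ B) (b1 : B ≤ 1/2) (r0 : 13/2 ≤ R) (r1 : R ≤ 7) : False := by
  have ht0 : 0 < ‖u a ζ 0‖ := norm_pos_iff.2 (h.u_ne 0)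
  have hM99 : (99 : ℝ) ≤ M := by exact_mod_cast hM
  have ha1 := h.a1
  have ht : 100 / (7) ≤ ‖u a ζ 0‖ := by
    rw [div_le_iff₀ (by norm_num)]
    have := mul_le_mul_of_nonneg_right r1 ht0.le
    linarith
  have hb : 1 - a ≤ 7/200 := by
    have h1 : (1 - a) * (100 / (7)) ≤ 1/2 := by
      have := mul_le_mul_of_nonneg_left ht (by linarith : 0 ≤ 1 - a)
      linarith
    norm_num at h1 ⊢
    linarith
  have hρ : (1 - a) ^ 2 ≤ 3 - (299/100) := by
    have := pow_le_pow_left₀ (by linarith : 0 ≤ 1 - a) hb 2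
    norm_num at this ⊢
    linarith
  obtain ⟨g1, g2, g3⟩ := gb_18 b0 b1 r0 r1
  have hγ := Gam_ge_z h hM hmax hroot (z := 13/10) (ψ := 159/5000) (r := 471/500 + 1593/1000 * B) (ρ := 299/100) (γ := 9/25)
    hB hR (by norm_num at ht ⊢; linarith) (by linarith) (by linarith) (by norm_num) (by norm_num)
    psi_13 (by linarith) (by nlinarith) (by nlinarith [mul_nonneg (sub_nonneg.2 b0) (sub_nonneg.2 b1)]) hρ (by norm_num) g1 g2 g3
  refine row_fin h hM hmax hc1 hroot hd (B1 := 1/2) (R0 := 13/2) ?_ ?_ (by norm_num) hC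
    (by rw [← hB]; exact b1) hγ (by norm_num) (by norm_num) (by norm_num) (by norm_num) nb_18
  · rw [hR]; exact mul_le_mul_of_nonneg_right r0 ht0.le
  · rw [hR]; exact mul_le_mul_of_nonneg_right r1 ht0.le

theorem gb_19 {B R : ℝ} (b0 : 1/2 ≤ B) (b1 : B ≤ 1) (r0 : 13/2 ≤ R) (r1 : R ≤ 7) :
    0 ≤ 3 + (299/100) * (B * R) - 3 * (407/500 + 37/20 * B) ∧
    0 ≤ 2 * (3 + (299/100) * (B * R) - 3 * (407/500 + 37/20 * B)) - 1 / 2 * (723/10000) * ((R - 193 / 100) / (193 / 100)) * (5 + (299/100) * (B * R) + (407/500 + 37/20 * B)) ∧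
    0 ≤ (3/2) * (2 * (3 + (299/100) * (B * R) - 3 * (407/500 + 37/20 * B)) - 1 / 2 * (723/10000) * ((R - 193 / 100) / (193 / 100)) * (5 + (299/100) * (B * R) + (407/500 + 37/20 * B))) * R + 2 * B * (5 + (299/100) * (B * R) + (407/500 + 37/20 * B)) * ((B + 1 / 2 - (207/500)) * R - 200 / 99 * (R - 1)) := by
  have hu : 0 ≤ B - 1/2 := by linarith
  have hv : 0 ≤ 1 - B := by linarith
  have hp : 0 ≤ R - 13/2 := by linarith
  have hq : 0 ≤ 7 - R := by linarith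
  refine ⟨?_, ?_, ?_⟩
  · have e : 3 + (299/100) * (B * R) - 3 * (407/500 + 37/20 * B) =
        (15001/500) * (1 - B)^1 * (7 - R)^1 + (4124/125) * (1 - B)^1 * (R - 13/2)^1 + (14443/250) * (B - 1/2)^1 * (7 - R)^1 + (7969/125) * (B - 1/2)^1 * (R - 13/2)^1 := by ring
    rw [e]
    positivity
  · have e : 2 * (3 + (299/100) * (B * R) - 3 * (407/500 + 37/20 * B)) - 1 / 2 * (723/10000) * ((R - 193 / 100) / (193 / 100)) * (5 + (299/100) * (B * R) + (407/500 + 37/20 * B)) =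
        (104932902757/965000000) * (1 - B)^1 * (7 - R)^2 + (219723436119/965000000) * (1 - B)^1 * (R - 13/2)^1 * (7 - R)^1 + (14342061139/120625000) * (1 - B)^1 * (R - 13/2)^2 + (102546152311/482500000) * (B - 1/2)^1 * (7 - R)^2 + (215160111327/482500000) * (B - 1/2)^1 * (R - 13/2)^1 * (7 - R)^1 + (56279957383/241250000) * (B - 1/2)^1 * (R - 13/2)^2 := by ring
    rw [e]
    positivity
  · have e : (3/2) * (2 * (3 + (299/100) * (B * R) - 3 * (407/500 + 37/20 * B)) - 1 / 2 * (723/10000) * ((R - 193 / 100) / (193 / 100)) * (5 + (299/100) * (B * R) + (407/500 + 37/20 * B))) * R + 2 * B * (5 + (299/100) * (B * R) + (407/500 + 37/20 * B)) * ((B + 1 / 2 - (207/500)) * R - 200 / 99 * (R - 1)) =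
        (381620334003/482500000) * (1 - B)^3 * (7 - R)^3 + (25960573867093/9553500000) * (1 - B)^3 * (R - 13/2)^1 * (7 - R)^2 + (73672416846037/23883750000) * (1 - B)^3 * (R - 13/2)^2 * (7 - R)^1 + (104746830077/90468750) * (1 - B)^3 * (R - 13/2)^3 + (74015053103/60312500) * (B - 1/2)^1 * (1 - B)^2 * (7 - R)^3 + (2218978697359/477675000) * (B - 1/2)^1 * (1 - B)^2 * (R - 13/2)^1 * (7 - R)^2 + (67828684215553/11941875000) * (B - 1/2)^1 * (1 - B)^2 * (R - 13/2)^2 * (7 - R)^1 + (4498857692287/1990312500) * (B - 1/2)^1 * (1 - B)^2 * (R - 13/2)^3 + (359266771239/482500000) * (B - 1/2)^2 * (1 - B)^1 * (7 - R)^3 + (28988124302441/9553500000) * (B - 1/2)^2 * (1 - B)^1 * (R - 13/2)^1 * (7 - R)^2 + (93099708906101/23883750000) * (B - 1/2)^2 * (1 - B)^1 * (R - 13/2)^2 * (7 - R)^1 + (799436988973/497578125) * (B - 1/2)^2 * (1 - B)^1 * (R - 13/2)^3 + (608423990209/241250000) * (B - 1/2)^3 * (7 - R)^3 + (38562650801177/4776750000)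 * (B - 1/2)^3 * (R - 13/2)^1 * (7 - R)^2 + (2336036600239/271406250) * (B - 1/2)^3 * (R - 13/2)^2 * (7 - R)^1 + (6081324225299/1990312500) * (B - 1/2)^3 * (R - 13/2)^3 := by ring
    rw [e]
    positivity

theorem nb_19 : Nb (7) (357/25) (637/50) (77/50) (433/500) (181/1000) (257/100) (207/500) 26 29 31 32 35 37 41 45 51 53 where
  hXm0 := by norm_num
  hXm := by norm_num
  hκ11 := by norm_num
  hβ1 := by norm_num
  hc := by norm_num
  hc0 := by norm_num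
  hγ0 := by norm_num
  hR1 := by norm_num
  n1 := by rw [max_eq_left (by norm_num : (1:ℝ) ≤ 77/50)]; norm_num
  n1c := by norm_num
  n2 := by rw [max_eq_left (by norm_num : (1:ℝ) ≤ 77/50)]; norm_num
  s := by constructor <;> constructor <;> norm_num
  hk8 := by norm_num
  hk9 := by norm_num
  n4 := by rw [max_eq_left (by norm_num : (1:ℝ) ≤ 77/50)]; norm_num [Vs, Vc, I0]

theorem row_19 {M : ℕ} {a : ℝ} {ζ z : Fin (M + 1) → ℂ} (h : Fr (M + 1) a ζ z)
    (hM : 99 ≤ M) (hmax : ∀ k, ‖u a ζ k‖ ≤ ‖u a ζ 0‖) {c0 : ℝ} (hc1 : 1 ≤ c0)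
    (hroot : (c0 - 1) * (c0 - kap a ζ) = pr a ζ) (hd : DS a ζ ≤ 7 / 2) {B R : ℝ}
    (hB : B = (1 - a) * ‖u a ζ 0‖) (hR : (M : ℝ) + 1 = R * ‖u a ζ 0‖)
    (hC : 10 ≤ a * ‖u a ζ 0‖) (b0 : 1/2 ≤ B) (b1 : B ≤ 1) (r0 : 13/2 ≤ R) (r1 : R ≤ 7) : False := by
  have ht0 : 0 < ‖u a ζ 0‖ := norm_pos_iff.2 (h.u_ne 0)
  have hM99 : (99 : ℝ) ≤ M := by exact_mod_cast hM
  have ha1 := h.a1
  have ht : 100 / (7) ≤ ‖u a ζ 0‖ := by
    rw [div_le_iff₀ (by norm_num)]
    have := mul_le_mul_of_nonneg_right r1 ht0.le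
    linarith
  have hb : 1 - a ≤ 7/100 := by
    have h1 : (1 - a) * (100 / (7)) ≤ 1 := by
      have := mul_le_mul_of_nonneg_left ht (by linarith : 0 ≤ 1 - a)
      linarith
    norm_num at h1 ⊢
    linarith
  have hρ : (1 - a) ^ 2 ≤ 3 - (299/100) := by
    have := pow_le_pow_left₀ (by linarith : 0 ≤ 1 - a) hb 2
    norm_num at this ⊢
    linarith
  obtain ⟨g1, g2, g3⟩ := gb_19 b0 b1 r0 r1
  have hγ := Gam_ge_z h hM hmax hroot (z := 3/2) (ψ := 723/10000) (r := 407/500 + 37/20 * B) (ρ := 299/100) (γ := 207/500)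
    hB hR (by norm_num at ht ⊢; linarith) (by linarith) (by linarith) (by norm_num) (by norm_num)
    psi_15 (by linarith) (by nlinarith) (by nlinarith [mul_nonneg (sub_nonneg.2 b0) (sub_nonneg.2 b1)]) hρ (by norm_num) g1 g2 g3
  refine row_fin h hM hmax hc1 hroot hd (B1 := 1) (R0 := 13/2) ?_ ?_ (by norm_num) hC
    (by rw [← hB]; exact b1) hγ (by norm_num) (by norm_num) (by norm_num) (by norm_num) nb_19
  · rw [hR]; exact mul_le_mul_of_nonneg_right r0 ht0.le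
  · rw [hR]; exact mul_le_mul_of_nonneg_right r1 ht0.le

end Pool.Agent.Lib.MP_172a45_an.L
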