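import Pool.Agent.Lib.MP_172a45_an.L.LcNum0

set_option autoImplicit false

/-!
# The boxes of part L-c (generated)
-/

namespace Pool.Agent.Lib.MP_172a45_an.L

open Finset Real
open Pool.Agent.Lib.MP_172a45_an.F
open Pool.Agent.Lib.MP_172a45_an.F.Fr

theorem gb_20 {B R : ℝ} (b0 : 1 ≤ B) (b1 : B ≤ 3/2) (r0 : 13/2 ≤ R) (r1 : R ≤ 7) :
    0 ≤ 3 + (149/50) * (B * R) - 3 * (723/1000 + 969/500 * B) ∧
    0 ≤ 2 * (3 + (149/50) * (B * R) - 3 * (723/1000 + 969/500 * B)) - 1 / 2 * (483/2500) * ((R - 193 / 100) / (193 / 100)) * (5 + (149/50) * (B * R) + (723/1000 + 969/500 * B)) ∧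
    0 ≤ (2) * (2 * (3 + (149/50) * (B * R) - 3 * (723/1000 + 969/500 * B)) - 1 / 2 * (483/2500) * ((R - 193 / 100) / (193 / 100)) * (5 + (149/50) * (B * R) + (723/1000 + 969/500 * B))) * R + 2 * B * (5 + (149/50) * (B * R) + (723/1000 + 969/500 * B)) * ((B + 1 / 2 - (139/250)) * R - 200 / 99 * (R - 1)) := by
  have hu : 0 ≤ B - 1 := by linarith
  have hv : 0 ≤ 3/2 - B := by linarith
  have hp : 0 ≤ R - 13/2 := by linarith
  have hq : 0 ≤ 7 - R := by linarith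
  refine ⟨?_, ?_, ?_⟩
  · have e : 3 + (149/50) * (B * R) - 3 * (723/1000 + 969/500 * B) =
        (14387/250) * (3/2 - B)^1 * (7 - R)^1 + (15877/250) * (3/2 - B)^1 * (R - 13/2)^1 + (4233/50) * (B - 1)^1 * (7 - R)^1 + (468/5) * (B - 1)^1 * (R - 13/2)^1 := by ring
    rw [e]
    positivity
  · have e : 2 * (3 + (149/50) * (B * R) - 3 * (723/1000 + 969/500 * B)) - 1 / 2 * (483/2500) * ((R - 193 / 100) / (193 / 100)) * (5 + (149/50) * (B * R) + (723/1000 + 969/500 * B)) =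
        (21800330339/120625000) * (3/2 - B)^1 * (7 - R)^2 + (22747336419/60312500) * (3/2 - B)^1 * (R - 13/2)^1 * (7 - R)^1 + (23658358999/120625000) * (3/2 - B)^1 * (R - 13/2)^2 + (6506040453/24125000) * (B - 1)^1 * (7 - R)^2 + (13594105599/24125000) * (B - 1)^1 * (R - 13/2)^1 * (7 - R)^1 + (884658762/3015625) * (B - 1)^1 * (R - 13/2)^2 := by ring
    rw [e]
    positivity
  · have e : (2) * (2 * (3 + (149/50) * (B * R) - 3 * (723/1000 + 969/500 * B)) - 1 / 2 * (483/2500) * ((R - 193 / 100) / (193 / 100)) * (5 + (149/50) * (B * R) + (723/1000 + 969/500 * B))) * R + 2 * B * (5 + (149/50) * (B * R) + (723/1000 + 969/500 * B)) * ((B + 1 / 2 - (139/250)) * R - 200 / 99 * (R - 1)) =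
        (214682341583/135703125) * (3/2 - B)^3 * (7 - R)^3 + (1496953333352/298546875) * (3/2 - B)^3 * (R - 13/2)^1 * (7 - R)^2 + (2624339403407/497578125) * (3/2 - B)^3 * (R - 13/2)^2 * (7 - R)^1 + (305132770486/165859375) * (3/2 - B)^3 * (R - 13/2)^3 + (445579150277/45234375) * (B - 1)^1 * (3/2 - B)^2 * (7 - R)^3 + (1839926577911/59709375) * (B - 1)^1 * (3/2 - B)^2 * (R - 13/2)^1 * (7 - R)^2 + (47843418386492/1492734375) * (B - 1)^1 * (3/2 - B)^2 * (R - 13/2)^2 * (7 - R)^1 + (5512299205036/497578125) * (B - 1)^1 * (3/2 - B)^2 * (R - 13/2)^3 + (2933509594303/135703125) * (B - 1)^2 * (3/2 - B)^1 * (7 - R)^3 + (20110941379934/298546875) * (B - 1)^2 * (3/2 - B)^1 * (R - 13/2)^1 * (7 - R)^2 + (104291316479651/1492734375) * (B - 1)^2 * (3/2 - B)^1 * (R - 13/2)^2 * (7 - R)^1 + (11996988550438/497578125) * (B - 1)^2 * (3/2 - B)^1 * (R - 13/2)^3 + (140811796837/9046875) * (B - 1)^3 * (7 - R)^3 + (4830061475827/99515625)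 * (B - 1)^3 * (R - 13/2)^1 * (7 - R)^2 + (455964207922/9046875) * (B - 1)^3 * (R - 13/2)^2 * (7 - R)^1 + (578039446624/33171875) * (B - 1)^3 * (R - 13/2)^3 := by ring
    rw [e]
    positivity

theorem nb_20 : Nb (7) (357/25) (306/25) (51/25) (433/500) (181/1000) (267/100) (139/250) 25 28 30 31 34 35 39 43 49 53 where
  hXm0 := by norm_num
  hXm := by norm_num
  hκ11 := by norm_num
  hβ1 := by norm_num
  hc := by norm_num
  hc0 := by norm_num
  hγ0 := by norm_num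
  hR1 := by norm_num
  n1 := by rw [max_eq_left (by norm_num : (1:ℝ) ≤ 51/25)]; norm_num
  n1c := by norm_num
  n2 := by rw [max_eq_left (by norm_num : (1:ℝ) ≤ 51/25)]; norm_num
  s := by constructor <;> constructor <;> norm_num
  hk8 := by norm_num
  hk9 := by norm_num
  n4 := by rw [max_eq_left (by norm_num : (1:ℝ) ≤ 51/25)]; norm_num [Vs, Vc, I0]

theorem row_20 {M : ℕ} {a : ℝ} {ζ z : Fin (M + 1) → ℂ} (h : Fr (M + 1) a ζ z)
    (hM : 99 ≤ M) (hmax : ∀ k, ‖u a ζ k‖ ≤ ‖u a ζ 0‖) {c0 : ℝ} (hc1 : 1 ≤ c0)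
    (hroot : (c0 - 1) * (c0 - kap a ζ) = pr a ζ) (hd : DS a ζ ≤ 7 / 2) {B R : ℝ}
    (hB : B = (1 - a) * ‖u a ζ 0‖) (hR : (M : ℝ) + 1 = R * ‖u a ζ 0‖)
    (hC : 10 ≤ a * ‖u a ζ 0‖) (b0 : 1 ≤ B) (b1 : B ≤ 3/2) (r0 : 13/2 ≤ R) (r1 : R ≤ 7) : False := by
  have ht0 : 0 < ‖u a ζ 0‖ := norm_pos_iff.2 (h.u_ne 0)
  have hM99 : (99 : ℝ) ≤ M := by exact_mod_cast hM
  have ha1 := h.a1
  have ht : 100 / (7) ≤ ‖u a ζ 0‖ := by
    rw [div_le_iff₀ (by norm_num)]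
    have := mul_le_mul_of_nonneg_right r1 ht0.le
    linarith
  have hb : 1 - a ≤ 21/200 := by
    have h1 : (1 - a) * (100 / (7)) ≤ 3/2 := by
      have := mul_le_mul_of_nonneg_left ht (by linarith : 0 ≤ 1 - a)
      linarith
    norm_num at h1 ⊢
    linarith
  have hρ : (1 - a) ^ 2 ≤ 3 - (149/50) := by
    have := pow_le_pow_left₀ (by linarith : 0 ≤ 1 - a) hb 2
    norm_num at this ⊢
    linarith
  obtain ⟨g1, g2, g3⟩ := gb_20 b0 b1 r0 r1
  have hγ := Gam_ge_z h hM hmax hroot (z := 2) (ψ := 483/2500) (r := 723/1000 + 969/500 * B) (ρ := 149/50) (γ := 139/250)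
    hB hR (by norm_num at ht ⊢; linarith) (by linarith) (by linarith) (by norm_num) (by norm_num)
    psi_2 (by linarith) (by nlinarith) (by nlinarith [mul_nonneg (sub_nonneg.2 b0) (sub_nonneg.2 b1)]) hρ (by norm_num) g1 g2 g3
  refine row_fin h hM hmax hc1 hroot hd (B1 := 3/2) (R0 := 13/2) ?_ ?_ (by norm_num) hC
    (by rw [← hB]; exact b1) hγ (by norm_num) (by norm_num) (by norm_num) (by norm_num) nb_20
  · rw [hR]; exact mul_le_mul_of_nonneg_right r0 ht0.le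
  · rw [hR]; exact mul_le_mul_of_nonneg_right r1 ht0.le

theorem gb_21 {B R : ℝ} (b0 : 3/2 ≤ B) (b1 : B ≤ 11/5) (r0 : 13/2 ≤ R) (r1 : R ≤ 7) :
    0 ≤ 3 + (297/100) * (B * R) - 3 * (67/100 + 247/125 * B) ∧
    0 ≤ 2 * (3 + (297/100) * (B * R) - 3 * (67/100 + 247/125 * B)) - 1 / 2 * (723/10000) * ((R - 193 / 100) / (193 / 100)) * (5 + (297/100) * (B * R) + (67/100 + 247/125 * B)) ∧
    0 ≤ (3/2) * (2 * (3 + (297/100) * (B * R) - 3 * (67/100 + 247/125 * B)) - 1 / 2 * (723/10000) * ((R - 193 / 100) / (193 / 100)) * (5 + (297/100) * (B * R) + (67/100 + 247/125 * B))) * R + 2 * B * (5 + (297/100) * (B * R) + (67/100 + 247/125 * B)) * ((B + 1 / 2 - (19/25)) * R - 200 / 99 * (R - 1)) := by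
  have hu : 0 ≤ B - 3/2 := by linarith
  have hv : 0 ≤ 11/5 - B := by linarith
  have hp : 0 ≤ R - 13/2 := by linarith
  have hq : 0 ≤ 7 - R := by linarith
  refine ⟨?_, ?_, ?_⟩
  · have e : 3 + (297/100) * (B * R) - 3 * (67/100 + 247/125 * B) =
        (42111/700) * (11/5 - B)^1 * (7 - R)^1 + (23283/350) * (11/5 - B)^1 * (R - 13/2)^1 + (152097/1750) * (B - 3/2)^1 * (7 - R)^1 + (84216/875) * (B - 3/2)^1 * (R - 13/2)^1 := by ring
    rw [e]
    positivity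
  · have e : 2 * (3 + (297/100) * (B * R) - 3 * (67/100 + 247/125 * B)) - 1 / 2 * (723/10000) * ((R - 193 / 100) / (193 / 100)) * (5 + (297/100) * (B * R) + (67/100 + 247/125 * B)) =
        (300255629787/1351000000) * (11/5 - B)^1 * (7 - R)^2 + (630714013119/1351000000) * (11/5 - B)^1 * (R - 13/2)^1 * (7 - R)^1 + (165148667541/675500000) * (11/5 - B)^1 * (R - 13/2)^2 + (1087475446749/3377500000) * (B - 3/2)^1 * (7 - R)^2 + (2286172587663/3377500000) * (B - 3/2)^1 * (R - 13/2)^1 * (7 - R)^1 + (149763328833/422187500) * (B - 3/2)^1 * (R - 13/2)^2 := by ring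
    rw [e]
    positivity
  · have e : (3/2) * (2 * (3 + (297/100) * (B * R) - 3 * (67/100 + 247/125 * B)) - 1 / 2 * (723/10000) * ((R - 193 / 100) / (193 / 100)) * (5 + (297/100) * (B * R) + (67/100 + 247/125 * B))) * R + 2 * B * (5 + (297/100) * (B * R) + (67/100 + 247/125 * B)) * ((B + 1 / 2 - (19/25)) * R - 200 / 99 * (R - 1)) =
        (1084546635293/1323980000) * (11/5 - B)^3 * (7 - R)^3 + (1051028847247/416108000) * (11/5 - B)^3 * (R - 13/2)^1 * (7 - R)^2 + (9456021675589/3640945000) * (11/5 - B)^3 * (R - 13/2)^2 * (7 - R)^1 + (3240693861171/3640945000) * (11/5 - B)^3 * (R - 13/2)^3 + (28470748532057/2482462500) * (B - 3/2)^1 * (11/5 - B)^2 * (7 - R)^3 + (55609714023701/1560405000) * (B - 3/2)^1 * (11/5 - B)^2 * (R - 13/2)^1 * (7 - R)^2 + (2015611278373613/54614175000) * (B - 3/2)^1 * (11/5 - B)^2 * (R - 13/2)^2 * (7 - R)^1 + (115926444258347/9102362500) * (B - 3/2)^1 * (11/5 - B)^2 *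 (R - 13/2)^3 + (1747070829897061/59579100000) * (B - 3/2)^2 * (11/5 - B)^1 * (7 - R)^3 + (1711302072253199/18724860000) * (B - 3/2)^2 * (11/5 - B)^1 * (R - 13/2)^1 * (7 - R)^2 + (15551207489971403/163842525000) * (B - 3/2)^2 * (11/5 - B)^1 * (R - 13/2)^2 * (7 - R)^1 + (1793841323088589/54614175000) * (B - 3/2)^2 * (11/5 - B)^1 * (R - 13/2)^3 + (622219678867139/29789550000) * (B - 3/2)^3 * (7 - R)^3 + (287726911937/4410000) * (B - 3/2)^3 * (R - 13/2)^1 * (7 - R)^2 + (1011463373510479/14894775000) * (B - 3/2)^3 * (R - 13/2)^2 * (7 - R)^1 + (14615316499519/620615625) * (B - 3/2)^3 * (R - 13/2)^3 := by ring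
    rw [e]
    positivity

theorem nb_21 : Nb (7) (357/25) (577/50) (137/50) (433/500) (181/1000) (57/20) (19/25) 23 26 28 29 32 33 37 41 47 53 where
  hXm0 := by norm_num
  hXm := by norm_num
  hκ11 := by norm_num
  hβ1 := by norm_num
  hc := by norm_num
  hc0 := by norm_num
  hγ0 := by norm_num
  hR1 := by norm_num
  n1 := by rw [max_eq_left (by norm_num : (1:ℝ) ≤ 137/50)]; norm_num
  n1c := by norm_num
  n2 := by rw [max_eq_left (by norm_num : (1:ℝ) ≤ 137/50)]; norm_num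
  s := by constructor <;> constructor <;> norm_num
  hk8 := by norm_num
  hk9 := by norm_num
  n4 := by rw [max_eq_left (by norm_num : (1:ℝ) ≤ 137/50)]; norm_num [Vs, Vc, I0]

theorem row_21 {M : ℕ} {a : ℝ} {ζ z : Fin (M + 1) → ℂ} (h : Fr (M + 1) a ζ z)
    (hM : 99 ≤ M) (hmax : ∀ k, ‖u a ζ k‖ ≤ ‖u a ζ 0‖) {c0 : ℝ} (hc1 : 1 ≤ c0)
    (hroot : (c0 - 1) * (c0 - kap a ζ) = pr a ζ) (hd : DS a ζ ≤ 7 / 2) {B R : ℝ}
    (hB : B = (1 - a) * ‖u a ζ 0‖) (hR : (M : ℝ) + 1 = R * ‖u a ζ 0‖)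
    (hC : 10 ≤ a * ‖u a ζ 0‖) (b0 : 3/2 ≤ B) (b1 : B ≤ 11/5) (r0 : 13/2 ≤ R) (r1 : R ≤ 7) : False := by
  have ht0 : 0 < ‖u a ζ 0‖ := norm_pos_iff.2 (h.u_ne 0)
  have hM99 : (99 : ℝ) ≤ M := by exact_mod_cast hM
  have ha1 := h.a1
  have ht : 100 / (7) ≤ ‖u a ζ 0‖ := by
    rw [div_le_iff₀ (by norm_num)]
    have := mul_le_mul_of_nonneg_right r1 ht0.le
    linarith
  have hb : 1 - a ≤ 77/500 := by
    have h1 : (1 - a) * (100 / (7)) ≤ 11/5 := by
      have := mul_le_mul_of_nonneg_left ht (by linarith : 0 ≤ 1 - a)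
      linarith
    norm_num at h1 ⊢
    linarith
  have hρ : (1 - a) ^ 2 ≤ 3 - (297/100) := by
    have := pow_le_pow_left₀ (by linarith : 0 ≤ 1 - a) hb 2
    norm_num at this ⊢
    linarith
  obtain ⟨g1, g2, g3⟩ := gb_21 b0 b1 r0 r1
  have hγ := Gam_ge_z h hM hmax hroot (z := 3/2) (ψ := 723/10000) (r := 67/100 + 247/125 * B) (ρ := 297/100) (γ := 19/25)
    hB hR (by norm_num at ht ⊢; linarith) (by linarith) (by linarith) (by norm_num) (by norm_num)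
    psi_15 (by linarith) (by nlinarith) (by nlinarith [mul_nonneg (sub_nonneg.2 b0) (sub_nonneg.2 b1)]) hρ (by norm_num) g1 g2 g3
  refine row_fin h hM hmax hc1 hroot hd (B1 := 11/5) (R0 := 13/2) ?_ ?_ (by norm_num) hC
    (by rw [← hB]; exact b1) hγ (by norm_num) (by norm_num) (by norm_num) (by norm_num) nb_21
  · rw [hR]; exact mul_le_mul_of_nonneg_right r0 ht0.le
  · rw [hR]; exact mul_le_mul_of_nonneg_right r1 ht0.le

theorem gb_22 {B R : ℝ} (b0 : 11/5 ≤ B) (b1 : B ≤ 14/5) (r0 : 13/2 ≤ R) (r1 : R ≤ 7) :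
    0 ≤ 3 + (74/25) * (B * R) - 3 * (31/50 + 999/500 * B) ∧
    0 ≤ 2 * (3 + (74/25) * (B * R) - 3 * (31/50 + 999/500 * B)) - 1 / 2 * (723/10000) * ((R - 193 / 100) / (193 / 100)) * (5 + (74/25) * (B * R) + (31/50 + 999/500 * B)) ∧
    0 ≤ (3/2) * (2 * (3 + (74/25) * (B * R) - 3 * (31/50 + 999/500 * B)) - 1 / 2 * (723/10000) * ((R - 193 / 100) / (193 / 100)) * (5 + (74/25) * (B * R) + (31/50 + 999/500 * B))) * R + 2 * B * (5 + (74/25) * (B * R) + (31/50 + 999/500 * B)) * ((B + 1 / 2 - (1181/1000)) * R - 200 / 99 * (R - 1)) := by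
  have hu : 0 ≤ B - 11/5 := by linarith
  have hv : 0 ≤ 14/5 - B := by linarith
  have hp : 0 ≤ R - 13/2 := by linarith
  have hq : 0 ≤ 7 - R := by linarith
  refine ⟨?_, ?_, ?_⟩
  · have e : 3 + (74/25) * (B * R) - 3 * (31/50 + 999/500 * B) =
        (75703/750) * (14/5 - B)^1 * (7 - R)^1 + (83843/750) * (14/5 - B)^1 * (R - 13/2)^1 + (47786/375) * (B - 11/5)^1 * (7 - R)^1 + (52966/375) * (B - 11/5)^1 * (R - 13/2)^1 := by ring
    rw [e]
    positivity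
  · have e : 2 * (3 + (74/25) * (B * R) - 3 * (31/50 + 999/500 * B)) - 1 / 2 * (723/10000) * ((R - 193 / 100) / (193 / 100)) * (5 + (74/25) * (B * R) + (31/50 + 999/500 * B)) =
        (541189906951/1447500000) * (14/5 - B)^1 * (7 - R)^2 + (47408354813/60312500) * (14/5 - B)^1 * (R - 13/2)^1 * (7 - R)^1 + (596316347561/1447500000) * (14/5 - B)^1 * (R - 13/2)^2 + (171013170931/361875000) * (B - 11/5)^1 * (7 - R)^2 + (59949138587/60312500) * (B - 11/5)^1 * (R - 13/2)^1 * (7 - R)^1 + (188588032091/361875000) * (B - 11/5)^1 * (R - 13/2)^2 := by ring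
    rw [e]
    positivity
  · have e : (3/2) * (2 * (3 + (74/25) * (B * R) - 3 * (31/50 + 999/500 * B)) - 1 / 2 * (723/10000) * ((R - 193 / 100) / (193 / 100)) * (5 + (74/25) * (B * R) + (31/50 + 999/500 * B))) * R + 2 * B * (5 + (74/25) * (B * R) + (31/50 + 999/500 * B)) * ((B + 1 / 2 - (1181/1000)) * R - 200 / 99 * (R - 1)) =
        (90935979947977/9379800000) * (14/5 - B)^3 * (7 - R)^3 + (28066248346723/937980000) * (14/5 - B)^3 * (R - 13/2)^1 * (7 - R)^2 + (96220953786973/3126600000) * (14/5 - B)^3 * (R - 13/2)^2 * (7 - R)^1 + (5496022933037/521100000) * (14/5 - B)^3 * (R - 13/2)^3 + (3892538710001/62532000) * (B - 11/5)^1 * (14/5 - B)^2 * (7 - R)^3 + (22172592801881/114642000) * (B - 11/5)^1 * (14/5 - B)^2 * (R - 13/2)^1 * (7 - R)^2 + (137737159716161/687852000) * (B - 11/5)^1 * (14/5 - B)^2 * (R - 13/2)^2 * (7 - R)^1 + (7919603650601/114642000) * (B - 11/5)^1 * (14/5 - B)^2 * (R - 13/2)^3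 + (349815278823691/3126600000) * (B - 11/5)^2 * (14/5 - B)^1 * (7 - R)^3 + (1199337061427899/3439260000) * (B - 11/5)^2 * (14/5 - B)^1 * (R - 13/2)^1 * (7 - R)^2 + (12455861241472247/34392600000) * (B - 11/5)^2 * (14/5 - B)^1 * (R - 13/2)^2 * (7 - R)^1 + (718392568107143/5732100000) * (B - 11/5)^2 * (14/5 - B)^1 * (R - 13/2)^3 + (1154437323857/18759600) * (B - 11/5)^3 * (7 - R)^3 + (49572899008769/257944500) * (B - 11/5)^3 * (R - 13/2)^1 * (7 - R)^2 + (7642232696017/38214000) * (B - 11/5)^3 * (R - 13/2)^2 * (7 - R)^1 + (3974534847941/57321000) * (B - 11/5)^3 * (R - 13/2)^3 := by ring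
    rw [e]
    positivity

theorem nb_22 : Nb (7) (357/25) (547/50) (167/50) (433/500) (181/1000) (307/100) (1181/1000) 22 25 27 27 30 32 35 39 44 53 where
  hXm0 := by norm_num
  hXm := by norm_num
  hκ11 := by norm_num
  hβ1 := by norm_num
  hc := by norm_num
  hc0 := by norm_num
  hγ0 := by norm_num
  hR1 := by norm_num
  n1 := by rw [max_eq_left (by norm_num : (1:ℝ) ≤ 167/50)]; norm_num
  n1c := by norm_num
  n2 := by rw [max_eq_left (by norm_num : (1:ℝ) ≤ 167/50)]; norm_num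
  s := by constructor <;> constructor <;> norm_num
  hk8 := by norm_num
  hk9 := by norm_num
  n4 := by rw [max_eq_left (by norm_num : (1:ℝ) ≤ 167/50)]; norm_num [Vs, Vc, I0]

theorem row_22 {M : ℕ} {a : ℝ} {ζ z : Fin (M + 1) → ℂ} (h : Fr (M + 1) a ζ z)
    (hM : 99 ≤ M) (hmax : ∀ k, ‖u a ζ k‖ ≤ ‖u a ζ 0‖) {c0 : ℝ} (hc1 : 1 ≤ c0)
    (hroot : (c0 - 1) * (c0 - kap a ζ) = pr a ζ) (hd : DS a ζ ≤ 7 / 2) {B R : ℝ}
    (hB : B = (1 - a) * ‖u a ζ 0‖) (hR : (M : ℝ) + 1 = R * ‖u a ζ 0‖)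
    (hC : 10 ≤ a * ‖u a ζ 0‖) (b0 : 11/5 ≤ B) (b1 : B ≤ 14/5) (r0 : 13/2 ≤ R) (r1 : R ≤ 7) : False := by
  have ht0 : 0 < ‖u a ζ 0‖ := norm_pos_iff.2 (h.u_ne 0)
  have hM99 : (99 : ℝ) ≤ M := by exact_mod_cast hM
  have ha1 := h.a1
  have ht : 100 / (7) ≤ ‖u a ζ 0‖ := by
    rw [div_le_iff₀ (by norm_num)]
    have := mul_le_mul_of_nonneg_right r1 ht0.le
    linarith
  have hb : 1 - a ≤ 49/250 := by
    have h1 : (1 - a) * (100 / (7)) ≤ 14/5 := by
      have := mul_le_mul_of_nonneg_left ht (by linarith : 0 ≤ 1 - a)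
      linarith
    norm_num at h1 ⊢
    linarith
  have hρ : (1 - a) ^ 2 ≤ 3 - (74/25) := by
    have := pow_le_pow_left₀ (by linarith : 0 ≤ 1 - a) hb 2
    norm_num at this ⊢
    linarith
  obtain ⟨g1, g2, g3⟩ := gb_22 b0 b1 r0 r1
  have hγ := Gam_ge_z h hM hmax hroot (z := 3/2) (ψ := 723/10000) (r := 31/50 + 999/500 * B) (ρ := 74/25) (γ := 1181/1000)
    hB hR (by norm_num at ht ⊢; linarith) (by linarith) (by linarith) (by norm_num) (by norm_num)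
    psi_15 (by linarith) (by nlinarith) (by nlinarith [mul_nonneg (sub_nonneg.2 b0) (sub_nonneg.2 b1)]) hρ (by norm_num) g1 g2 g3
  refine row_fin h hM hmax hc1 hroot hd (B1 := 14/5) (R0 := 13/2) ?_ ?_ (by norm_num) hC
    (by rw [← hB]; exact b1) hγ (by norm_num) (by norm_num) (by norm_num) (by norm_num) nb_22
  · rw [hR]; exact mul_le_mul_of_nonneg_right r0 ht0.le
  · rw [hR]; exact mul_le_mul_of_nonneg_right r1 ht0.le

theorem gb_23 {B R : ℝ} (b0 : 14/5 ≤ B) (b1 : B ≤ 33/10) (r0 : 13/2 ≤ R) (r1 : R ≤ 7) :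
    0 ≤ 3 + (147/50) * (B * R) - 3 * (31/50 + 2 * B) ∧
    0 ≤ 2 * (3 + (147/50) * (B * R) - 3 * (31/50 + 2 * B)) - 1 / 2 * (723/10000) * ((R - 193 / 100) / (193 / 100)) * (5 + (147/50) * (B * R) + (31/50 + 2 * B)) ∧
    0 ≤ (3/2) * (2 * (3 + (147/50) * (B * R) - 3 * (31/50 + 2 * B)) - 1 / 2 * (723/10000) * ((R - 193 / 100) / (193 / 100)) * (5 + (147/50) * (B * R) + (31/50 + 2 * B))) * R + 2 * B * (5 + (147/50) * (B * R) + (31/50 + 2 * B)) * ((B + 1 / 2 - (41/25)) * R - 200 / 99 * (R - 1)) := by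
  have hu : 0 ≤ B - 14/5 := by linarith
  have hv : 0 ≤ 33/10 - B := by linarith
  have hp : 0 ≤ R - 13/2 := by linarith
  have hq : 0 ≤ 7 - R := by linarith
  refine ⟨?_, ?_, ?_⟩
  · have e : 3 + (147/50) * (B * R) - 3 * (31/50 + 2 * B) =
        (18924/125) * (33/10 - B)^1 * (7 - R)^1 + (20982/125) * (33/10 - B)^1 * (R - 13/2)^1 + (44403/250) * (B - 14/5)^1 * (7 - R)^1 + (24627/125) * (B - 14/5)^1 * (R - 13/2)^1 := by ring
    rw [e]
    positivity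
  · have e : 2 * (3 + (147/50) * (B * R) - 3 * (31/50 + 2 * B)) - 1 / 2 * (723/10000) * ((R - 193 / 100) / (193 / 100)) * (5 + (147/50) * (B * R) + (31/50 + 2 * B)) =
        (33849964599/60312500) * (33/10 - B)^1 * (7 - R)^2 + (142418766177/120625000) * (33/10 - B)^1 * (R - 13/2)^1 * (7 - R)^1 + (74681638629/120625000) * (33/10 - B)^1 * (R - 13/2)^2 + (317916828687/482500000) * (B - 14/5)^1 * (7 - R)^2 + (668959073163/482500000) * (B - 14/5)^1 * (R - 13/2)^1 * (7 - R)^1 + (175433440413/241250000) * (B - 14/5)^1 * (R - 13/2)^2 := by ring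
    rw [e]
    positivity
  · have e : (3/2) * (2 * (3 + (147/50) * (B * R) - 3 * (31/50 + 2 * B)) - 1 / 2 * (723/10000) * ((R - 193 / 100) / (193 / 100)) * (5 + (147/50) * (B * R) + (31/50 + 2 * B))) * R + 2 * B * (5 + (147/50) * (B * R) + (31/50 + 2 * B)) * ((B + 1 / 2 - (41/25)) * R - 200 / 99 * (R - 1)) =
        (1095505636321/30156250) * (33/10 - B)^3 * (7 - R)^3 + (223387265504947/1990312500) * (33/10 - B)^3 * (R - 13/2)^1 * (7 - R)^2 + (45996525118409/398062500) * (33/10 - B)^3 * (R - 13/2)^2 * (7 - R)^1 + (13149174907939/331718750) * (33/10 - B)^3 * (R - 13/2)^3 + (411343335678881/2171250000) * (B - 14/5)^1 * (33/10 - B)^2 * (7 - R)^3 + (14055889577423057/23883750000) * (B - 14/5)^1 * (33/10 - B)^2 * (R - 13/2)^1 * (7 - R)^2 + (727482190023221/1194187500) * (B - 14/5)^1 * (33/10 - B)^2 * (R - 13/2)^2 * (7 - R)^1 + (418199204102117/1990312500) * (B - 14/5)^1 * (33/10 - B)^2 * (R - 13/2)^3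 + (320756643622213/1085625000) * (B - 14/5)^2 * (33/10 - B)^1 * (7 - R)^3 + (10992415686716011/11941875000) * (B - 14/5)^2 * (33/10 - B)^1 * (R - 13/2)^1 * (7 - R)^2 + (1141140078384761/1194187500) * (B - 14/5)^2 * (33/10 - B)^1 * (R - 13/2)^2 * (7 - R)^1 + (164468083256333/497578125) * (B - 14/5)^2 * (33/10 - B)^1 * (R - 13/2)^3 + (104604402160219/723750000) * (B - 14/5)^3 * (7 - R)^3 + (326502419326313/723750000) * (B - 14/5)^3 * (R - 13/2)^1 * (7 - R)^2 + (16978645209599/36187500) * (B - 14/5)^3 * (R - 13/2)^2 * (7 - R)^1 + (9806109062753/60312500) * (B - 14/5)^3 * (R - 13/2)^3 := by ring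
    rw [e]
    positivity

theorem nb_23 : Nb (7) (357/25) (261/25) (96/25) (433/500) (181/1000) (167/50) (41/25) 21 24 25 26 29 30 34 37 42 53 where
  hXm0 := by norm_num
  hXm := by norm_num
  hκ11 := by norm_num
  hβ1 := by norm_num
  hc := by norm_num
  hc0 := by norm_num
  hγ0 := by norm_num
  hR1 := by norm_num
  n1 := by rw [max_eq_left (by norm_num : (1:ℝ) ≤ 96/25)]; norm_num
  n1c := by norm_num
  n2 := by rw [max_eq_left (by norm_num : (1:ℝ) ≤ 96/25)]; norm_num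
  s := by constructor <;> constructor <;> norm_num
  hk8 := by norm_num
  hk9 := by norm_num
  n4 := by rw [max_eq_left (by norm_num : (1:ℝ) ≤ 96/25)]; norm_num [Vs, Vc, I0]

theorem row_23 {M : ℕ} {a : ℝ} {ζ z : Fin (M + 1) → ℂ} (h : Fr (M + 1) a ζ z)
    (hM : 99 ≤ M) (hmax : ∀ k, ‖u a ζ k‖ ≤ ‖u a ζ 0‖) {c0 : ℝ} (hc1 : 1 ≤ c0)
    (hroot : (c0 - 1) * (c0 - kap a ζ) = pr a ζ) (hd : DS a ζ ≤ 7 / 2) {B R : ℝ}
    (hB : B = (1 - a) * ‖u a ζ 0‖) (hR : (M : ℝ) + 1 = R * ‖u a ζ 0‖)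
    (hC : 10 ≤ a * ‖u a ζ 0‖) (b0 : 14/5 ≤ B) (b1 : B ≤ 33/10) (r0 : 13/2 ≤ R) (r1 : R ≤ 7) : False := by
  have ht0 : 0 < ‖u a ζ 0‖ := norm_pos_iff.2 (h.u_ne 0)
  have hM99 : (99 : ℝ) ≤ M := by exact_mod_cast hM
  have ha1 := h.a1
  have ht : 100 / (7) ≤ ‖u a ζ 0‖ := by
    rw [div_le_iff₀ (by norm_num)]
    have := mul_le_mul_of_nonneg_right r1 ht0.le
    linarith
  have hb : 1 - a ≤ 231/1000 := by
    have h1 : (1 - a) * (100 / (7)) ≤ 33/10 := by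
      have := mul_le_mul_of_nonneg_left ht (by linarith : 0 ≤ 1 - a)
      linarith
    norm_num at h1 ⊢
    linarith
  have hρ : (1 - a) ^ 2 ≤ 3 - (147/50) := by
    have := pow_le_pow_left₀ (by linarith : 0 ≤ 1 - a) hb 2
    norm_num at this ⊢
    linarith
  obtain ⟨g1, g2, g3⟩ := gb_23 b0 b1 r0 r1
  have hγ := Gam_ge_z h hM hmax hroot (z := 3/2) (ψ := 723/10000) (r := 31/50 + 2 * B) (ρ := 147/50) (γ := 41/25)
    hB hR (by norm_num at ht ⊢; linarith) (by linarith) (by linarith) (by norm_num) (by norm_num)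
    psi_15 (by linarith) (by nlinarith) (by nlinarith [mul_nonneg (sub_nonneg.2 b0) (sub_nonneg.2 b1)]) hρ (by norm_num) g1 g2 g3
  refine row_fin h hM hmax hc1 hroot hd (B1 := 33/10) (R0 := 13/2) ?_ ?_ (by norm_num) hC
    (by rw [← hB]; exact b1) hγ (by norm_num) (by norm_num) (by norm_num) (by norm_num) nb_23
  · rw [hR]; exact mul_le_mul_of_nonneg_right r0 ht0.le
  · rw [hR]; exact mul_le_mul_of_nonneg_right r1 ht0.le

theorem gb_24 {B R : ℝ} (b0 : 33/10 ≤ B) (b1 : B ≤ 7/2) (r0 : 13/2 ≤ R) (r1 : R ≤ 7) :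
    0 ≤ 3 + (293/100) * (B * R) - 3 * (31/50 + 2 * B) ∧
    0 ≤ 2 * (3 + (293/100) * (B * R) - 3 * (31/50 + 2 * B)) - 1 / 2 * (723/10000) * ((R - 193 / 100) / (193 / 100)) * (5 + (293/100) * (B * R) + (31/50 + 2 * B)) ∧
    0 ≤ (3/2) * (2 * (3 + (293/100) * (B * R) - 3 * (31/50 + 2 * B)) - 1 / 2 * (723/10000) * ((R - 193 / 100) / (193 / 100)) * (5 + (293/100) * (B * R) + (31/50 + 2 * B))) * R + 2 * B * (5 + (293/100) * (B * R) + (31/50 + 2 * B)) * ((B + 1 / 2 - (567/250)) * R - 200 / 99 * (R - 1)) := by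
  have hu : 0 ≤ B - 33/10 := by linarith
  have hv : 0 ≤ 7/2 - B := by linarith
  have hp : 0 ≤ R - 13/2 := by linarith
  have hq : 0 ≤ 7 - R := by linarith
  refine ⟨?_, ?_, ?_⟩
  · have e : 3 + (293/100) * (B * R) - 3 * (31/50 + 2 * B) =
        (88377/200) * (7/2 - B)^1 * (7 - R)^1 + (49023/100) * (7/2 - B)^1 * (R - 13/2)^1 + (18719/40) * (B - 33/10)^1 * (7 - R)^1 + (2077/4) * (B - 33/10)^1 * (R - 13/2)^1 := by ring
    rw [e]
    positivity
  · have e : 2 * (3 + (293/100) * (B * R) - 3 * (31/50 + 2 * B)) - 1 / 2 * (723/10000) * ((R - 193 / 100) / (193 / 100)) * (5 + (293/100) * (B * R) + (31/50 + 2 * B)) =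
        (632663523693/386000000) * (7/2 - B)^1 * (7 - R)^2 + (1331349530877/386000000) * (7/2 - B)^1 * (R - 13/2)^1 * (7 - R)^1 + (349168236417/193000000) * (7/2 - B)^1 * (R - 13/2)^2 + (134033016779/77200000) * (B - 33/10)^1 * (7 - R)^2 + (282075727947/77200000) * (B - 33/10)^1 * (R - 13/2)^1 * (7 - R)^1 + (73984283759/38600000) * (B - 33/10)^1 * (R - 13/2)^2 := by ring
    rw [e]
    positivity
  · have e : (3/2) * (2 * (3 + (293/100) * (B * R) - 3 * (31/50 + 2 * B)) - 1 / 2 * (723/10000) * ((R - 193 / 100) / (193 / 100)) * (5 + (293/100) * (B * R) + (31/50 + 2 * B))) * R + 2 * B * (5 + (293/100) * (B * R) + (31/50 + 2 * B)) * ((B + 1 / 2 - (567/250)) * R - 200 / 99 * (R - 1)) =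
        (21095351445233/92640000) * (7/2 - B)^3 * (7 - R)^3 + (62092226894311/92640000) * (7/2 - B)^3 * (R - 13/2)^1 * (7 - R)^2 + (759127011883/1158000) * (7/2 - B)^3 * (R - 13/2)^2 * (7 - R)^1 + (1644178307701/7720000) * (7/2 - B)^3 * (R - 13/2)^3 + (363500574753647/277920000) * (B - 33/10)^1 * (7/2 - B)^2 * (7 - R)^3 + (12125515217835779/3057120000) * (B - 33/10)^1 * (7/2 - B)^2 * (R - 13/2)^1 * (7 - R)^2 + (38271369281411/9553500) * (B - 33/10)^1 * (7/2 - B)^2 * (R - 13/2)^2 * (7 - R)^1 + (343292628981809/254760000) * (B - 33/10)^1 * (7/2 - B)^2 * (R - 13/2)^3 + (557488804376293/277920000) * (B - 33/10)^2 * (7/2 - B)^1 * (7 - R)^3 + (6268895164921787/1019040000) * (B - 33/10)^2 * (7/2 - B)^1 * (R - 13/2)^1 * (7 - R)^2 + (240208054637879/38214000) * (B - 33/10)^2 * (7/2 - B)^1 * (R - 13/2)^2 * (7 - R)^1 + (545167642171811/254760000) * (B - 33/10)^2 * (7/2 - B)^1 * (R - 13/2)^3 + (51576512380789/55584000)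 * (B - 33/10)^3 * (7 - R)^3 + (1750253483234609/611424000) * (B - 33/10)^3 * (R - 13/2)^1 * (7 - R)^2 + (6247202411843/2123000) * (B - 33/10)^3 * (R - 13/2)^2 * (7 - R)^1 + (17118345191689/16984000) * (B - 33/10)^3 * (R - 13/2)^3 := by ring
    rw [e]
    positivity

theorem row_24 {M : ℕ} {a : ℝ} {ζ z : Fin (M + 1) → ℂ} (h : Fr (M + 1) a ζ z)
    (hM : 99 ≤ M) (hmax : ∀ k, ‖u a ζ k‖ ≤ ‖u a ζ 0‖) {c0 : ℝ} (hc1 : 1 ≤ c0)
    (hroot : (c0 - 1) * (c0 - kap a ζ) = pr a ζ) (hd : DS a ζ ≤ 7 / 2) {B R : ℝ}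
    (hB : B = (1 - a) * ‖u a ζ 0‖) (hR : (M : ℝ) + 1 = R * ‖u a ζ 0‖)
    (hC : 10 ≤ a * ‖u a ζ 0‖) (b0 : 33/10 ≤ B) (b1 : B ≤ 7/2) (r0 : 13/2 ≤ R) (r1 : R ≤ 7) : 567/250 ≤ Gam a ζ c0 := by
  have ht0 : 0 < ‖u a ζ 0‖ := norm_pos_iff.2 (h.u_ne 0)
  have hM99 : (99 : ℝ) ≤ M := by exact_mod_cast hM
  have ha1 := h.a1
  have ht : 100 / (7) ≤ ‖u a ζ 0‖ := by
    rw [div_le_iff₀ (by norm_num)]
    have := mul_le_mul_of_nonneg_right r1 ht0.le
    linarith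
  have hb : 1 - a ≤ 49/200 := by
    have h1 : (1 - a) * (100 / (7)) ≤ 7/2 := by
      have := mul_le_mul_of_nonneg_left ht (by linarith : 0 ≤ 1 - a)
      linarith
    norm_num at h1 ⊢
    linarith
  have hρ : (1 - a) ^ 2 ≤ 3 - (293/100) := by
    have := pow_le_pow_left₀ (by linarith : 0 ≤ 1 - a) hb 2
    norm_num at this ⊢
    linarith
  obtain ⟨g1, g2, g3⟩ := gb_24 b0 b1 r0 r1
  have hγ := Gam_ge_z h hM hmax hroot (z := 3/2) (ψ := 723/10000) (r := 31/50 + 2 * B) (ρ := 293/100) (γ := 567/250)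
    hB hR (by norm_num at ht ⊢; linarith) (by linarith) (by linarith) (by norm_num) (by norm_num)
    psi_15 (by linarith) (by nlinarith) (by nlinarith [mul_nonneg (sub_nonneg.2 b0) (sub_nonneg.2 b1)]) hρ (by norm_num) g1 g2 g3
  exact hγ

end Pool.Agent.Lib.MP_172a45_an.L
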