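import Pool.Agent.Lib.MP_172a45_an.L.LcNumA
import Pool.Agent.Lib.MP_172a45_an.L.LcNumB
import Pool.Agent.Lib.MP_172a45_an.L.LcNumC
import Pool.Agent.Lib.MP_172a45_an.L.LcNumD
import Pool.Agent.Lib.MP_172a45_an.L.LcNumE
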