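import Pool.Agent.Lib.MP_172a45_an.L.LcGam
import Pool.Agent.Lib.MP_172a45_an.L.LcBox

set_option autoImplicit false

/-!
# The boxes of part L-c (generated)
-/

namespace Pool.Agent.Lib.MP_172a45_an.L

open Finset Real
open Pool.Agent.Lib.MP_172a45_an.F
open Pool.Agent.Lib.MP_172a45_an.F.Fr

/-- common end of all boxes -/
theorem row_fin {M : ℕ} {a : ℝ} {ζ z : Fin (M + 1) → ℂ} (h : Fr (M + 1) a ζ z) (hM : 99 ≤ M)
    (hmax : ∀ k, ‖u a ζ k‖ ≤ ‖u a ζ 0‖) {c0 : ℝ} (hc1 : 1 ≤ c0)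
    (hroot : (c0 - 1) * (c0 - kap a ζ) = pr a ζ) (hd : DS a ζ ≤ 7 / 2)
    {B1 R0 R1 tm Xm β κ1 μ1 c γ : ℝ} {k0 k1 k2 k3 k4 k5 k6 k7 k8 k9 : ℕ}
    (hR0 : R0 * ‖u a ζ 0‖ ≤ (M : ℝ) + 1) (hR : (M : ℝ) + 1 ≤ R1 * ‖u a ζ 0‖) (hR0' : 0 < R0)
    (hC : 10 ≤ a * ‖u a ζ 0‖) (hB : (1 - a) * ‖u a ζ 0‖ ≤ B1) (hγ : γ ≤ Gam a ζ c0)
    (e1 : tm * R1 ≤ 100) (e2 : (1 - 1 / R1) * (100 / 99) ≤ κ1)
    (e3 : 1 / R0 + (1 / R0 + 5 / 2) / 99 ≤ μ1) (e4 : B1 + 27 / 50 ≤ β)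
    (nb : Nb R1 tm Xm β κ1 μ1 c γ k0 k1 k2 k3 k4 k5 k6 k7 k8 k9) : False := by
  have hM0 : 0 < M := by omega
  have hM99 : (99 : ℝ) ≤ M := by exact_mod_cast hM
  have hM0' : (0 : ℝ) < M := by linarith
  have hR1 : 0 < R1 := by linarith [nb.hR1]
  have hd0 := DS_nonneg h
  refine box h hM hmax hc1 hroot (tm := tm) ?_ hR hd hC (by linarith) ?_ ?_ hγ nb
  · have h1 : tm * R1 ≤ ‖u a ζ 0‖ * R1 := by linarith
    exact le_of_mul_le_mul_right h1 hR1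
  · refine (kap_le h hM0).trans (le_trans ?_ e2)
    have h2 : 0 ≤ DS a ζ / M := div_nonneg hd0 hM0'.le
    have h3 : (M + 1 - ‖u a ζ 0‖) / M ≤ (1 - 1 / R1) * (100 / 99) := by
      have h4 : ((M : ℝ) + 1) / R1 ≤ ‖u a ζ 0‖ := by
        rw [div_le_iff₀ hR1]; linarith
      have h5 : (M : ℝ) + 1 - ‖u a ζ 0‖ ≤ (1 - 1 / R1) * (M + 1) := by
        have e : (1 - 1 / R1) * ((M : ℝ) + 1) = M + 1 - (M + 1) / R1 := by ring
        rw [e]; linarith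
      have h6 : 0 ≤ 1 - 1 / R1 := by
        rw [sub_nonneg, div_le_one hR1]; linarith [nb.hR1]
      rw [div_le_iff₀ hM0']
      have h7 : (M : ℝ) + 1 ≤ 100 / 99 * M := by linarith
      have h8 := mul_le_mul_of_nonneg_left h7 h6
      linarith
    linarith
  · have h1 := m_eq h hM0
    have h4 : ‖u a ζ 0‖ ≤ ((M : ℝ) + 1) / R0 := by
      rw [le_div_iff₀ hR0']; linarith
    have h5 : (M : ℝ) * (1 - kap a ζ) ≤ M * μ1 := by
      have h6 : (M : ℝ) * (1 / R0 + (1 / R0 + 5 / 2) / 99) ≤ M * μ1 :=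
        mul_le_mul_of_nonneg_left e3 hM0'.le
      have h7 : ((M : ℝ) + 1) / R0 + 5 / 2 ≤ M * (1 / R0 + (1 / R0 + 5 / 2) / 99) := by
        have h8 : 0 ≤ 1 / R0 + 5 / 2 := by positivity
        have e : (M : ℝ) * (1 / R0 + (1 / R0 + 5 / 2) / 99) - (((M : ℝ) + 1) / R0 + 5 / 2) =
            (1 / R0 + 5 / 2) * (M / 99 - 1) := by ring
        have h9 : 0 ≤ (1 / R0 + 5 / 2) * ((M : ℝ) / 99 - 1) :=
          mul_nonneg h8 (by
            rw [sub_nonneg, le_div_iff₀ (by norm_num)]; linarith)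
        linarith
      linarith
    exact le_of_mul_le_mul_left h5 hM0'

theorem psi_13 : psi (13 / 10) ≤ 159 / 5000 := by
  unfold psi
  have h1 : Real.log (13 / 10) ≤ 2625 / 10000 := by
    rw [Real.log_le_iff_le_exp (by norm_num)]
    refine le_trans ?_ (Real.sum_le_exp_of_nonneg (by norm_num) 5)
    norm_num [Finset.sum_range_succ, Nat.factorial]
  norm_num at h1 ⊢
  linarith

theorem psi_15 : psi (3 / 2) ≤ 723 / 10000 := by
  unfold psi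
  have h1 : Real.log (3 / 2) ≤ 4056 / 10000 := by
    rw [Real.log_le_iff_le_exp (by norm_num)]
    refine le_trans ?_ (Real.sum_le_exp_of_nonneg (by norm_num) 6)
    norm_num [Finset.sum_range_succ, Nat.factorial]
  norm_num at h1 ⊢
  linarith

theorem psi_2 : psi 2 ≤ 483 / 2500 := by
  unfold psi
  have := Real.log_two_lt_d9
  norm_num at this ⊢
  linarith

theorem psi_1' : psi 1 ≤ 0 := by rw [psi_one]

end Pool.Agent.Lib.MP_172a45_an.L
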