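import Pool.Agent.Lib.MP_172a45_an.L.LcNum0

set_option autoImplicit false

/-!
# The boxes of part L-c (generated)
-/

namespace Pool.Agent.Lib.MP_172a45_an.L

open Finset Real
open Pool.Agent.Lib.MP_172a45_an.F
open Pool.Agent.Lib.MP_172a45_an.F.Fr

theorem gb_0 {B R : ℝ} (b0 : 0 ≤ B) (b1 : B ≤ 3/20) (r0 : 31/10 ≤ R) (r1 : R ≤ 4) :
    0 ≤ 3 + (299/100) * (B * R) - 3 * (1 + 6/5 * B) ∧
    0 ≤ 2 * (3 + (299/100) * (B * R) - 3 * (1 + 6/5 * B)) - 1 / 2 * (0) * ((R - 193 / 100) / (193 / 100)) * (5 + (299/100) * (B * R) + (1 + 6/5 * B)) ∧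
    0 ≤ (1) * (2 * (3 + (299/100) * (B * R) - 3 * (1 + 6/5 * B)) - 1 / 2 * (0) * ((R - 193 / 100) / (193 / 100)) * (5 + (299/100) * (B * R) + (1 + 6/5 * B))) * R + 2 * B * (5 + (299/100) * (B * R) + (1 + 6/5 * B)) * ((B + 1 / 2 - (1/40)) * R - 200 / 99 * (R - 1)) := by
  have hu : 0 ≤ B - 0 := by linarith
  have hv : 0 ≤ 3/20 - B := by linarith
  have hp : 0 ≤ R - 31/10 := by linarith
  have hq : 0 ≤ 4 - R := by linarith
  have hB : 0 ≤ B := b0
  refine ⟨?_, ?_, ?_⟩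
  · have e : 3 + (299/100) * (B * R) - 3 * (1 + 6/5 * B) =
        B * ((5669/900) * (4 - R)^1 + (418/45) * (R - 31/10)^1) := by ring
    rw [e]
    positivity
  · have e : 2 * (3 + (299/100) * (B * R) - 3 * (1 + 6/5 * B)) - 1 / 2 * (0) * ((R - 193 / 100) / (193 / 100)) * (5 + (299/100) * (B * R) + (1 + 6/5 * B)) =
        B * ((5669/450) * (4 - R)^1 + (836/45) * (R - 31/10)^1) := by ring
    rw [e]
    positivity
  · have e : (1) * (2 * (3 + (299/100) * (B * R) - 3 * (1 + 6/5 * B)) - 1 / 2 * (0) * ((R - 193 / 100) / (193 / 100)) * (5 + (299/100) * (B * R) + (1 + 6/5 * B))) * R + 2 * B * (5 + (299/100) * (B * R) + (1 + 6/5 * B)) * ((B + 1 / 2 - (1/40)) * R - 200 / 99 * (R - 1)) =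
        B * ((279944/2673) * (3/20 - B)^2 * (4 - R)^2 + (2055920/2673) * (3/20 - B)^2 * (R - 31/10)^1 * (4 - R)^1 + (828800/891) * (3/20 - B)^2 * (R - 31/10)^2 + (30708353/801900) * (B - 0)^1 * (3/20 - B)^1 * (4 - R)^2 + (36987272/40095) * (B - 0)^1 * (3/20 - B)^1 * (R - 31/10)^1 * (4 - R)^1 + (10858928/8019) * (B - 0)^1 * (3/20 - B)^1 * (R - 31/10)^2 + (439355/32076) * (B - 0)^2 * (4 - R)^2 + (260600/729) * (B - 0)^2 * (R - 31/10)^1 * (4 - R)^1 + (4442000/8019) * (B - 0)^2 * (R - 31/10)^2) := by ring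
    rw [e]
    positivity

theorem nb_0 : Nb (4) (25) (2431/100) (69/100) (379/500) (44/125) (7/4) (1/40) 56 60 63 63 67 69 76 83 95 96 where
  hXm0 := by norm_num
  hXm := by norm_num
  hκ11 := by norm_num
  hβ1 := by norm_num
  hc := by norm_num
  hc0 := by norm_num
  hγ0 := by norm_num
  hR1 := by norm_num
  n1 := by rw [max_eq_right (by norm_num : (69/100:ℝ) ≤ 1)]; norm_num
  n1c := by norm_num
  n2 := by rw [max_eq_right (by norm_num : (69/100:ℝ) ≤ 1)]; norm_num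
  s := by constructor <;> constructor <;> norm_num
  hk8 := by norm_num
  hk9 := by norm_num
  n4 := by rw [max_eq_right (by norm_num : (69/100:ℝ) ≤ 1)]; norm_num [Vs, Vc, I0]

theorem row_0 {M : ℕ} {a : ℝ} {ζ z : Fin (M + 1) → ℂ} (h : Fr (M + 1) a ζ z)
    (hM : 99 ≤ M) (hmax : ∀ k, ‖u a ζ k‖ ≤ ‖u a ζ 0‖) {c0 : ℝ} (hc1 : 1 ≤ c0)
    (hroot : (c0 - 1) * (c0 - kap a ζ) = pr a ζ) (hd : DS a ζ ≤ 7 / 2) {B R : ℝ}
    (hB : B = (1 - a) * ‖u a ζ 0‖) (hR : (M : ℝ) + 1 = R * ‖u a ζ 0‖)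
    (hC : 10 ≤ a * ‖u a ζ 0‖) (b0 : 0 ≤ B) (b1 : B ≤ 3/20) (r0 : 31/10 ≤ R) (r1 : R ≤ 4) : False := by
  have ht0 : 0 < ‖u a ζ 0‖ := norm_pos_iff.2 (h.u_ne 0)
  have hM99 : (99 : ℝ) ≤ M := by exact_mod_cast hM
  have ha1 := h.a1
  have ht : 100 / (4) ≤ ‖u a ζ 0‖ := by
    rw [div_le_iff₀ (by norm_num)]
    have := mul_le_mul_of_nonneg_right r1 ht0.le
    linarith
  have hb : 1 - a ≤ 3/500 := by
    have h1 : (1 - a) * (100 / (4)) ≤ 3/20 := by
      have := mul_le_mul_of_nonneg_left ht (by linarith : 0 ≤ 1 - a)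
      linarith
    norm_num at h1 ⊢
    linarith
  have hρ : (1 - a) ^ 2 ≤ 3 - (299/100) := by
    have := pow_le_pow_left₀ (by linarith : 0 ≤ 1 - a) hb 2
    norm_num at this ⊢
    linarith
  obtain ⟨g1, g2, g3⟩ := gb_0 b0 b1 r0 r1
  have hγ := Gam_ge_z h hM hmax hroot (z := 1) (ψ := 0) (r := 1 + 6/5 * B) (ρ := 299/100) (γ := 1/40)
    hB hR (by norm_num at ht ⊢; linarith) (by linarith) (by linarith) (by norm_num) (by norm_num)
    psi_1' (by linarith) (by nlinarith) (by nlinarith [mul_nonneg (sub_nonneg.2 b0) (sub_nonneg.2 b1)]) hρ (by norm_num) g1 g2 g3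
  refine row_fin h hM hmax hc1 hroot hd (B1 := 3/20) (R0 := 31/10) ?_ ?_ (by norm_num) hC
    (by rw [← hB]; exact b1) hγ (by norm_num) (by norm_num) (by norm_num) (by norm_num) nb_0
  · rw [hR]; exact mul_le_mul_of_nonneg_right r0 ht0.le
  · rw [hR]; exact mul_le_mul_of_nonneg_right r1 ht0.le

theorem gb_1 {B R : ℝ} (b0 : 3/20 ≤ B) (b1 : B ≤ 1/2) (r0 : 31/10 ≤ R) (r1 : R ≤ 4) :
    0 ≤ 3 + (299/100) * (B * R) - 3 * (471/500 + 1593/1000 * B) ∧
    0 ≤ 2 * (3 + (299/100) * (B * R) - 3 * (471/500 + 1593/1000 * B)) - 1 / 2 * (159/5000) * ((R - 193 / 100) / (193 / 100)) * (5 + (299/100) * (B * R) + (471/500 + 1593/1000 * B)) ∧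
    0 ≤ (13/10) * (2 * (3 + (299/100) * (B * R) - 3 * (471/500 + 1593/1000 * B)) - 1 / 2 * (159/5000) * ((R - 193 / 100) / (193 / 100)) * (5 + (299/100) * (B * R) + (471/500 + 1593/1000 * B))) * R + 2 * B * (5 + (299/100) * (B * R) + (471/500 + 1593/1000 * B)) * ((B + 1 / 2 - (73/1000)) * R - 200 / 99 * (R - 1)) := by
  have hu : 0 ≤ B - 3/20 := by linarith
  have hv : 0 ≤ 1/2 - B := by linarith
  have hp : 0 ≤ R - 31/10 := by linarith
  have hq : 0 ≤ 4 - R := by linarith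
  refine ⟨?_, ?_, ?_⟩
  · have e : 3 + (299/100) * (B * R) - 3 * (471/500 + 1593/1000 * B) =
        (113/42) * (1/2 - B)^1 * (4 - R)^1 + (8341/2100) * (1/2 - B)^1 * (R - 31/10)^1 + (2419/315) * (B - 3/20)^1 * (4 - R)^1 + (7529/630) * (B - 3/20)^1 * (R - 31/10)^1 := by ring
    rw [e]
    positivity
  · have e : 2 * (3 + (299/100) * (B * R) - 3 * (471/500 + 1593/1000 * B)) - 1 / 2 * (159/5000) * ((R - 193 / 100) / (193 / 100)) * (5 + (299/100) * (B * R) + (471/500 + 1593/1000 * B)) =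
        (10435003687/1823850000) * (1/2 - B)^1 * (4 - R)^2 + (10270982411/729540000) * (1/2 - B)^1 * (R - 31/10)^1 * (4 - R)^1 + (30446396471/3647700000) * (1/2 - B)^1 * (R - 31/10)^2 + (9125768081/547155000) * (B - 3/20)^1 * (4 - R)^2 + (46514776391/1094310000) * (B - 3/20)^1 * (R - 31/10)^1 * (4 - R)^1 + (28224732019/1094310000) * (B - 3/20)^1 * (R - 31/10)^2 := by ring
    rw [e]
    positivity
  · have e : (13/10) * (2 * (3 + (299/100) * (B * R) - 3 * (471/500 + 1593/1000 * B)) - 1 / 2 * (159/5000) * ((R - 193 / 100) / (193 / 100)) * (5 + (299/100) * (B * R) + (471/500 + 1593/1000 * B))) * R + 2 * B * (5 + (299/100) * (B * R) + (471/500 + 1593/1000 * B)) * ((B + 1 / 2 - (73/1000)) * R - 200 / 99 * (R - 1)) =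
        (1859325573073/60323838750) * (1/2 - B)^3 * (4 - R)^3 + (12885230862349/88474963500) * (1/2 - B)^3 * (R - 31/10)^1 * (4 - R)^2 + (3626839301279/16384252500) * (1/2 - B)^3 * (R - 31/10)^2 * (4 - R)^1 + (1008942877694/9479460375) * (1/2 - B)^3 * (R - 31/10)^3 + (65925560493469/995343339375) * (B - 3/20)^1 * (1/2 - B)^2 * (4 - R)^3 + (11350988571157/26542489050) * (B - 3/20)^1 * (1/2 - B)^2 * (R - 31/10)^1 * (4 - R)^2 + (170363389635533/221187408750) * (B - 3/20)^1 * (1/2 - B)^2 * (R - 31/10)^2 * (4 - R)^1 + (11608686332564/28438381125) * (B - 3/20)^1 * (1/2 - B)^2 * (R - 31/10)^3 + (108800895293219/1990686678750) * (B - 3/20)^2 * (1/2 - B)^1 * (4 - R)^3 + (102065313434509/265424890500) * (B - 3/20)^2 * (1/2 - B)^1 * (R - 31/10)^1 * (4 - R)^2 + (328672993123523/442374817500) * (B - 3/20)^2 * (1/2 - B)^1 * (R - 31/10)^2 * (4 - R)^1 + (11723281304342/28438381125) * (B - 3/20)^2 * (1/2 -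 B)^1 * (R - 31/10)^3 + (2468949561791/22118740875) * (B - 3/20)^3 * (4 - R)^3 + (6331308485027/14745827250) * (B - 3/20)^3 * (R - 31/10)^1 * (4 - R)^2 + (8512878546383/14745827250) * (B - 3/20)^3 * (R - 31/10)^2 * (4 - R)^1 + (163801275508/631964025) * (B - 3/20)^3 * (R - 31/10)^3 := by ring
    rw [e]
    positivity

theorem nb_1 : Nb (4) (25) (599/25) (26/25) (379/500) (44/125) (44/25) (73/1000) 55 59 62 62 66 68 74 81 93 96 where
  hXm0 := by norm_num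
  hXm := by norm_num
  hκ11 := by norm_num
  hβ1 := by norm_num
  hc := by norm_num
  hc0 := by norm_num
  hγ0 := by norm_num
  hR1 := by norm_num
  n1 := by rw [max_eq_left (by norm_num : (1:ℝ) ≤ 26/25)]; norm_num
  n1c := by norm_num
  n2 := by rw [max_eq_left (by norm_num : (1:ℝ) ≤ 26/25)]; norm_num
  s := by constructor <;> constructor <;> norm_num
  hk8 := by norm_num
  hk9 := by norm_num
  n4 := by rw [max_eq_left (by norm_num : (1:ℝ) ≤ 26/25)]; norm_num [Vs, Vc, I0]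

theorem row_1 {M : ℕ} {a : ℝ} {ζ z : Fin (M + 1) → ℂ} (h : Fr (M + 1) a ζ z)
    (hM : 99 ≤ M) (hmax : ∀ k, ‖u a ζ k‖ ≤ ‖u a ζ 0‖) {c0 : ℝ} (hc1 : 1 ≤ c0)
    (hroot : (c0 - 1) * (c0 - kap a ζ) = pr a ζ) (hd : DS a ζ ≤ 7 / 2) {B R : ℝ}
    (hB : B = (1 - a) * ‖u a ζ 0‖) (hR : (M : ℝ) + 1 = R * ‖u a ζ 0‖)
    (hC : 10 ≤ a * ‖u a ζ 0‖) (b0 : 3/20 ≤ B) (b1 : B ≤ 1/2) (r0 : 31/10 ≤ R) (r1 : R ≤ 4) : False := by
  have ht0 : 0 < ‖u a ζ 0‖ := norm_pos_iff.2 (h.u_ne 0)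
  have hM99 : (99 : ℝ) ≤ M := by exact_mod_cast hM
  have ha1 := h.a1
  have ht : 100 / (4) ≤ ‖u a ζ 0‖ := by
    rw [div_le_iff₀ (by norm_num)]
    have := mul_le_mul_of_nonneg_right r1 ht0.le
    linarith
  have hb : 1 - a ≤ 1/50 := by
    have h1 : (1 - a) * (100 / (4)) ≤ 1/2 := by
      have := mul_le_mul_of_nonneg_left ht (by linarith : 0 ≤ 1 - a)
      linarith
    norm_num at h1 ⊢
    linarith
  have hρ : (1 - a) ^ 2 ≤ 3 - (299/100) := by
    have := pow_le_pow_left₀ (by linarith : 0 ≤ 1 - a) hb 2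
    norm_num at this ⊢
    linarith
  obtain ⟨g1, g2, g3⟩ := gb_1 b0 b1 r0 r1
  have hγ := Gam_ge_z h hM hmax hroot (z := 13/10) (ψ := 159/5000) (r := 471/500 + 1593/1000 * B) (ρ := 299/100) (γ := 73/1000)
    hB hR (by norm_num at ht ⊢; linarith) (by linarith) (by linarith) (by norm_num) (by norm_num)
    psi_13 (by linarith) (by nlinarith) (by nlinarith [mul_nonneg (sub_nonneg.2 b0) (sub_nonneg.2 b1)]) hρ (by norm_num) g1 g2 g3
  refine row_fin h hM hmax hc1 hroot hd (B1 := 1/2) (R0 := 31/10) ?_ ?_ (by norm_num) hC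
    (by rw [← hB]; exact b1) hγ (by norm_num) (by norm_num) (by norm_num) (by norm_num) nb_1
  · rw [hR]; exact mul_le_mul_of_nonneg_right r0 ht0.le
  · rw [hR]; exact mul_le_mul_of_nonneg_right r1 ht0.le

theorem gb_2 {B R : ℝ} (b0 : 1/2 ≤ B) (b1 : B ≤ 3/2) (r0 : 31/10 ≤ R) (r1 : R ≤ 4) :
    0 ≤ 3 + (149/50) * (B * R) - 3 * (793/1000 + 189/100 * B) ∧
    0 ≤ 2 * (3 + (149/50) * (B * R) - 3 * (793/1000 + 189/100 * B)) - 1 / 2 * (159/5000) * ((R - 193 / 100) / (193 / 100)) * (5 + (149/50) * (B * R) + (793/1000 + 189/100 * B)) ∧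
    0 ≤ (13/10) * (2 * (3 + (149/50) * (B * R) - 3 * (793/1000 + 189/100 * B)) - 1 / 2 * (159/5000) * ((R - 193 / 100) / (193 / 100)) * (5 + (149/50) * (B * R) + (793/1000 + 189/100 * B))) * R + 2 * B * (5 + (149/50) * (B * R) + (793/1000 + 189/100 * B)) * ((B + 1 / 2 - (12/125)) * R - 200 / 99 * (R - 1)) := by
  have hu : 0 ≤ B - 1/2 := by linarith
  have hv : 0 ≤ 3/2 - B := by linarith
  have hp : 0 ≤ R - 31/10 := by linarith
  have hq : 0 ≤ 4 - R := by linarith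
  refine ⟨?_, ?_, ?_⟩
  · have e : 3 + (149/50) * (B * R) - 3 * (793/1000 + 189/100 * B) =
        (481/180) * (3/2 - B)^1 * (4 - R)^1 + (1873/450) * (3/2 - B)^1 * (R - 31/10)^1 + (1991/300) * (B - 1/2)^1 * (4 - R)^1 + (833/75) * (B - 1/2)^1 * (R - 31/10)^1 := by ring
    rw [e]
    positivity
  · have e : 2 * (3 + (149/50) * (B * R) - 3 * (793/1000 + 189/100 * B)) - 1 / 2 * (159/5000) * ((R - 193 / 100) / (193 / 100)) * (5 + (149/50) * (B * R) + (793/1000 + 189/100 * B)) =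
        (9072025729/1563300000) * (3/2 - B)^1 * (4 - R)^2 + (4626569233/312660000) * (3/2 - B)^1 * (R - 31/10)^1 * (4 - R)^1 + (7020815363/781650000) * (3/2 - B)^1 * (R - 31/10)^2 + (1509166103/104220000) * (B - 1/2)^1 * (4 - R)^2 + (20135720957/521100000) * (B - 1/2)^1 * (R - 31/10)^1 * (4 - R)^1 + (3142675183/130275000) * (B - 1/2)^1 * (R - 31/10)^2 := by ring
    rw [e]
    positivity
  · have e : (13/10) * (2 * (3 + (149/50) * (B * R) - 3 * (793/1000 + 189/100 * B)) - 1 / 2 * (159/5000) * ((R - 193 / 100) / (193 / 100)) * (5 + (149/50) * (B * R) + (793/1000 + 189/100 * B))) * R + 2 * B * (5 + (149/50) * (B * R) + (793/1000 + 189/100 * B)) * ((B + 1 / 2 - (12/125)) * R - 200 / 99 * (R - 1)) =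
        (16487981129171/4643001000000) * (3/2 - B)^3 * (4 - R)^3 + (878318217253/61906680000) * (3/2 - B)^3 * (R - 31/10)^1 * (4 - R)^2 + (5150575560293/257944500000) * (3/2 - B)^3 * (R - 31/10)^2 * (4 - R)^1 + (540629793127/58037512500) * (3/2 - B)^3 * (R - 31/10)^3 + (143720155249697/4643001000000) * (B - 1/2)^1 * (3/2 - B)^2 * (4 - R)^3 + (164505380244793/1547667000000) * (B - 1/2)^1 * (3/2 - B)^2 * (R - 31/10)^1 * (4 - R)^2 + (8321828197721/64486125000) * (B - 1/2)^1 * (3/2 - B)^2 * (R - 31/10)^2 * (4 - R)^1 + (778141210624/14509378125) * (B - 1/2)^1 * (3/2 - B)^2 * (R - 31/10)^3 + (234009402141827/1547667000000) * (B - 1/2)^2 * (3/2 - B)^1 * (4 - R)^3 + (254429363932937/515889000000) * (B - 1/2)^2 * (3/2 - B)^1 * (R - 31/10)^1 * (4 - R)^2 + (140299499232889/257944500000) * (B - 1/2)^2 * (3/2 - B)^1 * (R - 31/10)^2 * (4 - R)^1 + (3904317820537/19345837500) * (B - 1/2)^2 * (3/2 - B)^1 *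 (R - 31/10)^3 + (7512713116333/34392600000) * (B - 1/2)^3 * (4 - R)^3 + (126443059753927/171963000000) * (B - 1/2)^3 * (R - 31/10)^1 * (4 - R)^2 + (35508307500383/42990750000) * (B - 1/2)^3 * (R - 31/10)^2 * (4 - R)^1 + (110719798841/358256250) * (B - 1/2)^3 * (R - 31/10)^3 := by ring
    rw [e]
    positivity

theorem nb_2 : Nb (4) (25) (574/25) (51/25) (379/500) (44/125) (89/50) (12/125) 53 57 60 59 64 65 71 78 89 96 where
  hXm0 := by norm_num
  hXm := by norm_num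
  hκ11 := by norm_num
  hβ1 := by norm_num
  hc := by norm_num
  hc0 := by norm_num
  hγ0 := by norm_num
  hR1 := by norm_num
  n1 := by rw [max_eq_left (by norm_num : (1:ℝ) ≤ 51/25)]; norm_num
  n1c := by norm_num
  n2 := by rw [max_eq_left (by norm_num : (1:ℝ) ≤ 51/25)]; norm_num
  s := by constructor <;> constructor <;> norm_num
  hk8 := by norm_num
  hk9 := by norm_num
  n4 := by rw [max_eq_left (by norm_num : (1:ℝ) ≤ 51/25)]; norm_num [Vs, Vc, I0]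

theorem row_2 {M : ℕ} {a : ℝ} {ζ z : Fin (M + 1) → ℂ} (h : Fr (M + 1) a ζ z)
    (hM : 99 ≤ M) (hmax : ∀ k, ‖u a ζ k‖ ≤ ‖u a ζ 0‖) {c0 : ℝ} (hc1 : 1 ≤ c0)
    (hroot : (c0 - 1) * (c0 - kap a ζ) = pr a ζ) (hd : DS a ζ ≤ 7 / 2) {B R : ℝ}
    (hB : B = (1 - a) * ‖u a ζ 0‖) (hR : (M : ℝ) + 1 = R * ‖u a ζ 0‖)
    (hC : 10 ≤ a * ‖u a ζ 0‖) (b0 : 1/2 ≤ B) (b1 : B ≤ 3/2) (r0 : 31/10 ≤ R) (r1 : R ≤ 4) : False := by
  have ht0 : 0 < ‖u a ζ 0‖ := norm_pos_iff.2 (h.u_ne 0)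
  have hM99 : (99 : ℝ) ≤ M := by exact_mod_cast hM
  have ha1 := h.a1
  have ht : 100 / (4) ≤ ‖u a ζ 0‖ := by
    rw [div_le_iff₀ (by norm_num)]
    have := mul_le_mul_of_nonneg_right r1 ht0.le
    linarith
  have hb : 1 - a ≤ 3/50 := by
    have h1 : (1 - a) * (100 / (4)) ≤ 3/2 := by
      have := mul_le_mul_of_nonneg_left ht (by linarith : 0 ≤ 1 - a)
      linarith
    norm_num at h1 ⊢
    linarith
  have hρ : (1 - a) ^ 2 ≤ 3 - (149/50) := by
    have := pow_le_pow_left₀ (by linarith : 0 ≤ 1 - a) hb 2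
    norm_num at this ⊢
    linarith
  obtain ⟨g1, g2, g3⟩ := gb_2 b0 b1 r0 r1
  have hγ := Gam_ge_z h hM hmax hroot (z := 13/10) (ψ := 159/5000) (r := 793/1000 + 189/100 * B) (ρ := 149/50) (γ := 12/125)
    hB hR (by norm_num at ht ⊢; linarith) (by linarith) (by linarith) (by norm_num) (by norm_num)
    psi_13 (by linarith) (by nlinarith) (by nlinarith [mul_nonneg (sub_nonneg.2 b0) (sub_nonneg.2 b1)]) hρ (by norm_num) g1 g2 g3
  refine row_fin h hM hmax hc1 hroot hd (B1 := 3/2) (R0 := 31/10) ?_ ?_ (by norm_num) hC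
    (by rw [← hB]; exact b1) hγ (by norm_num) (by norm_num) (by norm_num) (by norm_num) nb_2
  · rw [hR]; exact mul_le_mul_of_nonneg_right r0 ht0.le
  · rw [hR]; exact mul_le_mul_of_nonneg_right r1 ht0.le

theorem gb_3 {B R : ℝ} (b0 : 3/2 ≤ B) (b1 : B ≤ 7/2) (r0 : 31/10 ≤ R) (r1 : R ≤ 4) :
    0 ≤ 3 + (147/50) * (B * R) - 3 * (643/1000 + 199/100 * B) ∧
    0 ≤ 2 * (3 + (147/50) * (B * R) - 3 * (643/1000 + 199/100 * B)) - 1 / 2 * (159/5000) * ((R - 193 / 100) / (193 / 100)) * (5 + (147/50) * (B * R) + (643/1000 + 199/100 * B)) ∧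
    0 ≤ (13/10) * (2 * (3 + (147/50) * (B * R) - 3 * (643/1000 + 199/100 * B)) - 1 / 2 * (159/5000) * ((R - 193 / 100) / (193 / 100)) * (5 + (147/50) * (B * R) + (643/1000 + 199/100 * B))) * R + 2 * B * (5 + (147/50) * (B * R) + (643/1000 + 199/100 * B)) * ((B + 1 / 2 - (83/200)) * R - 200 / 99 * (R - 1)) := by
  have hu : 0 ≤ B - 3/2 := by linarith
  have hv : 0 ≤ 7/2 - B := by linarith
  have hp : 0 ≤ R - 31/10 := by linarith
  have hq : 0 ≤ 4 - R := by linarith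
  refine ⟨?_, ?_, ?_⟩
  · have e : 3 + (147/50) * (B * R) - 3 * (643/1000 + 199/100 * B) =
        (643/200) * (7/2 - B)^1 * (4 - R)^1 + (271/50) * (7/2 - B)^1 * (R - 31/10)^1 + (161/24) * (B - 3/2)^1 * (4 - R)^1 + (889/75) * (B - 3/2)^1 * (R - 31/10)^1 := by ring
    rw [e]
    positivity
  · have e : 2 * (3 + (147/50) * (B * R) - 3 * (643/1000 + 199/100 * B)) - 1 / 2 * (159/5000) * ((R - 193 / 100) / (193 / 100)) * (5 + (147/50) * (B * R) + (643/1000 + 199/100 * B)) =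
        (2435887967/347400000) * (7/2 - B)^1 * (4 - R)^2 + (6530376601/347400000) * (7/2 - B)^1 * (R - 31/10)^1 * (4 - R)^1 + (1022044481/86850000) * (7/2 - B)^1 * (R - 31/10)^2 + (15260512093/1042200000) * (B - 3/2)^1 * (4 - R)^2 + (8433423667/208440000) * (B - 3/2)^1 * (R - 31/10)^1 * (4 - R)^1 + (3357803909/130275000) * (B - 3/2)^1 * (R - 31/10)^2 := by ring
    rw [e]
    positivity
  · have e : (13/10) * (2 * (3 + (147/50) * (B * R) - 3 * (643/1000 + 199/100 * B)) - 1 / 2 * (159/5000) * ((R - 193 / 100) / (193 / 100)) * (5 + (147/50) * (B * R) + (643/1000 + 199/100 * B))) * R + 2 * B * (5 + (147/50) * (B * R) + (643/1000 + 199/100 * B)) * ((B + 1 / 2 - (83/200)) * R - 200 / 99 * (R - 1)) =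
        (64164121862633/4127112000000) * (7/2 - B)^3 * (4 - R)^3 + (70355715837973/1375704000000) * (7/2 - B)^3 * (R - 31/10)^1 * (4 - R)^2 + (6462818784401/114642000000) * (7/2 - B)^3 * (R - 31/10)^2 * (4 - R)^1 + (48712548259/2344950000) * (7/2 - B)^3 * (R - 31/10)^3 + (357155254035821/2476267200000) * (B - 3/2)^1 * (7/2 - B)^2 * (4 - R)^3 + (1990649840634353/4127112000000) * (B - 3/2)^1 * (7/2 - B)^2 * (R - 31/10)^1 * (4 - R)^2 + (92475871996577/171963000000) * (B - 3/2)^1 * (7/2 - B)^2 * (R - 31/10)^2 * (4 - R)^1 + (87776021966/439678125) * (B - 3/2)^1 * (7/2 - B)^2 * (R - 31/10)^3 + (15514890534591539/37144008000000) * (B - 3/2)^2 * (7/2 - B)^1 * (4 - R)^3 + (17546638856556847/12381336000000) * (B - 3/2)^2 * (7/2 - B)^1 * (R - 31/10)^1 * (4 - R)^2 + (1649860950150097/1031778000000) * (B - 3/2)^2 * (7/2 - B)^1 * (R - 31/10)^2 * (4 - R)^1 + (12652684955743/21104550000) * (B - 3/2)^2 * (7/2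 - B)^1 * (R - 31/10)^3 + (14242819070417921/37144008000000) * (B - 3/2)^3 * (4 - R)^3 + (3266751909679109/2476267200000) * (B - 3/2)^3 * (R - 31/10)^1 * (4 - R)^2 + (129603484269187/85981500000) * (B - 3/2)^3 * (R - 31/10)^2 * (4 - R)^1 + (6031174417853/10552275000) * (B - 3/2)^3 * (R - 31/10)^3 := by ring
    rw [e]
    positivity

theorem nb_3 : Nb (4) (25) (524/25) (101/25) (379/500) (44/125) (183/100) (83/200) 48 51 54 54 58 60 65 71 82 96 where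
  hXm0 := by norm_num
  hXm := by norm_num
  hκ11 := by norm_num
  hβ1 := by norm_num
  hc := by norm_num
  hc0 := by norm_num
  hγ0 := by norm_num
  hR1 := by norm_num
  n1 := by rw [max_eq_left (by norm_num : (1:ℝ) ≤ 101/25)]; norm_num
  n1c := by norm_num
  n2 := by rw [max_eq_left (by norm_num : (1:ℝ) ≤ 101/25)]; norm_num
  s := by constructor <;> constructor <;> norm_num
  hk8 := by norm_num
  hk9 := by norm_num
  n4 := by rw [max_eq_left (by norm_num : (1:ℝ) ≤ 101/25)]; norm_num [Vs, Vc, I0]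

theorem row_3 {M : ℕ} {a : ℝ} {ζ z : Fin (M + 1) → ℂ} (h : Fr (M + 1) a ζ z)
    (hM : 99 ≤ M) (hmax : ∀ k, ‖u a ζ k‖ ≤ ‖u a ζ 0‖) {c0 : ℝ} (hc1 : 1 ≤ c0)
    (hroot : (c0 - 1) * (c0 - kap a ζ) = pr a ζ) (hd : DS a ζ ≤ 7 / 2) {B R : ℝ}
    (hB : B = (1 - a) * ‖u a ζ 0‖) (hR : (M : ℝ) + 1 = R * ‖u a ζ 0‖)
    (hC : 10 ≤ a * ‖u a ζ 0‖) (b0 : 3/2 ≤ B) (b1 : B ≤ 7/2) (r0 : 31/10 ≤ R) (r1 : R ≤ 4) : False := by
  have ht0 : 0 < ‖u a ζ 0‖ := norm_pos_iff.2 (h.u_ne 0)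
  have hM99 : (99 : ℝ) ≤ M := by exact_mod_cast hM
  have ha1 := h.a1
  have ht : 100 / (4) ≤ ‖u a ζ 0‖ := by
    rw [div_le_iff₀ (by norm_num)]
    have := mul_le_mul_of_nonneg_right r1 ht0.le
    linarith
  have hb : 1 - a ≤ 7/50 := by
    have h1 : (1 - a) * (100 / (4)) ≤ 7/2 := by
      have := mul_le_mul_of_nonneg_left ht (by linarith : 0 ≤ 1 - a)
      linarith
    norm_num at h1 ⊢
    linarith
  have hρ : (1 - a) ^ 2 ≤ 3 - (147/50) := by
    have := pow_le_pow_left₀ (by linarith : 0 ≤ 1 - a) hb 2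
    norm_num at this ⊢
    linarith
  obtain ⟨g1, g2, g3⟩ := gb_3 b0 b1 r0 r1
  have hγ := Gam_ge_z h hM hmax hroot (z := 13/10) (ψ := 159/5000) (r := 643/1000 + 199/100 * B) (ρ := 147/50) (γ := 83/200)
    hB hR (by norm_num at ht ⊢; linarith) (by linarith) (by linarith) (by norm_num) (by norm_num)
    psi_13 (by linarith) (by nlinarith) (by nlinarith [mul_nonneg (sub_nonneg.2 b0) (sub_nonneg.2 b1)]) hρ (by norm_num) g1 g2 g3
  refine row_fin h hM hmax hc1 hroot hd (B1 := 7/2) (R0 := 31/10) ?_ ?_ (by norm_num) hC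
    (by rw [← hB]; exact b1) hγ (by norm_num) (by norm_num) (by norm_num) (by norm_num) nb_3
  · rw [hR]; exact mul_le_mul_of_nonneg_right r0 ht0.le
  · rw [hR]; exact mul_le_mul_of_nonneg_right r1 ht0.le

theorem gb_4 {B R : ℝ} (b0 : 0 ≤ B) (b1 : B ≤ 3/20) (r0 : 4 ≤ R) (r1 : R ≤ 5) :
    0 ≤ 3 + (299/100) * (B * R) - 3 * (1 + 6/5 * B) ∧
    0 ≤ 2 * (3 + (299/100) * (B * R) - 3 * (1 + 6/5 * B)) - 1 / 2 * (0) * ((R - 193 / 100) / (193 / 100)) * (5 + (299/100) * (B * R) + (1 + 6/5 * B)) ∧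
    0 ≤ (1) * (2 * (3 + (299/100) * (B * R) - 3 * (1 + 6/5 * B)) - 1 / 2 * (0) * ((R - 193 / 100) / (193 / 100)) * (5 + (299/100) * (B * R) + (1 + 6/5 * B))) * R + 2 * B * (5 + (299/100) * (B * R) + (1 + 6/5 * B)) * ((B + 1 / 2 - (113/1000)) * R - 200 / 99 * (R - 1)) := by
  have hu : 0 ≤ B - 0 := by linarith
  have hv : 0 ≤ 3/20 - B := by linarith
  have hp : 0 ≤ R - 4 := by linarith
  have hq : 0 ≤ 5 - R := by linarith
  have hB : 0 ≤ B := b0
  refine ⟨?_, ?_, ?_⟩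
  · have e : 3 + (299/100) * (B * R) - 3 * (1 + 6/5 * B) =
        B * ((209/25) * (5 - R)^1 + (227/20) * (R - 4)^1) := by ring
    rw [e]
    positivity
  · have e : 2 * (3 + (299/100) * (B * R) - 3 * (1 + 6/5 * B)) - 1 / 2 * (0) * ((R - 193 / 100) / (193 / 100)) * (5 + (299/100) * (B * R) + (1 + 6/5 * B)) =
        B * ((418/25) * (5 - R)^1 + (227/10) * (R - 4)^1) := by ring
    rw [e]
    positivity
  · have e : (1) * (2 * (3 + (299/100) * (B * R) - 3 * (1 + 6/5 * B)) - 1 / 2 * (0) * ((R - 193 / 100) / (193 / 100)) * (5 + (299/100) * (B * R) + (1 + 6/5 * B))) * R + 2 * B * (5 + (299/100) * (B * R) + (1 + 6/5 * B)) * ((B + 1 / 2 - (113/1000)) * R - 200 / 99 * (R - 1)) =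
        B * ((93344/165) * (3/20 - B)^2 * (5 - R)^2 + (3068936/1485) * (3/20 - B)^2 * (R - 4)^1 * (5 - R)^1 + (524704/297) * (3/20 - B)^2 * (R - 4)^2 + (40814636/61875) * (B - 0)^1 * (3/20 - B)^1 * (5 - R)^2 + (104066876/37125) * (B - 0)^1 * (3/20 - B)^1 * (R - 4)^1 * (5 - R)^1 + (25838633/9900) * (B - 0)^1 * (3/20 - B)^1 * (R - 4)^2 + (12324836/61875) * (B - 0)^2 * (5 - R)^2 + (4113964/4125) * (B - 0)^2 * (R - 4)^1 * (5 - R)^1 + (29842049/29700) * (B - 0)^2 * (R - 4)^2) := by ring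
    rw [e]
    positivity

theorem nb_4 : Nb (5) (20) (1931/100) (69/100) (809/1000) (139/500) (199/100) (113/1000) 42 46 49 49 53 55 60 66 76 76 where
  hXm0 := by norm_num
  hXm := by norm_num
  hκ11 := by norm_num
  hβ1 := by norm_num
  hc := by norm_num
  hc0 := by norm_num
  hγ0 := by norm_num
  hR1 := by norm_num
  n1 := by rw [max_eq_right (by norm_num : (69/100:ℝ) ≤ 1)]; norm_num
  n1c := by norm_num
  n2 := by rw [max_eq_right (by norm_num : (69/100:ℝ) ≤ 1)]; norm_num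
  s := by constructor <;> constructor <;> norm_num
  hk8 := by norm_num
  hk9 := by norm_num
  n4 := by rw [max_eq_right (by norm_num : (69/100:ℝ) ≤ 1)]; norm_num [Vs, Vc, I0]

theorem row_4 {M : ℕ} {a : ℝ} {ζ z : Fin (M + 1) → ℂ} (h : Fr (M + 1) a ζ z)
    (hM : 99 ≤ M) (hmax : ∀ k, ‖u a ζ k‖ ≤ ‖u a ζ 0‖) {c0 : ℝ} (hc1 : 1 ≤ c0)
    (hroot : (c0 - 1) * (c0 - kap a ζ) = pr a ζ) (hd : DS a ζ ≤ 7 / 2) {B R : ℝ}
    (hB : B = (1 - a) * ‖u a ζ 0‖) (hR : (M : ℝ) + 1 = R * ‖u a ζ 0‖)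
    (hC : 10 ≤ a * ‖u a ζ 0‖) (b0 : 0 ≤ B) (b1 : B ≤ 3/20) (r0 : 4 ≤ R) (r1 : R ≤ 5) : False := by
  have ht0 : 0 < ‖u a ζ 0‖ := norm_pos_iff.2 (h.u_ne 0)
  have hM99 : (99 : ℝ) ≤ M := by exact_mod_cast hM
  have ha1 := h.a1
  have ht : 100 / (5) ≤ ‖u a ζ 0‖ := by
    rw [div_le_iff₀ (by norm_num)]
    have := mul_le_mul_of_nonneg_right r1 ht0.le
    linarith
  have hb : 1 - a ≤ 3/400 := by
    have h1 : (1 - a) * (100 / (5)) ≤ 3/20 := by
      have := mul_le_mul_of_nonneg_left ht (by linarith : 0 ≤ 1 - a)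
      linarith
    norm_num at h1 ⊢
    linarith
  have hρ : (1 - a) ^ 2 ≤ 3 - (299/100) := by
    have := pow_le_pow_left₀ (by linarith : 0 ≤ 1 - a) hb 2
    norm_num at this ⊢
    linarith
  obtain ⟨g1, g2, g3⟩ := gb_4 b0 b1 r0 r1
  have hγ := Gam_ge_z h hM hmax hroot (z := 1) (ψ := 0) (r := 1 + 6/5 * B) (ρ := 299/100) (γ := 113/1000)
    hB hR (by norm_num at ht ⊢; linarith) (by linarith) (by linarith) (by norm_num) (by norm_num)
    psi_1' (by linarith) (by nlinarith) (by nlinarith [mul_nonneg (sub_nonneg.2 b0) (sub_nonneg.2 b1)]) hρ (by norm_num) g1 g2 g3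
  refine row_fin h hM hmax hc1 hroot hd (B1 := 3/20) (R0 := 4) ?_ ?_ (by norm_num) hC
    (by rw [← hB]; exact b1) hγ (by norm_num) (by norm_num) (by norm_num) (by norm_num) nb_4
  · rw [hR]; exact mul_le_mul_of_nonneg_right r0 ht0.le
  · rw [hR]; exact mul_le_mul_of_nonneg_right r1 ht0.le

end Pool.Agent.Lib.MP_172a45_an.L
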