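import Pool.Agent.Lib.MP_172a45_an.L.Dir
import Pool.Agent.Lib.MP_172a45_an.L.Chain
import Pool.Agent.Lib.MP_172a45_an.F.H69.Late

set_option autoImplicit false

/-!
# The budget criterion for large `t₀`

`q(s) ≥ (1 + s X)(1 + s W)(1 - s)^D` with `D = M a/(1+a) + D_S`, `W = D - m`; the loss near `0`
(`≤ κ' s₁/3`), the loss after the free interval (`(4/e) κ e^{-Z}`), the late loss.
-/

namespace Pool.Agent.Lib.MP_172a45_an.L

open Finset Real
open Pool.Agent.Lib.MP_172a45_an.F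
open Pool.Agent.Lib.MP_172a45_an.F.Fr

section PBounds

variable {M : ℕ} {a : ℝ} {ζ z : Fin (M + 1) → ℂ}

theorem msum_eq (hM : 0 < M) :
    (M : ℝ) * (1 - kap a ζ) = ∑ k : Fin M, (1 - ‖vt a ζ k‖) := by
  have hM0 : (0 : ℝ) < M := by exact_mod_cast hM
  rw [Finset.sum_sub_distrib]
  simp only [Finset.sum_const, Finset.card_univ, Fintype.card_fin, nsmul_eq_mul, mul_one]
  have : (M : ℝ) * kap a ζ = ∑ k : Fin M, ‖vt a ζ k‖ := by
    unfold kap; field_simp
  rw [← this]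
  ring

/-- `D = M a/(1+a) + D_S` -/
noncomputable def DD {M : ℕ} (a : ℝ) (ζ : Fin (M + 1) → ℂ) : ℝ := M * (a / (1 + a)) + DS a ζ

/-- `W = D - m` -/
noncomputable def WW {M : ℕ} (a : ℝ) (ζ : Fin (M + 1) → ℂ) : ℝ := DD a ζ - M * (1 - kap a ζ)

theorem t_ge_inv {N : ℕ} {a : ℝ} {ζ z : Fin N → ℂ} (h : Fr N a ζ z) (k : Fin N) :
    1 / (1 + a) ≤ ‖u a ζ k‖ := by
  have ha0 := h.a0
  have ha1 := h.a1
  have h1 := xt_ge h k
  rw [div_le_iff₀ (by linarith)]
  have h4 : (1 - a) * 1 ≤ (1 - a) * (‖u a ζ k‖ * (1 + a)) := by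
    calc (1 - a) * 1 ≤ (1 - a ^ 2) * ‖u a ζ k‖ := by rw [mul_one]; exact h1
      _ = _ := by ring
  exact le_of_mul_le_mul_left h4 (by linarith)

theorem dpos_le (h : Fr (M + 1) a ζ z) : ∑ k : Fin M, max (1 - ‖vt a ζ k‖) 0 ≤ DD a ζ := by
  have ha0 := h.a0
  have h1 : ∀ k : Fin M, max (1 - ‖vt a ζ k‖) 0 ≤ a / (1 + a) + (‖ut a ζ k‖ - ‖vt a ζ k‖) := by
    intro k
    have h2 := t_ge_inv h k.succ
    have h3 := h.gl k.succ
    have h4 : 0 ≤ a / (1 + a) := by positivity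
    have e : a / (1 + a) = 1 - 1 / (1 + a) := by
      have : (1 + a) ≠ 0 := by linarith
      field_simp
      ring
    refine max_le ?_ ?_
    · rw [e]
      have : (1 : ℝ) / (1 + a) ≤ ‖ut a ζ k‖ := h2
      linarith
    · have : ‖vt a ζ k‖ ≤ ‖ut a ζ k‖ := h3
      linarith
  have h2 := Finset.sum_le_sum fun k (_ : k ∈ (univ : Finset (Fin M))) => h1 k
  rw [Finset.sum_add_distrib] at h2
  simp only [Finset.sum_const, Finset.card_univ, Fintype.card_fin, nsmul_eq_mul] at h2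
  unfold DD DS
  exact h2

/-- lower bound of the product -/
theorem P_ge (h : Fr (M + 1) a ζ z) (hM : 0 < M) {s : ℝ} (hs0 : 0 ≤ s) (hs1 : s < 1) :
    (1 + s * WW a ζ) * (1 - s) ^ (DD a ζ) ≤ ∏ k : Fin M, TT ‖vt a ζ k‖ s := by
  have h1 := prod_seg_ge (univ : Finset (Fin M)) (fun k => ‖vt a ζ k‖)
    (fun k _ => norm_nonneg _) hs0 hs1
  set D' := ∑ k : Fin M, max (1 - ‖vt a ζ k‖) 0 with hD'
  set W' := ∑ k : Fin M, max (‖vt a ζ k‖ - 1) 0 with hW'
  have hW0 : 0 ≤ W' := Finset.sum_nonneg fun k _ => le_max_right _ _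
  have h2 : D' - W' = M * (1 - kap a ζ) := by
    rw [msum_eq hM, hD', hW', ← Finset.sum_sub_distrib]
    refine Finset.sum_congr rfl fun k _ => ?_
    rcases le_total ‖vt a ζ k‖ 1 with h | h
    · rw [max_eq_left (by linarith), max_eq_right (by linarith)]
      ring
    · rw [max_eq_right (by linarith), max_eq_left (by linarith)]
      ring
  have h3 : D' ≤ DD a ζ := dpos_le h
  have h4 : WW a ζ = W' + (DD a ζ - D') := by
    unfold WW
    linarith
  have hδ : 0 ≤ DD a ζ - D' := by linarith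
  have h5 : (1 - s) ^ (DD a ζ) = (1 - s) ^ D' * (1 - s) ^ (DD a ζ - D') := by
    rw [← Real.rpow_add (by linarith)]
    congr 1
    ring
  have h6 : (1 - s) ^ (DD a ζ - D') * (1 + s * (DD a ζ - D')) ≤ 1 := by
    have h7 : (1 - s) ^ (DD a ζ - D') ≤ Real.exp (-(s * (DD a ζ - D'))) := by
      have h8 : 1 - s ≤ Real.exp (-s) := by
        have := Real.add_one_le_exp (-s)
        linarith
      calc (1 - s) ^ (DD a ζ - D') ≤ (Real.exp (-s)) ^ (DD a ζ - D') :=
            Real.rpow_le_rpow (by linarith) h8 hδ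
        _ = _ := by
            rw [← Real.exp_mul]
            congr 1
            ring
    have h9 : 1 + s * (DD a ζ - D') ≤ Real.exp (s * (DD a ζ - D')) := by
      have := Real.add_one_le_exp (s * (DD a ζ - D'))
      linarith
    calc (1 - s) ^ (DD a ζ - D') * (1 + s * (DD a ζ - D')) ≤
          Real.exp (-(s * (DD a ζ - D'))) * Real.exp (s * (DD a ζ - D')) :=
          mul_le_mul h7 h9 (by positivity) (Real.exp_pos _).le
      _ = 1 := by rw [← Real.exp_add]; simp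
  have h10 : (1 + s * WW a ζ) * (1 - s) ^ (DD a ζ - D') ≤ 1 + s * W' := by
    have h11 : 0 ≤ (1 - s) ^ (DD a ζ - D') := Real.rpow_nonneg (by linarith) _
    have h12 : 1 + s * WW a ζ ≤ (1 + s * W') * (1 + s * (DD a ζ - D')) := by
      rw [h4]
      nlinarith [mul_nonneg (mul_nonneg hs0 hW0) (mul_nonneg hs0 hδ)]
    calc (1 + s * WW a ζ) * (1 - s) ^ (DD a ζ - D') ≤
          ((1 + s * W') * (1 + s * (DD a ζ - D'))) * (1 - s) ^ (DD a ζ - D') :=
          mul_le_mul_of_nonneg_right h12 h11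
      _ = (1 + s * W') * ((1 - s) ^ (DD a ζ - D') * (1 + s * (DD a ζ - D'))) := by ring
      _ ≤ (1 + s * W') * 1 := mul_le_mul_of_nonneg_left h6 (by positivity)
      _ = _ := mul_one _
  have h13 : 0 ≤ (1 - s) ^ D' := Real.rpow_nonneg (by linarith) _
  calc (1 + s * WW a ζ) * (1 - s) ^ (DD a ζ) =
        ((1 + s * WW a ζ) * (1 - s) ^ (DD a ζ - D')) * (1 - s) ^ D' := by rw [h5]; ring
    _ ≤ (1 + s * W') * (1 - s) ^ D' := mul_le_mul_of_nonneg_right h10 h13
    _ ≤ _ := h1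

theorem DD_nonneg (h : Fr (M + 1) a ζ z) : 0 ≤ DD a ζ := by
  have ha0 := h.a0
  have := DS_nonneg h
  unfold DD
  positivity

theorem WW_nonneg (h : Fr (M + 1) a ζ z) (hM : 0 < M) : 0 ≤ WW a ζ := by
  unfold WW
  rw [msum_eq hM]
  have h1 := dpos_le h
  have h2 : ∑ k : Fin M, (1 - ‖vt a ζ k‖) ≤ ∑ k : Fin M, max (1 - ‖vt a ζ k‖) 0 :=
    Finset.sum_le_sum fun k _ => le_max_left _ _
  linarith

theorem int_s2_rpow {D : ℝ} (hD : 0 ≤ D) :
    ∫ s in (0:ℝ)..1, s * (s * (1 - s) ^ D) = 2 / ((D + 1) * (D + 2) * (D + 3)) := by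
  have e1 : ∀ s ∈ Set.uIcc (0:ℝ) 1, s * (s * (1 - s) ^ D) =
      s * (1 - s) ^ D - s * (1 - s) ^ (D + 1) := by
    intro s hs
    rw [Set.uIcc_of_le zero_le_one] at hs
    rcases eq_or_lt_of_le hs.2 with h | h
    · subst h
      rw [sub_self]
      rcases eq_or_lt_of_le hD with h0 | h0
      · rw [← h0]
        norm_num
      · rw [Real.zero_rpow h0.ne', Real.zero_rpow (by linarith)]
        ring
    · rw [Real.rpow_add (by linarith), Real.rpow_one]
      ring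
  rw [intervalIntegral.integral_congr e1, intervalIntegral.integral_sub, int_s_rpow hD,
    int_s_rpow (by linarith)]
  · field_simp
    ring
  · exact (Continuous.mul continuous_id
      (Continuous.rpow_const (by fun_prop) fun _ => Or.inr hD)).intervalIntegrable _ _
  · exact (Continuous.mul continuous_id
      (Continuous.rpow_const (by fun_prop) fun _ => Or.inr (by linarith))).intervalIntegrable _ _

/-- the lower bound of `∫ q` -/
noncomputable def I0 (X W D : ℝ) : ℝ :=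
  1 / (D + 1) + (X + W) / ((D + 1) * (D + 2)) + 2 * (X * W) / ((D + 1) * (D + 2) * (D + 3))

theorem int_I0 {X W D : ℝ} (hD : 0 ≤ D) :
    ∫ s in (0:ℝ)..1, (1 + s * X) * ((1 + s * W) * (1 - s) ^ D) = I0 X W D := by
  have hc : Continuous fun s : ℝ => (1 - s) ^ D :=
    Continuous.rpow_const (by fun_prop) fun _ => Or.inr hD
  have e1 : ∀ s : ℝ, (1 + s * X) * ((1 + s * W) * (1 - s) ^ D) =
      (1 - s) ^ D + ((X + W) * (s * (1 - s) ^ D) + (X * W) * (s * (s * (1 - s) ^ D))) := by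
    intro s; ring
  simp only [e1]
  rw [intervalIntegral.integral_add, intervalIntegral.integral_add,
    intervalIntegral.integral_const_mul, intervalIntegral.integral_const_mul, int_rpow hD,
    int_s_rpow hD, int_s2_rpow hD]
  · unfold I0
    ring
  · exact (continuous_const.mul (continuous_id.mul hc)).intervalIntegrable _ _
  · exact (continuous_const.mul (continuous_id.mul (continuous_id.mul hc))).intervalIntegrable _ _
  · exact hc.intervalIntegrable _ _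
  · exact ((continuous_const.mul (continuous_id.mul hc)).add
      (continuous_const.mul (continuous_id.mul (continuous_id.mul hc)))).intervalIntegrable _ _

theorem q_cont (c0 : ℝ) (a : ℝ) (ζ : Fin (M + 1) → ℂ) :
    Continuous fun s : ℝ => TT c0 s * ∏ k : Fin M, TT ‖vt a ζ k‖ s :=
  (TT_cont c0).mul (continuous_finsetProd _ fun _ _ => TT_cont _)

/-- `∫ q ≥ I₀` -/
theorem int_q_ge (h : Fr (M + 1) a ζ z) (hM : 0 < M) {c0 : ℝ} (hc1 : 1 ≤ c0) :
    I0 (c0 - 1) (WW a ζ) (DD a ζ) ≤ ∫ s in (0:ℝ)..1, TT c0 s * ∏ k : Fin M, TT ‖vt a ζ k‖ s := by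
  have hD := DD_nonneg h
  rw [← int_I0 hD]
  have hc : Continuous fun s : ℝ => (1 - s) ^ (DD a ζ) :=
    Continuous.rpow_const (by fun_prop) fun _ => Or.inr hD
  refine intervalIntegral.integral_mono_on_of_le_Ioo zero_le_one ?_
    ((q_cont c0 a ζ).intervalIntegrable _ _) ?_
  · exact (Continuous.mul (by fun_prop) (Continuous.mul (by fun_prop) hc)).intervalIntegrable _ _
  · intro s hs
    have h1 := P_ge h hM hs.1.le hs.2
    have e : TT c0 s = 1 + s * (c0 - 1) := by unfold TT; ring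
    rw [e]
    refine mul_le_mul_of_nonneg_left h1 ?_
    have := mul_nonneg hs.1.le (by linarith : 0 ≤ c0 - 1)
    linarith

theorem TT_le_exp {c s : ℝ} : TT c s ≤ Real.exp (-(s * (1 - c))) := by
  have h1 := Real.add_one_le_exp (-(s * (1 - c)))
  unfold TT
  linarith

theorem TT_nonneg {c s : ℝ} (hc : 0 ≤ c) (hs0 : 0 ≤ s) (hs1 : s ≤ 1) : 0 ≤ TT c s := by
  unfold TT
  have := mul_nonneg hs0 hc
  linarith

/-- `P(s) ≤ exp(-m s)` -/
theorem P_le_exp (hM : 0 < M) {s : ℝ} (hs0 : 0 ≤ s) (hs1 : s ≤ 1) :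
    ∏ k : Fin M, TT ‖vt a ζ k‖ s ≤ Real.exp (-(M * (1 - kap a ζ) * s)) := by
  have h1 : ∏ k : Fin M, TT ‖vt a ζ k‖ s ≤ ∏ k : Fin M, Real.exp (-(s * (1 - ‖vt a ζ k‖))) :=
    Finset.prod_le_prod (fun k _ => TT_nonneg (norm_nonneg _) hs0 hs1) fun k _ => TT_le_exp
  refine h1.trans (le_of_eq ?_)
  rw [← Real.exp_sum, Finset.sum_neg_distrib, ← Finset.mul_sum, ← msum_eq hM]
  congr 1
  ring

/-- `P(s) ≤ (1 + s τ) exp(-(m + τ) s)` when some `c_k = 1 + τ` -/
theorem P_le_tau (hM : 0 < M) {s τ : ℝ} (hs0 : 0 ≤ s) (hs1 : s ≤ 1)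
    (hτ : τ = 0 ∨ ∃ k : Fin M, ‖vt a ζ k‖ = 1 + τ) :
    ∏ k : Fin M, TT ‖vt a ζ k‖ s ≤
      (1 + s * τ) * Real.exp (-((M * (1 - kap a ζ) + τ) * s)) := by
  rcases hτ with h | ⟨k0, h⟩
  · subst h
    simpa using P_le_exp hM hs0 hs1
  · rw [← Finset.mul_prod_erase univ _ (Finset.mem_univ k0)]
    have h1 : ∏ k ∈ univ.erase k0, TT ‖vt a ζ k‖ s ≤
        ∏ k ∈ univ.erase k0, Real.exp (-(s * (1 - ‖vt a ζ k‖))) :=
      Finset.prod_le_prod (fun k _ => TT_nonneg (norm_nonneg _) hs0 hs1) fun k _ => TT_le_exp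
    rw [← Real.exp_sum, Finset.sum_neg_distrib, ← Finset.mul_sum] at h1
    have h2 : ∑ k ∈ univ.erase k0, (1 - ‖vt a ζ k‖) = M * (1 - kap a ζ) + τ := by
      have := Finset.add_sum_erase univ (fun k : Fin M => 1 - ‖vt a ζ k‖) (Finset.mem_univ k0)
      rw [← msum_eq hM, h] at this
      linarith
    rw [h2] at h1
    have h3 : TT ‖vt a ζ k0‖ s = 1 + s * τ := by
      rw [h]; unfold TT; ring
    rw [h3]
    have h4 : 0 ≤ 1 + s * τ := by
      rw [← h3]
      exact TT_nonneg (norm_nonneg _) hs0 hs1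
    refine mul_le_mul_of_nonneg_left (h1.trans (le_of_eq ?_)) h4
    congr 1
    ring

/-- there is an exact `τ` -/
theorem exists_tau (hM : 0 < M) (a : ℝ) (ζ : Fin (M + 1) → ℂ) :
    ∃ τ : ℝ, 0 ≤ τ ∧ (∀ k : Fin M, ‖vt a ζ k‖ ≤ 1 + τ) ∧
      (τ = 0 ∨ ∃ k : Fin M, ‖vt a ζ k‖ = 1 + τ) := by
  have : Nonempty (Fin M) := ⟨⟨0, hM⟩⟩
  obtain ⟨k0, -, hk0⟩ := Finset.exists_max_image (univ : Finset (Fin M))
    (fun k => ‖vt a ζ k‖) Finset.univ_nonempty
  rcases le_total ‖vt a ζ k0‖ 1 with h | h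
  · refine ⟨0, le_rfl, fun k => ?_, Or.inl rfl⟩
    have := hk0 k (Finset.mem_univ k)
    linarith
  · refine ⟨‖vt a ζ k0‖ - 1, by linarith, fun k => ?_, Or.inr ⟨k0, by ring⟩⟩
    have := hk0 k (Finset.mem_univ k)
    linarith

end PBounds

end Pool.Agent.Lib.MP_172a45_an.L
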